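import Pool.Agent.LibSt23.Defs

/-!
[ST23 A1] (SHORT/MEDIUM) The pulling tetrahedralization: `geo_tet` of LibTet23.UC with `S = ∅` (`Geo V ∅ p X Y` for any `X, Y`: all fields about `S` are empty): `TT (fc V) p ∅ X Y = Tp V p` (unfold `TT`, `Fp`, `Tp`; images of `∅` are empty). `tp_star`: a facet `F ∋ s` with `p ≠ s` not adjacent to `p`: `p ∉ F` (`aj_iff` / `fct_adj` of LibTet23.SB), so `insert p F ∈ Tp`. `insert p {s, x, y} = {p, s, x, y}`.
-/

set_option autoImplicit false

namespace Pool.Agent.LibSt23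

open Finset Pool.Agent.LibPol19 Pool.Agent.LibTet88 Pool.Agent.LibTet23
open scoped Classical

private theorem A1_mem {V : Finset (Ed 3)} {p : Ed 3} {t : Finset (Ed 3)} :
    t ∈ Tp V p ↔ ∃ F ∈ fc V, p ∉ F ∧ t = insert p F := by
  unfold Tp
  simp only [Finset.mem_image, Finset.mem_filter]
  constructor
  · rintro ⟨F, ⟨hF, hp⟩, rfl⟩
    exact ⟨F, hF, hp, rfl⟩
  · rintro ⟨F, hF, hp, rfl⟩
    exact ⟨F, ⟨hF, hp⟩, rfl⟩

theorem tp_tet {V : Finset (Ed 3)} (hS : SV V) {p : Ed 3} (hp : p ∈ V) : TetD V (Tp V p) := by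
  have hG : Geo V ∅ p (fun _ => ∅) (fun _ => ∅) :=
    { sv := hS
      pV := hp
      pS := Finset.notMem_empty p
      sub := Finset.empty_subset V
      ind := fun s hs => (Finset.notMem_empty s hs).elim
      np := fun s hs => (Finset.notMem_empty s hs).elim
      dc := fun s hs => (Finset.notMem_empty s hs).elim }
  have hT : TT (fc V) p ∅ (fun _ => ∅) (fun _ => ∅) = Tp V p := by
    ext t
    rw [tt_cases, A1_mem]
    constructor
    · rintro (⟨F, hF, rfl⟩ | ⟨s, hs, -⟩)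
      · unfold bt Fp at hF
        simp only [Finset.image_empty, Finset.union_empty, Finset.mem_filter] at hF
        exact ⟨F, hF.1, hF.2.1, rfl⟩
      · exact (Finset.notMem_empty s hs).elim
    · rintro ⟨F, hF, hpF, rfl⟩
      refine Or.inl ⟨F, ?_, rfl⟩
      unfold bt Fp
      simp only [Finset.image_empty, Finset.union_empty, Finset.mem_filter]
      exact ⟨hF, hpF, fun s hs => (Finset.notMem_empty s hs).elim⟩
  rw [← hT]
  exact geo_tet hG

theorem tp_star {V : Finset (Ed 3)} (hS : SV V) {p s x y : Ed 3} (ps : p ≠ s) (hn : ¬ Aj (fc V) p s)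
    (hF : ({s, x, y} : Finset (Ed 3)) ∈ fc V) : ({p, s, x, y} : Finset (Ed 3)) ∈ Tp V p := by
  refine A1_mem.2 ⟨{s, x, y}, hF, fun hp => ?_, rfl⟩
  exact hn (aj_of hF hp (Finset.mem_insert_self s _) ps)

end Pool.Agent.LibSt23
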