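import Pool.Agent.LibSt23.E2

/-!
[ST23 A2] (MEDIUM) Disjointness of the cones. Suppose `w` is in both open cones. With the vector `W := w - p`: `b_rel` (for `q.1, w, q.2`) writes `W` as `μ₁ (q.1 - p) + μ₂ (q.2 - p) + μ (s - p)` with `μ₁, μ₂ > 0` (`μ` any sign). So the point `z := p + (1/2) (s - p) + η W` for small `η > 0` is a combination of `p, s, q.1, q.2` with all four coefficients positive, and likewise of `p, s, r.1, r.2`. By `hT.inter` it is in `hl ({p, s, q.1, q.2} ∩ {p, s, r.1, r.2})`; the tetrahedra are different (`hne`), so some point of `{p, s, q.1, q.2}` is missing there, i.e. `z` has a second representation on `p, s, q.1, q.2` with a zero coefficient: contradiction to the affine independence (`hT.mem`; or use `hl_filter`-type lemmas with a functional vanishing on three of the points).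
-/

set_option autoImplicit false

namespace Pool.Agent.LibSt23

open Finset Pool.Agent.LibPol19 Pool.Agent.LibTet88 Pool.Agent.LibTet23
open scoped Classical

private theorem A2_comb (p s a b : Ed 3) {c0 c1 c2 c3 : ℝ} (h0 : 0 ≤ c0) (h1 : 0 ≤ c1) (h2 : 0 ≤ c2) (h3 : 0 ≤ c3)
    (h : c0 + c1 + c2 + c3 = 1) : c0 • p + c1 • s + c2 • a + c3 • b ∈ hl ({p, s, a, b} : Finset (Ed 3)) := by
  have h4 := (convex_convexHull ℝ (({p, s, a, b} : Finset (Ed 3)) : Set (Ed 3))).sum_mem (t := Finset.univ)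
    (w := ![c0, c1, c2, c3]) (z := ![p, s, a, b]) (fun i _ => by fin_cases i <;> assumption)
    (by rw [Fin.sum_univ_four]; exact h)
    (fun i _ => subset_convexHull ℝ _ (by fin_cases i <;> simp))
  rw [Fin.sum_univ_four] at h4
  exact h4

private theorem A2_mem {σ : ℝ} {p s a b w : Ed 3} (h0 : 0 < b2 σ p s a b) (h1 : 0 < b2 σ p s a w)
    (h2 : 0 < b2 σ p s w b) : ∃ K : ℝ, 0 ≤ K ∧ ∀ η : ℝ, 0 ≤ η → η * K ≤ 1 / 4 →
      p + (1 / 2 : ℝ) • (s - p) + η • (w - p) ∈ hl ({p, s, a, b} : Finset (Ed 3)) := by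
  have hrel := b_rel σ p s a w b
  generalize b2 σ p s a b = D at h0 hrel
  generalize b2 σ p s a w = m2 at h1 hrel
  generalize b2 σ p s w b = m1 at h2 hrel
  generalize b3 σ p a w b = m0 at hrel
  have hw : w - p = (m1 / D) • (a - p) + (m2 / D) • (b - p) + (-(m0 / D)) • (s - p) := by
    have e1 : D • (w - p) = m1 • (a - p) + m2 • (b - p) - m0 • (s - p) := by
      have e2 : D • (w - p) - (m1 • (a - p) + m2 • (b - p) - m0 • (s - p)) = 0 := by
        rw [← hrel]
        abel
      exact sub_eq_zero.1 e2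
    have e3 : w - p = D⁻¹ • (D • (w - p)) := by rw [smul_smul, inv_mul_cancel₀ h0.ne', one_smul]
    rw [e3, e1, smul_sub, smul_add, smul_smul, smul_smul, smul_smul, neg_smul, sub_eq_add_neg]
    simp only [div_eq_inv_mul]
  refine ⟨|m0| / D + m1 / D + m2 / D, by positivity, fun η hη hK => ?_⟩
  have g1 : 0 ≤ m1 / D := by positivity
  have g2 : 0 ≤ m2 / D := by positivity
  have g3 : |m0 / D| = |m0| / D := by rw [abs_div, abs_of_pos h0]
  have g4 : -(|m0| / D) ≤ m0 / D := by rw [← g3]; exact neg_abs_le _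
  have g5 : m0 / D ≤ |m0| / D := by rw [← g3]; exact le_abs_self _
  have g6 : 0 ≤ |m0| / D := by positivity
  generalize m1 / D = x1 at *
  generalize m2 / D = x2 at *
  generalize m0 / D = x0 at *
  generalize |m0| / D = y0 at *
  have k1 : 0 ≤ η * x1 := mul_nonneg hη g1
  have k2 : 0 ≤ η * x2 := mul_nonneg hη g2
  have k3 : η * x0 ≤ η * y0 := mul_le_mul_of_nonneg_left g5 hη
  have k4 : η * (-y0) ≤ η * x0 := mul_le_mul_of_nonneg_left g4 hη
  have k6 : 0 ≤ η * y0 := mul_nonneg hη g6
  have hK' : η * y0 + η * x1 + η * x2 ≤ 1 / 4 := by linarith [hK, mul_add η (y0 + x1) x2, mul_add η y0 x1]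
  have e : p + (1 / 2 : ℝ) • (s - p) + η • (w - p) =
      (1 / 2 + η * x0 - η * x1 - η * x2) • p + (1 / 2 - η * x0) • s + (η * x1) • a + (η * x2) • b := by
    rw [hw]
    module
  rw [e]
  exact A2_comb p s a b (by linarith) (by linarith) k1 k2 (by ring)

private noncomputable def A2_L (u v : Ed 3) : Ed 3 →ₗ[ℝ] ℝ where
  toFun := fun x => dt u x v
  map_add' := fun x y => by simp only [dt, PiLp.add_apply]; ring
  map_smul' := fun c x => by simp only [dt, PiLp.smul_apply, smul_eq_mul, RingHom.id_apply]; ring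

private theorem A2_zero {σ : ℝ} {p s v w : Ed 3} {A : Finset (Ed 3)} (hA : ∀ x ∈ A, x = p ∨ x = s ∨ x = v) {η : ℝ}
    (hz : p + (1 / 2 : ℝ) • (s - p) + η • (w - p) ∈ hl A) : η * b2 σ p s w v = 0 := by
  have hp : A2_L (s - p) (v - p) p = dt (s - p) p (v - p) := rfl
  have h1 : ∀ x ∈ A, A2_L (s - p) (v - p) x = A2_L (s - p) (v - p) p := by
    intro x hx
    have h2 : A2_L (s - p) (v - p) (x - p) = 0 := by
      change dt (s - p) (x - p) (v - p) = 0
      rcases hA x hx with h | h | h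
      · rw [h]
        simp only [dt, PiLp.sub_apply]
        ring
      · rw [h]
        simp only [dt, PiLp.sub_apply]
        ring
      · rw [h]
        simp only [dt, PiLp.sub_apply]
        ring
    rw [map_sub] at h2
    linarith
  have h3 := eq_of_hl (A2_L (s - p) (v - p)) h1 hz
  rw [map_add, map_add, map_smul, map_smul] at h3
  have h4 : A2_L (s - p) (v - p) (s - p) = 0 := by
    change dt (s - p) (s - p) (v - p) = 0
    simp only [dt, PiLp.sub_apply]
    ring
  have h5 : A2_L (s - p) (v - p) (w - p) = dt (s - p) (w - p) (v - p) := rfl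
  rw [h4, h5, smul_zero, smul_eq_mul] at h3
  unfold b2
  have h6 : η * dt (s - p) (w - p) (v - p) = 0 := by linarith
  calc η * (σ * dt (s - p) (w - p) (v - p)) = σ * (η * dt (s - p) (w - p) (v - p)) := by ring
    _ = 0 := by rw [h6, mul_zero]

theorem disj_of {V : Finset (Ed 3)} {T : Finset (Finset (Ed 3))} (hT : TetD V T) {σ : ℝ} {p s : Ed 3}
    {q r : Ed 3 × Ed 3} (hq : ({p, s, q.1, q.2} : Finset (Ed 3)) ∈ T) (hr : ({p, s, r.1, r.2} : Finset (Ed 3)) ∈ T)
    (hne : ({p, s, q.1, q.2} : Finset (Ed 3)) ≠ {p, s, r.1, r.2}) {w : Ed 3} (h0 : 0 < b2 σ p s q.1 q.2)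
    (h0' : 0 < b2 σ p s r.1 r.2) (h1 : 0 < b2 σ p s q.1 w) (h2 : 0 < b2 σ p s w q.2) (h3 : 0 < b2 σ p s r.1 w) :
    ¬ 0 < b2 σ p s w r.2 := by
  intro h4
  obtain ⟨K1, hK1, hz1⟩ := A2_mem h0 h1 h2
  obtain ⟨K2, hK2, hz2⟩ := A2_mem h0' h3 h4
  have hd : 0 < 4 * (K1 + K2 + 1) := by positivity
  have hη : 0 < 1 / (4 * (K1 + K2 + 1)) := by positivity
  have f1 : 1 / (4 * (K1 + K2 + 1)) * K1 ≤ 1 / 4 := by
    rw [div_mul_eq_mul_div, div_le_div_iff₀ hd (by norm_num)]
    linarith
  have f2 : 1 / (4 * (K1 + K2 + 1)) * K2 ≤ 1 / 4 := by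
    rw [div_mul_eq_mul_div, div_le_div_iff₀ hd (by norm_num)]
    linarith
  have g1 := hz1 _ hη.le f1
  have g2 := hz2 _ hη.le f2
  have g3 := hT.inter _ hq _ hr ⟨g1, g2⟩
  have hcase : q.1 ∉ ({p, s, r.1, r.2} : Finset (Ed 3)) ∨ q.2 ∉ ({p, s, r.1, r.2} : Finset (Ed 3)) := by
    by_contra hcon
    push Not at hcon
    apply hne
    refine Finset.eq_of_subset_of_card_le ?_ ?_
    · intro x hx
      simp only [Finset.mem_insert, Finset.mem_singleton] at hx
      rcases hx with h | h | h | h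
      · rw [h]; simp
      · rw [h]; simp
      · rw [h]; exact hcon.1
      · rw [h]; exact hcon.2
    · rw [(hT.mem _ hq).2.1, (hT.mem _ hr).2.1]
  rcases hcase with hc | hc
  · have h5 := A2_zero (σ := σ) (v := q.2) (fun x hx => by
      rw [Finset.mem_inter] at hx
      have h6 := hx.1
      simp only [Finset.mem_insert, Finset.mem_singleton] at h6
      rcases h6 with h | h | h | h
      · exact Or.inl h
      · exact Or.inr (Or.inl h)
      · exact absurd (h ▸ hx.2) hc
      · exact Or.inr (Or.inr h)) g3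
    exact absurd h5 (mul_pos hη h2).ne'
  · have h5 := A2_zero (σ := σ) (v := q.1) (fun x hx => by
      rw [Finset.mem_inter] at hx
      have h6 := hx.1
      simp only [Finset.mem_insert, Finset.mem_singleton] at h6
      rcases h6 with h | h | h | h
      · exact Or.inl h
      · exact Or.inr (Or.inl h)
      · exact Or.inr (Or.inr h)
      · exact absurd (h ▸ hx.2) hc) g3
    rw [b2_swap] at h5
    have h7 := mul_pos hη h1
    linarith

end Pool.Agent.LibSt23
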