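import Pool.Agent.LibSt23.E2

/-!
[ST23 A3] (MEDIUM) Consistent orientation. For two consecutive pairs `(x, y), (y, z)` of the cyclic list (`x ≠ z`, as the length is at least 3) the tetrahedra `{p, s, x, y}`, `{p, s, y, z}` lie on different sides of the plane `p s y`: otherwise `same_side` of LibTet23.C3 with `f = {p, s, y}` and the functional `m w := dt (s - p) (y - p) w` (linear in `w`; `k := m p`) gives `x = z`. So `b2 1 p s x y` and `b2 1 p s y z` have the same sign (both nonzero by `hG`, or by affine independence from `hT.mem`): `dt (s - p) (y - p) (x - p) = - dt (s - p) (x - p) (y - p)`. Hence all cyclic pairs have the same sign (induction along the list): `σ = 1` or `σ = -1`.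
-/

set_option autoImplicit false

namespace Pool.Agent.LibSt23

open Finset Pool.Agent.LibPol19 Pool.Agent.LibTet88 Pool.Agent.LibTet23
open scoped Classical

private theorem A3_mem {α : Type*} {l : List α} {q : α × α} : q ∈ prs l ↔
    ∃ (i j : ℕ) (hi : i < l.length) (hj : j < l.length), j = (i + 1) % l.length ∧ q = (l[i], l[j]) := by
  unfold prs
  rw [List.mem_iff_getElem]
  constructor
  · rintro ⟨i, hi, h⟩
    have hi' : i < l.length := by simpa using hi
    refine ⟨i, (i + 1) % l.length, hi', Nat.mod_lt _ (by omega), rfl, ?_⟩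
    rw [← h, List.getElem_zip, List.getElem_rotate]
  · rintro ⟨i, j, hi, hj, hij, rfl⟩
    subst hij
    refine ⟨i, by simpa using hi, ?_⟩
    rw [List.getElem_zip, List.getElem_rotate]

private noncomputable def A3_m (a b : Ed 3) : Ed 3 →ₗ[ℝ] ℝ where
  toFun w := dt a b w
  map_add' x y := by
    unfold dt
    simp only [PiLp.add_apply]
    ring
  map_smul' c x := by
    unfold dt
    simp only [PiLp.smul_apply, smul_eq_mul, RingHom.id_apply]
    ring

private theorem A3_apply (a b w : Ed 3) : A3_m a b w = dt a b w := rfl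

private theorem A3_sub (p s y w : Ed 3) :
    A3_m (s - p) (y - p) w = A3_m (s - p) (y - p) p + dt (s - p) (y - p) (w - p) := by
  rw [← A3_apply, ← map_add]
  congr 1
  abel

private theorem A3_step {V : Finset (Ed 3)} {T : Finset (Finset (Ed 3))} (hT : TetD V T) {p s x y z : Ed 3}
    (ps : p ≠ s) (px : p ≠ x) (py : p ≠ y) (pz : p ≠ z) (sx : s ≠ x) (sy : s ≠ y) (sz : s ≠ z)
    (xy : x ≠ y) (yz : y ≠ z) (xz : x ≠ z) (h1 : ({p, s, x, y} : Finset (Ed 3)) ∈ T)
    (h2 : ({p, s, y, z} : Finset (Ed 3)) ∈ T) (d1 : dt (s - p) (x - p) (y - p) ≠ 0)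
    (d2 : dt (s - p) (y - p) (z - p) ≠ 0) :
    0 < dt (s - p) (x - p) (y - p) ↔ 0 < dt (s - p) (y - p) (z - p) := by
  have hf : ({p, s, y} : Finset (Ed 3)).card = 3 := Finset.card_eq_three.2 ⟨p, s, y, ps, py, sy, rfl⟩
  have hx : insert x ({p, s, y} : Finset (Ed 3)) ∈ T := by
    have h3 : insert x ({p, s, y} : Finset (Ed 3)) = {p, s, x, y} := by
      rw [Finset.insert_comm x p, Finset.insert_comm x s]
    rw [h3]
    exact h1
  have hz : insert z ({p, s, y} : Finset (Ed 3)) ∈ T := by
    have h3 : insert z ({p, s, y} : Finset (Ed 3)) = {p, s, y, z} := by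
      rw [Finset.insert_comm z p, Finset.insert_comm z s, Finset.pair_comm z y]
    rw [h3]
    exact h2
  have xf : x ∉ ({p, s, y} : Finset (Ed 3)) := by
    simp only [Finset.mem_insert, Finset.mem_singleton, not_or]
    exact ⟨px.symm, sx.symm, xy⟩
  have zf : z ∉ ({p, s, y} : Finset (Ed 3)) := by
    simp only [Finset.mem_insert, Finset.mem_singleton, not_or]
    exact ⟨pz.symm, sz.symm, yz.symm⟩
  have hm : ∀ w ∈ ({p, s, y} : Finset (Ed 3)), A3_m (s - p) (y - p) w = A3_m (s - p) (y - p) p := by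
    intro w hw
    rw [Finset.mem_insert, Finset.mem_insert, Finset.mem_singleton] at hw
    rw [A3_sub]
    rcases hw with rfl | rfl | rfl
    · unfold dt
      simp only [PiLp.sub_apply]
      ring
    · unfold dt
      simp only [PiLp.sub_apply]
      ring
    · unfold dt
      simp only [PiLp.sub_apply]
      ring
  have e1 : dt (s - p) (y - p) (x - p) = - dt (s - p) (x - p) (y - p) := dt_s23 _ _ _
  have hmx := A3_sub p s y x
  have hmz := A3_sub p s y z
  rw [e1] at hmx
  constructor
  · intro hp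
    by_contra hn
    have hn' : dt (s - p) (y - p) (z - p) < 0 := lt_of_le_of_ne (not_lt.1 hn) d2
    exact xz (same_side hT hf hx hz xf zf hm (by linarith) (by linarith))
  · intro hp
    by_contra hn
    have hn' : dt (s - p) (x - p) (y - p) < 0 := lt_of_le_of_ne (not_lt.1 hn) d1
    refine xz (same_side (m := -A3_m (s - p) (y - p)) (k := -A3_m (s - p) (y - p) p) hT hf hx hz xf zf ?_ ?_ ?_)
    · intro w hw
      rw [LinearMap.neg_apply, hm w hw]
    · rw [LinearMap.neg_apply]
      linarith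
    · rw [LinearMap.neg_apply]
      linarith

theorem sign_of {V : Finset (Ed 3)} {T : Finset (Finset (Ed 3))} (hT : TetD V T) {p s : Ed 3} {l : List (Ed 3)}
    (hn : l.Nodup) (h3 : 3 ≤ l.length) (pn : p ∉ l) (sn : s ∉ l) (ps : p ≠ s)
    (hr : ∀ q ∈ prs l, ({p, s, q.1, q.2} : Finset (Ed 3)) ∈ T)
    (hG : ∀ x ∈ l, ∀ y ∈ l, x ≠ y → dt (s - p) (x - p) (y - p) ≠ 0) :
    ∃ σ : ℝ, (σ = 1 ∨ σ = -1) ∧ ∀ q ∈ prs l, 0 < b2 σ p s q.1 q.2 := by
  have hmod : ∀ i, (i + 1) % l.length < l.length := fun i => Nat.mod_lt _ (by omega)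
  have hne : ∀ (i j : ℕ) (hi : i < l.length) (hj : j < l.length), i ≠ j → l[i] ≠ l[j] := by
    intro i j hi hj hij h
    exact hij ((List.Nodup.getElem_inj_iff hn).1 h)
  have hpl : ∀ (i : ℕ) (hi : i < l.length), p ≠ l[i] := by
    intro i hi h
    exact pn (h ▸ List.getElem_mem hi)
  have hsl : ∀ (i : ℕ) (hi : i < l.length), s ≠ l[i] := by
    intro i hi h
    exact sn (h ▸ List.getElem_mem hi)
  have hneq : ∀ (i : ℕ), i < l.length → i ≠ (i + 1) % l.length := by
    intro i hi h
    rcases Nat.lt_or_ge (i + 1) l.length with h4 | h4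
    · rw [Nat.mod_eq_of_lt h4] at h
      omega
    · have h5 : i + 1 = l.length := by omega
      rw [h5, Nat.mod_self] at h
      omega
  have key : ∀ (i : ℕ) (hi : i < l.length),
      ((0 : ℝ) < dt (s - p) (l[i] - p) (l[(i + 1) % l.length]'(hmod i) - p) ↔
        (0 : ℝ) < dt (s - p) (l[0]'(by omega) - p) (l[(0 + 1) % l.length]'(hmod 0) - p)) := by
    intro i
    induction i with
    | zero => intro hi; exact Iff.rfl
    | succ i ih =>
      intro hi
      have hi' : i < l.length := by omega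
      refine Iff.trans (Iff.symm ?_) (ih hi')
      have e : (i + 1) % l.length = i + 1 := Nat.mod_eq_of_lt hi
      have h4 : l[(i + 1) % l.length]'(hmod i) = l[i + 1] := by
        congr 1
      rw [h4]
      have hj : i + 1 ≠ (i + 1 + 1) % l.length := hneq (i + 1) hi
      have hk : i ≠ (i + 1 + 1) % l.length := by
        intro h
        rcases Nat.lt_or_ge (i + 1 + 1) l.length with h5 | h5
        · rw [Nat.mod_eq_of_lt h5] at h
          omega
        · have h6 : i + 1 + 1 = l.length := by omega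
          rw [h6, Nat.mod_self] at h
          omega
      have m1 : (l[i], l[i + 1]) ∈ prs l := A3_mem.2 ⟨i, i + 1, hi', hi, e.symm, rfl⟩
      have m2 : (l[i + 1], l[(i + 1 + 1) % l.length]'(hmod (i + 1))) ∈ prs l :=
        A3_mem.2 ⟨i + 1, (i + 1 + 1) % l.length, hi, hmod (i + 1), rfl, rfl⟩
      have n1 : l[i] ≠ l[i + 1] := hne i (i + 1) hi' hi (by omega)
      have n2 : l[i + 1] ≠ l[(i + 1 + 1) % l.length]'(hmod (i + 1)) := hne (i + 1) _ hi (hmod (i + 1)) hj
      have n3 : l[i] ≠ l[(i + 1 + 1) % l.length]'(hmod (i + 1)) := hne i _ hi' (hmod (i + 1)) hk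
      have t1 := hr _ m1
      have t2 := hr _ m2
      have g1 := hG l[i] (List.getElem_mem hi') l[i + 1] (List.getElem_mem hi) n1
      have g2 := hG l[i + 1] (List.getElem_mem hi) (l[(i + 1 + 1) % l.length]'(hmod (i + 1)))
        (List.getElem_mem (hmod (i + 1))) n2
      have p1 := hpl i hi'
      have p2 := hpl (i + 1) hi
      have p3 := hpl ((i + 1 + 1) % l.length) (hmod (i + 1))
      have s1 := hsl i hi'
      have s2 := hsl (i + 1) hi
      have s3 := hsl ((i + 1 + 1) % l.length) (hmod (i + 1))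
      clear ih hne hpl hsl hneq m1 m2 h4 hj hk
      generalize l[i] = x at *
      generalize l[i + 1] = y at *
      generalize l[(i + 1 + 1) % l.length]'(hmod (i + 1)) = z at *
      exact A3_step hT ps p1 p2 p3 s1 s2 s3 n1 n2 n3 t1 t2 g1 g2

  have hnz : ∀ (i : ℕ) (hi : i < l.length),
      dt (s - p) (l[i] - p) (l[(i + 1) % l.length]'(hmod i) - p) ≠ 0 := fun i hi =>
    hG _ (List.getElem_mem _) _ (List.getElem_mem _) (hne _ _ _ _ (hneq i hi))
  by_cases h0 : (0 : ℝ) < dt (s - p) (l[0]'(by omega) - p) (l[(0 + 1) % l.length]'(hmod 0) - p)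
  · refine ⟨1, Or.inl rfl, ?_⟩
    intro q hq
    obtain ⟨i, j, hi, hj, hij, rfl⟩ := A3_mem.1 hq
    subst hij
    unfold b2
    rw [one_mul]
    exact (key i hi).2 h0
  · refine ⟨-1, Or.inr rfl, ?_⟩
    intro q hq
    obtain ⟨i, j, hi, hj, hij, rfl⟩ := A3_mem.1 hq
    subst hij
    unfold b2
    have h4 : dt (s - p) (l[i] - p) (l[(i + 1) % l.length]'(hmod i) - p) < 0 :=
      lt_of_le_of_ne (not_lt.1 fun h => h0 ((key i hi).1 h)) (hnz i hi)
    change 0 < -1 * dt (s - p) (l[i] - p) (l[(i + 1) % l.length]'(hmod i) - p)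
    linarith

end Pool.Agent.LibSt23
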