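import Pool.Agent.LibSt23.E2

/-!
[ST23 L4] (MEDIUM) Facts on `Lk`. The cyclic pairs of `a ++ b.reverse`, `a = x₁ :: ..`, last `x_k`, `b = y₁ :: ..`, last `y_l`: pairs inside `a` (both in `A`), `(x_k, y_l)`, pairs inside `b.reverse` (both in `B`), `(y₁, x₁)`. `lk_mixed`: `Lk.all` for `{s, x, y}` gives a pair `q` with `{s, x, y} = {s, q.1, q.2}`, so `{x, y} = {q.1, q.2}` (`s ∉ A, B`), a mixed pair. `lk_first`, `lk_last`: `Lk.fac`. `lk_cardA`: `a` is nodup and its members are exactly the neighbours of `s` in `A` (`Lk.mem`, a neighbour in `A` is not in `b ⊆ B`): `List.toFinset_card_of_nodup`; `mem_nbd` of LibTet23.K0.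
-/

set_option autoImplicit false

namespace Pool.Agent.LibSt23

open Finset Pool.Agent.LibPol19 Pool.Agent.LibTet88 Pool.Agent.LibTet23
open scoped Classical

private theorem L4_rot {α : Type*} (x : α) (l : List α) : (x :: l).rotate 1 = l ++ [x] := by
  rw [List.rotate_cons_succ, List.rotate_zero]

private theorem L4_prs {α : Type*} {a b a' t : List α} {x y : α} (ha : a = x :: a') (hb : b.reverse = y :: t) :
    prs (a ++ b.reverse) = (x :: a').zip (a' ++ [y]) ++ (y :: t).zip (t ++ [x]) := by
  unfold prs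
  rw [ha, hb, List.cons_append, L4_rot, ← List.zip_append (by simp)]
  simp

private theorem L4_zip {α : Type*} (w : α) : ∀ (c' : List α) (z : α) (q : α × α),
    q ∈ (z :: c').zip (c' ++ [w]) →
      (q.1 ∈ z :: c' ∧ q.2 ∈ z :: c') ∨ (q.1 ∈ (z :: c').getLast? ∧ q.2 = w) := by
  intro c'
  induction c' with
  | nil =>
    intro z q hq
    simp only [List.nil_append, List.zip_cons_cons, List.zip_nil_right, List.mem_singleton] at hq
    subst hq
    right
    simp
  | cons u c' ih =>
    intro z q hq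
    rw [List.cons_append, List.zip_cons_cons, List.mem_cons] at hq
    rcases hq with rfl | hq
    · left
      simp
    · rcases ih u q hq with h | h
      · left
        exact ⟨List.mem_cons_of_mem _ h.1, List.mem_cons_of_mem _ h.2⟩
      · right
        refine ⟨?_, h.2⟩
        rw [List.getLast?_cons_cons]
        exact h.1

private theorem L4_zip' {α : Type*} (w : α) : ∀ (c' : List α) (z v : α), v ∈ (z :: c').getLast? →
    (v, w) ∈ (z :: c').zip (c' ++ [w]) := by
  intro c'
  induction c' with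
  | nil =>
    intro z v hv
    simp only [List.getLast?_singleton, Option.mem_def, Option.some.injEq] at hv
    subst hv
    simp
  | cons u c' ih =>
    intro z v hv
    rw [List.getLast?_cons_cons] at hv
    rw [List.cons_append, List.zip_cons_cons, List.mem_cons]
    right
    exact ih u v hv

private theorem L4_split {α : Type*} {Φ : Finset (Finset α)} {s : α} {A B : Finset α} {a b : List α}
    (h : Lk Φ s A B a b) : ∃ x a' y t, a = x :: a' ∧ b.reverse = y :: t := by
  have h1 := h.ane
  have h2 := h.bne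
  obtain ⟨x, a', ha⟩ := List.exists_cons_of_ne_nil h1
  obtain ⟨y, t, hb⟩ := List.exists_cons_of_ne_nil (mt List.reverse_eq_nil_iff.1 h2)
  exact ⟨x, a', y, t, ha, hb⟩

private theorem L4_cases {α : Type*} {Φ : Finset (Finset α)} {s : α} {A B : Finset α} {a b : List α}
    (h : Lk Φ s A B a b) {q : α × α} (hq : q ∈ prs (a ++ b.reverse)) :
    (q.1 ∈ a ∧ q.2 ∈ a) ∨ (q.1 ∈ b ∧ q.2 ∈ b) ∨ (q.1 ∈ a.getLast? ∧ q.2 ∈ b.getLast?) ∨
      (q.1 ∈ b.head? ∧ q.2 ∈ a.head?) := by
  obtain ⟨x, a', y, t, ha, hb⟩ := L4_split h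
  have hy : y ∈ b.getLast? := by
    rw [← List.head?_reverse, hb]
    rfl
  rw [L4_prs ha hb, List.mem_append] at hq
  rcases hq with hq | hq
  · rcases L4_zip _ _ _ _ hq with h1 | h1
    · left
      rw [ha]
      exact h1
    · right; right; left
      refine ⟨by rw [ha]; exact h1.1, ?_⟩
      rw [h1.2]
      exact hy
  · rcases L4_zip _ _ _ _ hq with h1 | h1
    · right; left
      rw [← hb] at h1
      exact ⟨List.mem_reverse.1 h1.1, List.mem_reverse.1 h1.2⟩
    · right; right; right
      refine ⟨?_, ?_⟩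
      · have := h1.1
        rw [← hb, List.getLast?_reverse] at this
        exact this
      · rw [h1.2, ha]
        rfl

private theorem L4_pair {α : Type*} {s x y u v : α} (hxs : x ≠ s) (hys : y ≠ s) (hxy : x ≠ y)
    (he : ({s, x, y} : Finset α) = {s, u, v}) : (x = u ∧ y = v) ∨ (x = v ∧ y = u) := by
  have hx : x ∈ ({s, u, v} : Finset α) := by rw [← he]; simp
  have hy : y ∈ ({s, u, v} : Finset α) := by rw [← he]; simp
  simp only [Finset.mem_insert, Finset.mem_singleton] at hx hy
  rcases hx with hx | hx | hx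
  · exact absurd hx hxs
  · rcases hy with hy | hy | hy
    · exact absurd hy hys
    · exact absurd (hx.trans hy.symm) hxy
    · exact Or.inl ⟨hx, hy⟩
  · rcases hy with hy | hy | hy
    · exact absurd hy hys
    · exact Or.inr ⟨hx, hy⟩
    · exact absurd (hx.trans hy.symm) hxy

theorem lk_mixed {α : Type*} {Φ : Finset (Finset α)} {s : α} {A B : Finset α} {a b : List α}
    (h : Lk Φ s A B a b) (hd : Disjoint A B) (sA : s ∉ A) (sB : s ∉ B) {x y : α} (hx : x ∈ A) (hy : y ∈ B)
    (hF : ({s, x, y} : Finset α) ∈ Φ) :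
    (x ∈ a.head? ∧ y ∈ b.head?) ∨ (x ∈ a.getLast? ∧ y ∈ b.getLast?) := by
  have hAB : ∀ u, u ∈ A → u ∈ B → False := fun u h1 h2 => (Finset.disjoint_left.1 hd) h1 h2
  have hxs : x ≠ s := fun e => sA (e ▸ hx)
  have hys : y ≠ s := fun e => sB (e ▸ hy)
  have hxy : x ≠ y := fun e => hAB x hx (e ▸ hy)
  obtain ⟨q, hq, he⟩ := h.all _ hF (by simp)
  have hc := L4_cases h hq
  have hla : ∀ {c : List α} {u : α}, u ∈ c.getLast? → u ∈ c := fun {c u} hu => List.mem_of_mem_getLast? hu
  have hha : ∀ {c : List α} {u : α}, u ∈ c.head? → u ∈ c := fun {c u} hu => List.mem_of_mem_head? hu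
  rcases L4_pair hxs hys hxy he with ⟨e1, e2⟩ | ⟨e1, e2⟩
  · rw [← e1, ← e2] at hc
    rcases hc with hc | hc | hc | hc
    · exact absurd hy fun h' => hAB y (h.aA _ hc.2) h'
    · exact absurd hx fun h' => hAB x h' (h.bB _ hc.1)
    · exact Or.inr hc
    · exact absurd hx fun h' => hAB x h' (h.bB _ (hha hc.1))
  · rw [← e1, ← e2] at hc
    rcases hc with hc | hc | hc | hc
    · exact absurd hy fun h' => hAB y (h.aA _ hc.1) h'
    · exact absurd hx fun h' => hAB x h' (h.bB _ hc.2)
    · exact absurd hx fun h' => hAB x h' (h.bB _ (hla hc.2))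
    · exact Or.inl ⟨hc.2, hc.1⟩

theorem lk_first {α : Type*} {Φ : Finset (Finset α)} {s : α} {A B : Finset α} {a b : List α}
    (h : Lk Φ s A B a b) {x y : α} (hx : x ∈ a.head?) (hy : y ∈ b.head?) : ({s, x, y} : Finset α) ∈ Φ := by
  obtain ⟨x', a', y', t, ha, hb⟩ := L4_split h
  have hx' : x = x' := by
    rw [ha] at hx
    simpa using hx.symm
  subst hx'
  have hy' : y ∈ (y' :: t).getLast? := by
    rw [← hb, List.getLast?_reverse]
    exact hy
  have hq : ((y, x) : α × α) ∈ prs (a ++ b.reverse) := by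
    rw [L4_prs ha hb, List.mem_append]
    exact Or.inr (L4_zip' _ _ _ _ hy')
  have := h.fac _ hq
  rwa [Finset.pair_comm] at this

theorem lk_last {α : Type*} {Φ : Finset (Finset α)} {s : α} {A B : Finset α} {a b : List α}
    (h : Lk Φ s A B a b) {x y : α} (hx : x ∈ a.getLast?) (hy : y ∈ b.getLast?) : ({s, x, y} : Finset α) ∈ Φ := by
  obtain ⟨x', a', y', t, ha, hb⟩ := L4_split h
  have hy' : y = y' := by
    rw [← List.head?_reverse, hb] at hy
    simpa using hy.symm
  subst hy'
  have hx' : x ∈ (x' :: a').getLast? := by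
    rw [← ha]
    exact hx
  have hq : ((x, y) : α × α) ∈ prs (a ++ b.reverse) := by
    rw [L4_prs ha hb, List.mem_append]
    exact Or.inl (L4_zip' _ _ _ _ hx')
  exact h.fac _ hq

theorem lk_cardA {α : Type*} {V : Finset α} {Φ : Finset (Finset α)} (hS : Surf V Φ) {s : α} {A B : Finset α}
    {a b : List α} (h : Lk Φ s A B a b) (hd : Disjoint A B) :
    a.length = ((nbd V Φ s).filter (· ∈ A)).card := by
  have hnd : a.Nodup := (List.nodup_append.1 h.nodup).1
  rw [← List.toFinset_card_of_nodup hnd]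
  congr 1
  ext u
  rw [List.mem_toFinset, Finset.mem_filter, mem_nbd hS, ← h.mem, List.mem_append, List.mem_reverse]
  constructor
  · intro hu
    exact ⟨Or.inl hu, h.aA _ hu⟩
  · rintro ⟨hu | hu, hA⟩
    · exact hu
    · exact absurd (h.bB _ hu) (Finset.disjoint_left.1 hd hA)

theorem lk_cardB {α : Type*} {V : Finset α} {Φ : Finset (Finset α)} (hS : Surf V Φ) {s : α} {A B : Finset α}
    {a b : List α} (h : Lk Φ s A B a b) (hd : Disjoint A B) :
    b.length = ((nbd V Φ s).filter (· ∈ B)).card := by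
  have hnd : b.Nodup := List.nodup_reverse.1 (List.nodup_append.1 h.nodup).2.1
  rw [← List.toFinset_card_of_nodup hnd]
  congr 1
  ext u
  rw [List.mem_toFinset, Finset.mem_filter, mem_nbd hS, ← h.mem, List.mem_append, List.mem_reverse]
  constructor
  · intro hu
    exact ⟨Or.inr hu, h.bB _ hu⟩
  · rintro ⟨hu | hu, hB⟩
    · exact absurd hB (Finset.disjoint_left.1 hd (h.aA _ hu))
    · exact hu

end Pool.Agent.LibSt23
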