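import Pool.Agent.LibSt23.A2
import Pool.Agent.LibSt23.A3
import Pool.Agent.LibSt23.L4

/-!
[ST23 A4] (MEDIUM) The ring around `p s`. All points are different members of `V` (`Lk.mem`, `aj_mem` of LibTet23.K0 with `surf_of hS`; `p ∉` link because not adjacent, `s ∉` link). `sign_of` (`hG` from `Gp V`) gives `σ`. `Pg`: `nodup`, `pos`; `disj`: `disj_of` (different pairs of a nodup cyclic list of length at least 3 give different sets `{p, s, q.1, q.2}`); `gp2`, `gp3`: `Gp V` (`σ ≠ 0`); `hp`: the functional exposing `p` (`hS.vert p`, negated). `ed`: `Adj V s y` (`aj_iff` of LibTet23.SB): the functional of the face `{s, y}` (as in LibTet23.VF1): `ℓ = c` on `s, y`, `ℓ < c` on the other vertices. `SH`: lengths.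
-/

set_option autoImplicit false

namespace Pool.Agent.LibSt23

open Finset Pool.Agent.LibPol19 Pool.Agent.LibTet88 Pool.Agent.LibTet23
open scoped Classical

private theorem A4_ne {σ : ℝ} {p s : Ed 3} {q r : Ed 3 × Ed 3} (q1p : q.1 ≠ p) (q1s : q.1 ≠ s) (q2p : q.2 ≠ p)
    (q2s : q.2 ≠ s) (h0 : 0 < b2 σ p s q.1 q.2) (h0' : 0 < b2 σ p s r.1 r.2) (hne : q ≠ r) :
    ({p, s, q.1, q.2} : Finset (Ed 3)) ≠ {p, s, r.1, r.2} := by
  intro he
  have h1 : q.1 ∈ ({p, s, r.1, r.2} : Finset (Ed 3)) := by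
    rw [← he]
    simp
  have h2 : q.2 ∈ ({p, s, r.1, r.2} : Finset (Ed 3)) := by
    rw [← he]
    simp
  simp only [Finset.mem_insert, Finset.mem_singleton] at h1 h2
  have hd : q.1 ≠ q.2 := by
    intro h
    rw [h, b2_self] at h0
    exact lt_irrefl _ h0
  rcases h1 with h1 | h1 | h1 | h1
  · exact q1p h1
  · exact q1s h1
  · rcases h2 with h2 | h2 | h2 | h2
    · exact q2p h2
    · exact q2s h2
    · exact hd (h1.trans h2.symm)
    · exact hne (Prod.ext h1 h2)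
  · rcases h2 with h2 | h2 | h2 | h2
    · exact q2p h2
    · exact q2s h2
    · rw [h1, h2, b2_swap] at h0
      linarith
    · exact hd (h1.trans h2.symm)

theorem exists_sh {V : Finset (Ed 3)} (hS : SV V) (hG : Gp V) {T : Finset (Finset (Ed 3))} (hT : TetD V T)
    {p s : Ed 3} (pV : p ∈ V) (sV : s ∈ V) (ps : p ≠ s) (hn : ¬ Aj (fc V) p s) {A B : Finset (Ed 3)}
    {a b : List (Ed 3)} (hl : Lk (fc V) s A B a b) (ha : a.length ≤ 4) (hb : b.length ≤ 4)
    (hr : ∀ q ∈ prs (a ++ b.reverse), ({p, s, q.1, q.2} : Finset (Ed 3)) ∈ T) : ∃ σ, SH V T σ p s a b := by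
  have hm : ∀ x ∈ a ++ b.reverse, x ∈ V ∧ s ≠ x ∧ p ≠ x := by
    intro x hx
    have h1 := (hl.mem x).1 hx
    refine ⟨(aj_mem (surf_of hS) h1).2, h1.1, ?_⟩
    rintro rfl
    exact hn (aj_symm h1)
  have pn : p ∉ a ++ b.reverse := fun h => (hm p h).2.2 rfl
  have sn : s ∉ a ++ b.reverse := fun h => (hm s h).2.1 rfl
  obtain ⟨σ, hσ, hpos⟩ := sign_of hT hl.nodup hl.three pn sn ps hr fun x hx y hy hxy =>
    hG p pV s sV x (hm x hx).1 y (hm y hy).1 ps (hm x hx).2.2 (hm y hy).2.2 (hm x hx).2.1 (hm y hy).2.1 hxy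
  have hσ0 : σ ≠ 0 := by
    rcases hσ with h | h
    · rw [h]
      exact one_ne_zero
    · rw [h]
      exact neg_ne_zero.2 one_ne_zero
  have hpg : Pg σ p s (a ++ b.reverse) := by
    refine ⟨hl.nodup, hpos, ?_, ?_, ?_, ?_⟩
    · intro q hq r hr' hne w h1 h2 h3
      have hq' := prs_mem hq
      exact disj_of hT (hr q hq) (hr r hr') (A4_ne (hm _ hq'.1).2.2.symm (hm _ hq'.1).2.1.symm
        (hm _ hq'.2).2.2.symm (hm _ hq'.2).2.1.symm (hpos q hq) (hpos r hr') hne) (hpos q hq) (hpos r hr') h1 h2 h3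
    · intro x hx y hy hxy
      exact mul_ne_zero hσ0 (hG p pV s sV x (hm x hx).1 y (hm y hy).1 ps (hm x hx).2.2 (hm y hy).2.2
        (hm x hx).2.1 (hm y hy).2.1 hxy)
    · intro x hx y hy z hz hxy hyz hxz
      exact mul_ne_zero hσ0 (hG p pV x (hm x hx).1 y (hm y hy).1 z (hm z hz).1 (hm x hx).2.2 (hm y hy).2.2
        (hm z hz).2.2 hxy hxz hyz)
    · obtain ⟨ℓ, hℓ⟩ := hS.vert p pV
      refine ⟨-ℓ, ?_, fun x hx => ?_⟩
      · rw [LinearMap.neg_apply, map_sub]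
        linarith [hℓ s sV ps.symm]
      · rw [LinearMap.neg_apply, map_sub]
        linarith [hℓ x (hm x hx).1 (hm x hx).2.2.symm]
  refine ⟨σ, ⟨⟨hσ, hT, hpg, hl.three, hr, ?_, ps, pn, sn⟩, hl.ane, hl.bne, ha, hb⟩⟩
  intro y hy
  obtain ⟨-, -, -, ℓ, c, hℓ⟩ := (aj_iff hS).1 ((hl.mem y).1 hy)
  have h1 : ℓ s = c := (hℓ s sV).2.2 (Finset.mem_insert_self _ _)
  have h2 : ℓ y = c := (hℓ y (hm y hy).1).2.2 (Finset.mem_insert_of_mem (Finset.mem_singleton_self _))
  refine ⟨ℓ, h2.trans h1.symm, ?_, fun x hx hxy => ?_⟩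
  · rw [h1]
    refine lt_of_le_of_ne (hℓ p pV).1 fun h3 => ?_
    have h4 := (hℓ p pV).2.1 h3
    rw [Finset.mem_insert, Finset.mem_singleton] at h4
    rcases h4 with h4 | h4
    · exact ps h4
    · exact (hm y hy).2.2 h4
  · rw [h1]
    refine lt_of_le_of_ne (hℓ x (hm x hx).1).1 fun h3 => ?_
    have h4 := (hℓ x (hm x hx).1).2.1 h3
    rw [Finset.mem_insert, Finset.mem_singleton] at h4
    rcases h4 with h4 | h4
    · exact (hm x hx).2.1 h4.symm
    · exact hxy h4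

end Pool.Agent.LibSt23
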