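import Pool.Agent.LibSt23.E1

/-!
[ST23 F2] Facts on `Rd`.
-/

set_option autoImplicit false

namespace Pool.Agent.LibSt23

open Finset Pool.Agent.LibPol19 Pool.Agent.LibTet88 Pool.Agent.LibTet23
open scoped Classical

theorem pk_rev {σ : ℝ} {p s : Ed 3} {l : List (Ed 3)} (h : Pk σ p s l) : Pk (-σ) p s l.reverse := by
  cases h with
  | two x z => exact Pk.two z x
  | three x y z h => exact Pk.three z y x (er_neg.2 h)
  | four1 x y u z h1 h2 => exact Pk.four2 z u y x (er_neg.2 h1) (er_neg.2 h2)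
  | four2 x y u z h1 h2 => exact Pk.four1 z u y x (er_neg.2 h1) (er_neg.2 h2)

theorem rd_rev {σ : ℝ} {p s : Ed 3} {α α' : List (Ed 3)} (h : Rd σ p s α α') :
    Rd (-σ) p s α.reverse α'.reverse := by
  rcases h with rfl | ⟨x, y, z, rfl, rfl, he⟩ | ⟨x, y, u, z, rfl, ⟨rfl, he⟩ | ⟨rfl, he⟩ | ⟨rfl, hp⟩⟩
  · exact Or.inl rfl
  · exact Or.inr (Or.inl ⟨z, y, x, rfl, rfl, er_neg.2 he⟩)
  · exact Or.inr (Or.inr ⟨z, u, y, x, rfl, Or.inr (Or.inl ⟨rfl, er_neg.2 he⟩)⟩)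
  · exact Or.inr (Or.inr ⟨z, u, y, x, rfl, Or.inl ⟨rfl, er_neg.2 he⟩⟩)
  · exact Or.inr (Or.inr ⟨z, u, y, x, rfl, Or.inr (Or.inr ⟨rfl, pk_rev hp⟩)⟩)

theorem rd_step {σ : ℝ} {p s x y z : Ed 3} {α u v : List (Ed 3)} (h4 : α.length ≤ 4)
    (h : Rd σ p s α (u ++ x :: y :: z :: v)) (he : Er σ p s x y z) : Rd σ p s α (u ++ x :: z :: v) := by
  rcases h with h | ⟨x1, y1, z1, rfl, h, he1⟩ | ⟨x1, y1, u1, z1, rfl, ⟨h, he1⟩ | ⟨h, he1⟩ | ⟨h, hp⟩⟩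
  · subst h
    rcases u with _ | ⟨w, _ | ⟨w', u⟩⟩
    · rcases v with _ | ⟨w, _ | ⟨w', v⟩⟩
      · exact Or.inr (Or.inl ⟨x, y, z, rfl, rfl, he⟩)
      · exact Or.inr (Or.inr ⟨x, y, z, w, rfl, Or.inl ⟨rfl, he⟩⟩)
      · simp at h4; omega
    · rcases v with _ | ⟨w', v⟩
      · exact Or.inr (Or.inr ⟨w, x, y, z, rfl, Or.inr (Or.inl ⟨rfl, he⟩)⟩)
      · simp at h4; omega
    · simp at h4; omega
  · have h5 := congrArg List.length h
    simp at h5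
    omega
  · have h5 := congrArg List.length h
    have h6 : u = [] ∧ v = [] := by
      simp at h5
      exact ⟨List.eq_nil_of_length_eq_zero (by omega), List.eq_nil_of_length_eq_zero (by omega)⟩
    obtain ⟨rfl, rfl⟩ := h6
    simp only [List.nil_append, List.cons.injEq, and_true] at h
    obtain ⟨rfl, rfl, rfl⟩ := h
    exact Or.inr (Or.inr ⟨_, _, _, _, rfl, Or.inr (Or.inr ⟨rfl, Pk.four1 _ _ _ _ he1 he⟩)⟩)
  · have h5 := congrArg List.length h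
    have h6 : u = [] ∧ v = [] := by
      simp at h5
      exact ⟨List.eq_nil_of_length_eq_zero (by omega), List.eq_nil_of_length_eq_zero (by omega)⟩
    obtain ⟨rfl, rfl⟩ := h6
    simp only [List.nil_append, List.cons.injEq, and_true] at h
    obtain ⟨rfl, rfl, rfl⟩ := h
    exact Or.inr (Or.inr ⟨_, _, _, _, rfl, Or.inr (Or.inr ⟨rfl, Pk.four2 _ _ _ _ he1 he⟩)⟩)
  · have h5 := congrArg List.length h
    simp at h5
    omega

theorem rd_left {σ : ℝ} {p s x z : Ed 3} {α v : List (Ed 3)} (h4 : α.length ≤ 4)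
    (h : Rd σ p s α (x :: z :: v)) : ∃ m r, α = x :: (m ++ z :: r) ∧ Pk σ p s (x :: (m ++ [z])) := by
  rcases h with h | ⟨x1, y1, z1, rfl, h, he1⟩ | ⟨x1, y1, u1, z1, rfl, ⟨h, he1⟩ | ⟨h, he1⟩ | ⟨h, hp⟩⟩
  · subst h
    exact ⟨[], v, rfl, Pk.two _ _⟩
  · simp only [List.cons.injEq] at h
    obtain ⟨rfl, rfl, rfl⟩ := h
    exact ⟨[y1], [], rfl, Pk.three _ _ _ he1⟩
  · simp only [List.cons.injEq] at h
    obtain ⟨rfl, rfl, rfl⟩ := h
    exact ⟨[y1], [z1], rfl, Pk.three _ _ _ he1⟩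
  · simp only [List.cons.injEq] at h
    obtain ⟨rfl, rfl, rfl⟩ := h
    exact ⟨[], [u1, z1], rfl, Pk.two _ _⟩
  · simp only [List.cons.injEq] at h
    obtain ⟨rfl, rfl, rfl⟩ := h
    exact ⟨[y1, u1], [], rfl, hp⟩

theorem rd_head {σ : ℝ} {p s b : Ed 3} {α v : List (Ed 3)} (h : Rd σ p s α (b :: v)) : ∃ v', α = b :: v' := by
  rcases h with h | ⟨x1, y1, z1, rfl, h, he1⟩ | ⟨x1, y1, u1, z1, rfl, ⟨h, he1⟩ | ⟨h, he1⟩ | ⟨h, hp⟩⟩
  · exact ⟨v, h.symm⟩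
  all_goals
    simp only [List.cons.injEq] at h
    obtain ⟨rfl, -⟩ := h
    exact ⟨_, rfl⟩

end Pool.Agent.LibSt23
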