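import Pool.Agent.LibSt23.F1
import Pool.Agent.LibSt23.F2

/-!
[ST23 F3] (MEDIUM) THE FAT EAR LEMMA. Strong induction on `α'.length + β'.length` for the statement: `Rd σ α α'`, `Rd (-σ) β β'`, `Pg σ (α' ++ β'.reverse)`, `2 ≤ α'.length`, `2 ≤ β'.length` imply the conclusion for `α, β` (start: `α' = α`, `β' = β`, `Or.inl rfl`). `red_step` for `α', β'`: case 1: `rd_left` and `rd_head`: `FL σ α β`. Case 2: reversed: `rd_rev`: `α'.reverse = y :: x :: u.reverse`: `rd_left`, `rd_head`: `FL (-σ) α.reverse β.reverse` (`er_neg`). Case 3: `rd_step`, induction hypothesis (the new list still has at least 2 points). Case 4: `FL (-σ) β α` (`er_neg`). Case 5: `FL σ β.reverse α.reverse` (`rd_rev`, `- - σ = σ`). Case 6: as case 3 (`Er σ z y x` is `Er (-σ) x y z`).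
-/

set_option autoImplicit false

namespace Pool.Agent.LibSt23

open Finset Pool.Agent.LibPol19 Pool.Agent.LibTet88 Pool.Agent.LibTet23
open scoped Classical

private theorem F3_ind {σ : ℝ} {p s : Ed 3} {α β : List (Ed 3)} (ha4 : α.length ≤ 4) (hb4 : β.length ≤ 4) (n : ℕ) :
    ∀ α' β' : List (Ed 3), α'.length + β'.length = n → Rd σ p s α α' → Rd (-σ) p s β β' →
      Pg σ p s (α' ++ β'.reverse) → 2 ≤ α'.length → 2 ≤ β'.length →
      FL σ p s α β ∨ FL (-σ) p s β α ∨ FL (-σ) p s α.reverse β.reverse ∨ FL σ p s β.reverse α.reverse := by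
  induction n using Nat.strong_induction_on with
  | _ n ih =>
    intro α' β' hn hA hB hg ha hb
    have hA' := rd_rev hA
    have hB' := rd_rev hB
    rw [neg_neg] at hB'
    have ha4' : α.reverse.length ≤ 4 := by rw [List.length_reverse]; exact ha4
    have hb4' : β.reverse.length ≤ 4 := by rw [List.length_reverse]; exact hb4
    rcases red_step hg ha hb with ⟨x, z, v, b, β'', rfl, rfl, he⟩ | ⟨u, x, y, β'', b, rfl, rfl, he⟩ |
      ⟨u, x, y, z, v, rfl, he, hg'⟩ | ⟨x, z, v, a, α'', rfl, rfl, he⟩ | ⟨u, x, y, α'', a, rfl, rfl, he⟩ |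
      ⟨u, x, y, z, v, rfl, he, hg'⟩
    · obtain ⟨m, r, h1, h2⟩ := rd_left ha4 hA
      obtain ⟨v', h3⟩ := rd_head hB
      exact Or.inl ⟨x, m, z, r, b, v', h1, h3, h2, he⟩
    · have e1 : (u ++ [x, y]).reverse = y :: x :: u.reverse := by simp
      have e2 : (β'' ++ [b]).reverse = b :: β''.reverse := by simp
      rw [e1] at hA'
      rw [e2] at hB'
      obtain ⟨m, r, h1, h2⟩ := rd_left ha4' hA'
      obtain ⟨v', h3⟩ := rd_head hB'
      exact Or.inr (Or.inr (Or.inl ⟨y, m, x, r, b, v', h1, h3, h2, er_neg.2 he⟩))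
    · have hA2 := rd_step ha4 hA he
      refine ih ((u ++ x :: z :: v).length + β'.length) ?_ (u ++ x :: z :: v) β' rfl hA2 hB hg' ?_ hb
      · rw [← hn]
        simp only [List.length_append, List.length_cons]
        omega
      · simp only [List.length_append, List.length_cons]
        omega
    · obtain ⟨m, r, h1, h2⟩ := rd_left hb4 hB
      obtain ⟨v', h3⟩ := rd_head hA
      exact Or.inr (Or.inl ⟨x, m, z, r, a, v', h1, h3, h2, er_neg.2 he⟩)
    · have e1 : (u ++ [x, y]).reverse = y :: x :: u.reverse := by simp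
      have e2 : (α'' ++ [a]).reverse = a :: α''.reverse := by simp
      rw [e1] at hB'
      rw [e2] at hA'
      obtain ⟨m, r, h1, h2⟩ := rd_left hb4' hB'
      obtain ⟨v', h3⟩ := rd_head hA'
      exact Or.inr (Or.inr (Or.inr ⟨y, m, x, r, a, v', h1, h3, h2, he⟩))
    · have hB2 := rd_step hb4 hB (er_neg.2 he)
      refine ih (α'.length + (u ++ x :: z :: v).length) ?_ α' (u ++ x :: z :: v) rfl hA hB2 hg' ha ?_
      · rw [← hn]
        simp only [List.length_append, List.length_cons]
        omega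
      · simp only [List.length_append, List.length_cons]
        omega

theorem fat_ear {σ : ℝ} {p s : Ed 3} {α β : List (Ed 3)} (h : Pg σ p s (α ++ β.reverse)) (ha : 2 ≤ α.length)
    (ha4 : α.length ≤ 4) (hb : 2 ≤ β.length) (hb4 : β.length ≤ 4) :
    FL σ p s α β ∨ FL (-σ) p s β α ∨ FL (-σ) p s α.reverse β.reverse ∨ FL σ p s β.reverse α.reverse :=
  F3_ind ha4 hb4 _ α β rfl (Or.inl rfl) (Or.inl rfl) h ha hb

end Pool.Agent.LibSt23
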