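import Pool.Agent.LibSt23.S2

/-!
[ST23 S3] (MEDIUM) Peeling a column with one pocket triangle. First the flip of `y` (`x = a, y, z = a'`; polygon `a :: y :: a' :: (r ++ β'.reverse ++ [b])`, a rotation by 0): `T' := fl T p s a y a'`, then `peel0` for `T'` (the run is now `a :: a' :: r`): `T₁`, with the two tetrahedra `{ε, b, a, a'}`, `{ε', b, a, a'}` (better: repeat the proof of `peel0`, you need the tetrahedra explicitly). `Z := [{ε, b, a, a'}, {ε, a, y, a'}, {ε', a, y, a'}, {ε', b, a, a'}]`: consecutive ones share `{ε, a, a'}`, `{a, y, a'}`, `{ε', a, a'}`. The set equation: combine the two of `qg_flip`; a new tetrahedron of the first flip is not in the second ring (it does not contain both `p` and `s`).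
-/

set_option autoImplicit false

namespace Pool.Agent.LibSt23

open Finset Pool.Agent.LibPol19 Pool.Agent.LibTet88 Pool.Agent.LibTet23
open scoped Classical

private theorem S3_rg {p s : Ed 3} {l : List (Ed 3)} {t : Finset (Ed 3)} (h : t ∈ rg p s l) : p ∈ t ∧ s ∈ t := by
  obtain ⟨q, -, rfl⟩ := mem_rg.1 h
  exact ⟨by simp, by simp⟩

private theorem S3_nin {δ a b c x : Ed 3} (h1 : x ≠ δ) (h2 : x ≠ a) (h3 : x ≠ b) (h4 : x ≠ c) :
    x ∉ ({δ, a, b, c} : Finset (Ed 3)) := by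
  simp [h1, h2, h3, h4]

private theorem S3_card {t u : Finset (Ed 3)} {x y z v w : Ed 3} (hxy : x ≠ y) (hxz : x ≠ z) (hyz : y ≠ z)
    (ht : t = insert v {x, y, z}) (hu : u = insert w {x, y, z}) (hv : v ∉ u) : (t ∩ u).card = 3 := by
  have e : t ∩ u = {x, y, z} := by
    rw [ht, Finset.insert_inter_of_notMem hv, hu]
    exact Finset.inter_eq_left.2 (Finset.subset_insert _ _)
  rw [e]
  exact Finset.card_eq_three.2 ⟨x, y, z, hxy, hxz, hyz, rfl⟩

private theorem S3_ins1 (ε b a a' : Ed 3) : ({ε, b, a, a'} : Finset (Ed 3)) = insert b {ε, a, a'} :=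
  Finset.insert_comm ε b {a, a'}

private theorem S3_ins2 (ε a y a' : Ed 3) : ({ε, a, y, a'} : Finset (Ed 3)) = insert y {ε, a, a'} := by
  ext x
  simp only [Finset.mem_insert, Finset.mem_singleton]
  tauto

private theorem S3_sub1 (ε a b a' : Ed 3) : ({ε, a, b} : Finset (Ed 3)) ⊆ {ε, b, a, a'} := by
  intro x
  simp only [Finset.mem_insert, Finset.mem_singleton]
  tauto

private theorem S3_sub2 (ε a b a' : Ed 3) : ({ε, a', b} : Finset (Ed 3)) ⊆ {ε, b, a, a'} := by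
  intro x
  simp only [Finset.mem_insert, Finset.mem_singleton]
  tauto

private theorem S3_mem {δ x a b y a' : Ed 3}
    (h : x ∈ ({δ, b, a, a'} : Finset (Ed 3)) ∨ x ∈ ({δ, a, y, a'} : Finset (Ed 3))) :
    x = δ ∨ x = b ∨ x = a ∨ x = y ∨ x = a' := by
  simp only [Finset.mem_insert, Finset.mem_singleton] at h
  tauto

private theorem S3_prop {T O L M N K : Prop} (k1 : L → T → O) (k2 : N → ¬ L) :
    (((((T ∧ ¬ O) ∨ L) ∨ N) ∧ ¬ L) ∨ M) ∨ K ↔ ((T ∧ ¬ O) ∨ M) ∨ (N ∨ K) := by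
  tauto

private theorem S3_k4 {p s ε ε' a y a' b : Ed 3} (hε : (ε = p ∧ ε' = s) ∨ (ε = s ∧ ε' = p))
    (t : Finset (Ed 3)) :
    t ∈ ([{ε, b, a, a'}, {ε, a, y, a'}, {ε', a, y, a'}, {ε', b, a, a'}] : List (Finset (Ed 3))) ↔
      t ∈ ({{p, a, y, a'}, {s, a, y, a'}} : Finset (Finset (Ed 3))) ∨
      t ∈ ({{p, b, a, a'}, {s, b, a, a'}} : Finset (Finset (Ed 3))) := by
  simp only [List.mem_cons, List.not_mem_nil, or_false, Finset.mem_insert, Finset.mem_singleton]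
  rcases hε with ⟨rfl, rfl⟩ | ⟨rfl, rfl⟩ <;> tauto

theorem peel1 {V : Finset (Ed 3)} {T : Finset (Finset (Ed 3))} {σ : ℝ} {p s ε ε' a y a' b : Ed 3}
    {r β' : List (Ed 3)} (h : SH V T σ p s (a :: y :: a' :: r) (b :: β')) (hb : β' ≠ []) (h1 : Er σ p s a y a')
    (he : Er σ p s b a a') (hε : (ε = p ∧ ε' = s) ∨ (ε = s ∧ ε' = p)) :
    ∃ T₁ Z, PL V T σ p s ε ε' (a :: y :: a' :: r) (b :: β') (a' :: r) T₁ Z := by
  have hq := h.qg
  have hR : r ++ (b :: β').reverse ≠ [] := by simp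
  have hR2 : r ++ β'.reverse ≠ [] := by simp [hb]
  -- distinct points
  have hnd := hq.pg.nodup
  have hps := hq.ps
  have hpn := hq.pn
  have hsn := hq.sn
  have hbm : b ∈ r ++ (b :: β').reverse := by simp
  simp only [List.cons_append, List.nodup_cons, List.mem_cons, not_or] at hnd
  simp only [List.cons_append, List.mem_cons, not_or] at hpn hsn
  obtain ⟨⟨hay, haa', haR⟩, ⟨hya', hyR⟩, ha'R, -⟩ := hnd
  obtain ⟨hpa, hpy, hpa', hpR⟩ := hpn
  obtain ⟨hsa, hsy, hsa', hsR⟩ := hsn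
  have hab : a ≠ b := fun e => haR (e ▸ hbm)
  have hyb : y ≠ b := fun e => hyR (e ▸ hbm)
  have ha'b : a' ≠ b := fun e => ha'R (e ▸ hbm)
  have hpb : p ≠ b := fun e => hpR (e ▸ hbm)
  have hsb : s ≠ b := fun e => hsR (e ▸ hbm)
  -- first flip
  obtain ⟨q1, eq1, n1, n2, o1⟩ := qg_flip (r := r ++ (b :: β').reverse) hq hR h1
  -- rotation
  have er : (a :: a' :: (r ++ (b :: β').reverse)).rotate (a :: a' :: (r ++ β'.reverse)).length =
      b :: a :: a' :: (r ++ β'.reverse) := by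
    have e0 : a :: a' :: (r ++ (b :: β').reverse) = (a :: a' :: (r ++ β'.reverse)) ++ [b] := by simp
    rw [e0, List.rotate_append_length_eq]
    rfl
  have q1' := qg_rot q1 (a :: a' :: (r ++ β'.reverse)).length
  rw [er] at q1'
  have rg1 : rg p s (b :: a :: a' :: (r ++ β'.reverse)) = rg p s (a :: a' :: (r ++ (b :: β').reverse)) := by
    rw [← er, rg_rot]
  obtain ⟨q2, eq2, n3, n4, o2⟩ := qg_flip q1' hR2 he
  have er2 : (b :: a' :: (r ++ β'.reverse)).rotate 1 = (a' :: r) ++ (b :: β').reverse := by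
    simp
  have rg2 : rg p s (b :: a' :: (r ++ β'.reverse)) = rg p s ((a' :: r) ++ (b :: β').reverse) := by
    rw [← er2, rg_rot]
  have q2' := qg_rot q2 1
  rw [er2] at q2'
  rw [rg1, rg2] at eq2
  rw [rg1, rg2] at o2
  -- the new tetrahedra
  have hδ : ∀ δ, δ = p ∨ δ = s → δ ≠ a ∧ δ ≠ y ∧ δ ≠ a' ∧ δ ≠ b := by
    rintro δ (rfl | rfl)
    · exact ⟨hpa, hpy, hpa', hpb⟩
    · exact ⟨hsa, hsy, hsa', hsb⟩
  have noR : ∀ δ, δ = p ∨ δ = s → ∀ l : List (Ed 3), ({δ, b, a, a'} : Finset (Ed 3)) ∉ rg p s l ∧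
      ({δ, a, y, a'} : Finset (Ed 3)) ∉ rg p s l := by
    rintro δ (rfl | rfl) l
    · exact ⟨fun hm => S3_nin hps.symm hsb hsa hsa' (S3_rg hm).2,
        fun hm => S3_nin hps.symm hsa hsy hsa' (S3_rg hm).2⟩
    · exact ⟨fun hm => S3_nin hps hpb hpa hpa' (S3_rg hm).1, fun hm => S3_nin hps hpa hpy hpa' (S3_rg hm).1⟩
  have noT : ∀ δ, δ = p ∨ δ = s → ({δ, b, a, a'} : Finset (Ed 3)) ∉ T ∧ ({δ, a, y, a'} : Finset (Ed 3)) ∉ T := by
    intro δ hd
    refine ⟨fun hm => ?_, ?_⟩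
    · have h3 : ({δ, b, a, a'} : Finset (Ed 3)) ∈ fl T p s a y a' := by
        rw [eq1]
        exact Finset.mem_union_left _ (Finset.mem_union_left _ (Finset.mem_sdiff.2 ⟨hm, (noR δ hd _).1⟩))
      rcases hd with rfl | rfl
      · exact n3 h3
      · exact n4 h3
    · rcases hd with rfl | rfl
      · exact n1
      · exact n2
  have hε1 : ε = p ∨ ε = s := by
    rcases hε with h | h
    · exact Or.inl h.1
    · exact Or.inr h.1
  have hε2 : ε' = p ∨ ε' = s := by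
    rcases hε with h | h
    · exact Or.inr h.2
    · exact Or.inl h.2
  have hεε : ε ≠ ε' := by
    rcases hε with ⟨rfl, rfl⟩ | ⟨rfl, rfl⟩
    · exact hps
    · exact hps.symm
  obtain ⟨d1, d2, d3, d4⟩ := hδ ε hε1
  obtain ⟨d1', d2', d3', d4'⟩ := hδ ε' hε2
  have s1 : ({ε, b, a, a'} : Finset (Ed 3)) ≠ {ε, a, y, a'} := fun e =>
    S3_nin d4.symm hab.symm hyb.symm ha'b.symm (e ▸ (by simp : b ∈ ({ε, b, a, a'} : Finset (Ed 3))))
  have s2 : ({ε, b, a, a'} : Finset (Ed 3)) ≠ {ε', a, y, a'} := fun e =>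
    S3_nin d4'.symm hab.symm hyb.symm ha'b.symm (e ▸ (by simp : b ∈ ({ε, b, a, a'} : Finset (Ed 3))))
  have s3 : ({ε, b, a, a'} : Finset (Ed 3)) ≠ {ε', b, a, a'} := fun e =>
    S3_nin hεε d4 d1 d3 (e ▸ (by simp : ε ∈ ({ε, b, a, a'} : Finset (Ed 3))))
  have s4 : ({ε, a, y, a'} : Finset (Ed 3)) ≠ {ε', a, y, a'} := fun e =>
    S3_nin hεε d1 d2 d3 (e ▸ (by simp : ε ∈ ({ε, a, y, a'} : Finset (Ed 3))))
  have s5 : ({ε, a, y, a'} : Finset (Ed 3)) ≠ {ε', b, a, a'} := fun e =>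
    S3_nin d2'.symm hyb (Ne.symm hay) hya' (e ▸ (by simp : y ∈ ({ε, a, y, a'} : Finset (Ed 3))))
  have s6 : ({ε', a, y, a'} : Finset (Ed 3)) ≠ {ε', b, a, a'} := fun e =>
    S3_nin d2'.symm hyb (Ne.symm hay) hya' (e ▸ (by simp : y ∈ ({ε', a, y, a'} : Finset (Ed 3))))
  refine ⟨fl (fl T p s a y a') p s b a a', [{ε, b, a, a'}, {ε, a, y, a'}, {ε', a, y, a'}, {ε', b, a, a'}], ?_⟩
  refine ⟨?_, ?_, by simp, ?_, ?_, ?_, ?_, ?_, ?_, ?_, ?_, ?_⟩
  · refine ⟨q2', by simp, by simp, ?_, h.b4⟩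
    have := h.a4
    simp only [List.length_cons] at this ⊢
    omega
  · simp only [List.nodup_cons, List.mem_cons, List.not_mem_nil, or_false, not_or, not_false_eq_true,
      List.nodup_nil, and_true]
    exact ⟨⟨s1, s2, s3⟩, ⟨s4, s5⟩, s6⟩
  · simp only [List.isChain_cons_cons, List.isChain_singleton, and_true]
    refine ⟨?_, ?_, ?_⟩
    · exact S3_card (x := ε) (y := a) (z := a') (v := b) (w := y) d1 d3 haa' (S3_ins1 _ _ _ _)
        (S3_ins2 _ _ _ _) (S3_nin d4.symm hab.symm hyb.symm ha'b.symm)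
    · exact S3_card (x := a) (y := y) (z := a') (v := ε) (w := ε') hay haa' hya' rfl rfl
        (S3_nin hεε d1 d2 d3)
    · exact S3_card (x := ε') (y := a) (z := a') (v := y) (w := b) d1' d3' haa' (S3_ins2 _ _ _ _)
        (S3_ins1 _ _ _ _) (S3_nin d2'.symm hyb (Ne.symm hay) hya')
  · intro t ht u hu v hv
    simp only [List.head?_cons, Option.mem_def, Option.some.injEq] at ht hu hv
    subst ht hu hv
    exact S3_sub1 _ _ _ _
  · intro t ht u hu v hv
    simp only [List.head?_cons, Option.mem_def, Option.some.injEq] at hu hv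
    have ht' : t = {ε', b, a, a'} := by
      simpa [eq_comm] using ht
    subst ht' hu hv
    exact S3_sub2 _ _ _ _
  · intro t ht x hx
    simp only [List.mem_cons, List.not_mem_nil, or_false] at ht
    have hx' : ∃ δ, (δ = p ∨ δ = s) ∧ (x = δ ∨ x = b ∨ x = a ∨ x = y ∨ x = a') := by
      rcases ht with e | e | e | e
      · exact ⟨ε, hε1, S3_mem (Or.inl (e ▸ hx))⟩
      · exact ⟨ε, hε1, S3_mem (Or.inr (e ▸ hx))⟩
      · exact ⟨ε', hε2, S3_mem (Or.inr (e ▸ hx))⟩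
      · exact ⟨ε', hε2, S3_mem (Or.inl (e ▸ hx))⟩
    obtain ⟨δ, hd, e | e | e | e | e⟩ := hx'
    · rcases hd with h | h
      · exact Or.inl (e.trans h)
      · exact Or.inr (Or.inl (e.trans h))
    · exact Or.inr (Or.inr (Or.inr (by simp [e])))
    · exact Or.inr (Or.inr (Or.inl (by simp [e])))
    · exact Or.inr (Or.inr (Or.inl (by simp [e])))
    · exact Or.inr (Or.inr (Or.inl (by simp [e])))
  · intro t ht
    simp only [List.mem_cons, List.not_mem_nil, or_false] at ht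
    rcases ht with rfl | rfl | rfl | rfl
    · exact ⟨(noT ε hε1).1, (noR ε hε1 _).1⟩
    · exact ⟨(noT ε hε1).2, (noR ε hε1 _).2⟩
    · exact ⟨(noT ε' hε2).2, (noR ε' hε2 _).2⟩
    · exact ⟨(noT ε' hε2).1, (noR ε' hε2 _).1⟩
  · intro t ht htT
    by_contra hc
    have h3 : t ∈ fl T p s a y a' := by
      rw [eq1]
      exact Finset.mem_union_left _ (Finset.mem_union_left _ (Finset.mem_sdiff.2 ⟨htT, hc⟩))
    exact hc (o1 t (o2 t ht h3) htT)
  · rw [eq2, eq1]
    ext t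
    simp only [Finset.mem_union, Finset.mem_sdiff, List.mem_toFinset]
    rw [S3_k4 hε]
    refine S3_prop (o1 t) ?_
    intro ht hm
    rcases Finset.mem_insert.1 ht with e | e
    · exact (noR p (Or.inl rfl) _).2 (e ▸ hm)
    · exact (noR s (Or.inr rfl) _).2 (Finset.mem_singleton.1 e ▸ hm)
  · simp [List.getLast?_cons_cons]
  · intro x hx
    rcases List.mem_cons.1 hx with e | e
    · simp [e]
    · simp [e]

end Pool.Agent.LibSt23
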