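import Pool.Agent.LibSt23.S2

/-!
[ST23 S4] (MEDIUM) Peeling a column with two pocket triangles. Three flips: `peel2a`: first `y` between `a` and `u`, then `u` between `a` and `a'`, then `a` between `b` and `a'`. `Z := [{ε, b, a, a'}, {ε, a, u, a'}, {ε, a, y, u}, {ε', a, y, u}, {ε', a, u, a'}, {ε', b, a, a'}]`. `peel2b`: first `u` between `y` and `a'`, then `y` between `a` and `a'`, then `a` between `b` and `a'`. `Z := [{ε, b, a, a'}, {ε, a, y, a'}, {ε, y, u, a'}, {ε', y, u, a'}, {ε', a, y, a'}, {ε', b, a, a'}]`. As in S3 (see there).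
-/

set_option autoImplicit false

namespace Pool.Agent.LibSt23

open Finset Pool.Agent.LibPol19 Pool.Agent.LibTet88 Pool.Agent.LibTet23
open scoped Classical

private theorem S4_int {x y : Ed 3} {A : Finset (Ed 3)} (h : x ≠ y) (hx : x ∉ A) :
    insert x A ∩ insert y A = A := by
  ext w
  simp only [mem_inter, mem_insert]
  constructor
  · rintro ⟨h1 | h1, h2 | h2⟩
    · exact absurd (h1.symm.trans h2) h
    · rw [h1] at h2
      exact absurd h2 hx
    · exact h1
    · exact h1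
  · intro h1
    exact ⟨Or.inr h1, Or.inr h1⟩

private theorem S4_sw (x y z : Ed 3) : ({x, y, z} : Finset (Ed 3)) = {y, x, z} := insert_comm _ _ _

private theorem S4_rot (x y z : Ed 3) : ({x, y, z} : Finset (Ed 3)) = {z, x, y} := by
  ext w
  simp only [mem_insert, mem_singleton]
  constructor
  · rintro (h5 | h5 | h5) <;> simp [h5]
  · rintro (h5 | h5 | h5) <;> simp [h5]

private theorem S4_ne {x y : Ed 3} {A B : Finset (Ed 3)} (h : x ≠ y) (hx : x ∉ B) :
    insert x A ≠ insert y B := by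
  intro hh
  have h1 : x ∈ insert y B := by
    rw [← hh]
    exact mem_insert_self _ _
  rcases mem_insert.mp h1 with h2 | h2
  · exact h h2
  · exact hx h2

private theorem S4_nn {x : Ed 3} {A B : Finset (Ed 3)} (h : A ≠ B) (hx : x ∉ A) (hx' : x ∉ B) :
    insert x A ≠ insert x B := by
  intro hh
  apply h
  rw [← erase_insert hx, hh, erase_insert hx']

private theorem S4_c2 {x y u v : Ed 3} {A B : Finset (Ed 3)} (hA : A = {x, u, v}) (hB : B = {y, u, v})
    (h : x ≠ y) (h1 : x ≠ u) (h2 : x ≠ v) (h3 : u ≠ v) : (A ∩ B).card = 2 := by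
  have h4 : x ∉ ({u, v} : Finset (Ed 3)) := by simp [h1, h2]
  rw [hA, hB]
  have h5 : ({x, u, v} : Finset (Ed 3)) ∩ {y, u, v} = {u, v} := S4_int h h4
  rw [h5, card_pair h3]

private theorem S4_c3 {x u v : Ed 3} (h1 : x ≠ u) (h2 : x ≠ v) (h3 : u ≠ v) :
    ({x, u, v} : Finset (Ed 3)).card = 3 := by
  rw [card_insert_of_notMem (by simp [h1, h2]), card_pair h3]

private theorem S4_both {p s : Ed 3} {l : List (Ed 3)} {t : Finset (Ed 3)} (ht : t ∈ rg p s l) :
    p ∈ t ∧ s ∈ t := by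
  obtain ⟨q, _, rfl⟩ := mem_rg.mp ht
  simp

/-- the state after some flips -/
private structure S4_St (T R0 : Finset (Finset (Ed 3))) (p s : Ed 3) (Tn Rn Zn : Finset (Finset (Ed 3))) :
    Prop where
  eq : Tn = (T \ R0) ∪ Rn ∪ Zn
  old : ∀ t ∈ Rn, t ∈ T → t ∈ R0
  out : ∀ t ∈ Zn, t ∉ T ∧ ¬ (p ∈ t ∧ s ∈ t)

private theorem S4_start {V : Finset (Ed 3)} {T : Finset (Finset (Ed 3))} {σ : ℝ} {p s : Ed 3}
    {l : List (Ed 3)} (h : Qg V T σ p s l) : S4_St T (rg p s l) p s T (rg p s l) ∅ := by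
  refine ⟨?_, fun t ht _ => ht, fun t ht => absurd ht (notMem_empty t)⟩
  have h1 : rg p s l ⊆ T := by
    intro t ht
    obtain ⟨q, hq, rfl⟩ := mem_rg.mp ht
    exact h.ring q hq
  rw [union_empty, sdiff_union_of_subset h1]

private theorem S4_step {T R0 Tn Rn Zn T' R' : Finset (Finset (Ed 3))} {p s : Ed 3} {F : Finset (Ed 3)}
    (hps : p ≠ s) (hp : p ∉ F) (hs : s ∉ F)
    (hR0 : ∀ t ∈ R0, p ∈ t ∧ s ∈ t) (hRn : ∀ t ∈ Rn, p ∈ t ∧ s ∈ t)
    (h : S4_St T R0 p s Tn Rn Zn) (e : T' = (Tn \ Rn) ∪ R' ∪ {insert p F, insert s F})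
    (n1 : insert p F ∉ Tn) (n2 : insert s F ∉ Tn) (ho : ∀ t ∈ R', t ∈ Tn → t ∈ Rn) :
    S4_St T R0 p s T' R' (Zn ∪ {insert p F, insert s F}) := by
  have hnb : ∀ t ∈ ({insert p F, insert s F} : Finset (Finset (Ed 3))), t ∉ Tn ∧ ¬ (p ∈ t ∧ s ∈ t) := by
    intro t ht
    rcases mem_insert.mp ht with h1 | h1
    · rw [h1]
      refine ⟨n1, fun hh => ?_⟩
      rcases mem_insert.mp hh.2 with h2 | h2
      · exact hps h2.symm
      · exact hs h2
    · rw [mem_singleton.mp h1]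
      refine ⟨n2, fun hh => ?_⟩
      rcases mem_insert.mp hh.1 with h2 | h2
      · exact hps h2
      · exact hp h2
  have hin : ∀ t, t ∈ T → t ∉ R0 → t ∈ Tn := by
    intro t h1 h2
    rw [h.eq]
    exact mem_union_left _ (mem_union_left _ (mem_sdiff.mpr ⟨h1, h2⟩))
  refine ⟨?_, ?_, ?_⟩
  · ext t
    rw [e]
    simp only [mem_union, mem_sdiff]
    constructor
    · rintro ((⟨h1, h2⟩ | h1) | h1)
      · rw [h.eq] at h1
        rcases mem_union.mp h1 with h3 | h3
        · rcases mem_union.mp h3 with h4 | h4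
          · exact Or.inl (Or.inl (mem_sdiff.mp h4))
          · exact absurd h4 h2
        · exact Or.inr (Or.inl h3)
      · exact Or.inl (Or.inr h1)
      · exact Or.inr (Or.inr h1)
    · rintro ((⟨h1, h2⟩ | h1) | (h1 | h1))
      · exact Or.inl (Or.inl ⟨hin t h1 h2, fun h3 => h2 (h.old t h3 h1)⟩)
      · exact Or.inl (Or.inr h1)
      · refine Or.inl (Or.inl ⟨?_, fun h3 => (h.out t h1).2 (hRn t h3)⟩)
        rw [h.eq]
        exact mem_union_right _ h1
      · exact Or.inr h1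
  · intro t h1 h2
    by_contra h3
    exact h3 (h.old t (ho t h1 (hin t h2 h3)) h2)
  · intro t ht
    rcases mem_union.mp ht with h1 | h1
    · exact h.out t h1
    · refine ⟨fun h2 => ?_, (hnb t h1).2⟩
      by_cases h3 : t ∈ R0
      · exact (hnb t h1).2 (hR0 t h3)
      · exact (hnb t h1).1 (hin t h2 h3)

private theorem S4_end {V : Finset (Ed 3)} {T T2 : Finset (Finset (Ed 3))} {σ : ℝ}
    {p s ε ε' a y u a' b : Ed 3} {r β' : List (Ed 3)} {F1 F2 : Finset (Ed 3)}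
    (h : SH V T σ p s (a :: y :: u :: a' :: r) (b :: β')) (hb : β' ≠ []) (he : Er σ p s b a a')
    (hε : (ε = p ∧ ε' = s) ∨ (ε = s ∧ ε' = p))
    (Q2 : Qg V T2 σ p s (a :: a' :: (r ++ (b :: β').reverse)))
    (S2 : S4_St T (rg p s ((a :: y :: u :: a' :: r) ++ (b :: β').reverse)) p s T2
      (rg p s (a :: a' :: (r ++ (b :: β').reverse)))
      ((∅ ∪ {insert p F2, insert s F2}) ∪ {insert p F1, insert s F1}))
    (c2 : F2.card = 3) (i01 : (({b, a, a'} : Finset (Ed 3)) ∩ F1).card = 2)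
    (i12 : (F1 ∩ F2).card = 2) (n01 : ({b, a, a'} : Finset (Ed 3)) ≠ F1)
    (n02 : ({b, a, a'} : Finset (Ed 3)) ≠ F2) (n12 : F1 ≠ F2)
    (s1 : ∀ x ∈ F1, x ∈ a :: y :: u :: a' :: r ∨ x ∈ b :: β')
    (s2 : ∀ x ∈ F2, x ∈ a :: y :: u :: a' :: r ∨ x ∈ b :: β') :
    ∃ T₁ Z, PL V T σ p s ε ε' (a :: y :: u :: a' :: r) (b :: β') (a' :: r) T₁ Z := by
  have hps := h.qg.ps
  have hpn : ∀ x, x ∈ a :: y :: u :: a' :: r ∨ x ∈ b :: β' → x ≠ p ∧ x ≠ s := by
    intro x hx
    have h1 : x ∈ (a :: y :: u :: a' :: r) ++ (b :: β').reverse := by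
      rw [List.mem_append, List.mem_reverse]
      exact hx
    exact ⟨fun hh => h.qg.pn (hh ▸ h1), fun hh => h.qg.sn (hh ▸ h1)⟩
  set F0 : Finset (Ed 3) := {b, a, a'} with hF0
  have s0 : ∀ x ∈ F0, x ∈ a :: y :: u :: a' :: r ∨ x ∈ b :: β' := by
    intro x hx
    rw [hF0] at hx
    simp only [mem_insert, mem_singleton] at hx
    rcases hx with rfl | rfl | rfl <;> simp
  -- the third flip
  have e1 : (a :: a' :: (r ++ (b :: β').reverse)).rotate (a :: a' :: (r ++ β'.reverse)).length =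
      b :: a :: a' :: (r ++ β'.reverse) := by
    have e2 : a :: a' :: (r ++ (b :: β').reverse) = (a :: a' :: (r ++ β'.reverse)) ++ [b] := by
      simp
    rw [e2, List.rotate_append_length_eq]
    rfl
  have Q2' := qg_rot Q2 (a :: a' :: (r ++ β'.reverse)).length
  rw [e1] at Q2'
  have hr : r ++ β'.reverse ≠ [] := by
    intro hh
    exact hb (List.reverse_eq_nil_iff.mp (List.append_eq_nil_iff.mp hh).2)
  obtain ⟨Q3, q2, q3, q4, q5⟩ := qg_flip Q2' hr he
  have e3 : rg p s (b :: a :: a' :: (r ++ β'.reverse)) = rg p s (a :: a' :: (r ++ (b :: β').reverse)) := by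
    rw [← e1, rg_rot]
  have e4 : (b :: a' :: (r ++ β'.reverse)).rotate 1 = (a' :: r) ++ (b :: β').reverse := by
    simp
  have e5 : rg p s (b :: a' :: (r ++ β'.reverse)) = rg p s ((a' :: r) ++ (b :: β').reverse) := by
    rw [← e4, rg_rot]
  have Q3' := qg_rot Q3 1
  rw [e4] at Q3'
  rw [e3, e5] at q2
  rw [e3, e5] at q5
  have hpF : ∀ F : Finset (Ed 3), (∀ x ∈ F, x ∈ a :: y :: u :: a' :: r ∨ x ∈ b :: β') → p ∉ F ∧ s ∉ F :=
    fun F hF => ⟨fun hh => (hpn p (hF p hh)).1 rfl, fun hh => (hpn s (hF s hh)).2 rfl⟩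
  have S3 := S4_step hps (hpF F0 s0).1 (hpF F0 s0).2 (fun t ht => S4_both ht) (fun t ht => S4_both ht)
    S2 q2 q3 q4 q5
  -- levels
  have hεε : ε ≠ ε' := by
    rcases hε with ⟨rfl, rfl⟩ | ⟨rfl, rfl⟩
    · exact hps
    · exact hps.symm
  have hεF : ∀ F : Finset (Ed 3), (∀ x ∈ F, x ∈ a :: y :: u :: a' :: r ∨ x ∈ b :: β') → ε ∉ F ∧ ε' ∉ F := by
    intro F hF
    obtain ⟨h1, h2⟩ := hpF F hF
    rcases hε with ⟨h3, h4⟩ | ⟨h3, h4⟩
    · rw [h3, h4]
      exact ⟨h1, h2⟩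
    · rw [h3, h4]
      exact ⟨h2, h1⟩
  obtain ⟨f0, g0⟩ := hεF F0 s0
  obtain ⟨f1, g1⟩ := hεF F1 s1
  obtain ⟨f2, g2⟩ := hεF F2 s2
  have hZ : ∀ t, t ∈ [insert ε F0, insert ε F1, insert ε F2, insert ε' F2, insert ε' F1, insert ε' F0] ↔
      t ∈ ((∅ ∪ {insert p F2, insert s F2}) ∪ {insert p F1, insert s F1}) ∪
        ({insert p F0, insert s F0} : Finset (Finset (Ed 3))) := by
    intro t
    simp only [List.mem_cons, List.not_mem_nil, or_false, mem_union, mem_insert, mem_singleton,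
      notMem_empty, false_or]
    rcases hε with ⟨h3, h4⟩ | ⟨h3, h4⟩
    · rw [h3, h4]
      constructor
      · rintro (h5 | h5 | h5 | h5 | h5 | h5) <;> simp [h5]
      · rintro (((h5 | h5) | (h5 | h5)) | (h5 | h5)) <;> simp [h5]
    · rw [h3, h4]
      constructor
      · rintro (h5 | h5 | h5 | h5 | h5 | h5) <;> simp [h5]
      · rintro (((h5 | h5) | (h5 | h5)) | (h5 | h5)) <;> simp [h5]
  refine ⟨fl T2 p s b a a', [insert ε F0, insert ε F1, insert ε F2, insert ε' F2, insert ε' F1,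
    insert ε' F0], ?_⟩
  refine
    { sh := ?_, nd := ?_, ne := by simp, ch := ?_, hd := ?_, lt := ?_, sub := ?_, out := ?_,
      old := S3.old, eq := ?_, last := ?_, mem := ?_ }
  · refine ⟨Q3', by simp, by simp, ?_, h.b4⟩
    have h1 := h.a4
    simp only [List.length_cons] at h1 ⊢
    omega
  · simp only [List.nodup_cons, List.mem_cons, List.not_mem_nil, or_false, not_or, not_false_iff,
      List.nodup_nil, and_true]
    exact ⟨⟨S4_nn n01 f0 f1, S4_nn n02 f0 f2, S4_ne hεε f2, S4_ne hεε f1, S4_ne hεε f0⟩,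
      ⟨S4_nn n12 f1 f2, S4_ne hεε f2, S4_ne hεε f1, S4_ne hεε f0⟩,
      ⟨S4_ne hεε f2, S4_ne hεε f1, S4_ne hεε f0⟩,
      ⟨S4_nn n12.symm g2 g1, S4_nn n02.symm g2 g0⟩, S4_nn n01.symm g1 g0⟩
  · have k1 : ∀ (x : Ed 3) (A B : Finset (Ed 3)), x ∉ A → (A ∩ B).card = 2 →
        (insert x A ∩ insert x B).card = 3 := by
      intro x A B hx hc
      rw [← insert_inter_distrib, card_insert_of_notMem (fun hh => hx (mem_inter.mp hh).1), hc]
    have k2 : (insert ε F2 ∩ insert ε' F2).card = 3 := by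
      rw [S4_int hεε f2, c2]
    have i10 : (F1 ∩ F0).card = 2 := by rw [inter_comm]; exact i01
    have i21 : (F2 ∩ F1).card = 2 := by rw [inter_comm]; exact i12
    simp only [List.isChain_cons_cons, List.isChain_singleton, and_true]
    exact ⟨k1 ε F0 F1 f0 i01, k1 ε F1 F2 f1 i12, k2, k1 ε' F2 F1 g2 i21, k1 ε' F1 F0 g1 i10⟩
  · intro t ht a0 ha0 b0 hb0
    simp only [List.head?_cons, Option.mem_def, Option.some.injEq] at ht ha0 hb0
    rw [← ht, ← ha0, ← hb0, hF0]
    intro w hw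
    simp only [mem_insert, mem_singleton] at hw ⊢
    rcases hw with h5 | h5 | h5 <;> simp [h5]
  · intro t ht a0 ha0 b0 hb0
    simp only [List.head?_cons, Option.mem_def, Option.some.injEq, List.getLast?_cons_cons,
      List.getLast?_singleton] at ht ha0 hb0
    rw [← ht, ← ha0, ← hb0, hF0]
    intro w hw
    simp only [mem_insert, mem_singleton] at hw ⊢
    rcases hw with h5 | h5 | h5 <;> simp [h5]
  · intro t ht x hx
    have k1 : ∀ (e : Ed 3) (F : Finset (Ed 3)), (e = p ∨ e = s) →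
        (∀ x ∈ F, x ∈ a :: y :: u :: a' :: r ∨ x ∈ b :: β') → x ∈ insert e F →
        x = p ∨ x = s ∨ x ∈ a :: y :: u :: a' :: r ∨ x ∈ b :: β' := by
      intro e F he' hF hx'
      rcases mem_insert.mp hx' with h1 | h1
      · rw [h1]
        rcases he' with h2 | h2
        · exact Or.inl h2
        · exact Or.inr (Or.inl h2)
      · exact Or.inr (Or.inr (hF x h1))
    have k2 : ε = p ∨ ε = s := by
      rcases hε with ⟨h3, h4⟩ | ⟨h3, h4⟩
      · exact Or.inl h3
      · exact Or.inr h3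
    have k3 : ε' = p ∨ ε' = s := by
      rcases hε with ⟨h3, h4⟩ | ⟨h3, h4⟩
      · exact Or.inr h4
      · exact Or.inl h4
    simp only [List.mem_cons, List.not_mem_nil, or_false] at ht
    rcases ht with rfl | rfl | rfl | rfl | rfl | rfl
    · exact k1 ε F0 k2 s0 hx
    · exact k1 ε F1 k2 s1 hx
    · exact k1 ε F2 k2 s2 hx
    · exact k1 ε' F2 k3 s2 hx
    · exact k1 ε' F1 k3 s1 hx
    · exact k1 ε' F0 k3 s0 hx
  · intro t ht
    have h1 := S3.out t ((hZ t).mp ht)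
    exact ⟨h1.1, fun h2 => h1.2 (S4_both h2)⟩
  · have h1 := S3.eq
    rw [h1]
    congr 1
    ext t
    rw [List.mem_toFinset, hZ t]
  · simp [List.getLast?_cons_cons]
  · intro x hx
    simp only [List.mem_cons] at hx ⊢
    rcases hx with h5 | h5
    · exact Or.inr (Or.inr (Or.inr (Or.inl h5)))
    · exact Or.inr (Or.inr (Or.inr (Or.inr h5)))

theorem peel2a {V : Finset (Ed 3)} {T : Finset (Finset (Ed 3))} {σ : ℝ} {p s ε ε' a y u a' b : Ed 3}
    {r β' : List (Ed 3)} (h : SH V T σ p s (a :: y :: u :: a' :: r) (b :: β')) (hb : β' ≠ [])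
    (h1 : Er σ p s a y u) (h2 : Er σ p s a u a') (he : Er σ p s b a a')
    (hε : (ε = p ∧ ε' = s) ∨ (ε = s ∧ ε' = p)) :
    ∃ T₁ Z, PL V T σ p s ε ε' (a :: y :: u :: a' :: r) (b :: β') (a' :: r) T₁ Z := by
  have hps := h.qg.ps
  have hnd := h.qg.pg.nodup
  have hpn := h.qg.pn
  have hsn := h.qg.sn
  have eL : (a :: y :: u :: a' :: r) ++ (b :: β').reverse =
      a :: y :: u :: a' :: (r ++ (b :: β').reverse) := rfl
  have Q0 := h.qg
  rw [eL] at Q0 hnd hpn hsn
  have hbL : b ∈ r ++ (b :: β').reverse := by simp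
  simp only [List.nodup_cons, List.mem_cons, not_or] at hnd hpn hsn
  obtain ⟨⟨day, dau, daa', daW⟩, ⟨dyu, dya', dyW⟩, ⟨dua', duW⟩, da'W, -⟩ := hnd
  obtain ⟨pa, py, pu, pa', -⟩ := hpn
  obtain ⟨sa, sy, su, sa', -⟩ := hsn
  have dab : a ≠ b := fun hh => daW (hh ▸ hbL)
  have dyb : y ≠ b := fun hh => dyW (hh ▸ hbL)
  have dub : u ≠ b := fun hh => duW (hh ▸ hbL)
  have da'b : a' ≠ b := fun hh => da'W (hh ▸ hbL)
  have S0 := S4_start Q0
  obtain ⟨Q1, q2, q3, q4, q5⟩ := qg_flip Q0 (List.cons_ne_nil _ _) h1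
  have S1 := S4_step (F := {a, y, u}) hps (by simp [pa, py, pu]) (by simp [sa, sy, su])
    (fun t ht => S4_both ht) (fun t ht => S4_both ht) S0 q2 q3 q4 q5
  have hW : r ++ (b :: β').reverse ≠ [] := List.ne_nil_of_mem hbL
  obtain ⟨Q2, w2, w3, w4, w5⟩ := qg_flip Q1 hW h2
  have S2 := S4_step (F := {a, u, a'}) hps (by simp [pa, pu, pa']) (by simp [sa, su, sa'])
    (fun t ht => S4_both ht) (fun t ht => S4_both ht) S1 w2 w3 w4 w5
  refine S4_end (F1 := {a, u, a'}) (F2 := {a, y, u}) h hb he hε Q2 S2 (S4_c3 day dau dyu)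
    ?_ ?_ ?_ ?_ ?_ ?_ ?_
  · exact S4_c2 (x := b) (y := u) (u := a) (v := a') rfl (S4_sw _ _ _) dub.symm dab.symm da'b.symm
      daa'
  · exact S4_c2 (x := a') (y := y) (u := a) (v := u) (S4_rot _ _ _) (S4_sw _ _ _) (Ne.symm dya')
      (Ne.symm daa') (Ne.symm dua') dau
  · intro hh
    have h3 : b ∈ ({a, u, a'} : Finset (Ed 3)) := by
      rw [← hh]
      simp
    simp only [mem_insert, mem_singleton] at h3
    rcases h3 with h3 | h3 | h3
    · exact dab h3.symm
    · exact dub h3.symm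
    · exact da'b h3.symm
  · intro hh
    have h3 : b ∈ ({a, y, u} : Finset (Ed 3)) := by
      rw [← hh]
      simp
    simp only [mem_insert, mem_singleton] at h3
    rcases h3 with h3 | h3 | h3
    · exact dab h3.symm
    · exact dyb h3.symm
    · exact dub h3.symm
  · intro hh
    have h3 : a' ∈ ({a, y, u} : Finset (Ed 3)) := by
      rw [← hh]
      simp
    simp only [mem_insert, mem_singleton] at h3
    rcases h3 with h3 | h3 | h3
    · exact daa' h3.symm
    · exact dya' h3.symm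
    · exact dua' h3.symm
  · intro x hx
    simp only [mem_insert, mem_singleton] at hx
    rcases hx with rfl | rfl | rfl <;> simp
  · intro x hx
    simp only [mem_insert, mem_singleton] at hx
    rcases hx with rfl | rfl | rfl <;> simp

theorem peel2b {V : Finset (Ed 3)} {T : Finset (Finset (Ed 3))} {σ : ℝ} {p s ε ε' a y u a' b : Ed 3}
    {r β' : List (Ed 3)} (h : SH V T σ p s (a :: y :: u :: a' :: r) (b :: β')) (hb : β' ≠ [])
    (h1 : Er σ p s y u a') (h2 : Er σ p s a y a') (he : Er σ p s b a a')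
    (hε : (ε = p ∧ ε' = s) ∨ (ε = s ∧ ε' = p)) :
    ∃ T₁ Z, PL V T σ p s ε ε' (a :: y :: u :: a' :: r) (b :: β') (a' :: r) T₁ Z := by
  have hps := h.qg.ps
  have hnd := h.qg.pg.nodup
  have hpn := h.qg.pn
  have hsn := h.qg.sn
  have eL : (a :: y :: u :: a' :: r) ++ (b :: β').reverse =
      a :: y :: u :: a' :: (r ++ (b :: β').reverse) := rfl
  have Q0 := h.qg
  rw [eL] at Q0 hnd hpn hsn
  have hbL : b ∈ r ++ (b :: β').reverse := by simp
  simp only [List.nodup_cons, List.mem_cons, not_or] at hnd hpn hsn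
  obtain ⟨⟨day, dau, daa', daW⟩, ⟨dyu, dya', dyW⟩, ⟨dua', duW⟩, da'W, -⟩ := hnd
  obtain ⟨pa, py, pu, pa', -⟩ := hpn
  obtain ⟨sa, sy, su, sa', -⟩ := hsn
  have dab : a ≠ b := fun hh => daW (hh ▸ hbL)
  have dyb : y ≠ b := fun hh => dyW (hh ▸ hbL)
  have dub : u ≠ b := fun hh => duW (hh ▸ hbL)
  have da'b : a' ≠ b := fun hh => da'W (hh ▸ hbL)
  have S0 := S4_start Q0
  set W := r ++ (b :: β').reverse with hWdef
  have e1 : (a :: y :: u :: a' :: W).rotate 1 = y :: u :: a' :: (W ++ [a]) := by simp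
  have Q0' := qg_rot Q0 1
  rw [e1] at Q0'
  obtain ⟨Q1, q2, q3, q4, q5⟩ := qg_flip Q0' (by simp) h1
  have e2 : (y :: a' :: (W ++ [a])).rotate (y :: a' :: W).length = a :: y :: a' :: W := by
    have e3 : y :: a' :: (W ++ [a]) = (y :: a' :: W) ++ [a] := rfl
    rw [e3, List.rotate_append_length_eq]
    rfl
  have e4 : rg p s (y :: u :: a' :: (W ++ [a])) = rg p s (a :: y :: u :: a' :: W) := by
    rw [← e1, rg_rot]
  have e5 : rg p s (y :: a' :: (W ++ [a])) = rg p s (a :: y :: a' :: W) := by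
    rw [← e2, rg_rot]
  have Q1' := qg_rot Q1 (y :: a' :: W).length
  rw [e2] at Q1'
  rw [e4, e5] at q2
  rw [e4, e5] at q5
  have S1 := S4_step (F := {y, u, a'}) hps (by simp [py, pu, pa']) (by simp [sy, su, sa'])
    (fun t ht => S4_both ht) (fun t ht => S4_both ht) S0 q2 q3 q4 q5
  have hW : W ≠ [] := List.ne_nil_of_mem hbL
  obtain ⟨Q2, w2, w3, w4, w5⟩ := qg_flip Q1' hW h2
  have S2 := S4_step (F := {a, y, a'}) hps (by simp [pa, py, pa']) (by simp [sa, sy, sa'])
    (fun t ht => S4_both ht) (fun t ht => S4_both ht) S1 w2 w3 w4 w5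
  refine S4_end (F1 := {a, y, a'}) (F2 := {y, u, a'}) h hb he hε Q2 S2 (S4_c3 dyu dya' dua')
    ?_ ?_ ?_ ?_ ?_ ?_ ?_
  · exact S4_c2 (x := b) (y := y) (u := a) (v := a') rfl (S4_sw _ _ _) dyb.symm dab.symm da'b.symm
      daa'
  · exact S4_c2 (x := a) (y := u) (u := y) (v := a') rfl (S4_sw _ _ _) dau day daa' dya'
  · intro hh
    have h3 : b ∈ ({a, y, a'} : Finset (Ed 3)) := by
      rw [← hh]
      simp
    simp only [mem_insert, mem_singleton] at h3
    rcases h3 with h3 | h3 | h3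
    · exact dab h3.symm
    · exact dyb h3.symm
    · exact da'b h3.symm
  · intro hh
    have h3 : b ∈ ({y, u, a'} : Finset (Ed 3)) := by
      rw [← hh]
      simp
    simp only [mem_insert, mem_singleton] at h3
    rcases h3 with h3 | h3 | h3
    · exact dyb h3.symm
    · exact dub h3.symm
    · exact da'b h3.symm
  · intro hh
    have h3 : a ∈ ({y, u, a'} : Finset (Ed 3)) := by
      rw [← hh]
      simp
    simp only [mem_insert, mem_singleton] at h3
    rcases h3 with h3 | h3 | h3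
    · exact day h3
    · exact dau h3
    · exact daa' h3
  · intro x hx
    simp only [mem_insert, mem_singleton] at hx
    rcases hx with rfl | rfl | rfl <;> simp
  · intro x hx
    simp only [mem_insert, mem_singleton] at hx
    rcases hx with rfl | rfl | rfl <;> simp

end Pool.Agent.LibSt23
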