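import Pool.Agent.LibSt23.S0

/-!
[ST23 S5] (MEDIUM) A column and a strand. `Z'` from `hi`: the list is `Z ++ Z'`. `PL.eq`, `PL.out` (second part) and `PL.old` give `T₁ \ rg (α' ++ β.reverse) = (T \ rg (α ++ β.reverse)) ∪ Z.toFinset`. So the final set is the same: `(T \ rg) ∪ Z.toFinset ∪ Z'.toFinset`. `Z, Z'` disjoint because `Z'` avoids `T₁ \ rg'`. Chain: `List.isChain_append`: the last member `t` of `Z` contains `{ε', a, b}`, the first `u` of `Z'` contains `{ε', a, b}` (`a` = head of `α'`, `b` = head of `β`; `α', β ≠ []` by `PL.sh`), `t ≠ u`, both have 4 elements (`TetD.mem` of the final set), so `(t ∩ u).card = 3` (it is at least 3: `ε', a, b` are different: `ε' ∈ {p, s}` is not in the polygon, `a ≠ b` by nodup of `α' ++ β.reverse`). Head and last: `PL.hd`; `PL.last`. `sub`: `PL.mem`.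
-/

set_option autoImplicit false

namespace Pool.Agent.LibSt23

open Finset Pool.Agent.LibPol19 Pool.Agent.LibTet88 Pool.Agent.LibTet23
open scoped Classical

private theorem S5_card {t u : Finset (Ed 3)} {a b c : Ed 3} (hab : a ≠ b) (hac : a ≠ c) (hbc : b ≠ c)
    (ht : ({a, b, c} : Finset (Ed 3)) ⊆ t) (hu : ({a, b, c} : Finset (Ed 3)) ⊆ u) (h4 : t.card = 4) (h4' : u.card = 4)
    (hne : t ≠ u) : (t ∩ u).card = 3 := by
  have h1 : ({a, b, c} : Finset (Ed 3)).card = 3 := by
    rw [Finset.card_eq_three]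
    exact ⟨a, b, c, hab, hac, hbc, rfl⟩
  have h2 : ({a, b, c} : Finset (Ed 3)) ⊆ t ∩ u := Finset.subset_inter ht hu
  have h3 := Finset.card_le_card h2
  have h5 : (t ∩ u).card ≤ 4 := by
    rw [← h4]
    exact Finset.card_le_card Finset.inter_subset_left
  have h6 : (t ∩ u).card ≠ 4 := by
    intro h7
    have h8 : t ∩ u = t := Finset.eq_of_subset_of_card_le Finset.inter_subset_left (by rw [h7, h4])
    have h9 : t ∩ u = u := Finset.eq_of_subset_of_card_le Finset.inter_subset_right (by rw [h7, h4'])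
    exact hne (h8.symm.trans h9)
  omega

theorem sg_step {V : Finset (Ed 3)} {T T₁ : Finset (Finset (Ed 3))} {σ : ℝ} {p s ε ε' δ : Ed 3}
    {α β α' : List (Ed 3)} {Z : List (Finset (Ed 3))} (hε' : ε' = p ∨ ε' = s)
    (hp : PL V T σ p s ε ε' α β α' T₁ Z) (hi : SG V T₁ p s ε' δ α' β) : SG V T p s ε δ α β := by
  obtain ⟨Z', hS, hT, hd⟩ := hi
  have hC : T₁ \ rg p s (α' ++ β.reverse) = (T \ rg p s (α ++ β.reverse)) ∪ Z.toFinset := by
    ext x
    rw [Finset.mem_sdiff, hp.eq, Finset.mem_union, Finset.mem_union, Finset.mem_union, Finset.mem_sdiff,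
      List.mem_toFinset]
    constructor
    · rintro ⟨(h1 | h1) | h1, h2⟩
      · exact Or.inl h1
      · exact absurd h1 h2
      · exact Or.inr h1
    · rintro (h1 | h1)
      · exact ⟨Or.inl (Or.inl h1), fun h2 => h1.2 (hp.old x h2 h1.1)⟩
      · exact ⟨Or.inr h1, (hp.out x h1).2⟩
  have hF : (T \ rg p s (α ++ β.reverse)) ∪ (Z ++ Z').toFinset =
      (T₁ \ rg p s (α' ++ β.reverse)) ∪ Z'.toFinset := by
    rw [hC, List.toFinset_append, Finset.union_assoc]
  have hdis : ∀ t ∈ Z, t ∉ Z' := by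
    intro t ht ht'
    refine hd t ht' ?_
    rw [hC]
    exact Finset.mem_union_right _ (List.mem_toFinset.2 ht)
  refine ⟨Z ++ Z', ⟨?_, ?_, ?_, ?_, ?_, ?_⟩, ?_, ?_⟩
  · refine List.Nodup.append hp.nd hS.nd ?_
    intro t ht ht'
    exact hdis t ht ht'
  · intro h
    exact hp.ne (List.append_eq_nil_iff.1 h).1
  · refine List.isChain_append.2 ⟨hp.ch, hS.ch, ?_⟩
    intro t ht u hu
    have htZ : t ∈ Z := List.mem_of_mem_getLast? ht
    have huZ : u ∈ Z' := List.mem_of_mem_head? hu
    have hne : t ≠ u := by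
      rintro rfl
      exact hdis t htZ huZ
    have hcard : ∀ x ∈ Z ++ Z', x.card = 4 := by
      intro x hx
      refine (hT.mem x ?_).2.1
      rw [← hF]
      exact Finset.mem_union_right _ (List.mem_toFinset.2 hx)
    obtain ⟨a, α₁, ha⟩ := List.exists_cons_of_ne_nil hp.sh.a1
    obtain ⟨b, β₁, hb⟩ := List.exists_cons_of_ne_nil hp.sh.b1
    have h1 := hp.lt t ht a (by rw [ha]; rfl) b (by rw [hb]; rfl)
    have h2 := hS.hd u hu a (by rw [ha]; rfl) b (by rw [hb]; rfl)
    have haM : a ∈ α' ++ β.reverse := List.mem_append_left _ (by rw [ha]; exact List.mem_cons_self)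
    have hbM' : b ∈ β.reverse := List.mem_reverse.2 (by rw [hb]; exact List.mem_cons_self)
    have hbM : b ∈ α' ++ β.reverse := List.mem_append_right _ hbM'
    have hab : a ≠ b := by
      rintro rfl
      have h3 := hp.sh.qg.pg.nodup
      rw [List.nodup_append] at h3
      exact h3.2.2 a (by rw [ha]; exact List.mem_cons_self) a hbM' rfl
    have hεM : ε' ∉ α' ++ β.reverse := by
      rcases hε' with h | h
      · rw [h]
        exact hp.sh.qg.pn
      · rw [h]
        exact hp.sh.qg.sn
    refine S5_card ?_ ?_ hab h1 h2 (hcard t (List.mem_append_left _ htZ)) (hcard u (List.mem_append_right _ huZ)) hne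
    · rintro rfl
      exact hεM haM
    · rintro rfl
      exact hεM hbM
  · intro t ht a ha b hb
    refine hp.hd t ?_ a ha b hb
    obtain ⟨z, Z₁, hz⟩ := List.exists_cons_of_ne_nil hp.ne
    rw [hz] at ht ⊢
    exact ht
  · intro t ht a ha b hb
    refine hS.lt t ?_ a ?_ b hb
    · rw [List.getLast?_append] at ht
      rw [List.getLast?_eq_some_getLast hS.ne] at ht ⊢
      exact ht
    · rw [hp.last]
      exact ha
  · intro t ht x hx
    rcases List.mem_append.1 ht with h | h
    · exact hp.sub t h x hx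
    · rcases hS.sub t h x hx with h1 | h1 | h1 | h1
      · exact Or.inl h1
      · exact Or.inr (Or.inl h1)
      · exact Or.inr (Or.inr (Or.inl (hp.mem x h1)))
      · exact Or.inr (Or.inr (Or.inr h1))
  · rw [hF]
    exact hT
  · intro t ht
    rcases List.mem_append.1 ht with h | h
    · intro h1
      exact (hp.out t h).1 (Finset.mem_sdiff.1 h1).1
    · intro h1
      refine hd t h ?_
      rw [hC]
      exact Finset.mem_union_left _ h1

end Pool.Agent.LibSt23
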