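import Pool.Agent.LibSt23.S1
import Pool.Agent.LibSt23.S3
import Pool.Agent.LibSt23.S4
import Pool.Agent.LibSt23.S5
import Pool.Agent.LibSt23.F3

/-!
[ST23 S6] (MEDIUM) THE STRAND LEMMA. Strong induction on `α.length + β.length` (for all `T, σ, α, β, ε, δ`). If one length is 1: `sg_base`. Otherwise `fat_ear`. Claim: `SH V T σ p s α β`, `FL σ p s α β`, `2 ≤ β.length` imply `SG V T p s ε δ α β` for all `ε, δ ∈ {p, s}`: `α = a :: (m ++ a' :: r)`, `β = b :: β'`, `β' ≠ []`; cases of `Pk` (`m = []`, `[y]`, `[y, u]`): `peel0`, `peel1`, `peel2a`, `peel2b` with `ε'` the other one of `p, s`; the induction hypothesis for `PL.sh` (`a' :: r` is shorter) and `ε', δ`; `sg_step`. The other three cases of `fat_ear`: `sh_swap`, `sg_swap`; `sh_rev`, `sg_rev` (with `δ, ε`); both (the total length is the same, so prove the claim first for all lists of the given total length).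
-/

set_option autoImplicit false

namespace Pool.Agent.LibSt23

open Finset Pool.Agent.LibPol19 Pool.Agent.LibTet88 Pool.Agent.LibTet23
open scoped Classical

private theorem S6_fl {V : Finset (Ed 3)} {p s : Ed 3} {n : ℕ}
    (ih : ∀ (T : Finset (Finset (Ed 3))) (σ : ℝ) (ε δ : Ed 3) (α β : List (Ed 3)),
      α.length + β.length < n → SH V T σ p s α β → (ε = p ∨ ε = s) → (δ = p ∨ δ = s) →
      SG V T p s ε δ α β)
    {T : Finset (Finset (Ed 3))} {σ : ℝ} {ε δ : Ed 3} {α β : List (Ed 3)}
    (hn : α.length + β.length = n) (h : SH V T σ p s α β) (hε : ε = p ∨ ε = s) (hδ : δ = p ∨ δ = s)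
    (hF : FL σ p s α β) (hb : 2 ≤ β.length) : SG V T p s ε δ α β := by
  obtain ⟨a, m, a', r, b, β', hα, hβ, hPk, hEr⟩ := hF
  subst hβ
  have hb' : β' ≠ [] := by
    rintro rfl
    simp at hb
  obtain ⟨ε', hεε, hε'⟩ : ∃ ε', ((ε = p ∧ ε' = s) ∨ (ε = s ∧ ε' = p)) ∧ (ε' = p ∨ ε' = s) := by
    rcases hε with h1 | h1
    · exact ⟨s, Or.inl ⟨h1, rfl⟩, Or.inr rfl⟩
    · exact ⟨p, Or.inr ⟨h1, rfl⟩, Or.inl rfl⟩
  have step : (∃ T₁ Z, PL V T σ p s ε ε' α (b :: β') (a' :: r) T₁ Z) → SG V T p s ε δ α (b :: β') := by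
    rintro ⟨T₁, Z, hp⟩
    refine sg_step hε' hp (ih T₁ σ ε' δ (a' :: r) (b :: β') ?_ hp.sh hε' hδ)
    rw [← hn, hα]
    simp only [List.length_cons, List.length_append]
    omega
  apply step
  subst hα
  have key : ∀ L, Pk σ p s L → L = a :: (m ++ [a']) →
      ∃ T₁ Z, PL V T σ p s ε ε' (a :: (m ++ a' :: r)) (b :: β') (a' :: r) T₁ Z := by
    intro L hL hLm
    cases hL with
    | two x z =>
      rcases m with _ | ⟨y, m⟩
      · exact peel0 h hb' hEr hεε
      · simp at hLm
    | three x y z h1 =>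
      rcases m with _ | ⟨y', _ | ⟨u', m⟩⟩
      · simp at hLm
      · simp only [List.cons_append, List.nil_append, List.cons.injEq, and_true] at hLm
        obtain ⟨rfl, rfl, rfl⟩ := hLm
        exact peel1 h hb' h1 hEr hεε
      · simp at hLm
    | four1 x y u z h1 h2 =>
      rcases m with _ | ⟨y', _ | ⟨u', _ | ⟨v', m⟩⟩⟩
      · simp at hLm
      · simp at hLm
      · simp only [List.cons_append, List.nil_append, List.cons.injEq, and_true] at hLm
        obtain ⟨rfl, rfl, rfl, rfl⟩ := hLm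
        exact peel2a h hb' h1 h2 hEr hεε
      · simp at hLm
    | four2 x y u z h1 h2 =>
      rcases m with _ | ⟨y', _ | ⟨u', _ | ⟨v', m⟩⟩⟩
      · simp at hLm
      · simp at hLm
      · simp only [List.cons_append, List.nil_append, List.cons.injEq, and_true] at hLm
        obtain ⟨rfl, rfl, rfl, rfl⟩ := hLm
        exact peel2b h hb' h1 h2 hEr hεε
      · simp at hLm
  exact key _ hPk rfl

private theorem S6_ind {V : Finset (Ed 3)} {p s : Ed 3} (n : ℕ) :
    ∀ (T : Finset (Finset (Ed 3))) (σ : ℝ) (ε δ : Ed 3) (α β : List (Ed 3)),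
      α.length + β.length = n → SH V T σ p s α β → (ε = p ∨ ε = s) → (δ = p ∨ δ = s) →
      SG V T p s ε δ α β := by
  induction n using Nat.strong_induction_on with
  | _ n ih0 =>
    have ih : ∀ (T : Finset (Finset (Ed 3))) (σ : ℝ) (ε δ : Ed 3) (α β : List (Ed 3)),
        α.length + β.length < n → SH V T σ p s α β → (ε = p ∨ ε = s) → (δ = p ∨ δ = s) →
        SG V T p s ε δ α β :=
      fun T σ ε δ α β hlt h hε hδ => ih0 _ hlt T σ ε δ α β rfl h hε hδ
    intro T σ ε δ α β hn h hε hδ
    by_cases h1 : α.length = 1 ∨ β.length = 1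
    · exact sg_base h h1 hε hδ
    · rw [not_or] at h1
      have ha0 : 0 < α.length := List.length_pos_of_ne_nil h.a1
      have hb0 : 0 < β.length := List.length_pos_of_ne_nil h.b1
      have ha2 : 2 ≤ α.length := by omega
      have hb2 : 2 ≤ β.length := by omega
      rcases fat_ear h.qg.pg ha2 h.a4 hb2 h.b4 with hF | hF | hF | hF
      · exact S6_fl ih hn h hε hδ hF hb2
      · exact sg_swap (S6_fl ih (by omega) (sh_swap h) hε hδ hF ha2)
      · refine sg_rev (S6_fl ih (by simp only [List.length_reverse]; omega) (sh_rev h) hδ hε hF ?_)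
        rw [List.length_reverse]
        exact hb2
      · have h2 : SH V T σ p s β.reverse α.reverse := by
          have h3 := sh_swap (sh_rev h)
          rwa [neg_neg] at h3
        refine sg_rev (sg_swap (S6_fl ih (by simp only [List.length_reverse]; omega) h2 hδ hε hF ?_))
        rw [List.length_reverse]
        exact ha2

theorem strand {V : Finset (Ed 3)} {T : Finset (Finset (Ed 3))} {σ : ℝ} {p s ε δ : Ed 3} {α β : List (Ed 3)}
    (h : SH V T σ p s α β) (hε : ε = p ∨ ε = s) (hδ : δ = p ∨ δ = s) : SG V T p s ε δ α β :=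
  S6_ind _ T σ ε δ α β rfl h hε hδ

end Pool.Agent.LibSt23
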