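import Pool.Agent.LibSt23.A4
import Pool.Agent.LibSt23.A1
import Pool.Agent.LibSt23.S6

/-!
[ST23 A5] (MEDIUM/LONG) All stars are replaced. For every subset `S' ⊆ S`, by induction (`Finset.induction_on`), there is `Z` with the conclusion for `S'` in place of `S`. Step `insert s S'`: `T' := (Tp V p \ ⋃ rg) ∪ ⋃ Z` for `S'`. The ring tetrahedra of `s` are in `Tp V p` (`tp_star`, `Lk.fac`) and not in the ring of another `s' ∈ S` (a member of that ring is `⊆ {p, s'} ∪ link s'` and does not contain `s`: `Lk.mem`, `ind`, `s ≠ p`), so they are in `T'`. `exists_sh` and `strand` with `ε = δ = p` (`Or.inl rfl`): the list `Z s`, `TetD V ((T' \ rg s) ∪ (Z s).toFinset)`, `Z s` avoids `T' \ rg s`. The members of the `Z s'` (`Strd.sub`) do not contain `s`, so they are not in `rg s`: `T' \ rg s = (Tp \ (⋃ rg ∪ rg s)) ∪ ⋃ Z`. Disjointness of `Z s` and `Z s'`: `Z s` avoids `T' \ rg s`.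
-/

set_option autoImplicit false

namespace Pool.Agent.LibSt23

open Finset Pool.Agent.LibPol19 Pool.Agent.LibTet88 Pool.Agent.LibTet23
open scoped Classical

private theorem A5_prs {α : Type*} {l : List α} {q : α × α} (hq : q ∈ prs l) : q.1 ∈ l ∧ q.2 ∈ l := by
  unfold prs at hq
  have h1 := List.of_mem_zip (a := q.1) (b := q.2) hq
  exact ⟨h1.1, List.mem_rotate.mp h1.2⟩

private theorem A5_rg {p s : Ed 3} {l : List (Ed 3)} {t : Finset (Ed 3)} :
    t ∈ rg p s l ↔ ∃ q ∈ prs l, ({p, s, q.1, q.2} : Finset (Ed 3)) = t := by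
  unfold rg
  rw [List.mem_toFinset, List.mem_map]

private theorem A5_mem {p s x : Ed 3} {l : List (Ed 3)} {t : Finset (Ed 3)} (ht : t ∈ rg p s l) (hx : x ∈ t) :
    x = p ∨ x = s ∨ x ∈ l := by
  obtain ⟨q, hq, rfl⟩ := A5_rg.mp ht
  obtain ⟨h1, h2⟩ := A5_prs hq
  simp only [Finset.mem_insert, Finset.mem_singleton] at hx
  rcases hx with rfl | rfl | rfl | rfl
  · exact Or.inl rfl
  · exact Or.inr (Or.inl rfl)
  · exact Or.inr (Or.inr h1)
  · exact Or.inr (Or.inr h2)

private theorem A5_self {p s : Ed 3} {l : List (Ed 3)} {t : Finset (Ed 3)} (ht : t ∈ rg p s l) : s ∈ t := by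
  obtain ⟨q, -, rfl⟩ := A5_rg.mp ht
  simp

private theorem A5_tri {Φ : Finset (Finset (Ed 3))} {x y z : Ed 3} {F : Finset (Ed 3)} (hF : F ∈ Φ)
    (hx : ∀ w, w ∈ F ↔ w = x ∨ w = y ∨ w = z) : ({x, y, z} : Finset (Ed 3)) ∈ Φ := by
  have h1 : F = {x, y, z} := by
    ext w
    rw [hx w]
    simp only [Finset.mem_insert, Finset.mem_singleton]
  exact h1 ▸ hF

private theorem A5_step {V : Finset (Ed 3)} (hS : SV V) (hG : Gp V) {p : Ed 3} {S A B e₁ e₂ : Finset (Ed 3)}
    (h : StrS V (fc V) p S A B e₁ e₂) {a b : Ed 3 → List (Ed 3)}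
    (hl : ∀ s ∈ S, Lk (fc V) s A B (a s) (b s) ∧ (a s).length ≤ 4 ∧ (b s).length ≤ 4) (S' : Finset (Ed 3)) :
    S' ⊆ S → ∃ Z : Ed 3 → List (Finset (Ed 3)), (∀ s ∈ S', Strd p s p p (a s) (b s) (Z s)) ∧
      TetD V ((Tp V p \ S'.biUnion fun s => rg p s (a s ++ (b s).reverse)) ∪ S'.biUnion fun s => (Z s).toFinset) ∧
      (∀ s ∈ S', ∀ t ∈ Z s, t ∉ Tp V p \ S'.biUnion fun s => rg p s (a s ++ (b s).reverse)) ∧
      ∀ s ∈ S', ∀ s' ∈ S', s ≠ s' → ∀ t ∈ Z s, t ∉ Z s' := by
  refine Finset.induction_on S' ?_ ?_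
  · intro _
    refine ⟨fun _ => [], fun s hs => absurd hs (Finset.notMem_empty s), ?_,
      fun s hs => absurd hs (Finset.notMem_empty s), fun s hs => absurd hs (Finset.notMem_empty s)⟩
    have h1 := tp_tet hS h.pV
    simpa using h1
  · intro s S' hs ih hsub
    have sS : s ∈ S := hsub (Finset.mem_insert_self s S')
    have hS' : S' ⊆ S := fun x hx => hsub (Finset.mem_insert_of_mem hx)
    obtain ⟨Z', z1, z2, z3, z4⟩ := ih hS'
    obtain ⟨hls, ha, hb⟩ := hl s sS
    have ps : p ≠ s := fun e => h.pS (e ▸ sS)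
    have sV : s ∈ V := (h.cov s).mpr (Or.inr (Or.inl sS))
    -- a member of the link of `s'` is not `s`
    have far : ∀ s' ∈ S', ∀ x, (x = p ∨ x = s' ∨ x ∈ a s' ++ (b s').reverse) → x ≠ s := by
      rintro s' hs' x (rfl | rfl | hx)
      · exact ps
      · rintro rfl
        exact hs hs'
      · rintro rfl
        exact h.ind s' (hS' hs') x sS (((hl s' (hS' hs')).1.mem x).mp hx)
    have farR : ∀ s' ∈ S', ∀ t ∈ rg p s' (a s' ++ (b s').reverse), s ∉ t := by
      intro s' hs' t ht hst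
      exact far s' hs' s (A5_mem ht hst) rfl
    have farZ : ∀ s' ∈ S', ∀ t ∈ Z' s', s ∉ t := by
      intro s' hs' t ht hst
      refine far s' hs' s ?_ rfl
      rcases (z1 s' hs').sub t ht s hst with h1 | h1 | h1 | h1
      · exact Or.inl h1
      · exact Or.inr (Or.inl h1)
      · exact Or.inr (Or.inr (List.mem_append.mpr (Or.inl h1)))
      · exact Or.inr (Or.inr (List.mem_append.mpr (Or.inr (List.mem_reverse.mpr h1))))
    have ringT : ∀ q ∈ prs (a s ++ (b s).reverse), ({p, s, q.1, q.2} : Finset (Ed 3)) ∈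
        (Tp V p \ S'.biUnion fun s => rg p s (a s ++ (b s).reverse)) ∪ S'.biUnion fun s => (Z' s).toFinset := by
      intro q hq
      refine Finset.mem_union_left _ (Finset.mem_sdiff.mpr ⟨tp_star hS ps (h.np s sS)
        (A5_tri (hls.fac q hq) (by simp)), ?_⟩)
      intro hmem
      obtain ⟨s', hs', ht⟩ := Finset.mem_biUnion.mp hmem
      exact farR s' hs' _ ht (by simp)
    obtain ⟨σ, hsh⟩ := exists_sh hS hG z2 h.pV sV ps (h.np s sS) hls ha hb ringT
    obtain ⟨Zs, w1, w2, w3⟩ := strand hsh (Or.inl rfl : p = p ∨ p = s) (Or.inl rfl : p = p ∨ p = s)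
    have hup : ∀ s' ∈ S', Function.update Z' s Zs s' = Z' s' := by
      intro s' hs'
      rw [Function.update_of_ne]
      rintro rfl
      exact hs hs'
    have hus : Function.update Z' s Zs s = Zs := Function.update_self s Zs Z'
    -- the old tetrahedra
    have hZb : (S'.biUnion fun s' => (Function.update Z' s Zs s').toFinset) =
        S'.biUnion fun s' => (Z' s').toFinset := by
      refine Finset.biUnion_congr rfl ?_
      intro s' hs'
      rw [hup s' hs']
    have hset : ((Tp V p \ S'.biUnion fun s => rg p s (a s ++ (b s).reverse)) ∪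
          S'.biUnion fun s => (Z' s).toFinset) \ rg p s (a s ++ (b s).reverse) =
        (Tp V p \ (insert s S').biUnion fun s => rg p s (a s ++ (b s).reverse)) ∪
          S'.biUnion fun s => (Z' s).toFinset := by
      ext t
      rw [Finset.biUnion_insert]
      simp only [Finset.mem_sdiff, Finset.mem_union]
      constructor
      · rintro ⟨h1 | h1, h2⟩
        · exact Or.inl ⟨h1.1, fun h3 => h3.elim h2 h1.2⟩
        · exact Or.inr h1
      · rintro (⟨h1, h2⟩ | h1)
        · exact ⟨Or.inl ⟨h1, fun h3 => h2 (Or.inr h3)⟩, fun h3 => h2 (Or.inl h3)⟩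
        · refine ⟨Or.inr h1, fun h3 => ?_⟩
          obtain ⟨s', hs', ht⟩ := Finset.mem_biUnion.mp h1
          exact farZ s' hs' t (List.mem_toFinset.mp ht) (A5_self h3)
    rw [hset] at w2 w3
    refine ⟨Function.update Z' s Zs, ?_, ?_, ?_, ?_⟩
    · intro s' hs'
      rcases Finset.mem_insert.mp hs' with rfl | hs'
      · rw [hus]
        exact w1
      · rw [hup s' hs']
        exact z1 s' hs'
    · rw [Finset.biUnion_insert (s := S') (a := s) (t := fun s' => (Function.update Z' s Zs s').toFinset), hus, hZb,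
        Finset.union_comm Zs.toFinset, ← Finset.union_assoc]
      exact w2
    · intro s' hs' t ht
      rcases Finset.mem_insert.mp hs' with rfl | hs'
      · rw [hus] at ht
        exact fun h3 => w3 t ht (Finset.mem_union_left _ h3)
      · rw [hup s' hs'] at ht
        intro h3
        refine z3 s' hs' t ht ?_
        rw [Finset.mem_sdiff] at h3 ⊢
        refine ⟨h3.1, fun h4 => h3.2 ?_⟩
        rw [Finset.biUnion_insert]
        exact Finset.mem_union_right _ h4
    · have key : ∀ s' ∈ S', ∀ t ∈ Zs, t ∉ Z' s' := by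
        intro s' hs' t ht ht'
        exact w3 t ht (Finset.mem_union_right _ (Finset.mem_biUnion.mpr ⟨s', hs', List.mem_toFinset.mpr ht'⟩))
      intro s1 m1 s2 m2 hne t ht
      rcases Finset.mem_insert.mp m1 with e1 | h1
      · rcases Finset.mem_insert.mp m2 with e2 | h2
        · exact absurd (e1.trans e2.symm) hne
        · rw [e1, hus] at ht
          rw [hup s2 h2]
          exact key s2 h2 t ht
      · rw [hup s1 h1] at ht
        rcases Finset.mem_insert.mp m2 with e2 | h2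
        · rw [e2, hus]
          exact fun h3 => key s1 h1 t h3 ht
        · rw [hup s2 h2]
          exact z4 s1 h1 s2 h2 hne t ht

theorem all_strands {V : Finset (Ed 3)} (hS : SV V) (hG : Gp V) {p : Ed 3} {S A B e₁ e₂ : Finset (Ed 3)}
    (h : StrS V (fc V) p S A B e₁ e₂) {a b : Ed 3 → List (Ed 3)}
    (hl : ∀ s ∈ S, Lk (fc V) s A B (a s) (b s) ∧ (a s).length ≤ 4 ∧ (b s).length ≤ 4) :
    ∃ Z : Ed 3 → List (Finset (Ed 3)), (∀ s ∈ S, Strd p s p p (a s) (b s) (Z s)) ∧
      TetD V ((Tp V p \ S.biUnion fun s => rg p s (a s ++ (b s).reverse)) ∪ S.biUnion fun s => (Z s).toFinset) ∧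
      (∀ s ∈ S, ∀ t ∈ Z s, t ∉ Tp V p \ S.biUnion fun s => rg p s (a s ++ (b s).reverse)) ∧
      ∀ s ∈ S, ∀ s' ∈ S, s ≠ s' → ∀ t ∈ Z s, t ∉ Z s' :=
  A5_step hS hG h hl S (Finset.Subset.refl S)

end Pool.Agent.LibSt23
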