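import Pool.Agent.LibSt23.Defs

/-!
[ST23 H1] (MEDIUM) Concatenation of blocks. The list `L := (List.range (r + 1)).flatMap B` has no repetition (`nd`, `dj`; `List.nodup_flatMap`), its members are exactly those of `T`, and it is a chain for `(t ∩ u).card = 3`: inside a block `ch`; between the last member `t` of `B i` and the first member `u` of `B (i + 1)`: both contain `insert p (e (i + 1))` (3 elements), both have 4 elements and `t ≠ u` (`dj`), so the intersection has exactly 3. Prove by induction on `r` (`List.range_succ`, `List.flatMap_append`, `List.isChain_append`), keeping track of the last member. `HP T`: `f i := L[i]` (default outside), `L.length = T.card` (`List.toFinset_card_of_nodup`).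
-/

set_option autoImplicit false

namespace Pool.Agent.LibSt23

open Finset Pool.Agent.LibPol19 Pool.Agent.LibTet88 Pool.Agent.LibTet23
open scoped Classical

private theorem H1_meet {α : Type*} {x y w : Finset α} (hx : x.card = 4) (hy : y.card = 4)
    (hw : w.card = 3) (h1 : w ⊆ x) (h2 : w ⊆ y) (hne : x ≠ y) : (x ∩ y).card = 3 := by
  have h3 : 3 ≤ (x ∩ y).card := by
    rw [← hw]
    exact card_le_card (subset_inter h1 h2)
  have h4 : (x ∩ y).card ≠ 4 := by
    intro h5
    have h6 : x ∩ y = x := eq_of_subset_of_card_le inter_subset_left (by omega)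
    have h7 : x ⊆ y := by rw [← h6]; exact inter_subset_right
    exact hne (eq_of_subset_of_card_le h7 (by omega))
  have h8 : (x ∩ y).card ≤ x.card := card_le_card inter_subset_left
  omega

theorem hp_blocks {α : Type*} {T : Finset (Finset α)} {p : α} (r : ℕ) (e : ℕ → Finset α)
    (B : ℕ → List (Finset α)) (ne : ∀ i ≤ r, B i ≠ []) (nd : ∀ i ≤ r, (B i).Nodup)
    (ch : ∀ i ≤ r, (B i).IsChain (fun t u => (t ∩ u).card = 3))
    (hd : ∀ i ≤ r, ∀ t ∈ (B i).head?, insert p (e i) ⊆ t)
    (lt : ∀ i ≤ r, ∀ t ∈ (B i).getLast?, insert p (e (i + 1)) ⊆ t)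
    (he : ∀ i ≤ r + 1, (insert p (e i)).card = 3) (dj : ∀ i ≤ r, ∀ j ≤ r, i ≠ j → ∀ t ∈ B i, t ∉ B j)
    (hT : ∀ t, t ∈ T ↔ ∃ i ≤ r, t ∈ B i) (h4 : ∀ t ∈ T, t.card = 4) : HP T := by
  have key : ∀ m ≤ r, ((List.range (m + 1)).flatMap B).IsChain (fun t u => (t ∩ u).card = 3) ∧
      ((List.range (m + 1)).flatMap B).getLast? = (B m).getLast? := by
    intro m
    induction m with
    | zero =>
      intro h0
      have h1 : (List.range (0 + 1)).flatMap B = B 0 := by simp
      rw [h1]
      exact ⟨ch 0 h0, rfl⟩
    | succ m ih =>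
      intro hm
      obtain ⟨ih1, ih2⟩ := ih (by omega)
      have h1 : (List.range (m + 1 + 1)).flatMap B = (List.range (m + 1)).flatMap B ++ B (m + 1) := by
        rw [List.range_succ, List.flatMap_append]
        simp
      rw [h1]
      refine ⟨ih1.append (ch _ hm) ?_, List.getLast?_append_of_ne_nil _ (ne _ hm)⟩
      intro x hx y hy
      rw [ih2] at hx
      have hx1 : x ∈ B m := List.mem_of_mem_getLast? hx
      have hy1 : y ∈ B (m + 1) := List.mem_of_mem_head? hy
      have hne : x ≠ y := by
        rintro rfl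
        exact dj m (by omega) (m + 1) hm (by omega) x hx1 hy1
      exact H1_meet (h4 x ((hT x).2 ⟨m, by omega, hx1⟩)) (h4 y ((hT y).2 ⟨m + 1, hm, hy1⟩))
        (he (m + 1) (by omega)) (lt m (by omega) x hx) (hd (m + 1) hm y hy) hne
  obtain ⟨hch, -⟩ := key r le_rfl
  have hnd : ((List.range (r + 1)).flatMap B).Nodup := by
    rw [List.nodup_flatMap]
    refine ⟨fun i hi => nd i (by have := List.mem_range.1 hi; omega), ?_⟩
    refine List.nodup_range.pairwise_of_forall_ne ?_
    intro i hi j hj hij
    have hi1 := List.mem_range.1 hi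
    have hj1 := List.mem_range.1 hj
    intro t ht ht'
    exact dj i (by omega) j (by omega) hij t ht ht'
  have hmem : ∀ t, t ∈ (List.range (r + 1)).flatMap B ↔ t ∈ T := by
    intro t
    rw [List.mem_flatMap, hT]
    constructor
    · rintro ⟨i, hi, ht⟩
      have hi1 := List.mem_range.1 hi
      exact ⟨i, by omega, ht⟩
    · rintro ⟨i, hi, ht⟩
      exact ⟨i, List.mem_range.2 (by omega), ht⟩
  have hfin : ((List.range (r + 1)).flatMap B).toFinset = T := by
    ext t
    rw [List.mem_toFinset, hmem]
  have hlen : ((List.range (r + 1)).flatMap B).length = T.card := by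
    rw [← hfin, List.toFinset_card_of_nodup hnd]
  generalize (List.range (r + 1)).flatMap B = L at hch hnd hmem hlen
  refine ⟨fun i => L.getD i ∅, ?_, ?_, ?_⟩
  · intro i hi
    have hi' : i < L.length := by omega
    change L.getD i ∅ ∈ T
    rw [List.getD_eq_getElem _ _ hi', ← hmem]
    exact List.getElem_mem hi'
  · intro i hi j hj hij
    have hi' : i < L.length := by omega
    have hj' : j < L.length := by omega
    change L.getD i ∅ = L.getD j ∅ at hij
    rw [List.getD_eq_getElem _ _ hi', List.getD_eq_getElem _ _ hj'] at hij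
    exact (List.Nodup.getElem_inj_iff hnd).1 hij
  · intro i hi
    have hi' : i + 1 < L.length := by omega
    change (L.getD i ∅ ∩ L.getD (i + 1) ∅).card = 3
    rw [List.getD_eq_getElem _ _ (by omega : i < L.length), List.getD_eq_getElem _ _ hi']
    exact (List.isChain_iff_getElem.1 hch) i hi'

end Pool.Agent.LibSt23
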