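import Pool.Agent.LibSt23.Defs

/-!
[ST23 M2] (MEDIUM) A mixed edge `e = {x, y}` belongs to at most two nodes, `e₁` to at most one, to exactly one. `e ∈ Me n` gives `F ∈ Φ`, `n ⊆ F`, `x, y ∈ F`; there are exactly two such `F` (`Surf.two`, `Aj Φ x y`), and `F` determines `n`: `p ∉ F` (if `n = {s}`: `s ∈ F`, `np`; if `n ∈ Fp`: `n = F`), and `n = F` if `F` has no member in `S`, `n = {s}` if `s ∈ F`, `s ∈ S` (only one such `s` by `ind`; `n ∈ Fp` has no member in `S`). For `e₁`: one of the two triangles is `{p, x, y}` (`m1`). Existence: the other triangle at `x y` (`other` of LibTet23.K0) does not contain `p` (`tri_eq`), so it is in `Fp` or contains some `s ∈ S`.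
-/

set_option autoImplicit false

namespace Pool.Agent.LibSt23

open Finset Pool.Agent.LibPol19 Pool.Agent.LibTet88 Pool.Agent.LibTet23
open scoped Classical

private theorem M2_mem {α : Type*} {Φ : Finset (Finset α)} {A B n e : Finset α} (h : e ∈ Me Φ A B n) :
    ∃ x ∈ A, ∃ y ∈ B, e = {x, y} ∧ ∃ F ∈ Φ, n ⊆ F ∧ x ∈ F ∧ y ∈ F := by
  unfold Me at h
  rw [Finset.mem_image] at h
  obtain ⟨⟨x, y⟩, hq, rfl⟩ := h
  rw [Finset.mem_filter, Finset.mem_product] at hq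
  exact ⟨x, hq.1.1, y, hq.1.2, rfl, hq.2⟩

private theorem M2_mk {α : Type*} {Φ : Finset (Finset α)} {A B n : Finset α} {x y : α} (hx : x ∈ A) (hy : y ∈ B)
    {F : Finset α} (hF : F ∈ Φ) (hn : n ⊆ F) (hxF : x ∈ F) (hyF : y ∈ F) : ({x, y} : Finset α) ∈ Me Φ A B n := by
  unfold Me
  rw [Finset.mem_image]
  refine ⟨(x, y), ?_, rfl⟩
  rw [Finset.mem_filter, Finset.mem_product]
  exact ⟨⟨hx, hy⟩, F, hF, hn, hxF, hyF⟩

private theorem M2_pair {α : Type*} {A B : Finset α} (hAB : Disjoint A B) {x y x' y' : α} (hx : x ∈ A) (hy : y ∈ B)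
    (hx' : x' ∈ A) (hy' : y' ∈ B) (h : ({x, y} : Finset α) = {x', y'}) : x' = x ∧ y' = y := by
  have hd : ∀ t, t ∈ A → t ∈ B → False := fun t h1 h2 => (Finset.disjoint_left.1 hAB) h1 h2
  have h1 : x' ∈ ({x, y} : Finset α) := by rw [h]; simp
  have h2 : y' ∈ ({x, y} : Finset α) := by rw [h]; simp
  simp only [Finset.mem_insert, Finset.mem_singleton] at h1 h2
  constructor
  · rcases h1 with h1 | h1
    · exact h1
    · exact (hd x' hx' (h1 ▸ hy)).elim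
  · rcases h2 with h2 | h2
    · exact (hd y' (h2 ▸ hx) hy').elim
    · exact h2

private theorem M2_core {α : Type*} {V : Finset α} {Φ : Finset (Finset α)} (hS : Surf V Φ) {p : α}
    {S A B e₁ e₂ : Finset α} (h : StrS V Φ p S A B e₁ e₂) {n F : Finset α} (hn : n ∈ Nds Φ p S) (hF : F ∈ Φ)
    (hnF : n ⊆ F) : p ∉ F ∧ ((n = F ∧ ∀ s ∈ S, s ∉ F) ∨ ∃ s ∈ S, n = {s} ∧ s ∈ F) := by
  unfold Nds at hn
  rw [Finset.mem_union, Finset.mem_image] at hn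
  rcases hn with hn | ⟨s, hs, rfl⟩
  · unfold Fp at hn
    rw [Finset.mem_filter] at hn
    have hEq : n = F := Finset.eq_of_subset_of_card_le hnF (by rw [hS.card F hF, hS.card n hn.1])
    subst hEq
    exact ⟨hn.2.1, Or.inl ⟨rfl, hn.2.2⟩⟩
  · have hsF : s ∈ F := hnF (Finset.mem_singleton_self s)
    refine ⟨fun hpF => ?_, Or.inr ⟨s, hs, rfl, hsF⟩⟩
    have hps : p ≠ s := fun hq => h.pS (hq ▸ hs)
    exact h.np s hs (aj_of hF hpF hsF hps)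

private theorem M2_uniq {α : Type*} {V : Finset α} {Φ : Finset (Finset α)} (hS : Surf V Φ) {p : α}
    {S A B e₁ e₂ : Finset α} (h : StrS V Φ p S A B e₁ e₂) {n n' F : Finset α} (hn : n ∈ Nds Φ p S)
    (hn' : n' ∈ Nds Φ p S) (hF : F ∈ Φ) (hnF : n ⊆ F) (hnF' : n' ⊆ F) : n = n' := by
  rcases (M2_core hS h hn hF hnF).2 with ⟨h1, h2⟩ | ⟨s, hs, h1, h2⟩
  · rcases (M2_core hS h hn' hF hnF').2 with ⟨h3, h4⟩ | ⟨s', hs', h3, h4⟩
    · rw [h1, h3]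
    · exact (h2 s' hs' h4).elim
  · rcases (M2_core hS h hn' hF hnF').2 with ⟨h3, h4⟩ | ⟨s', hs', h3, h4⟩
    · exact (h4 s hs h2).elim
    · by_cases hss : s = s'
      · rw [h1, h3, hss]
      · exact (h.ind s hs s' hs' (aj_of hF h2 h4 hss)).elim

theorem me_le {α : Type*} {V : Finset α} {Φ : Finset (Finset α)} (hS : Surf V Φ) {p : α} {S A B e₁ e₂ : Finset α}
    (h : StrS V Φ p S A B e₁ e₂) {e n₁ n₂ n₃ : Finset α} (h1 : n₁ ∈ Nds Φ p S) (h2 : n₂ ∈ Nds Φ p S)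
    (h3 : n₃ ∈ Nds Φ p S) (k1 : e ∈ Me Φ A B n₁) (k2 : e ∈ Me Φ A B n₂) (k3 : e ∈ Me Φ A B n₃) :
    n₁ = n₂ ∨ n₂ = n₃ ∨ n₁ = n₃ := by
  obtain ⟨x, hx, y, hy, he, F, hF, hnF, hxF, hyF⟩ := M2_mem k1
  obtain ⟨x', hx', y', hy', he', F', hF', hnF', hxF', hyF'⟩ := M2_mem k2
  obtain ⟨x'', hx'', y'', hy'', he'', F'', hF'', hnF'', hxF'', hyF''⟩ := M2_mem k3
  obtain ⟨rfl, rfl⟩ := M2_pair h.AB hx hy hx' hy' (he.symm.trans he')
  obtain ⟨rfl, rfl⟩ := M2_pair h.AB hx hy hx'' hy'' (he.symm.trans he'')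
  have hxy : x'' ≠ y'' := fun hq => (Finset.disjoint_left.1 h.AB) hx (hq ▸ hy)
  obtain ⟨H, -, -, -, -, hH⟩ := other hS hF hxF hyF hxy
  rcases hH F' hF' hxF' hyF' with rfl | rfl
  · exact Or.inl (M2_uniq hS h h1 h2 hF hnF hnF')
  · rcases hH F'' hF'' hxF'' hyF'' with rfl | rfl
    · exact Or.inr (Or.inr (M2_uniq hS h h1 h3 hF hnF hnF''))
    · exact Or.inr (Or.inl (M2_uniq hS h h2 h3 hF' hnF' hnF''))

theorem me_one {α : Type*} {V : Finset α} {Φ : Finset (Finset α)} (hS : Surf V Φ) {p : α} {S A B e₁ e₂ : Finset α}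
    (h : StrS V Φ p S A B e₁ e₂) {n₁ n₂ : Finset α} (h1 : n₁ ∈ Nds Φ p S) (h2 : n₂ ∈ Nds Φ p S)
    (k1 : e₁ ∈ Me Φ A B n₁) (k2 : e₁ ∈ Me Φ A B n₂) : n₁ = n₂ := by
  obtain ⟨x, hx, y, hy, he, hpF⟩ := h.m1
  obtain ⟨x', hx', y', hy', he', F', hF', hnF', hxF', hyF'⟩ := M2_mem k1
  obtain ⟨x'', hx'', y'', hy'', he'', F'', hF'', hnF'', hxF'', hyF''⟩ := M2_mem k2
  obtain ⟨rfl, rfl⟩ := M2_pair h.AB hx hy hx' hy' (he.symm.trans he')
  obtain ⟨rfl, rfl⟩ := M2_pair h.AB hx hy hx'' hy'' (he.symm.trans he'')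
  have hxy : x'' ≠ y'' := fun hq => (Finset.disjoint_left.1 h.AB) hx (hq ▸ hy)
  have hp1 : x'' ∈ ({p, x'', y''} : Finset α) := by simp
  have hp2 : y'' ∈ ({p, x'', y''} : Finset α) := by simp
  have hp0 : p ∈ ({p, x'', y''} : Finset α) := by simp
  obtain ⟨H, -, -, -, -, hH⟩ := other hS hpF hp1 hp2 hxy
  have hp' := (M2_core hS h h1 hF' hnF').1
  have hp'' := (M2_core hS h h2 hF'' hnF'').1
  rcases hH F' hF' hxF' hyF' with hq | hq
  · exact (hp' (hq ▸ hp0)).elim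
  · rcases hH F'' hF'' hxF'' hyF'' with hr | hr
    · exact (hp'' (hr ▸ hp0)).elim
    · subst hq
      subst hr
      exact M2_uniq hS h h1 h2 hF' hnF' hnF''

theorem me_start {α : Type*} {V : Finset α} {Φ : Finset (Finset α)} (hS : Surf V Φ) {p : α} {S A B e₁ e₂ : Finset α}
    (h : StrS V Φ p S A B e₁ e₂) : ∃ n ∈ Nds Φ p S, e₁ ∈ Me Φ A B n := by
  obtain ⟨x, hx, y, hy, he, hpF⟩ := h.m1
  have hxy : x ≠ y := fun hq => (Finset.disjoint_left.1 h.AB) hx (hq ▸ hy)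
  have hpx : p ≠ x := fun hq => h.pA (hq ▸ hx)
  have hpy : p ≠ y := fun hq => h.pB (hq ▸ hy)
  have hp1 : x ∈ ({p, x, y} : Finset α) := by simp
  have hp2 : y ∈ ({p, x, y} : Finset α) := by simp
  obtain ⟨H, hH, hne, hxH, hyH, -⟩ := other hS hpF hp1 hp2 hxy
  have hpH : p ∉ H := fun hp => hne (tri_eq hS hH hp hxH hyH hpx hpy hxy)
  rw [he]
  by_cases hs : ∃ s ∈ S, s ∈ H
  · obtain ⟨s, hs, hsH⟩ := hs
    refine ⟨{s}, ?_, M2_mk hx hy hH (Finset.singleton_subset_iff.2 hsH) hxH hyH⟩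
    unfold Nds
    exact Finset.mem_union_right _ (Finset.mem_image_of_mem _ hs)
  · push Not at hs
    refine ⟨H, ?_, M2_mk hx hy hH (Finset.Subset.refl H) hxH hyH⟩
    unfold Nds Fp
    exact Finset.mem_union_left _ (Finset.mem_filter.2 ⟨hH, hpH, hs⟩)

end Pool.Agent.LibSt23
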