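import Pool.Agent.LibSt23.M2

/-!
[ST23 M3] (MEDIUM) All nodes are reached from `n₀` (compare LibTet23.T4). `R n := ReflTransGen .. n₀ n`. `K F := p ∈ F ∨ ∃ n ∈ Nds Φ p S, n ⊆ F ∧ R n`. For `F` without `p` there is exactly one node `n ⊆ F` (`F` itself, or `{s}`). `bad_tree` of LibTet23.T3 with `{x₂, y₂} = e₂` (`m2`; `y₂ ∈ B`, not in `A`), started at `F₀ ∋ e₁` with `n₀ ⊆ F₀`. Check `hK`: `F, G ∋ x, y`, `x ∈ A`, `x ≠ y`, `K F`, not `K G` (so `p ∉ G`). If `y ∈ S`: `G` and `F` contain `y` (`p ∉ F` by `np`), the node of both is `{y}`: contradiction. If `y ∈ B` (`y = p` is impossible, `p ∉ G`): if `p ∉ F`: the nodes of `F` and `G` share the mixed edge `{x, y}` or are equal: `K G`. If `p ∈ F`: `F = {p, x, y}`, so `{x, y} = e₁` or `e₂` (`only`); `e₁`: the node of `G` contains `e₁`, so it is `n₀` (`M2.me_one` may be cited: import it), `K G`; so `{x, y} = e₂`, i.e. `x = x₂`, `y = y₂` (`x ∈ A`, `y₂ ∈ B`). Otherwise `y ∈ A`. Conclusion: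 `K F` for all `F` with a member in `A`; for a node `n ∈ Fp`: `n` itself has a member in `A`; for `{s}`: a mixed triangle at `s` (`two`), it does not contain `p`.
-/

set_option autoImplicit false

namespace Pool.Agent.LibSt23

open Finset Pool.Agent.LibPol19 Pool.Agent.LibTet88 Pool.Agent.LibTet23
open scoped Classical

theorem me_reach {α : Type*} {V : Finset α} {Φ : Finset (Finset α)} (hS : Surf V Φ) {p : α} {S A B e₁ e₂ : Finset α}
    (h : StrS V Φ p S A B e₁ e₂) {n₀ : Finset α} (h0 : n₀ ∈ Nds Φ p S) (k0 : e₁ ∈ Me Φ A B n₀) :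
    ∀ n ∈ Nds Φ p S, Relation.ReflTransGen
      (fun n m => (∃ e, e ∈ Me Φ A B n ∧ e ∈ Me Φ A B m) ∧ m ∈ Nds Φ p S) n₀ n := by
  obtain ⟨R, hR⟩ : ∃ R : Finset α → Prop, R = fun n => Relation.ReflTransGen
      (fun n m => (∃ e, e ∈ Me Φ A B n ∧ e ∈ Me Φ A B m) ∧ m ∈ Nds Φ p S) n₀ n := ⟨_, rfl⟩
  have R0 : R n₀ := hR ▸ Relation.ReflTransGen.refl
  have Rstep : ∀ n m e, R n → e ∈ Me Φ A B n → e ∈ Me Φ A B m → m ∈ Nds Φ p S → R m := by
    intro n m e h1 h2 h3 h4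
    rw [hR] at h1 ⊢
    exact Relation.ReflTransGen.tail h1 ⟨⟨e, h2, h3⟩, h4⟩
  have hAB : ∀ z, z ∈ A → z ∈ B → False := fun z h1 h2 => Finset.disjoint_left.1 h.AB h1 h2
  have huniq : ∀ F ∈ Φ, ∀ s ∈ S, ∀ s' ∈ S, s ∈ F → s' ∈ F → s = s' := by
    intro F hF s hs s' hs' h1 h2
    by_contra hne
    exact h.ind s hs s' hs' (aj_of hF h1 h2 hne)
  have hpF : ∀ F ∈ Φ, ∀ s ∈ S, s ∈ F → p ∉ F := by
    intro F hF s hs h1 h2
    refine h.np s hs (aj_of hF h2 h1 ?_)
    rintro rfl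
    exact h.pS hs
  have hNs : ∀ s ∈ S, ({s} : Finset α) ∈ Nds Φ p S := by
    intro s hs
    unfold Nds
    rw [Finset.mem_union, Finset.mem_image]
    exact Or.inr ⟨s, hs, rfl⟩
  have hcases : ∀ n ∈ Nds Φ p S, (n ∈ Φ ∧ p ∉ n ∧ ∀ s ∈ S, s ∉ n) ∨ ∃ s ∈ S, n = {s} := by
    intro n hn
    unfold Nds at hn
    rw [Finset.mem_union, Finset.mem_image] at hn
    rcases hn with hn | ⟨s, hs, e⟩
    · unfold Fp at hn
      rw [Finset.mem_filter] at hn
      exact Or.inl ⟨hn.1, hn.2.1, hn.2.2⟩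
    · exact Or.inr ⟨s, hs, e.symm⟩
  have hex : ∀ F ∈ Φ, p ∉ F → ∃ n ∈ Nds Φ p S, n ⊆ F := by
    intro F hF hp
    by_cases hs : ∀ s ∈ S, s ∉ F
    · refine ⟨F, ?_, Finset.Subset.refl F⟩
      unfold Nds Fp
      rw [Finset.mem_union, Finset.mem_filter]
      exact Or.inl ⟨hF, hp, hs⟩
    · push Not at hs
      obtain ⟨s, hs, hsF⟩ := hs
      exact ⟨{s}, hNs s hs, Finset.singleton_subset_iff.2 hsF⟩
  have hun : ∀ F ∈ Φ, ∀ n ∈ Nds Φ p S, ∀ m ∈ Nds Φ p S, n ⊆ F → m ⊆ F → n = m := by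
    have h1 : ∀ F ∈ Φ, ∀ n ∈ Φ, n ⊆ F → n = F := fun F hF n hn hnF =>
      Finset.eq_of_subset_of_card_le hnF (by rw [hS.card F hF, hS.card n hn])
    intro F hF n hn m hm hnF hmF
    rcases hcases n hn with ⟨a1, _, a3⟩ | ⟨s, hs, e⟩
    · rcases hcases m hm with ⟨b1, _, _⟩ | ⟨s, hs, e⟩
      · rw [h1 F hF n a1 hnF, h1 F hF m b1 hmF]
      · exfalso
        rw [h1 F hF n a1 hnF] at a3
        rw [e, Finset.singleton_subset_iff] at hmF
        exact a3 s hs hmF
    · rw [e, Finset.singleton_subset_iff] at hnF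
      rcases hcases m hm with ⟨b1, _, b3⟩ | ⟨s', hs', e'⟩
      · exfalso
        rw [h1 F hF m b1 hmF] at b3
        exact b3 s hs hnF
      · rw [e', Finset.singleton_subset_iff] at hmF
        rw [e, e', huniq F hF s hs s' hs' hnF hmF]
  have hme : ∀ F ∈ Φ, ∀ n, n ⊆ F → ∀ x ∈ A, ∀ y ∈ B, x ∈ F → y ∈ F → ({x, y} : Finset α) ∈ Me Φ A B n := by
    intro F hF n hn x hx y hy xF yF
    unfold Me
    simp only [Finset.mem_image, Finset.mem_filter, Finset.mem_product]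
    exact ⟨(x, y), ⟨⟨hx, hy⟩, F, hF, hn, xF, yF⟩, rfl⟩
  obtain ⟨K, hK⟩ : ∃ K : Finset α → Prop, K = fun F => p ∈ F ∨ ∃ n ∈ Nds Φ p S, n ⊆ F ∧ R n := ⟨_, rfl⟩
  have hKd : ∀ F, K F ↔ (p ∈ F ∨ ∃ n ∈ Nds Φ p S, n ⊆ F ∧ R n) := fun F => by rw [hK]
  have hKR : ∀ F ∈ Φ, p ∉ F → K F → ∀ n ∈ Nds Φ p S, n ⊆ F → R n := by
    intro F hF hp hk n hn hnF
    rcases (hKd F).1 hk with h1 | ⟨m, hm, hmF, hRm⟩
    · exact absurd h1 hp
    · rw [hun F hF n hn m hm hnF hmF]
      exact hRm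
  obtain ⟨x₁, hx₁, y₁, hy₁, he₁, hF₁⟩ := h.m1
  obtain ⟨x₂, hx₂, y₂, hy₂, he₂, hF₂⟩ := h.m2
  have hall : ∀ F ∈ Φ, (∃ x ∈ F, x ∈ A) → K F := by
    refine bad_tree hS h.fA h.cA K hx₂ (fun h1 => hAB _ h1 hy₂) ?_ hF₁ hx₁ (by simp)
      ((hKd _).2 (Or.inl (Finset.mem_insert_self _ _)))
    intro F hF G hG x y hxy hxA xF yF xG yG kF kG
    have pG : p ∉ G := fun h1 => kG ((hKd _).2 (Or.inl h1))
    rcases (h.cov y).1 (hS.sub G hG yG) with e | e | e | e
    · rw [e] at yG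
      exact absurd yG pG
    · exfalso
      have h1 : R {y} := hKR F hF (hpF F hF y e yF) kF {y} (hNs y e) (Finset.singleton_subset_iff.2 yF)
      exact kG ((hKd G).2 (Or.inr ⟨{y}, hNs y e, Finset.singleton_subset_iff.2 yG, h1⟩))
    · exact Or.inl e
    · obtain ⟨m, hm, hmG⟩ := hex G hG pG
      have hem : ({x, y} : Finset α) ∈ Me Φ A B m := hme G hG m hmG x hxA y e xG yG
      by_cases pF : p ∈ F
      · have hpx : p ≠ x := by
          rintro rfl
          exact h.pA hxA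
        have hpy : p ≠ y := by
          rintro rfl
          exact h.pB e
        have hFe : F = {p, x, y} := tri_eq hS hF pF xF yF hpx hpy hxy
        rcases h.only x hxA y e (hFe ▸ hF) with e1 | e1
        · exfalso
          rw [e1] at hem
          have e2 : m = n₀ := me_one hS h hm h0 hem k0
          rw [e2] at hmG hm
          exact kG ((hKd G).2 (Or.inr ⟨n₀, hm, hmG, R0⟩))
        · right
          rw [he₂] at e1
          have hx' : x ∈ ({x₂, y₂} : Finset α) := by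
            rw [← e1]
            exact Finset.mem_insert_self _ _
          have hy' : y ∈ ({x₂, y₂} : Finset α) := by
            rw [← e1]
            exact Finset.mem_insert_of_mem (Finset.mem_singleton_self _)
          rw [Finset.mem_insert, Finset.mem_singleton] at hx' hy'
          constructor
          · rcases hx' with e3 | e3
            · exact e3
            · exact (hAB x hxA (e3 ▸ hy₂)).elim
          · rcases hy' with e3 | e3
            · exact (hAB y (e3 ▸ hx₂) e).elim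
            · exact e3
      · exfalso
        rcases (hKd F).1 kF with h1 | ⟨n, hn, hnF, hRn⟩
        · exact pF h1
        · have hRm : R m := Rstep n m _ hRn (hme F hF n hnF x hxA y e xF yF) hem hm
          exact kG ((hKd G).2 (Or.inr ⟨m, hm, hmG, hRm⟩))
  intro n hn
  have hRn : R n := by
    rcases hcases n hn with ⟨a1, a2, a3⟩ | ⟨s, hs, e⟩
    · exact hKR n a1 a2 (hall n a1 (h.bi n a1 a2 a3).1) n hn (Finset.Subset.refl n)
    · have h2 := h.two s hs
      have h3 : (mxf Φ A B s).Nonempty := by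
        rw [← Finset.card_pos, h2]
        norm_num
      obtain ⟨F, hF⟩ := h3
      unfold mxf at hF
      rw [Finset.mem_filter] at hF
      obtain ⟨hF, sF, hx, _⟩ := hF
      refine hKR F hF (hpF F hF s hs sF) (hall F hF hx) n hn ?_
      rw [e]
      exact Finset.singleton_subset_iff.2 sF
  rw [hR] at hRn
  exact hRn

end Pool.Agent.LibSt23
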