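import Pool.Agent.LibSt23.M1
import Pool.Agent.LibSt23.M2
import Pool.Agent.LibSt23.M3

/-!
[ST23 M4] (MEDIUM) The macroscopic path. `ham_path` of LibTet88.R4 with `adj n m := ∃ e, e ∈ Me n ∧ e ∈ Me m`: `hdeg`: the two members of `Me n` (`me_two`) belong each to at most one other node (`me_le`); `h1`: the neighbours of `n₀` share the member of `Me n₀` other than `e₁` (`me_one`). This gives `f` on `i < k := (Nds Φ p S).card`; WARNING: `ham_path` does not say `f 0 = n₀`. A Hamiltonian path of a connected graph in which all degrees are at most 2 and `n₀` has degree at most 1: `n₀` is an end of the path: if `n₀ = f i` with `0 < i < k - 1`, it has the two neighbours `f (i - 1)`, `f (i + 1)`, contradiction; so `n₀ = f 0` or `n₀ = f (k - 1)`, in the second case reverse. Then the edges: `e 0 := e₁`, `e (i + 1)` := the member of `Me (f i)` different from `e i`; by induction `Me (f i) = {e i, e (i + 1)}`, `e i ≠ e (i + 1)`: the common member `c` of `Me (f i)` and `Me (f (i + 1))` is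 not `e i` (for `i = 0`: `me_one`; for `i > 0`: `e i` belongs to `f (i - 1)`, `f i`, so not to `f (i + 1)` by `me_le`), so `c = e (i + 1) ∈ Me (f (i + 1))`. (`Nds` is not empty: `me_start`; `r := k - 1`.)
-/

set_option autoImplicit false

namespace Pool.Agent.LibSt23

open Finset Pool.Agent.LibPol19 Pool.Agent.LibTet88 Pool.Agent.LibTet23
open scoped Classical

private noncomputable def M4_oth {α : Type*} (s : Finset (Finset α)) (x : Finset α) : Finset α :=
  if h : ∃ y ∈ s, y ≠ x then h.choose else ∅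

private theorem M4_oth_spec {α : Type*} {s : Finset (Finset α)} {x : Finset α} (h2 : s.card = 2)
    (hx : x ∈ s) : M4_oth s x ∈ s ∧ M4_oth s x ≠ x := by
  have h : ∃ y ∈ s, y ≠ x := by
    have : 1 < s.card := by omega
    exact Finset.exists_mem_ne this x
  unfold M4_oth
  rw [dif_pos h]
  exact h.choose_spec

private theorem M4_pair {α : Type*} {s : Finset (Finset α)} {x y : Finset α} (h2 : s.card = 2)
    (hx : x ∈ s) (hy : y ∈ s) (hxy : y ≠ x) : s = {x, y} := by
  symm
  apply Finset.eq_of_subset_of_card_le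
  · intro z hz
    rcases Finset.mem_insert.1 hz with rfl | hz
    · exact hx
    · rw [Finset.mem_singleton.1 hz]; exact hy
  · rw [h2, Finset.card_pair hxy.symm]

private noncomputable def M4_e {α : Type*} (M : ℕ → Finset (Finset α)) (e₁ : Finset α) : ℕ → Finset α
  | 0 => e₁
  | i + 1 => M4_oth (M i) (M4_e M e₁ i)

/-- the edges along a path which starts at the end -/
private theorem M4_edges {α : Type*} {M : ℕ → Finset (Finset α)} {e₁ : Finset α} {k : ℕ}
    (h2 : ∀ i < k, (M i).card = 2) (h0 : e₁ ∈ M 0)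
    (hadj : ∀ i, i + 1 < k → ∃ c, c ∈ M i ∧ c ∈ M (i + 1))
    (hone : ∀ i, i < k → e₁ ∈ M i → i = 0)
    (hthree : ∀ i j l, i < k → j < k → l < k → ∀ c, c ∈ M i → c ∈ M j → c ∈ M l → i = j ∨ j = l ∨ i = l)
    (i : ℕ) (hi : i < k) :
    M4_e M e₁ i ∈ M i ∧ (∀ j, j + 1 = i → M4_e M e₁ i ∈ M j) := by
  induction i with
  | zero => exact ⟨h0, fun j hj => by omega⟩
  | succ i ih =>
    obtain ⟨ih1, ih2⟩ := ih (by omega)
    have hs := M4_oth_spec (h2 i (by omega)) ih1
    have hp := M4_pair (h2 i (by omega)) ih1 hs.1 hs.2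
    have he : M4_e M e₁ (i + 1) = M4_oth (M i) (M4_e M e₁ i) := rfl
    refine ⟨?_, ?_⟩
    · obtain ⟨c, hc1, hc2⟩ := hadj i hi
      have hc1' := hc1
      rw [hp] at hc1'
      rcases Finset.mem_insert.1 hc1' with rfl | hc
      · exfalso
        rcases Nat.eq_zero_or_pos i with rfl | hpos
        · have := hone (0 + 1) hi hc2
          omega
        · obtain ⟨j, rfl⟩ : ∃ j, i = j + 1 := ⟨i - 1, by omega⟩
          have := hthree j (j + 1) (j + 1 + 1) (by omega) (by omega) hi _ (ih2 j rfl) hc1 hc2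
          omega
      · rw [he, ← Finset.mem_singleton.1 hc]
        exact hc2
    · intro j hj
      have : j = i := by omega
      subst this
      rw [he]
      exact hs.1

theorem mac_path {α : Type*} {V : Finset α} {Φ : Finset (Finset α)} (hS : Surf V Φ) {p : α} {S A B e₁ e₂ : Finset α}
    (h : StrS V Φ p S A B e₁ e₂) : ∃ (r : ℕ) (f e : ℕ → Finset α),
      (∀ i ≤ r, f i ∈ Nds Φ p S) ∧ (∀ i ≤ r, ∀ j ≤ r, f i = f j → i = j) ∧ (∀ n ∈ Nds Φ p S, ∃ i ≤ r, f i = n) ∧
      ∀ i ≤ r, Me Φ A B (f i) = {e i, e (i + 1)} ∧ e i ≠ e (i + 1) := by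
  obtain ⟨n₀, hn₀, k₀⟩ := me_start hS h
  set N := Nds Φ p S with hN
  let adj : Finset α → Finset α → Prop := fun n m => ∃ e, e ∈ Me Φ A B n ∧ e ∈ Me Φ A B m
  have hsymm : ∀ a b, adj a b → adj b a := fun a b ⟨e, h1, h2⟩ => ⟨e, h2, h1⟩
  let g : Finset α → Finset α → Finset α := fun n m => if hh : adj n m then hh.choose else ∅
  have hg : ∀ n m, adj n m → g n m ∈ Me Φ A B n ∧ g n m ∈ Me Φ A B m := by
    intro n m hh
    have : g n m = hh.choose := dif_pos hh
    rw [this]
    exact hh.choose_spec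
  have hdeg : ∀ a ∈ N, (N.filter fun b => b ≠ a ∧ adj a b).card ≤ 2 := by
    intro a ha
    rw [← me_two hS h ha]
    apply Finset.card_le_card_of_injOn (g a)
    · intro b hb
      have hb' := (Finset.mem_filter.1 (Finset.mem_coe.1 hb)).2
      exact Finset.mem_coe.2 (hg a b hb'.2).1
    · intro b hb b' hb' hbb
      have hb1 := Finset.mem_filter.1 (Finset.mem_coe.1 hb)
      have hb2 := Finset.mem_filter.1 (Finset.mem_coe.1 hb')
      have m1 := hg a b hb1.2.2
      have m2 := hg a b' hb2.2.2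
      rw [← hbb] at m2
      rcases me_le hS h ha hb1.1 hb2.1 m1.1 m1.2 m2.2 with hh | hh | hh
      · exact absurd hh.symm hb1.2.1
      · exact hh
      · exact absurd hh.symm hb2.2.1
  have h1 : (N.filter fun b => b ≠ n₀ ∧ adj n₀ b).card ≤ 1 := by
    have hc : ((Me Φ A B n₀).erase e₁).card = 1 := by
      rw [Finset.card_erase_of_mem k₀, me_two hS h hn₀]
    rw [← hc]
    apply Finset.card_le_card_of_injOn (g n₀)
    · intro b hb
      have hb' := Finset.mem_filter.1 (Finset.mem_coe.1 hb)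
      have m1 := hg n₀ b hb'.2.2
      refine Finset.mem_coe.2 (Finset.mem_erase.2 ⟨fun hh => ?_, m1.1⟩)
      rw [hh] at m1
      exact hb'.2.1 (me_one hS h hb'.1 hn₀ m1.2 k₀)
    · intro b hb b' hb' hbb
      have hb1 := Finset.mem_filter.1 (Finset.mem_coe.1 hb)
      have hb2 := Finset.mem_filter.1 (Finset.mem_coe.1 hb')
      have m1 := hg n₀ b hb1.2.2
      have m2 := hg n₀ b' hb2.2.2
      rw [← hbb] at m2
      rcases me_le hS h hn₀ hb1.1 hb2.1 m1.1 m1.2 m2.2 with hh | hh | hh
      · exact absurd hh.symm hb1.2.1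
      · exact hh
      · exact absurd hh.symm hb2.2.1
  have hreach : ∀ a ∈ N, Relation.ReflTransGen (fun a b => adj a b ∧ b ∈ N) n₀ a :=
    fun a ha => me_reach hS h hn₀ k₀ a ha
  obtain ⟨f, hf1, hf2, hf3⟩ := ham_path N adj hsymm
    (fun a ha => le_trans (le_of_eq (by congr)) (hdeg a ha)) hn₀
    (le_trans (le_of_eq (by congr)) h1) hreach
  set k := N.card with hk
  have hkpos : 0 < k := Finset.card_pos.2 ⟨n₀, hn₀⟩
  have hsurj : ∀ n ∈ N, ∃ i < k, f i = n := by
    intro n hn
    have himg : (Finset.range k).image f = N := by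
      apply Finset.eq_of_subset_of_card_le
      · intro x hx
        obtain ⟨i, hi, rfl⟩ := Finset.mem_image.1 hx
        exact hf1 i (Finset.mem_range.1 hi)
      · rw [Finset.card_image_of_injOn, Finset.card_range]
        intro i hi j hj hij
        exact hf2 i (Finset.mem_range.1 (Finset.mem_coe.1 hi)) j
          (Finset.mem_range.1 (Finset.mem_coe.1 hj)) hij
    rw [← himg] at hn
    obtain ⟨i, hi, rfl⟩ := Finset.mem_image.1 hn
    exact ⟨i, Finset.mem_range.1 hi, rfl⟩
  obtain ⟨i₀, hi₀, hfi₀⟩ := hsurj n₀ hn₀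
  have hend : i₀ = 0 ∨ i₀ + 1 = k := by
    by_contra hcon
    push Not at hcon
    obtain ⟨hc0, hc1⟩ := hcon
    obtain ⟨j, rfl⟩ : ∃ j, i₀ = j + 1 := ⟨i₀ - 1, by omega⟩
    have hj1 : j + 1 + 1 < k := by omega
    have a1 : adj n₀ (f j) := by
      rw [← hfi₀]; exact hsymm _ _ (hf3 j (by omega))
    have a2 : adj n₀ (f (j + 1 + 1)) := by
      rw [← hfi₀]; exact hf3 (j + 1) hj1
    have n1 : f j ≠ n₀ := by
      rw [← hfi₀]; intro hh
      have := hf2 j (by omega) (j + 1) (by omega) hh
      omega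
    have n2 : f (j + 1 + 1) ≠ n₀ := by
      rw [← hfi₀]; intro hh
      have := hf2 (j + 1 + 1) (by omega) (j + 1) (by omega) hh
      omega
    have n3 : f j ≠ f (j + 1 + 1) := by
      intro hh
      have := hf2 j (by omega) (j + 1 + 1) (by omega) hh
      omega
    have hsub : ({f j, f (j + 1 + 1)} : Finset (Finset α)) ⊆ N.filter fun b => b ≠ n₀ ∧ adj n₀ b := by
      intro x hx
      rcases Finset.mem_insert.1 hx with rfl | hx
      · exact Finset.mem_filter.2 ⟨hf1 j (by omega), n1, a1⟩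
      · rw [Finset.mem_singleton.1 hx]
        exact Finset.mem_filter.2 ⟨hf1 (j + 1 + 1) hj1, n2, a2⟩
    have := Finset.card_le_card hsub
    rw [Finset.card_pair n3] at this
    omega
  -- a path starting at n₀
  obtain ⟨f', hz, hf1', hf2', hf3', hsurj'⟩ : ∃ f' : ℕ → Finset α, f' 0 = n₀ ∧ (∀ i < k, f' i ∈ N) ∧
      (∀ i < k, ∀ j < k, f' i = f' j → i = j) ∧ (∀ i, i + 1 < k → adj (f' i) (f' (i + 1))) ∧
      (∀ n ∈ N, ∃ i < k, f' i = n) := by
    rcases hend with h0 | h0
    · subst h0
      exact ⟨f, hfi₀, hf1, hf2, hf3, hsurj⟩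
    · refine ⟨fun i => f (k - 1 - i), ?_, ?_, ?_, ?_, ?_⟩
      · have : k - 1 - 0 = i₀ := by omega
        simp only [this]
        exact hfi₀
      · intro i hi
        exact hf1 _ (by omega)
      · intro i hi j hj hij
        have := hf2 _ (by omega) _ (by omega) hij
        omega
      · intro i hi
        have hh := hf3 (k - 1 - (i + 1)) (by omega)
        have e1 : k - 1 - (i + 1) + 1 = k - 1 - i := by omega
        rw [e1] at hh
        exact hsymm _ _ hh
      · intro n hn
        obtain ⟨i, hi, hfi⟩ := hsurj n hn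
        refine ⟨k - 1 - i, by omega, ?_⟩
        have : k - 1 - (k - 1 - i) = i := by omega
        simp only [this]
        exact hfi
  let M : ℕ → Finset (Finset α) := fun i => Me Φ A B (f' i)
  have hM2 : ∀ i < k, (M i).card = 2 := fun i hi => me_two hS h (hf1' i hi)
  have hM0 : e₁ ∈ M 0 := by
    change e₁ ∈ Me Φ A B (f' 0)
    rw [hz]; exact k₀
  have hMone : ∀ i, i < k → e₁ ∈ M i → i = 0 := by
    intro i hi hmem
    have := me_one hS h (hf1' i hi) (hf1' 0 hkpos) hmem hM0
    exact hf2' i hi 0 hkpos this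
  have hMthree : ∀ i j l, i < k → j < k → l < k → ∀ c, c ∈ M i → c ∈ M j → c ∈ M l →
      i = j ∨ j = l ∨ i = l := by
    intro i j l hi hj hl c c1 c2 c3
    rcases me_le hS h (hf1' i hi) (hf1' j hj) (hf1' l hl) c1 c2 c3 with hh | hh | hh
    · exact Or.inl (hf2' i hi j hj hh)
    · exact Or.inr (Or.inl (hf2' j hj l hl hh))
    · exact Or.inr (Or.inr (hf2' i hi l hl hh))
  have hE := M4_edges (M := M) (e₁ := e₁) (k := k) hM2 hM0 (fun i hi => hf3' i hi) hMone hMthree
  refine ⟨k - 1, f', M4_e M e₁, fun i hi => hf1' i (by omega),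
    fun i hi j hj hij => hf2' i (by omega) j (by omega) hij, ?_, ?_⟩
  · intro n hn
    obtain ⟨i, hi, hfi⟩ := hsurj' n hn
    exact ⟨i, by omega, hfi⟩
  · intro i hi
    have hik : i < k := by omega
    have hs := M4_oth_spec (hM2 i hik) (hE i hik).1
    exact ⟨M4_pair (hM2 i hik) (hE i hik).1 hs.1 hs.2, hs.2.symm⟩

end Pool.Agent.LibSt23
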