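import Pool.Agent.LibSt23.L4
import Pool.Agent.LibSt23.H1
import Pool.Agent.LibSt23.M4
import Pool.Agent.LibTet23.SD

/-!
[ST23 A6] The Hamiltonian path.
-/

set_option autoImplicit false

namespace Pool.Agent.LibSt23

open Finset Pool.Agent.LibPol19 Pool.Agent.LibTet88 Pool.Agent.LibTet23
open scoped Classical

section gen

variable {α : Type*}

private theorem A6_me {Φ : Finset (Finset α)} {A B n e : Finset α} (he : e ∈ Me Φ A B n) :
    ∃ x ∈ A, ∃ y ∈ B, e = {x, y} ∧ ∃ F ∈ Φ, n ⊆ F ∧ x ∈ F ∧ y ∈ F := by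
  obtain ⟨q, hq, rfl⟩ := mem_image.1 he
  obtain ⟨hq1, F, hF, h2, h3, h4⟩ := mem_filter.1 hq
  exact ⟨q.1, (mem_product.1 hq1).1, q.2, (mem_product.1 hq1).2, rfl, F, hF, h2, h3, h4⟩

private theorem A6_gen {V : Finset α} {Φ : Finset (Finset α)} (hSf : Surf V Φ) {p : α} {S A B e₁ e₂ : Finset α}
    (h : StrS V Φ p S A B e₁ e₂) {a b : α → List α} (hl : ∀ s ∈ S, Lk Φ s A B (a s) (b s))
    {Z : α → List (Finset α)} (Zne : ∀ s ∈ S, Z s ≠ []) (Znd : ∀ s ∈ S, (Z s).Nodup)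
    (Zch : ∀ s ∈ S, (Z s).IsChain (fun t u => (t ∩ u).card = 3))
    (Zhd : ∀ s ∈ S, ∀ t ∈ (Z s).head?, ∀ x ∈ (a s).head?, ∀ y ∈ (b s).head?, ({p, x, y} : Finset α) ⊆ t)
    (Zlt : ∀ s ∈ S, ∀ t ∈ (Z s).getLast?, ∀ x ∈ (a s).getLast?, ∀ y ∈ (b s).getLast?, ({p, x, y} : Finset α) ⊆ t)
    {T : Finset (Finset α)}
    (hT : ∀ t, t ∈ T ↔ (∃ F ∈ Fp Φ p S, t = insert p F) ∨ ∃ s ∈ S, t ∈ Z s)
    (h1 : ∀ s ∈ S, ∀ t ∈ Z s, ∀ F ∈ Fp Φ p S, t ≠ insert p F)
    (h2 : ∀ s ∈ S, ∀ s' ∈ S, s ≠ s' → ∀ t ∈ Z s, t ∉ Z s') (h4 : ∀ t ∈ T, t.card = 4) : HP T := by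
  obtain ⟨r, f, e, f1, f2, f3, fe⟩ := mac_path hSf h
  have hFc : ∀ {F : Finset α}, F ∈ Fp Φ p S → F.card = 3 := fun hF => hSf.card _ (mem_filter.1 hF).1
  have key : ∀ i, i ≤ r → ∃ L : List (Finset α), L ≠ [] ∧ L.Nodup ∧
      L.IsChain (fun t u => (t ∩ u).card = 3) ∧ (∀ t ∈ L.head?, insert p (e i) ⊆ t) ∧
      (∀ t ∈ L.getLast?, insert p (e (i + 1)) ⊆ t) ∧
      ((f i ∈ Fp Φ p S ∧ ∀ t, t ∈ L ↔ t = insert p (f i)) ∨ ∃ s ∈ S, f i = {s} ∧ ∀ t, t ∈ L ↔ t ∈ Z s) := by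
    intro i hi
    obtain ⟨hM, hne⟩ := fe i hi
    have m0 : e i ∈ Me Φ A B (f i) := by
      rw [hM]; exact mem_insert_self _ _
    have m1 : e (i + 1) ∈ Me Φ A B (f i) := by
      rw [hM]; exact mem_insert_of_mem (mem_singleton_self _)
    obtain ⟨x, hx, y, hy, hxy, F, hF, hfF, xF, yF⟩ := A6_me m0
    obtain ⟨x', hx', y', hy', hxy', F', hF', hfF', xF', yF'⟩ := A6_me m1
    rcases mem_union.1 (f1 i hi) with hn | hn
    · have hc := hFc hn
      have e1 : f i = F := eq_of_subset_of_card_le hfF (by rw [hc, hSf.card F hF])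
      have e2 : f i = F' := eq_of_subset_of_card_le hfF' (by rw [hc, hSf.card F' hF'])
      refine ⟨[insert p (f i)], by simp, by simp, by simp, ?_, ?_, Or.inl ⟨hn, fun t => by simp⟩⟩
      · intro t ht
        simp only [List.head?_cons, Option.mem_def, Option.some.injEq] at ht
        rw [← ht]
        refine insert_subset_insert _ ?_
        rw [hxy, insert_subset_iff, singleton_subset_iff, e1]
        exact ⟨xF, yF⟩
      · intro t ht
        simp only [List.getLast?_singleton, Option.mem_def, Option.some.injEq] at ht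
        rw [← ht]
        refine insert_subset_insert _ ?_
        rw [hxy', insert_subset_iff, singleton_subset_iff, e2]
        exact ⟨xF', yF'⟩
    · obtain ⟨s, hs, hsf⟩ := mem_image.1 hn
      have sA : s ∉ A := fun h' => disjoint_left.1 h.SA hs h'
      have sB : s ∉ B := fun h' => disjoint_left.1 h.SB hs h'
      have sF : s ∈ F := hfF (by rw [← hsf]; exact mem_singleton_self _)
      have sF' : s ∈ F' := hfF' (by rw [← hsf]; exact mem_singleton_self _)
      have nxy : ∀ u ∈ A, ∀ w ∈ B, u ≠ w := fun u hu w hw huw => disjoint_left.1 h.AB hu (huw ▸ hw)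
      have e1 : F = {s, x, y} := tri_eq hSf hF sF xF yF (fun h' => sA (h' ▸ hx)) (fun h' => sB (h' ▸ hy))
        (nxy x hx y hy)
      have e2 : F' = {s, x', y'} := tri_eq hSf hF' sF' xF' yF' (fun h' => sA (h' ▸ hx')) (fun h' => sB (h' ▸ hy'))
        (nxy x' hx' y' hy')
      have k1 := lk_mixed (hl s hs) h.AB sA sB hx hy (e1 ▸ hF)
      have k2 := lk_mixed (hl s hs) h.AB sA sB hx' hy' (e2 ▸ hF')
      have same : ∀ {o : Option α} {u w : α}, u ∈ o → w ∈ o → u = w := by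
        intro o u w hu hw
        rw [Option.mem_def] at hu hw
        rw [hu] at hw
        exact Option.some.inj hw
      rcases k1 with ⟨k1, k1'⟩ | ⟨k1, k1'⟩
      · rcases k2 with ⟨k2, k2'⟩ | ⟨k2, k2'⟩
        · exact absurd (by rw [hxy, hxy', same k1 k2, same k1' k2']) hne
        · refine ⟨Z s, Zne s hs, Znd s hs, Zch s hs, ?_, ?_, Or.inr ⟨s, hs, hsf.symm, fun t => Iff.rfl⟩⟩
          · intro t ht
            rw [hxy]
            exact Zhd s hs t ht x k1 y k1'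
          · intro t ht
            rw [hxy']
            exact Zlt s hs t ht x' k2 y' k2'
      · rcases k2 with ⟨k2, k2'⟩ | ⟨k2, k2'⟩
        · refine ⟨(Z s).reverse, by simpa using Zne s hs, List.nodup_reverse.2 (Znd s hs), ?_, ?_, ?_,
            Or.inr ⟨s, hs, hsf.symm, fun t => List.mem_reverse⟩⟩
          · rw [List.isChain_reverse]
            refine List.IsChain.imp ?_ (Zch s hs)
            intro t u htu
            rw [inter_comm]
            exact htu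
          · intro t ht
            rw [List.head?_reverse] at ht
            rw [hxy]
            exact Zlt s hs t ht x k1 y k1'
          · intro t ht
            rw [List.getLast?_reverse] at ht
            rw [hxy']
            exact Zhd s hs t ht x' k2 y' k2'
        · exact absurd (by rw [hxy, hxy', same k1 k2, same k1' k2']) hne
  have hcard : ∀ i, i ≤ r → ∀ e', e' ∈ Me Φ A B (f i) → (insert p e').card = 3 := by
    intro i hi e' he'
    obtain ⟨x, hx, y, hy, hxy, -⟩ := A6_me he'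
    rw [hxy]
    exact card_three (fun h' => h.pA (h' ▸ hx)) (fun h' => h.pB (h' ▸ hy))
      (fun h' => disjoint_left.1 h.AB hx (h' ▸ hy))
  have key' : ∀ i, ∃ L : List (Finset α), i ≤ r → (L ≠ [] ∧ L.Nodup ∧
      L.IsChain (fun t u => (t ∩ u).card = 3) ∧ (∀ t ∈ L.head?, insert p (e i) ⊆ t) ∧
      (∀ t ∈ L.getLast?, insert p (e (i + 1)) ⊆ t) ∧
      ((f i ∈ Fp Φ p S ∧ ∀ t, t ∈ L ↔ t = insert p (f i)) ∨ ∃ s ∈ S, f i = {s} ∧ ∀ t, t ∈ L ↔ t ∈ Z s)) := by
    intro i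
    by_cases hi : i ≤ r
    · obtain ⟨L, hL⟩ := key i hi
      exact ⟨L, fun _ => hL⟩
    · exact ⟨[], fun h' => absurd h' hi⟩
  choose L hL using key'
  have pF : ∀ {F : Finset α}, F ∈ Fp Φ p S → p ∉ F := fun hF => (mem_filter.1 hF).2.1
  refine hp_blocks (p := p) r e L (fun i hi => (hL i hi).1) (fun i hi => (hL i hi).2.1) (fun i hi => (hL i hi).2.2.1)
    (fun i hi => (hL i hi).2.2.2.1) (fun i hi => (hL i hi).2.2.2.2.1) ?_ ?_ ?_ h4
  · intro i hi
    rcases Nat.lt_or_ge i (r + 1) with h' | h'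
    · refine hcard i (by omega) _ ?_
      rw [(fe i (by omega)).1]
      exact mem_insert_self _ _
    · obtain rfl : i = r + 1 := by omega
      refine hcard r le_rfl _ ?_
      rw [(fe r le_rfl).1]
      exact mem_insert_of_mem (mem_singleton_self _)
  · intro i hi j hj hij t hti htj
    rcases (hL i hi).2.2.2.2.2 with ⟨g1, g2⟩ | ⟨s, hs, g1, g2⟩
    · have t1 := (g2 t).1 hti
      rcases (hL j hj).2.2.2.2.2 with ⟨k1, k2⟩ | ⟨s', hs', k1, k2⟩
      · have t2 := (k2 t).1 htj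
        refine hij (f2 i hi j hj ?_)
        have h3 : (insert p (f i)).erase p = (insert p (f j)).erase p := by rw [← t1, ← t2]
        rwa [erase_insert (pF g1), erase_insert (pF k1)] at h3
      · exact h1 s' hs' t ((k2 t).1 htj) _ g1 t1
    · rcases (hL j hj).2.2.2.2.2 with ⟨k1, k2⟩ | ⟨s', hs', k1, k2⟩
      · exact h1 s hs t ((g2 t).1 hti) _ k1 ((k2 t).1 htj)
      · have hss : s ≠ s' := by
          rintro rfl
          exact hij (f2 i hi j hj (by rw [g1, k1]))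
        exact h2 s hs s' hs' hss t ((g2 t).1 hti) ((k2 t).1 htj)
  · intro t
    rw [hT]
    constructor
    · rintro (⟨F, hF, rfl⟩ | ⟨s, hs, hts⟩)
      · obtain ⟨i, hi, hfi⟩ := f3 F (mem_union_left _ hF)
        refine ⟨i, hi, ?_⟩
        rcases (hL i hi).2.2.2.2.2 with ⟨g1, g2⟩ | ⟨s, hs, g1, g2⟩
        · exact (g2 _).2 (by rw [hfi])
        · have h3 := hFc hF
          rw [← hfi, g1, card_singleton] at h3
          omega
      · obtain ⟨i, hi, hfi⟩ := f3 {s} (mem_union_right _ (mem_image.2 ⟨s, hs, rfl⟩))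
        refine ⟨i, hi, ?_⟩
        rcases (hL i hi).2.2.2.2.2 with ⟨g1, g2⟩ | ⟨s', hs', g1, g2⟩
        · have h3 := hFc g1
          rw [hfi, card_singleton] at h3
          omega
        · have h4 : s' = s := singleton_injective (g1.symm.trans hfi)
          rw [g2, h4]
          exact hts
    · rintro ⟨i, hi, hti⟩
      rcases (hL i hi).2.2.2.2.2 with ⟨g1, g2⟩ | ⟨s, hs, g1, g2⟩
      · exact Or.inl ⟨f i, g1, (g2 t).1 hti⟩
      · exact Or.inr ⟨s, hs, (g2 t).1 hti⟩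

end gen

private theorem A6_ins (p : Ed 3) (t : Finset (Ed 3)) :
    @insert _ _ (@Finset.instInsert _ (fun a b => Classical.propDecidable (a = b))) p t = insert p t := by
  ext x
  simp [Finset.mem_insert]

private theorem A6_fp {V : Finset (Ed 3)} {p : Ed 3} {S F : Finset (Ed 3)} : F ∈ Fp (fc V) p S ↔
    F ∈ fc V ∧ p ∉ F ∧ ∀ s ∈ S, s ∉ F := by
  unfold Fp
  simp only [Finset.mem_filter]

private theorem A6_old {V : Finset (Ed 3)} {p : Ed 3} {S A B e₁ e₂ : Finset (Ed 3)}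
    (h : StrS V (fc V) p S A B e₁ e₂) {a b : Ed 3 → List (Ed 3)} (hl : ∀ s ∈ S, Lk (fc V) s A B (a s) (b s))
    {t : Finset (Ed 3)} : t ∈ Tp V p \ S.biUnion (fun s => rg p s (a s ++ (b s).reverse)) ↔
      ∃ F ∈ Fp (fc V) p S, t = insert p F := by
  rw [mem_sdiff, mem_biUnion]
  constructor
  · rintro ⟨h1, h2⟩
    obtain ⟨F, hF, rfl⟩ := mem_image.1 h1
    obtain ⟨hF1, hF2⟩ := mem_filter.1 hF
    refine ⟨F, A6_fp.2 ⟨hF1, hF2, fun s hs hsF => h2 ⟨s, hs, ?_⟩⟩, rfl⟩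
    obtain ⟨q, hq, hqF⟩ := (hl s hs).all F hF1 hsF
    unfold rg
    rw [List.mem_toFinset, List.mem_map]
    refine ⟨q, hq, ?_⟩
    rw [hqF]
    ext x
    simp only [Finset.mem_insert, Finset.mem_singleton]
  · rintro ⟨F, hF, rfl⟩
    obtain ⟨hF1, hF2, hF3⟩ := A6_fp.1 hF
    refine ⟨mem_image.2 ⟨F, mem_filter.2 ⟨hF1, hF2⟩, rfl⟩, ?_⟩
    rintro ⟨s, hs, h2⟩
    unfold rg at h2
    rw [List.mem_toFinset, List.mem_map] at h2
    obtain ⟨q, hq, hqF⟩ := h2
    have h3 : s ∈ insert p F := by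
      rw [← hqF]
      simp
    rcases mem_insert.1 h3 with h4 | h4
    · exact h.pS (h4 ▸ hs)
    · exact hF3 s hs h4

theorem hp_star {V : Finset (Ed 3)} (hS : SV V) {p : Ed 3} {S A B e₁ e₂ : Finset (Ed 3)}
    (h : StrS V (fc V) p S A B e₁ e₂) {a b : Ed 3 → List (Ed 3)} (hl : ∀ s ∈ S, Lk (fc V) s A B (a s) (b s))
    {Z : Ed 3 → List (Finset (Ed 3))} (hZ : ∀ s ∈ S, Strd p s p p (a s) (b s) (Z s))
    (hT : TetD V ((Tp V p \ S.biUnion fun s => rg p s (a s ++ (b s).reverse)) ∪ S.biUnion fun s => (Z s).toFinset))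
    (h1 : ∀ s ∈ S, ∀ t ∈ Z s, t ∉ Tp V p \ S.biUnion fun s => rg p s (a s ++ (b s).reverse))
    (h2 : ∀ s ∈ S, ∀ s' ∈ S, s ≠ s' → ∀ t ∈ Z s, t ∉ Z s') :
    HP ((Tp V p \ S.biUnion fun s => rg p s (a s ++ (b s).reverse)) ∪ S.biUnion fun s => (Z s).toFinset) := by
  refine A6_gen (surf_of hS) h hl (fun s hs => (hZ s hs).ne) (fun s hs => (hZ s hs).nd) ?_ ?_ ?_ ?_ ?_ h2
    (fun t ht => (hT.mem t ht).2.1)
  · intro s hs
    refine List.IsChain.imp ?_ (hZ s hs).ch
    intro t u htu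
    exact (congrArg Finset.card (Finset.ext fun x => by simp only [Finset.mem_inter])).trans htu
  · intro s hs t ht x hx y hy z hz
    refine (hZ s hs).hd t ht x hx y hy ?_
    simpa only [Finset.mem_insert, Finset.mem_singleton] using hz
  · intro s hs t ht x hx y hy z hz
    refine (hZ s hs).lt t ht x hx y hy ?_
    simpa only [Finset.mem_insert, Finset.mem_singleton] using hz
  · intro t
    rw [mem_union, A6_old h hl, mem_biUnion]
    simp only [A6_ins, List.mem_toFinset]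
  · intro s hs t ht F hF hte
    rw [A6_ins] at hte
    exact h1 s hs t ht ((A6_old h hl).2 ⟨F, hF, hte⟩)

end Pool.Agent.LibSt23
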