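import Pool.Agent.LibSt23.Defs

/-!
[ST23 C1] (MEDIUM) Minimizing `S` (compare LibTet23.K5). Strong induction on `S.card`. If for all `s ∈ S` both `insert s A` and `insert s B` are not forests: `cyc_two` of LibTet23.K2 gives `twoA`, `twoB`. Otherwise, say `insert s A` is a forest: `S.erase s, insert s A, B` is again a `PartS`: for another `s' ∈ S` (not adjacent to `s`) the sets `(nbd V Φ s').filter (· ∈ A)` and `mxf Φ A B s'` do not change (`s ∉ nbd s'`; a triangle `F ∋ s'` does not contain `s`: otherwise `Aj Φ s s'`).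
-/

set_option autoImplicit false

namespace Pool.Agent.LibSt23

open Finset Pool.Agent.LibPol19 Pool.Agent.LibTet88 Pool.Agent.LibTet23
open scoped Classical

private lemma C1_ex {α : Type*} {Φ : Finset (Finset α)} {A : Finset α} {s s' : α} {F : Finset α} (hF : F ∈ Φ)
    (hsF : s' ∈ F) (hne : s' ≠ s) (hna : ¬ Aj Φ s' s) : (∃ x ∈ F, x ∈ insert s A) ↔ ∃ x ∈ F, x ∈ A := by
  constructor
  · rintro ⟨x, hx, hxA⟩
    rcases Finset.mem_insert.1 hxA with rfl | h
    · exact absurd ⟨hne, F, hF, hsF, hx⟩ hna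
    · exact ⟨x, hx, h⟩
  · rintro ⟨x, hx, hxA⟩
    exact ⟨x, hx, Finset.mem_insert_of_mem hxA⟩

private lemma C1_mxA {α : Type*} {Φ : Finset (Finset α)} {A B : Finset α} {s s' : α}
    (hne : s' ≠ s) (hna : ¬ Aj Φ s' s) : mxf Φ (insert s A) B s' = mxf Φ A B s' := by
  unfold mxf
  refine Finset.filter_congr fun F hF => ?_
  constructor
  · rintro ⟨h1, h2, h3⟩
    exact ⟨h1, (C1_ex hF h1 hne hna).1 h2, h3⟩
  · rintro ⟨h1, h2, h3⟩
    exact ⟨h1, (C1_ex hF h1 hne hna).2 h2, h3⟩

private lemma C1_mxB {α : Type*} {Φ : Finset (Finset α)} {A B : Finset α} {s s' : α}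
    (hne : s' ≠ s) (hna : ¬ Aj Φ s' s) : mxf Φ A (insert s B) s' = mxf Φ A B s' := by
  unfold mxf
  refine Finset.filter_congr fun F hF => ?_
  constructor
  · rintro ⟨h1, h2, h3⟩
    exact ⟨h1, h2, (C1_ex hF h1 hne hna).1 h3⟩
  · rintro ⟨h1, h2, h3⟩
    exact ⟨h1, h2, (C1_ex hF h1 hne hna).2 h3⟩

private lemma C1_nb {α : Type*} {V : Finset α} {Φ : Finset (Finset α)} {A : Finset α} {s s' : α}
    (hna : ¬ Aj Φ s' s) : (nbd V Φ s').filter (· ∈ insert s A) = (nbd V Φ s').filter (· ∈ A) := by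
  refine Finset.filter_congr fun u hu => ?_
  have hu' : Aj Φ s' u := (Finset.mem_filter.1 hu).2
  constructor
  · intro h
    rcases Finset.mem_insert.1 h with rfl | h
    · exact absurd hu' hna
    · exact h
  · intro h
    exact Finset.mem_insert_of_mem h

private lemma C1_stepA {α : Type*} {V : Finset α} {Φ : Finset (Finset α)} {S A B : Finset α} {s₀ : α}
    {G : Prop} (hP : PartS V Φ S A B s₀ G) {s : α} (hs : s ∈ S) (hF : Fo Φ (insert s A)) :
    PartS V Φ (S.erase s) (insert s A) B s₀ G where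
  cov v := by
    rw [hP.cov, Finset.mem_erase, Finset.mem_insert]
    by_cases hv : v = s
    · subst hv
      simp [hs]
    · simp [hv]
  SA := by
    rw [Finset.disjoint_left]
    intro x hx hx'
    rw [Finset.mem_erase] at hx
    rcases Finset.mem_insert.1 hx' with h | h
    · exact hx.1 h
    · exact Finset.disjoint_left.1 hP.SA hx.2 h
  SB := Finset.disjoint_of_subset_left (Finset.erase_subset _ _) hP.SB
  AB := by
    rw [Finset.disjoint_left]
    intro x hx hx'
    rcases Finset.mem_insert.1 hx with rfl | h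
    · exact Finset.disjoint_left.1 hP.SB hs hx'
    · exact Finset.disjoint_left.1 hP.AB h hx'
  ind a ha b hb := hP.ind a (Finset.mem_of_mem_erase ha) b (Finset.mem_of_mem_erase hb)
  fA := hF
  fB := hP.fB
  deg s' hs' h0 := by
    have hne : s' ≠ s := Finset.ne_of_mem_erase hs'
    have hsS := Finset.mem_of_mem_erase hs'
    have hna : ¬ Aj Φ s' s := hP.ind s' hsS s hs
    rw [C1_mxA hne hna, C1_nb hna]
    exact hP.deg s' hsS h0
  d0 h0 := by
    have hne : s₀ ≠ s := Finset.ne_of_mem_erase h0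
    have hsS := Finset.mem_of_mem_erase h0
    have hna : ¬ Aj Φ s₀ s := hP.ind s₀ hsS s hs
    rw [C1_mxA hne hna]
    exact hP.d0 hsS

private lemma C1_stepB {α : Type*} {V : Finset α} {Φ : Finset (Finset α)} {S A B : Finset α} {s₀ : α}
    {G : Prop} (hP : PartS V Φ S A B s₀ G) {s : α} (hs : s ∈ S) (hF : Fo Φ (insert s B)) :
    PartS V Φ (S.erase s) A (insert s B) s₀ G where
  cov v := by
    rw [hP.cov, Finset.mem_erase, Finset.mem_insert]
    by_cases hv : v = s
    · subst hv
      simp [hs]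
    · simp [hv]
  SB := by
    rw [Finset.disjoint_left]
    intro x hx hx'
    rw [Finset.mem_erase] at hx
    rcases Finset.mem_insert.1 hx' with h | h
    · exact hx.1 h
    · exact Finset.disjoint_left.1 hP.SB hx.2 h
  SA := Finset.disjoint_of_subset_left (Finset.erase_subset _ _) hP.SA
  AB := by
    rw [Finset.disjoint_left]
    intro x hx hx'
    rcases Finset.mem_insert.1 hx' with rfl | h
    · exact Finset.disjoint_left.1 hP.SA hs hx
    · exact Finset.disjoint_left.1 hP.AB hx h
  ind a ha b hb := hP.ind a (Finset.mem_of_mem_erase ha) b (Finset.mem_of_mem_erase hb)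
  fA := hP.fA
  fB := hF
  deg s' hs' h0 := by
    have hne : s' ≠ s := Finset.ne_of_mem_erase hs'
    have hsS := Finset.mem_of_mem_erase hs'
    have hna : ¬ Aj Φ s' s := hP.ind s' hsS s hs
    rw [C1_mxB hne hna, C1_nb hna]
    exact hP.deg s' hsS h0
  d0 h0 := by
    have hne : s₀ ≠ s := Finset.ne_of_mem_erase h0
    have hsS := Finset.mem_of_mem_erase h0
    have hna : ¬ Aj Φ s₀ s := hP.ind s₀ hsS s hs
    rw [C1_mxB hne hna]
    exact hP.d0 hsS

theorem exists_niceS {α : Type*} {V : Finset α} {Φ : Finset (Finset α)} (hS : Surf V Φ) {S A B : Finset α} {s₀ : α}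
    {G : Prop} (hP : PartS V Φ S A B s₀ G) : ∃ S' A' B', NiceS V Φ S' A' B' s₀ G := by
  obtain ⟨n, hn⟩ : ∃ n, S.card = n := ⟨_, rfl⟩
  induction n using Nat.strong_induction_on generalizing S A B with
  | _ n ih =>
    by_cases h : ∀ s ∈ S, ¬ Fo Φ (insert s A) ∧ ¬ Fo Φ (insert s B)
    · refine ⟨S, A, B, hP, ?_, ?_⟩
      · intro s hs
        exact cyc_two hP.fA (Finset.disjoint_left.1 hP.SA hs) (h s hs).1
      · intro s hs
        exact cyc_two hP.fB (Finset.disjoint_left.1 hP.SB hs) (h s hs).2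
    · push Not at h
      obtain ⟨s, hs, h⟩ := h
      by_cases hA : Fo Φ (insert s A)
      · exact ih (S.erase s).card (by rw [← hn]; exact Finset.card_erase_lt_of_mem hs)
          (C1_stepA hP hs hA) rfl
      · exact ih (S.erase s).card (by rw [← hn]; exact Finset.card_erase_lt_of_mem hs)
          (C1_stepB hP hs (h hA)) rfl

end Pool.Agent.LibSt23
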