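import Pool.Agent.LibSt23.Defs

/-!
[ST23 C4] (MEDIUM) The vertices of `S` with more than two mixed triangles. By `PartS.deg`, `d0`: `(nbd V Φ s).card ≤ 4`; with `twoA`, `twoB`: `nbd V Φ s = {a, a', b, b'}`, four different points. `square` of LibTet23.K4 (for `a, a', b, b'`): three possible cyclic orders. If `a, a'` are neighbours in it, the triangles at `s` are `{s, a, a'}, {s, b, b'}` and two mixed ones (`Sq.all`): `(mxf Φ A B s).card ≤ 2`, contradiction. Otherwise (the order `a, b, a', b'`) all four triangles are mixed. `part_old`: all `s ∈ S` have `(nbd V Φ s).card ≤ 4`.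
-/

set_option autoImplicit false

namespace Pool.Agent.LibSt23

open Finset Pool.Agent.LibPol19 Pool.Agent.LibTet88 Pool.Agent.LibTet23
open scoped Classical

private theorem C4_deg {α : Type*} {V : Finset α} {Φ : Finset (Finset α)} {S A B : Finset α} {s₀ : α}
    {G : Prop} (hN : NiceS V Φ S A B s₀ G) {s : α} (hs : s ∈ S) (hm : ¬ (mxf Φ A B s).card ≤ 2) :
    (nbd V Φ s).card ≤ 4 := by
  by_cases hss : s = s₀
  · have h0 := hN.part.d0 (hss ▸ hs)
    rw [← hss] at h0
    exact h0.resolve_right hm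
  · rcases hN.part.deg s hs hss with h1 | h1
    · exact h1
    · exact absurd h1.2.1 hm

private theorem C4_two {α : Type*} {V : Finset α} {Φ : Finset (Finset α)} {A B : Finset α}
    {s a a' b b' : α} (hsA : s ∉ A) (hsB : s ∉ B) (haB : a ∉ B) (ha'B : a' ∉ B) (hbA : b ∉ A)
    (hb'A : b' ∉ A) (hq : Sq V Φ s a a' b b') : (mxf Φ A B s).card ≤ 2 := by
  have hsub : mxf Φ A B s ⊆ {({s, a', b} : Finset α), ({s, b', a} : Finset α)} := by
    intro F hF
    unfold mxf at hF
    rw [Finset.mem_filter] at hF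
    obtain ⟨hF1, hF2, ⟨x, hx, hxA⟩, y, hy, hyB⟩ := hF
    rcases hq.all F hF1 hF2 with h1 | h1 | h1 | h1
    · exfalso
      rw [h1] at hy
      simp only [Finset.mem_insert, Finset.mem_singleton] at hy
      rcases hy with rfl | rfl | rfl
      · exact hsB hyB
      · exact haB hyB
      · exact ha'B hyB
    · rw [h1]
      simp
    · exfalso
      rw [h1] at hx
      simp only [Finset.mem_insert, Finset.mem_singleton] at hx
      rcases hx with rfl | rfl | rfl
      · exact hsA hxA
      · exact hbA hxA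
      · exact hb'A hxA
    · rw [h1]
      simp
  exact (Finset.card_le_card hsub).trans Finset.card_le_two

theorem alt4 {α : Type*} {V : Finset α} {Φ : Finset (Finset α)} (hS : Surf V Φ) {S A B : Finset α} {s₀ : α}
    {G : Prop} (hN : NiceS V Φ S A B s₀ G) {s : α} (hs : s ∈ S) (hm : ¬ (mxf Φ A B s).card ≤ 2) :
    ∀ F ∈ Φ, s ∈ F → (∃ x ∈ F, x ∈ A) ∧ ∃ y ∈ F, y ∈ B := by
  have hAB : ∀ x, x ∈ A → x ∉ B := fun x hx => Finset.disjoint_left.1 hN.part.AB hx
  have hsA : s ∉ A := Finset.disjoint_left.1 hN.part.SA hs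
  have hsB : s ∉ B := Finset.disjoint_left.1 hN.part.SB hs
  obtain ⟨a, a', haa, ha, ha', hsa, hsa', _⟩ := hN.twoA s hs
  obtain ⟨b, b', hbb, hb, hb', hsb, hsb', _⟩ := hN.twoB s hs
  have haB : a ∉ B := hAB a ha
  have ha'B : a' ∉ B := hAB a' ha'
  have hbA : b ∉ A := fun h => hAB b h hb
  have hb'A : b' ∉ A := fun h => hAB b' h hb'
  have ab : a ≠ b := fun e => haB (e ▸ hb)
  have ab' : a ≠ b' := fun e => haB (e ▸ hb')
  have a'b : a' ≠ b := fun e => ha'B (e ▸ hb)
  have a'b' : a' ≠ b' := fun e => ha'B (e ▸ hb')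
  have h4 := C4_deg hN hs hm
  have hsub : ({a, a', b, b'} : Finset α) ⊆ nbd V Φ s := by
    intro x hx
    simp only [Finset.mem_insert, Finset.mem_singleton] at hx
    rw [mem_nbd hS]
    rcases hx with rfl | rfl | rfl | rfl
    · exact hsa
    · exact hsa'
    · exact hsb
    · exact hsb'
  have hc : ({a, a', b, b'} : Finset α).card = 4 := by
    rw [Finset.card_insert_of_notMem, Finset.card_insert_of_notMem, Finset.card_insert_of_notMem,
      Finset.card_singleton]
    · simpa using hbb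
    · simp only [Finset.mem_insert, Finset.mem_singleton, not_or]
      exact ⟨a'b, a'b'⟩
    · simp only [Finset.mem_insert, Finset.mem_singleton, not_or]
      exact ⟨haa, ab, ab'⟩
  have nb : nbd V Φ s = {a, a', b, b'} := (Finset.eq_of_subset_of_card_le hsub (by rw [hc]; exact h4)).symm
  rcases square hS nb haa ab ab' a'b a'b' hbb with hq | hq | hq
  · exact absurd (C4_two hsA hsB haB ha'B hbA hb'A hq) hm
  · exact absurd (C4_two hsA hsB haB ha'B hb'A hbA hq) hm
  · intro F hF hsF
    rcases hq.all F hF hsF with h1 | h1 | h1 | h1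
    · rw [h1]
      exact ⟨⟨a, by simp, ha⟩, b, by simp, hb⟩
    · rw [h1]
      exact ⟨⟨a', by simp, ha'⟩, b, by simp, hb⟩
    · rw [h1]
      exact ⟨⟨a', by simp, ha'⟩, b', by simp, hb'⟩
    · rw [h1]
      exact ⟨⟨a, by simp, ha⟩, b', by simp, hb'⟩

theorem part_old {α : Type*} {V : Finset α} {Φ : Finset (Finset α)} {S A B : Finset α} {s₀ : α}
    {G : Prop} (hN : NiceS V Φ S A B s₀ G) (hm : ∀ s ∈ S, ¬ (mxf Φ A B s).card ≤ 2) : Part V Φ S A B :=
  ⟨hN.part.cov, hN.part.SA, hN.part.SB, hN.part.AB, hN.part.ind, fun s hs => C4_deg hN hs (hm s hs),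
    hN.part.fA, hN.part.fB⟩

end Pool.Agent.LibSt23
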