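import Pool.Agent.LibSt23.C3
import Pool.Agent.LibSt23.C4
import Pool.Agent.LibSt23.L4

set_option autoImplicit false

/-!
[ST23 C5] (MEDIUM/LONG) The final colouring. `S₁ := S.filter (fun s => (mxf Φ A B s).card ≤ 2)`, nonempty. `p := s₀` if `s₀ ∈ S₁`, any member of `S₁` otherwise. `S' := S₁.erase p`, `B' := B ∪ (S \ S₁)`. For `s ∈ S₁`: the neighbours are in `A ∪ B` (`cov`, `ind`), so `mxf Φ A B' s = mxf Φ A B s` (a triangle at `s` contains no other member of `S`); `link_runs` gives `Lk Φ s A B a b` (hence `Lk Φ s A B' a b`), `a, b` have at least 2 members (`twoA`, `twoB`; `lk_cardA`), and `(mxf Φ A B s).card = 2`: the triangles at the two mixed pairs (`lk_first`, `lk_last`, `lk_mixed`; they are different because `a, b` have at least 2 members). `e₁ := {x₁, y₁}`, `e₂ := {x_k, y_l}` for the runs of `p`: `m1`, `m2`, `only` (`lk_mixed`; `y ∈ B'` adjacent to `p` is in `B`), `ne`. `cov`: `V = S ∪ A ∪ B`. `np`: `ind`. `fA`, `cA` (`A_connS`). `bi`: `F` without `p` and without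 members of `S'`: it contains a member of `S \ S₁`: `alt4`, and that member is in `B'`; or no member of `S`: `F ⊆ A ∪ B`, not inside `A` or `B` (`not_sub_forest` of LibTet23.K0; `Surf.sub`). The lengths: `(nbd V Φ s).card ≤ 4`, or `G` and (`≤ 6` or `≤ 4, ≤ 4`), for `s ∈ S'` (`s ≠ s₀`: if `s₀ ∈ S₁` then `p = s₀`); `a.length + b.length = (nbd V Φ s).card` (`lk_cardA`, `lk_cardB`), both at least 2, so both at most 4.
-/

namespace Pool.Agent.LibSt23

open Finset Pool.Agent.LibPol19 Pool.Agent.LibTet88 Pool.Agent.LibTet23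
open scoped Classical

private lemma C5_headlast {α : Type*} {a : List α} (hn : a.Nodup) (h2 : 2 ≤ a.length) :
    ∃ x x', x ∈ a.head? ∧ x' ∈ a.getLast? ∧ x ≠ x' ∧ x ∈ a ∧ x' ∈ a := by
  match a, hn, h2 with
  | [], _, h2 => simp at h2
  | [x], _, h2 => simp at h2
  | x :: y :: l, hn, _ =>
    have hne : (y :: l) ≠ [] := by simp
    have hne' : (x :: y :: l) ≠ [] := by simp
    refine ⟨x, (y :: l).getLast hne, ?_, ?_, ?_, ?_, ?_⟩
    · simp
    · rw [List.getLast?_eq_some_getLast hne', List.getLast_cons hne]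
      exact rfl
    · intro h
      have h1 := List.getLast_mem hne
      rw [← h] at h1
      exact (List.nodup_cons.1 hn).1 h1
    · simp
    · exact List.mem_cons_of_mem _ (List.getLast_mem hne)

section

variable {α : Type*} {V : Finset α} {Φ : Finset (Finset α)} {S A B : Finset α} {s₀ : α} {G : Prop}

private lemma C5_nb (hS : Surf V Φ) (hN : NiceS V Φ S A B s₀ G) {s : α} (hs : s ∈ S) :
    ∀ u, Aj Φ s u → u ∈ A ∨ u ∈ B := by
  intro u hu
  rcases (hN.part.cov u).1 (aj_mem hS hu).2 with h | h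
  · exact absurd hu (hN.part.ind s hs u h)
  · exact h

private lemma C5_notA (hN : NiceS V Φ S A B s₀ G) {s : α} (hs : s ∈ S) : s ∉ A :=
  Finset.disjoint_left.1 hN.part.SA hs

private lemma C5_notB (hN : NiceS V Φ S A B s₀ G) {s : α} (hs : s ∈ S) : s ∉ B :=
  Finset.disjoint_left.1 hN.part.SB hs

private lemma C5_lk (hS : Surf V Φ) (hN : NiceS V Φ S A B s₀ G) {s : α} (hs : s ∈ S)
    (hm : (mxf Φ A B s).card ≤ 2) :
    ∃ a b, Lk Φ s A B a b ∧ 2 ≤ a.length ∧ 2 ≤ b.length ∧ a.length + b.length = (nbd V Φ s).card ∧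
      a.length = ((nbd V Φ s).filter (· ∈ A)).card ∧ b.length = ((nbd V Φ s).filter (· ∈ B)).card := by
  have hsV : s ∈ V := (hN.part.cov s).2 (Or.inl hs)
  obtain ⟨x, x', hxx, hxA, hxA', hx, hx', _⟩ := hN.twoA s hs
  obtain ⟨y, y', hyy, hyB, hyB', hy, hy', _⟩ := hN.twoB s hs
  obtain ⟨a, b, hab⟩ := link_runs hS hsV (C5_nb hS hN hs) hN.part.AB ⟨x, hxA, hx⟩ ⟨y, hyB, hy⟩ hm
  have e1 := lk_cardA hS hab hN.part.AB
  have e2 := lk_cardB hS hab hN.part.AB
  refine ⟨a, b, hab, ?_, ?_, ?_, e1, e2⟩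
  · rw [e1]
    have : 1 < ((nbd V Φ s).filter (· ∈ A)).card :=
      Finset.one_lt_card.2 ⟨x, Finset.mem_filter.2 ⟨(mem_nbd hS).2 hx, hxA⟩, x',
        Finset.mem_filter.2 ⟨(mem_nbd hS).2 hx', hxA'⟩, hxx⟩
    omega
  · rw [e2]
    have : 1 < ((nbd V Φ s).filter (· ∈ B)).card :=
      Finset.one_lt_card.2 ⟨y, Finset.mem_filter.2 ⟨(mem_nbd hS).2 hy, hyB⟩, y',
        Finset.mem_filter.2 ⟨(mem_nbd hS).2 hy', hyB'⟩, hyy⟩
    omega
  · rw [e1, e2, ← Finset.card_union_of_disjoint]
    · congr 1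
      ext u
      rw [Finset.mem_union, Finset.mem_filter, Finset.mem_filter]
      constructor
      · rintro (h | h)
        · exact h.1
        · exact h.1
      · intro h
        rcases C5_nb hS hN hs u ((mem_nbd hS).1 h) with h' | h'
        · exact Or.inl ⟨h, h'⟩
        · exact Or.inr ⟨h, h'⟩
    · rw [Finset.disjoint_left]
      intro u h1 h2
      exact Finset.disjoint_left.1 hN.part.AB (Finset.mem_filter.1 h1).2 (Finset.mem_filter.1 h2).2

private lemma C5_mxf (hN : NiceS V Φ S A B s₀ G) {s : α} (hs : s ∈ S) {C : Finset α} (hC : C ⊆ S)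
    (hsC : s ∉ C) : mxf Φ A (B ∪ C) s = mxf Φ A B s := by
  unfold mxf
  refine Finset.filter_congr fun F hF => ?_
  constructor
  · rintro ⟨h1, h2, y, hy, hyB⟩
    refine ⟨h1, h2, y, hy, ?_⟩
    rcases Finset.mem_union.1 hyB with h | h
    · exact h
    · exfalso
      have hne : s ≠ y := by
        rintro rfl
        exact hsC h
      exact hN.part.ind s hs y (hC h) (aj_of hF h1 hy hne)
  · rintro ⟨h1, h2, y, hy, hyB⟩
    exact ⟨h1, h2, y, hy, Finset.mem_union_left _ hyB⟩

private lemma C5_two (hN : NiceS V Φ S A B s₀ G) {s : α} (hs : s ∈ S)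
    (hm : (mxf Φ A B s).card ≤ 2) {a b : List α} (hab : Lk Φ s A B a b) (ha : 2 ≤ a.length)
    (hb : 2 ≤ b.length) : (mxf Φ A B s).card = 2 := by
  have hna : a.Nodup := (List.nodup_append.1 hab.nodup).1
  have hnb : b.Nodup := List.nodup_reverse.1 (List.nodup_append.1 hab.nodup).2.1
  obtain ⟨x, x', hx, hx', hxx, hxm, hxm'⟩ := C5_headlast hna ha
  obtain ⟨y, y', hy, hy', hyy, hym, hym'⟩ := C5_headlast hnb hb
  have f1 := lk_first hab hx hy
  have f2 := lk_last hab hx' hy'
  have h1 : 1 < (mxf Φ A B s).card := by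
    refine Finset.one_lt_card.2 ⟨{s, x, y}, ?_, {s, x', y'}, ?_, ?_⟩
    · unfold mxf
      rw [Finset.mem_filter]
      exact ⟨f1, by simp, ⟨x, by simp, hab.aA x hxm⟩, y, by simp, hab.bB y hym⟩
    · unfold mxf
      rw [Finset.mem_filter]
      exact ⟨f2, by simp, ⟨x', by simp, hab.aA x' hxm'⟩, y', by simp, hab.bB y' hym'⟩
    · intro h
      have h2 : x ∈ ({s, x', y'} : Finset α) := by
        rw [← h]
        simp
      simp only [Finset.mem_insert, Finset.mem_singleton] at h2
      rcases h2 with h2 | h2 | h2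
      · exact C5_notA hN hs (h2 ▸ hab.aA x hxm)
      · exact hxx h2
      · exact Finset.disjoint_left.1 hN.part.AB (hab.aA x hxm) (h2 ▸ hab.bB y' hym')
  omega

end

theorem exists_strS {α : Type*} {V : Finset α} {Φ : Finset (Finset α)} (hS : Surf V Φ) {S A B : Finset α} {s₀ : α}
    {G : Prop} (hN : NiceS V Φ S A B s₀ G) (hm : ∃ s ∈ S, (mxf Φ A B s).card ≤ 2) :
    ∃ (p : α) (S' B' : Finset α) (e₁ e₂ : Finset α) (a b : α → List α), StrS V Φ p S' A B' e₁ e₂ ∧
      (∀ s ∈ S', Lk Φ s A B' (a s) (b s) ∧ 2 ≤ (a s).length ∧ 2 ≤ (b s).length ∧ (a s).length ≤ 4 ∧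
        (b s).length ≤ 4) ∧
      ((∀ s ∈ S', (a s).length = 2 ∧ (b s).length = 2) ∨ G) := by
  have hP := hN.part
  set S₁ := S.filter (fun s => (mxf Φ A B s).card ≤ 2) with hS₁
  have hS1 : ∀ {s}, s ∈ S₁ → s ∈ S ∧ (mxf Φ A B s).card ≤ 2 := fun {s} h => Finset.mem_filter.1 h
  obtain ⟨p, hp, hps⟩ : ∃ p ∈ S₁, ∀ s ∈ S₁.erase p, s ≠ s₀ := by
    by_cases h0 : s₀ ∈ S₁
    · exact ⟨s₀, h0, fun s hs => (Finset.mem_erase.1 hs).1⟩
    · obtain ⟨s, hs, hsm⟩ := hm
      refine ⟨s, Finset.mem_filter.2 ⟨hs, hsm⟩, fun t ht h => h0 ?_⟩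
      rw [← h]
      exact (Finset.mem_erase.1 ht).2
  obtain ⟨hpS, hpm⟩ := hS1 hp
  have hCS : S \ S₁ ⊆ S := Finset.sdiff_subset
  have hC : ∀ {s}, s ∈ S₁ → s ∉ S \ S₁ := fun {s} h h' => (Finset.mem_sdiff.1 h').2 h
  have hS' : ∀ {s}, s ∈ S₁.erase p → s ∈ S₁ := fun {s} h => (Finset.mem_erase.1 h).2
  -- the runs
  have hex : ∀ s ∈ S₁.erase p, ∃ a b, Lk Φ s A B a b ∧ 2 ≤ a.length ∧ 2 ≤ b.length ∧
      a.length + b.length = (nbd V Φ s).card ∧
      a.length = ((nbd V Φ s).filter (· ∈ A)).card ∧ b.length = ((nbd V Φ s).filter (· ∈ B)).card :=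
    fun s hs => C5_lk hS hN (hS1 (hS' hs)).1 (hS1 (hS' hs)).2
  choose! a b hab using hex
  obtain ⟨α', β', hpl, hpa, hpb, _⟩ := C5_lk hS hN hpS hpm
  have hna : α'.Nodup := (List.nodup_append.1 hpl.nodup).1
  have hnb : β'.Nodup := List.nodup_reverse.1 (List.nodup_append.1 hpl.nodup).2.1
  obtain ⟨x, x', hx, hx', hxx, hxm, hxm'⟩ := C5_headlast hna hpa
  obtain ⟨y, y', hy, hy', hyy, hym, hym'⟩ := C5_headlast hnb hpb
  have hxA := hpl.aA x hxm
  have hxA' := hpl.aA x' hxm'
  have hyB := hpl.bB y hym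
  have hyB' := hpl.bB y' hym'
  refine ⟨p, S₁.erase p, B ∪ (S \ S₁), {x, y}, {x', y'}, a, b, ?_, ?_, ?_⟩
  · refine
      { pV := (hP.cov p).2 (Or.inl hpS)
        cov := ?_
        pS := Finset.notMem_erase p S₁
        pA := C5_notA hN hpS
        pB := ?_
        SA := ?_
        SB := ?_
        AB := ?_
        ind := ?_
        np := ?_
        two := ?_
        fA := hP.fA
        cA := A_connS hS hN
        bi := ?_
        ne := ?_
        m1 := ⟨x, hxA, y, Finset.mem_union_left _ hyB, rfl, lk_first hpl hx hy⟩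
        m2 := ⟨x', hxA', y', Finset.mem_union_left _ hyB', rfl, lk_last hpl hx' hy'⟩
        only := ?_ }
    · intro v
      rw [hP.cov v, Finset.mem_erase, Finset.mem_union, Finset.mem_sdiff]
      constructor
      · rintro (h | h | h)
        · by_cases h1 : v ∈ S₁
          · by_cases h2 : v = p
            · exact Or.inl h2
            · exact Or.inr (Or.inl ⟨h2, h1⟩)
          · exact Or.inr (Or.inr (Or.inr (Or.inr ⟨h, h1⟩)))
        · exact Or.inr (Or.inr (Or.inl h))
        · exact Or.inr (Or.inr (Or.inr (Or.inl h)))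
      · rintro (rfl | h | h | h | h)
        · exact Or.inl hpS
        · exact Or.inl (hS1 h.2).1
        · exact Or.inr (Or.inl h)
        · exact Or.inr (Or.inr h)
        · exact Or.inl h.1
    · intro h
      rcases Finset.mem_union.1 h with h | h
      · exact C5_notB hN hpS h
      · exact hC hp h
    · rw [Finset.disjoint_left]
      intro s hs
      exact C5_notA hN (hS1 (hS' hs)).1
    · rw [Finset.disjoint_left]
      intro s hs h
      rcases Finset.mem_union.1 h with h | h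
      · exact C5_notB hN (hS1 (hS' hs)).1 h
      · exact hC (hS' hs) h
    · rw [Finset.disjoint_left]
      intro v hv h
      rcases Finset.mem_union.1 h with h | h
      · exact Finset.disjoint_left.1 hP.AB hv h
      · exact C5_notA hN (hCS h) hv
    · intro s hs t ht
      exact hP.ind s (hS1 (hS' hs)).1 t (hS1 (hS' ht)).1
    · intro s hs
      exact hP.ind p hpS s (hS1 (hS' hs)).1
    · intro s hs
      obtain ⟨hsS, hsm⟩ := hS1 (hS' hs)
      rw [C5_mxf hN hsS hCS (hC (hS' hs))]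
      obtain ⟨h1, h2, h3, _⟩ := hab s hs
      exact C5_two hN hsS hsm h1 h2 h3
    · intro F hF hpF hSF
      by_cases h : ∃ t ∈ S, t ∈ F
      · obtain ⟨t, htS, htF⟩ := h
        have ht1 : ¬ (mxf Φ A B t).card ≤ 2 := by
          intro h1
          have h2 : t ∈ S₁ := Finset.mem_filter.2 ⟨htS, h1⟩
          by_cases h3 : t = p
          · rw [h3] at htF
            exact hpF htF
          · exact hSF t (Finset.mem_erase.2 ⟨h3, h2⟩) htF
        obtain ⟨h1, y₁, hy₁, hyB₁⟩ := alt4 hS hN htS ht1 F hF htF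
        exact ⟨h1, y₁, hy₁, Finset.mem_union_left _ hyB₁⟩
      · have hAB : ∀ v ∈ F, v ∈ A ∨ v ∈ B := by
          intro v hv
          rcases (hP.cov v).1 (hS.sub F hF hv) with h1 | h1
          · exact absurd ⟨v, h1, hv⟩ h
          · exact h1
        constructor
        · by_contra h1
          refine not_sub_forest hS hP.fB hF fun v hv => ?_
          rcases hAB v hv with h2 | h2
          · exact absurd ⟨v, hv, h2⟩ h1
          · exact h2
        · by_contra h1
          refine not_sub_forest hS hP.fA hF fun v hv => ?_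
          rcases hAB v hv with h2 | h2
          · exact h2
          · exact absurd ⟨v, hv, Finset.mem_union_left _ h2⟩ h1
    · intro h
      have h2 : x ∈ ({x', y'} : Finset α) := by
        rw [← h]
        simp
      simp only [Finset.mem_insert, Finset.mem_singleton] at h2
      rcases h2 with h2 | h2
      · exact hxx h2
      · exact Finset.disjoint_left.1 hP.AB hxA (h2 ▸ hyB')
    · intro u hu w hw hF
      have hwB : w ∈ B := by
        rcases Finset.mem_union.1 hw with h | h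
        · exact h
        · exfalso
          have hne : p ≠ w := by
            rintro rfl
            exact hC hp h
          exact hP.ind p hpS w (hCS h) (aj_of hF (by simp) (by simp) hne)
      rcases lk_mixed hpl hP.AB (C5_notA hN hpS) (C5_notB hN hpS) hu hwB hF with ⟨h1, h2⟩ | ⟨h1, h2⟩
      · left
        rw [Option.mem_unique h1 hx, Option.mem_unique h2 hy]
      · right
        rw [Option.mem_unique h1 hx', Option.mem_unique h2 hy']
  · intro s hs
    obtain ⟨h1, h2, h3, h4, h5, h6⟩ := hab s hs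
    have hd := hP.deg s (hS1 (hS' hs)).1 (hps s hs)
    refine ⟨⟨h1.nodup, h1.three, h1.ane, h1.bne, h1.aA, fun v hv => Finset.mem_union_left _ (h1.bB v hv),
      h1.mem, h1.fac, h1.all⟩, h2, h3, ?_, ?_⟩
    · rcases hd with hd | ⟨_, _, hd | hd⟩
      · omega
      · omega
      · rw [h5]
        exact hd.1
    · rcases hd with hd | ⟨_, _, hd | hd⟩
      · omega
      · omega
      · rw [h6]
        exact hd.2
  · by_cases hG : G
    · exact Or.inr hG
    · left
      intro s hs
      obtain ⟨h1, h2, h3, h4, h5, h6⟩ := hab s hs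
      rcases hP.deg s (hS1 (hS' hs)).1 (hps s hs) with hd | hd
      · omega
      · exact absurd hd.1 hG

end Pool.Agent.LibSt23
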