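import Pool.Agent.LibSt23.Defs

/-!
[ST23 C6] (SHORT/MEDIUM) If all runs have length two the final colouring is one of LibTet23. For `s ∈ S`: `a s = [x₁, x₂]`, `b s = [y₁, y₂]`, the link is `x₁, x₂, y₂, y₁`. `Str.a s := x₁`, `c s := x₂`, `b s := y₂`, `d s := y₁`: `Sq V Φ s x₁ x₂ y₂ y₁`: `nb`: `Lk.mem`, `mem_nbd` (LibTet23.K0); the distinctness: `Lk.nodup`; `f1`-`f4`: `Lk.fac` (`prs [x₁, x₂, y₂, y₁]` is explicit; `Finset.pair_comm`), `all`: `Lk.all`. Choose `x₁, ..` with `List.headD`/`getLastD` or `choose`. The other fields are those of `StrS`.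
-/

set_option autoImplicit false

namespace Pool.Agent.LibSt23

open Finset Pool.Agent.LibPol19 Pool.Agent.LibTet88 Pool.Agent.LibTet23
open scoped Classical

private theorem C6_sq {α : Type*} {V : Finset α} {Φ : Finset (Finset α)} (hS : Surf V Φ)
    {A B : Finset α} {s x₁ x₂ y₁ y₂ : α} (h : Lk Φ s A B [x₁, x₂] [y₁, y₂]) :
    Sq V Φ s x₁ x₂ y₂ y₁ ∧ x₁ ∈ A ∧ x₂ ∈ A ∧ y₂ ∈ B ∧ y₁ ∈ B := by
  have hn := h.nodup
  have hmem := h.mem
  have hfac := h.fac
  have hall := h.all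
  simp only [List.reverse_cons, List.reverse_nil, List.nil_append, List.cons_append,
    List.nodup_cons, List.mem_cons, not_or, List.not_mem_nil, not_false_eq_true, or_false,
    List.nodup_nil, and_true] at hn
  simp only [List.reverse_cons, List.reverse_nil, List.nil_append, List.cons_append,
    List.mem_cons, List.not_mem_nil, or_false] at hmem
  have e : prs ([x₁, x₂] ++ [y₁, y₂].reverse) = [(x₁, x₂), (x₂, y₂), (y₂, y₁), (y₁, x₁)] := by
    simp [prs]
  rw [e] at hfac hall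
  refine ⟨⟨?_, hn.1.1, hn.1.2.1, hn.1.2.2, hn.2.1.1, hn.2.1.2, hn.2.2, ?_, ?_, ?_, ?_, ?_⟩,
    h.aA _ (by simp), h.aA _ (by simp), h.bB _ (by simp), h.bB _ (by simp)⟩
  · ext u
    rw [mem_nbd hS, ← hmem u]
    simp only [Finset.mem_insert, Finset.mem_singleton]
  · exact hfac (x₁, x₂) (by simp)
  · exact hfac (x₂, y₂) (by simp)
  · exact hfac (y₂, y₁) (by simp)
  · exact hfac (y₁, x₁) (by simp)
  · intro F hF hs
    obtain ⟨q, hq, rfl⟩ := hall F hF hs
    simp only [List.mem_cons, List.not_mem_nil, or_false] at hq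
    rcases hq with rfl | rfl | rfl | rfl
    · exact Or.inl rfl
    · exact Or.inr (Or.inl rfl)
    · exact Or.inr (Or.inr (Or.inl rfl))
    · exact Or.inr (Or.inr (Or.inr rfl))

theorem str_of {α : Type*} {V : Finset α} {Φ : Finset (Finset α)} (hS : Surf V Φ) {p : α} {S A B e₁ e₂ : Finset α}
    (h : StrS V Φ p S A B e₁ e₂) {a b : α → List α}
    (hl : ∀ s ∈ S, Lk Φ s A B (a s) (b s) ∧ (a s).length = 2 ∧ (b s).length = 2) :
    ∃ a' c' b' d' : α → α, Str V Φ p S A B a' c' b' d' e₁ e₂ := by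
  have key : ∀ s ∈ S, Sq V Φ s ((a s).headD s) ((a s).getLastD s) ((b s).getLastD s)
      ((b s).headD s) ∧ (a s).headD s ∈ A ∧ (a s).getLastD s ∈ A ∧ (b s).getLastD s ∈ B ∧
      (b s).headD s ∈ B := by
    intro s hs
    obtain ⟨h1, h2, h3⟩ := hl s hs
    obtain ⟨x₁, x₂, hx⟩ := List.length_eq_two.1 h2
    obtain ⟨y₁, y₂, hy⟩ := List.length_eq_two.1 h3
    rw [hx, hy] at h1 ⊢
    exact C6_sq hS h1
  exact ⟨fun s => (a s).headD s, fun s => (a s).getLastD s, fun s => (b s).getLastD s,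
    fun s => (b s).headD s,
    { pV := h.pV, cov := h.cov, pS := h.pS, pA := h.pA, pB := h.pB, SA := h.SA, SB := h.SB,
      AB := h.AB, ind := h.ind, np := h.np, sq := fun s hs => (key s hs).1,
      col := fun s hs => (key s hs).2, fA := h.fA, cA := h.cA, bi := h.bi, ne := h.ne,
      m1 := h.m1, m2 := h.m2, only := h.only }⟩

end Pool.Agent.LibSt23
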