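import Pool.Agent.LibSt23.A5
import Pool.Agent.LibSt23.A6
import Pool.Agent.LibSt23.C1
import Pool.Agent.LibSt23.C5
import Pool.Agent.LibSt23.C6

/-!
[ST23 A7] (SHORT/MEDIUM) THE STAR THEOREM (internal form). `surf_of hS`, `exists_niceS`. If no `s` has at most 2 mixed triangles: `part_old` and `simplicial_thm` of LibTet23.Z1. Otherwise `exists_strS`: (1) all runs of length 2: `str_of` gives `Str V (fc V) p S' A B' ..`; then exactly the proof of `simplicial_thm` (LibTet23.Z1: `exists_dc`, `Geo`, `caps_of`, `geo_tet`, `hp_tt`); (2) `Gp V`: `all_strands`, `hp_star`.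
-/

set_option autoImplicit false

namespace Pool.Agent.LibSt23

open Finset Pool.Agent.LibPol19 Pool.Agent.LibTet88 Pool.Agent.LibTet23
open scoped Classical

private theorem A7_tet {V : Finset (Ed 3)} (hS : SV V) {p : Ed 3} {S' A' B' : Finset (Ed 3)} {a c b d : Ed 3 → Ed 3}
    {e₁ e₂ : Finset (Ed 3)} (h : Str V (fc V) p S' A' B' a c b d e₁ e₂) : ∃ T, TetD V T ∧ HP T := by
  have hSf : Surf V (fc V) := surf_of hS
  have hSV : ∀ s ∈ S', s ∈ V := fun s hs => (h.cov s).2 (Or.inr (Or.inl hs))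
  have hex : ∀ s : Ed 3, ∃ X Y : Finset (Ed 3), s ∈ S' →
      ((X = {a s, c s, b s} ∧ Y = {a s, b s, d s}) ∨ (X = {c s, b s, d s} ∧ Y = {a s, c s, d s})) ∧
        DC V s X Y := by
    intro s
    by_cases hs : s ∈ S'
    · obtain ⟨X, Y, h1, h2⟩ := exists_dc hS (hSV s hs) (h.sq s hs)
      exact ⟨X, Y, fun _ => ⟨h1, h2⟩⟩
    · exact ⟨∅, ∅, fun hs' => absurd hs' hs⟩
  choose X Y hXY using hex
  have hG : Geo V S' p X Y :=
    { sv := hS
      pV := h.pV
      pS := h.pS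
      sub := fun s hs => hSV s hs
      ind := fun s hs t ht hst => h.ind s hs t ht ((aj_iff hS).2 hst)
      np := fun s hs hsp => h.np s hs ((aj_iff hS).2 (adj_symm hsp))
      dc := fun s hs => (hXY s hs).2 }
  exact ⟨TT (fc V) p S' X Y, geo_tet hG, hp_tt hSf h (caps_of hG fun s hs => (hXY s hs).1)⟩

theorem star_thm {V : Finset (Ed 3)} (hS : SV V) {S A B : Finset (Ed 3)} {s₀ : Ed 3}
    (hP : PartS V (fc V) S A B s₀ (Gp V)) : ∃ T, TetD V T ∧ HP T := by
  have hSf : Surf V (fc V) := surf_of hS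
  obtain ⟨S', A', B', hN⟩ := exists_niceS hSf hP
  by_cases hm : ∃ s ∈ S', (mxf (fc V) A' B' s).card ≤ 2
  · obtain ⟨p, S'', B'', e₁, e₂, a, b, h, hl, hor⟩ := exists_strS hSf hN hm
    rcases hor with h2 | hG
    · obtain ⟨a', c', b', d', h'⟩ := str_of hSf h (fun s hs => ⟨(hl s hs).1, h2 s hs⟩)
      exact A7_tet hS h'
    · obtain ⟨Z, hZ, hT, h1, h2⟩ := all_strands hS hG h
        (fun s hs => ⟨(hl s hs).1, (hl s hs).2.2.2.1, (hl s hs).2.2.2.2⟩)
      exact ⟨_, hT, hp_star hS h (fun s hs => (hl s hs).1) hZ hT h1 h2⟩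
  · exact simplicial_thm hS (part_old hN fun s hs h => hm ⟨s, hs, h⟩)

end Pool.Agent.LibSt23
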