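import Pool.Agent.LibSt23.L3

/-!
[ST23 C2] (MEDIUM) All neighbours in `A` of `s ∈ S` are joined inside `A`. By `PartS.deg`, `d0`: `(nbd V Φ s).card ≤ 4` or `(mxf Φ A B s).card ≤ 2`. First case: `nbd V Φ s` contains the four different points `a, a', b, b'` of `twoA`, `twoB`, so it is `{a, a', b, b'}`, and its members in `A` are `a, a'` (`Disjoint A B`). Second case: `link_runs` (every neighbour is in `A` or `B` by `cov` and `ind`): the neighbours in `A` are the members of the list `a`, consecutive ones are adjacent (`Lk.fac`: `{s, x, y} ∈ Φ`), so joined (`cn_step`, `cn_trans`, `cn_symm` of LibTet23.K0): `List.IsChain`/induction.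
-/

set_option autoImplicit false

namespace Pool.Agent.LibSt23

open Finset Pool.Agent.LibPol19 Pool.Agent.LibTet88 Pool.Agent.LibTet23
open scoped Classical

private theorem C2_prs {α : Type*} {l : List α} {i : ℕ} (h : i + 1 < l.length) :
    (l[i], l[i + 1]) ∈ prs l := by
  unfold prs
  have h1 : i < (l.zip (l.rotate 1)).length := by
    simp
    omega
  have h2 : (l.zip (l.rotate 1))[i] = (l[i], l[i + 1]) := by
    rw [List.getElem_zip, List.getElem_rotate]
    simp [Nat.mod_eq_of_lt h]
  rw [← h2]
  exact List.getElem_mem h1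

private theorem C2_run {α : Type*} {Φ : Finset (Finset α)} {s : α} {A : Finset α} {l p m q : List α}
    (hl : l = p ++ (m ++ q)) (hn : l.Nodup) (hf : ∀ r ∈ prs l, ({s, r.1, r.2} : Finset α) ∈ Φ)
    (hA : ∀ x ∈ m, x ∈ A) : ∀ x ∈ m, ∀ y ∈ m, Cn Φ A x y := by
  have key : ∀ i, ∀ h : i < m.length, Cn Φ A (m[0]'(by omega)) m[i] := by
    intro i
    induction i with
    | zero => intro h; exact cn_refl _
    | succ i ih =>
      intro h
      refine cn_trans (ih (by omega)) ?_
      have hlen : l.length = p.length + (m.length + q.length) := by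
        rw [hl]
        simp
      have e1 : l[p.length + i]'(by omega) = m[i] := by
        subst hl
        rw [List.getElem_append_right (by omega), List.getElem_append_left (by omega)]
        congr 1
        omega
      have e2 : l[p.length + i + 1]'(by omega) = m[i + 1] := by
        subst hl
        rw [List.getElem_append_right (by omega), List.getElem_append_left (by omega)]
        congr 1
        omega
      have h3 := hf _ (C2_prs (l := l) (i := p.length + i) (by omega))
      simp only [e1, e2] at h3
      have hne : m[i] ≠ m[i + 1] := by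
        intro hh
        rw [← e1, ← e2] at hh
        have := (List.Nodup.getElem_inj_iff hn).1 hh
        omega
      exact cn_step (hA _ (List.getElem_mem _)) (hA _ (List.getElem_mem _))
        (aj_of h3 (by simp) (by simp) hne)
  intro x hx y hy
  obtain ⟨i, hi, rfl⟩ := List.getElem_of_mem hx
  obtain ⟨j, hj, rfl⟩ := List.getElem_of_mem hy
  exact cn_trans (cn_symm (key i hi)) (key j hj)

theorem nb_connS {α : Type*} {V : Finset α} {Φ : Finset (Finset α)} (hS : Surf V Φ) {S A B : Finset α} {s₀ : α}
    {G : Prop} (hN : NiceS V Φ S A B s₀ G) {s : α} (hs : s ∈ S) :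
    (∀ x ∈ A, ∀ y ∈ A, Aj Φ s x → Aj Φ s y → Cn Φ A x y) ∧
      ∀ x ∈ B, ∀ y ∈ B, Aj Φ s x → Aj Φ s y → Cn Φ B x y := by
  have hP := hN.part
  have hd : (nbd V Φ s).card ≤ 4 ∨ (mxf Φ A B s).card ≤ 2 := by
    by_cases h0 : s = s₀
    · subst h0
      exact hP.d0 hs
    · rcases hP.deg s hs h0 with h | h
      · exact Or.inl h
      · exact Or.inr h.2.1
  obtain ⟨a, a', haa, haA, ha'A, hsa, hsa', hca⟩ := hN.twoA s hs
  obtain ⟨b, b', hbb, hbB, hb'B, hsb, hsb', hcb⟩ := hN.twoB s hs
  have hdis : ∀ x ∈ A, ∀ y ∈ B, x ≠ y := by
    intro x hx y hy hxy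
    subst hxy
    exact Finset.disjoint_left.1 hP.AB hx hy
  have hdis' : ∀ x ∈ B, ∀ y ∈ A, x ≠ y := fun x hx y hy h => hdis y hy x hx h.symm
  rcases hd with hd | hd
  · have hc4 : ({a, a', b, b'} : Finset α).card = 4 := by
      rw [Finset.card_insert_of_notMem, Finset.card_insert_of_notMem,
        Finset.card_insert_of_notMem, Finset.card_singleton]
      · simpa using hbb
      · simp only [Finset.mem_insert, Finset.mem_singleton, not_or]
        exact ⟨hdis _ ha'A _ hbB, hdis _ ha'A _ hb'B⟩
      · simp only [Finset.mem_insert, Finset.mem_singleton, not_or]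
        exact ⟨haa, hdis _ haA _ hbB, hdis _ haA _ hb'B⟩
    have hsub : ({a, a', b, b'} : Finset α) ⊆ nbd V Φ s := by
      intro x hx
      simp only [Finset.mem_insert, Finset.mem_singleton] at hx
      rw [mem_nbd hS]
      rcases hx with rfl | rfl | rfl | rfl
      · exact hsa
      · exact hsa'
      · exact hsb
      · exact hsb'
    have heq : ({a, a', b, b'} : Finset α) = nbd V Φ s :=
      Finset.eq_of_subset_of_card_le hsub (by rw [hc4]; exact hd)
    have hmem : ∀ x, Aj Φ s x → x = a ∨ x = a' ∨ x = b ∨ x = b' := by
      intro x hx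
      have h1 := (mem_nbd hS).2 hx
      rw [← heq] at h1
      simpa using h1
    constructor
    · intro x hx y hy hsx hsy
      have hx2 : x = a ∨ x = a' := by
        rcases hmem x hsx with h | h | h | h
        · exact Or.inl h
        · exact Or.inr h
        · exact absurd h (hdis _ hx _ hbB)
        · exact absurd h (hdis _ hx _ hb'B)
      have hy2 : y = a ∨ y = a' := by
        rcases hmem y hsy with h | h | h | h
        · exact Or.inl h
        · exact Or.inr h
        · exact absurd h (hdis _ hy _ hbB)
        · exact absurd h (hdis _ hy _ hb'B)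
      rcases hx2 with rfl | rfl <;> rcases hy2 with rfl | rfl
      · exact cn_refl _
      · exact hca
      · exact cn_symm hca
      · exact cn_refl _
    · intro x hx y hy hsx hsy
      have hx2 : x = b ∨ x = b' := by
        rcases hmem x hsx with h | h | h | h
        · exact absurd h (hdis' _ hx _ haA)
        · exact absurd h (hdis' _ hx _ ha'A)
        · exact Or.inl h
        · exact Or.inr h
      have hy2 : y = b ∨ y = b' := by
        rcases hmem y hsy with h | h | h | h
        · exact absurd h (hdis' _ hy _ haA)
        · exact absurd h (hdis' _ hy _ ha'A)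
        · exact Or.inl h
        · exact Or.inr h
      rcases hx2 with rfl | rfl <;> rcases hy2 with rfl | rfl
      · exact cn_refl _
      · exact hcb
      · exact cn_symm hcb
      · exact cn_refl _
  · have hsV : s ∈ V := (hP.cov s).2 (Or.inl hs)
    have hAB : ∀ u, Aj Φ s u → u ∈ A ∨ u ∈ B := by
      intro u hu
      rcases (hP.cov u).1 (aj_mem hS hu).2 with h | h | h
      · exact absurd hu (hP.ind s hs u h)
      · exact Or.inl h
      · exact Or.inr h
    obtain ⟨la, lb, hL⟩ := link_runs hS hsV hAB hP.AB ⟨a, haA, hsa⟩ ⟨b, hbB, hsb⟩ hd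
    constructor
    · intro x hx y hy hsx hsy
      have hm : ∀ z ∈ A, Aj Φ s z → z ∈ la := by
        intro z hz hsz
        rcases List.mem_append.1 ((hL.mem z).2 hsz) with h | h
        · exact h
        · exact absurd rfl (hdis z hz z (hL.bB z (List.mem_reverse.1 h)))
      exact C2_run (l := la ++ lb.reverse) (p := []) (m := la) (q := lb.reverse) (by simp) hL.nodup
        hL.fac hL.aA x (hm x hx hsx) y (hm y hy hsy)
    · intro x hx y hy hsx hsy
      have hm : ∀ z ∈ B, Aj Φ s z → z ∈ lb.reverse := by
        intro z hz hsz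
        rcases List.mem_append.1 ((hL.mem z).2 hsz) with h | h
        · exact absurd rfl (hdis z (hL.aA z h) z hz)
        · exact h
      exact C2_run (l := la ++ lb.reverse) (p := la) (m := lb.reverse) (q := []) (by simp) hL.nodup
        hL.fac (fun z hz => hL.bB z (List.mem_reverse.1 hz)) x (hm x hx hsx) y (hm y hy hsy)

end Pool.Agent.LibSt23
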