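import Pool.Agent.LibSt23.C2

/-!
[ST23 C3] (MEDIUM) `A` is connected. Copy the proof of `A_conn` of LibTet23.K6b, with `nb_connS` instead of `Nice.four`: `c F : Set α := {z | ∃ x ∈ F, (x ∈ A ∧ Cn Φ A x z) ∨ (x ∈ S ∧ ∃ a ∈ A, Aj Φ x a ∧ Cn Φ A a z)}`; `c` only changes across edges inside `B`; `bad_forest` of LibTet23.K6a: `c` is constant.
-/

set_option autoImplicit false

namespace Pool.Agent.LibSt23

open Finset Pool.Agent.LibPol19 Pool.Agent.LibTet88 Pool.Agent.LibTet23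
open scoped Classical

/-- the set of vertices of `A` reached from a triangle -/
private def C3_c {α : Type*} (Φ : Finset (Finset α)) (S A : Finset α) (F : Finset α) : Set α :=
  {z | ∃ x ∈ F, (x ∈ A ∧ Cn Φ A x z) ∨ (x ∈ S ∧ ∃ a ∈ A, Aj Φ x a ∧ Cn Φ A a z)}

private theorem C3_one {α : Type*} {V : Finset α} {Φ : Finset (Finset α)} (hS : Surf V Φ) {S A B : Finset α} {s₀ : α}
    {G : Prop} (hN : NiceS V Φ S A B s₀ G) {F : Finset α} (hF : F ∈ Φ)
    {x : α} (hx : x ∈ F) (hxA : x ∈ A) : C3_c Φ S A F = {z | Cn Φ A x z} := by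
  ext z
  constructor
  · rintro ⟨y, hy, ⟨hyA, hyz⟩ | ⟨hyS, a, ha, hya, haz⟩⟩
    · by_cases hxy : x = y
      · subst hxy
        exact hyz
      · exact cn_trans (cn_step hxA hyA (aj_of hF hx hy hxy)) hyz
    · have hyx : y ≠ x := by
        intro h
        subst h
        exact (Finset.disjoint_left.1 hN.part.SA) hyS hxA
      exact cn_trans ((nb_connS hS hN hyS).1 x hxA a ha (aj_of hF hy hx hyx) hya) haz
  · intro hz
    exact ⟨x, hx, Or.inl ⟨hxA, hz⟩⟩

private theorem C3_two {α : Type*} {V : Finset α} {Φ : Finset (Finset α)} (hS : Surf V Φ) {S A B : Finset α} {s₀ : α}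
    {G : Prop} (hN : NiceS V Φ S A B s₀ G) {F : Finset α} (hF : F ∈ Φ)
    {s a : α} (hs : s ∈ F) (hsS : s ∈ S) (ha : a ∈ A) (hsa : Aj Φ s a) : C3_c Φ S A F = {z | Cn Φ A a z} := by
  ext z
  constructor
  · rintro ⟨y, hy, ⟨hyA, hyz⟩ | ⟨hyS, a', ha', hya', haz⟩⟩
    · have hsy : s ≠ y := by
        intro h
        subst h
        exact (Finset.disjoint_left.1 hN.part.SA) hsS hyA
      exact cn_trans ((nb_connS hS hN hsS).1 a ha y hyA hsa (aj_of hF hs hy hsy)) hyz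
    · by_cases hsy : s = y
      · subst hsy
        exact cn_trans ((nb_connS hS hN hsS).1 a ha a' ha' hsa hya') haz
      · exact (hN.part.ind s hsS y hyS (aj_of hF hs hy hsy)).elim
  · intro hz
    exact ⟨s, hs, Or.inr ⟨hsS, a, ha, hsa, hz⟩⟩

private theorem C3_inB {α : Type*} {V : Finset α} {Φ : Finset (Finset α)} (hS : Surf V Φ) {S A B : Finset α} {s₀ : α}
    {G : Prop} (hN : NiceS V Φ S A B s₀ G) {F F' : Finset α} (hF : F ∈ Φ)
    (hG : F' ∈ Φ) {x : α} (hxF : x ∈ F) (hxG : x ∈ F') (hc : C3_c Φ S A F ≠ C3_c Φ S A F') : x ∈ B := by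
  have hxV : x ∈ V := hS.sub F hF hxF
  rcases (hN.part.cov x).1 hxV with h | h | h
  · exfalso
    obtain ⟨a, a', haa, ha, ha', hxa, hxa', hA⟩ := hN.twoA x h
    exact hc ((C3_two hS hN hF hxF h ha hxa).trans (C3_two hS hN hG hxG h ha hxa).symm)
  · exact (hc ((C3_one hS hN hF hxF h).trans (C3_one hS hN hG hxG h).symm)).elim
  · exact h

theorem A_connS {α : Type*} {V : Finset α} {Φ : Finset (Finset α)} (hS : Surf V Φ) {S A B : Finset α} {s₀ : α}
    {G : Prop} (hN : NiceS V Φ S A B s₀ G) : ∀ x ∈ A, ∀ y ∈ A, Cn Φ A x y := by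
  intro x hx y hy
  have hconst := bad_forest hS hN.part.fB (C3_c Φ S A)
    (fun F hF G hG u v _ huF hvF huG hvG hne =>
      ⟨C3_inB hS hN hF hG huF huG hne, C3_inB hS hN hF hG hvF hvG hne⟩)
  obtain ⟨F, hF, hxF⟩ := hS.ex x ((hN.part.cov x).2 (Or.inr (Or.inl hx)))
  obtain ⟨F', hG, hyG⟩ := hS.ex y ((hN.part.cov y).2 (Or.inr (Or.inl hy)))
  have h1 : ({z | Cn Φ A x z} : Set α) = {z | Cn Φ A y z} := by
    rw [← C3_one hS hN hF hxF hx, ← C3_one hS hN hG hyG hy]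
    exact hconst F hF F' hG
  have h2 : y ∈ ({z | Cn Φ A y z} : Set α) := cn_refl y
  rw [← h1] at h2
  exact h2

end Pool.Agent.LibSt23
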