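import Pool.Agent.LibTet23.Z1
import Pool.Agent.LibTet23.C4

/-!
# LibSt23: the star lemma (MP_77e93b_co)

Definitions. `p` is the apex of the pulling tetrahedralization, `s` a vertex whose star is retriangulated.
-/

set_option autoImplicit false

namespace Pool.Agent.LibSt23

open Finset Pool.Agent.LibPol19 Pool.Agent.LibTet88 Pool.Agent.LibTet23
open scoped Classical

/-! ## Lists and determinants -/

/-- the cyclically consecutive pairs of a list -/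
def prs {α : Type*} (l : List α) : List (α × α) := l.zip (l.rotate 1)

/-- the determinant -/
noncomputable def dt (x y z : Ed 3) : ℝ :=
  x 0 * (y 1 * z 2 - y 2 * z 1) - x 1 * (y 0 * z 2 - y 2 * z 0) + x 2 * (y 0 * z 1 - y 1 * z 0)

/-- the orientation of `p s x y`, with a sign `σ` -/
noncomputable def b2 (σ : ℝ) (p s x y : Ed 3) : ℝ := σ * dt (s - p) (x - p) (y - p)

/-- the orientation of `p x y z`, with a sign `σ` -/
noncomputable def b3 (σ : ℝ) (p x y z : Ed 3) : ℝ := σ * dt (x - p) (y - p) (z - p)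

/-- `y` can be cut off between its neighbours `x` and `z` (seen from `p` the quadrilateral `s x y z` is convex) -/
def Er (σ : ℝ) (p s x y z : Ed 3) : Prop := 0 < b2 σ p s x z ∧ 0 < b3 σ p x y z

/-- seen from `p`, the closed polygon `l` runs once around `s`, in the positive direction for `σ` -/
structure Pg (σ : ℝ) (p s : Ed 3) (l : List (Ed 3)) : Prop where
  nodup : l.Nodup
  pos : ∀ q ∈ prs l, 0 < b2 σ p s q.1 q.2
  disj : ∀ q ∈ prs l, ∀ r ∈ prs l, q ≠ r → ∀ w : Ed 3, 0 < b2 σ p s q.1 w → 0 < b2 σ p s w q.2 →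
    0 < b2 σ p s r.1 w → ¬ 0 < b2 σ p s w r.2
  gp2 : ∀ x ∈ l, ∀ y ∈ l, x ≠ y → b2 σ p s x y ≠ 0
  gp3 : ∀ x ∈ l, ∀ y ∈ l, ∀ z ∈ l, x ≠ y → y ≠ z → x ≠ z → b3 σ p x y z ≠ 0
  hp : ∃ h : Ed 3 →ₗ[ℝ] ℝ, 0 < h (s - p) ∧ ∀ x ∈ l, 0 < h (x - p)

/-- a chain with at most four points can be flattened to the segment between its ends by cutting off one point after
the other, without branching -/
inductive Pk (σ : ℝ) (p s : Ed 3) : List (Ed 3) → Prop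
  | two (x z : Ed 3) : Pk σ p s [x, z]
  | three (x y z : Ed 3) : Er σ p s x y z → Pk σ p s [x, y, z]
  | four1 (x y u z : Ed 3) : Er σ p s x y u → Er σ p s x u z → Pk σ p s [x, y, u, z]
  | four2 (x y u z : Ed 3) : Er σ p s y u z → Er σ p s x y z → Pk σ p s [x, y, u, z]

/-- a fat ear at the left end: `α = a, m, a', r`, `β = b, ..`; the chain `a, m, a'` can be flattened and then `a` can be
cut off between `b` and `a'` -/
def FL (σ : ℝ) (p s : Ed 3) (α β : List (Ed 3)) : Prop :=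
  ∃ (a : Ed 3) (m : List (Ed 3)) (a' : Ed 3) (r : List (Ed 3)) (b : Ed 3) (β' : List (Ed 3)),
    α = a :: (m ++ a' :: r) ∧ β = b :: β' ∧ Pk σ p s (a :: (m ++ [a'])) ∧ Er σ p s b a a'

/-- `α'` is obtained from `α` (at most four points) by cutting off inner points -/
def Rd (σ : ℝ) (p s : Ed 3) (α α' : List (Ed 3)) : Prop :=
  α' = α ∨ (∃ x y z, α = [x, y, z] ∧ α' = [x, z] ∧ Er σ p s x y z) ∨
    ∃ x y u z, α = [x, y, u, z] ∧ ((α' = [x, u, z] ∧ Er σ p s x y u) ∨ (α' = [x, y, z] ∧ Er σ p s y u z) ∨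
      (α' = [x, z] ∧ Pk σ p s [x, y, u, z]))

/-! ## Flips -/

/-- the segment `x z` crosses the triangle `p s y` -/
def Rad (p s x y z : Ed 3) : Prop :=
  ∃ a b c t : ℝ, 0 < a ∧ 0 < b ∧ 0 < c ∧ 0 < t ∧ t < 1 ∧ a + b + c = 1 ∧
    a • p + b • s + c • y = t • x + (1 - t) • z

/-- the flip: two tetrahedra at the triangle `p s y` are replaced by three at the edge `x z` -/
noncomputable def fl (T : Finset (Finset (Ed 3))) (p s x y z : Ed 3) : Finset (Finset (Ed 3)) :=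
  ((T.erase {p, s, x, y}).erase {p, s, y, z}) ∪ {{p, s, x, z}, {p, x, y, z}, {s, x, y, z}}

/-- the tetrahedra around the edge `p s` -/
noncomputable def rg (p s : Ed 3) (l : List (Ed 3)) : Finset (Finset (Ed 3)) :=
  ((prs l).map fun q => ({p, s, q.1, q.2} : Finset (Ed 3))).toFinset

/-- the tetrahedralization `T` has the ring of tetrahedra `p s x y` for the consecutive pairs `x y` of `l` -/
structure Qg (V : Finset (Ed 3)) (T : Finset (Finset (Ed 3))) (σ : ℝ) (p s : Ed 3) (l : List (Ed 3)) : Prop where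
  sg : σ = 1 ∨ σ = -1
  tet : TetD V T
  pg : Pg σ p s l
  three : 3 ≤ l.length
  ring : ∀ q ∈ prs l, ({p, s, q.1, q.2} : Finset (Ed 3)) ∈ T
  /-- `s y` is an edge of the polytope -/
  ed : ∀ y ∈ l, ∃ ℓ : Ed 3 →ₗ[ℝ] ℝ, ℓ y = ℓ s ∧ ℓ p < ℓ s ∧ ∀ x ∈ l, x ≠ y → ℓ x < ℓ s
  ps : p ≠ s
  pn : p ∉ l
  sn : s ∉ l

/-- the situation of the strand lemma: `α` and `β` are the two runs, the polygon is `α` followed by `β` backwards -/
structure SH (V : Finset (Ed 3)) (T : Finset (Finset (Ed 3))) (σ : ℝ) (p s : Ed 3) (α β : List (Ed 3)) : Prop where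
  qg : Qg V T σ p s (α ++ β.reverse)
  a1 : α ≠ []
  b1 : β ≠ []
  a4 : α.length ≤ 4
  b4 : β.length ≤ 4

/-- a strand from the left wall (level `ε`) to the right wall (level `δ`) -/
structure Strd (p s ε δ : Ed 3) (α β : List (Ed 3)) (Z : List (Finset (Ed 3))) : Prop where
  nd : Z.Nodup
  ne : Z ≠ []
  ch : Z.IsChain (fun t u => (t ∩ u).card = 3)
  hd : ∀ t ∈ Z.head?, ∀ a ∈ α.head?, ∀ b ∈ β.head?, ({ε, a, b} : Finset (Ed 3)) ⊆ t
  lt : ∀ t ∈ Z.getLast?, ∀ a ∈ α.getLast?, ∀ b ∈ β.getLast?, ({δ, a, b} : Finset (Ed 3)) ⊆ t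
  sub : ∀ t ∈ Z, ∀ x ∈ t, x = p ∨ x = s ∨ x ∈ α ∨ x ∈ β

/-- the conclusion of the strand lemma: the ring can be replaced by a strand -/
def SG (V : Finset (Ed 3)) (T : Finset (Finset (Ed 3))) (p s ε δ : Ed 3) (α β : List (Ed 3)) : Prop :=
  ∃ Z : List (Finset (Ed 3)), Strd p s ε δ α β Z ∧
    TetD V ((T \ rg p s (α ++ β.reverse)) ∪ Z.toFinset) ∧ ∀ t ∈ Z, t ∉ T \ rg p s (α ++ β.reverse)

/-- a column has been peeled off at the left end: the new tetrahedra `Z` form a path from level `ε` at the old left wall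
to level `ε'` at the new left wall -/
structure PL (V : Finset (Ed 3)) (T : Finset (Finset (Ed 3))) (σ : ℝ) (p s ε ε' : Ed 3) (α β α' : List (Ed 3))
    (T₁ : Finset (Finset (Ed 3))) (Z : List (Finset (Ed 3))) : Prop where
  sh : SH V T₁ σ p s α' β
  nd : Z.Nodup
  ne : Z ≠ []
  ch : Z.IsChain (fun t u => (t ∩ u).card = 3)
  hd : ∀ t ∈ Z.head?, ∀ a ∈ α.head?, ∀ b ∈ β.head?, ({ε, a, b} : Finset (Ed 3)) ⊆ t
  lt : ∀ t ∈ Z.getLast?, ∀ a ∈ α'.head?, ∀ b ∈ β.head?, ({ε', a, b} : Finset (Ed 3)) ⊆ t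
  sub : ∀ t ∈ Z, ∀ x ∈ t, x = p ∨ x = s ∨ x ∈ α ∨ x ∈ β
  out : ∀ t ∈ Z, t ∉ T ∧ t ∉ rg p s (α' ++ β.reverse)
  old : ∀ t ∈ rg p s (α' ++ β.reverse), t ∈ T → t ∈ rg p s (α ++ β.reverse)
  eq : T₁ = (T \ rg p s (α ++ β.reverse)) ∪ rg p s (α' ++ β.reverse) ∪ Z.toFinset
  last : α'.getLast? = α.getLast?
  mem : ∀ x ∈ α', x ∈ α

/-! ## The combinatorial part -/

section comb

variable {α : Type*}

/-- the mixed triangles at `s` -/
noncomputable def mxf (Φ : Finset (Finset α)) (A B : Finset α) (s : α) : Finset (Finset α) :=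
  Φ.filter fun F => s ∈ F ∧ (∃ x ∈ F, x ∈ A) ∧ ∃ y ∈ F, y ∈ B

/-- a partition into an independent set `S` and two forests; every `s ∈ S` other than `s₀` has at most four neighbours,
or `G` holds and its neighbours in `A` and `B` form two runs of its link and are at most 6 (or at most 4 in `A` and at most 4
in `B`) -/
structure PartS (V : Finset α) (Φ : Finset (Finset α)) (S A B : Finset α) (s₀ : α) (G : Prop) : Prop where
  cov : ∀ v, v ∈ V ↔ v ∈ S ∨ v ∈ A ∨ v ∈ B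
  SA : Disjoint S A
  SB : Disjoint S B
  AB : Disjoint A B
  ind : ∀ s ∈ S, ∀ t ∈ S, ¬ Aj Φ s t
  fA : Fo Φ A
  fB : Fo Φ B
  deg : ∀ s ∈ S, s ≠ s₀ → (nbd V Φ s).card ≤ 4 ∨ (G ∧ (mxf Φ A B s).card ≤ 2 ∧ ((nbd V Φ s).card ≤ 6 ∨
    ((nbd V Φ s).filter (· ∈ A)).card ≤ 4 ∧ ((nbd V Φ s).filter (· ∈ B)).card ≤ 4))
  d0 : s₀ ∈ S → (nbd V Φ s₀).card ≤ 4 ∨ (mxf Φ A B s₀).card ≤ 2

/-- after minimizing `S` -/
structure NiceS (V : Finset α) (Φ : Finset (Finset α)) (S A B : Finset α) (s₀ : α) (G : Prop) : Prop where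
  part : PartS V Φ S A B s₀ G
  twoA : ∀ s ∈ S, ∃ a a', a ≠ a' ∧ a ∈ A ∧ a' ∈ A ∧ Aj Φ s a ∧ Aj Φ s a' ∧ Cn Φ A a a'
  twoB : ∀ s ∈ S, ∃ b b', b ≠ b' ∧ b ∈ B ∧ b' ∈ B ∧ Aj Φ s b ∧ Aj Φ s b' ∧ Cn Φ B b b'

/-- the two runs of the link of `s` -/
structure Lk (Φ : Finset (Finset α)) (s : α) (A B : Finset α) (a b : List α) : Prop where
  nodup : (a ++ b.reverse).Nodup
  three : 3 ≤ (a ++ b.reverse).length
  ane : a ≠ []
  bne : b ≠ []
  aA : ∀ x ∈ a, x ∈ A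
  bB : ∀ x ∈ b, x ∈ B
  mem : ∀ u, u ∈ a ++ b.reverse ↔ Aj Φ s u
  fac : ∀ q ∈ prs (a ++ b.reverse), ({s, q.1, q.2} : Finset α) ∈ Φ
  all : ∀ F ∈ Φ, s ∈ F → ∃ q ∈ prs (a ++ b.reverse), F = {s, q.1, q.2}

/-- the final colouring -/
structure StrS (V : Finset α) (Φ : Finset (Finset α)) (p : α) (S A B : Finset α) (e₁ e₂ : Finset α) : Prop where
  pV : p ∈ V
  cov : ∀ v, v ∈ V ↔ v = p ∨ v ∈ S ∨ v ∈ A ∨ v ∈ B
  pS : p ∉ S
  pA : p ∉ A
  pB : p ∉ B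
  SA : Disjoint S A
  SB : Disjoint S B
  AB : Disjoint A B
  ind : ∀ s ∈ S, ∀ t ∈ S, ¬ Aj Φ s t
  np : ∀ s ∈ S, ¬ Aj Φ p s
  two : ∀ s ∈ S, (mxf Φ A B s).card = 2
  fA : Fo Φ A
  cA : ∀ x ∈ A, ∀ y ∈ A, Cn Φ A x y
  bi : ∀ F ∈ Φ, p ∉ F → (∀ s ∈ S, s ∉ F) → (∃ x ∈ F, x ∈ A) ∧ ∃ y ∈ F, y ∈ B
  ne : e₁ ≠ e₂
  m1 : ∃ x ∈ A, ∃ y ∈ B, e₁ = {x, y} ∧ {p, x, y} ∈ Φ
  m2 : ∃ x ∈ A, ∃ y ∈ B, e₂ = {x, y} ∧ {p, x, y} ∈ Φ
  only : ∀ x ∈ A, ∀ y ∈ B, {p, x, y} ∈ Φ → ({x, y} : Finset α) = e₁ ∨ ({x, y} : Finset α) = e₂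

/-- the nodes: triangles away from `p` and `S`, and the stars of the vertices of `S` -/
noncomputable def Nds (Φ : Finset (Finset α)) (p : α) (S : Finset α) : Finset (Finset α) :=
  Fp Φ p S ∪ S.image fun s => ({s} : Finset α)

/-- the mixed edges of a node -/
noncomputable def Me (Φ : Finset (Finset α)) (A B n : Finset α) : Finset (Finset α) :=
  ((A ×ˢ B).filter fun q => ∃ F ∈ Φ, n ⊆ F ∧ q.1 ∈ F ∧ q.2 ∈ F).image fun q => ({q.1, q.2} : Finset α)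

end comb

/-- no four vertices in a plane -/
def Gp (V : Finset (Ed 3)) : Prop :=
  ∀ a ∈ V, ∀ b ∈ V, ∀ c ∈ V, ∀ d ∈ V, a ≠ b → a ≠ c → a ≠ d → b ≠ c → b ≠ d → c ≠ d →
    dt (b - a) (c - a) (d - a) ≠ 0

/-- the pulling tetrahedralization with apex `p` -/
noncomputable def Tp (V : Finset (Ed 3)) (p : Ed 3) : Finset (Finset (Ed 3)) :=
  ((fc V).filter fun F => p ∉ F).image fun F => insert p F

end Pool.Agent.LibSt23
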