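import Pool.Agent.LibSt23.Defs

/-!
[ST23 E1] (SHORT) Algebra of the determinant. Everything by `unfold dt b2 b3 Er` and `ring` (for vectors: `ext i; fin_cases i`, `simp`, `ring`). `b_rel` is Cramer's rule (multiply `dt_rel` for `s - p, x - p, y - p, z - p` by `σ`).
-/

set_option autoImplicit false

namespace Pool.Agent.LibSt23

open Finset Pool.Agent.LibPol19 Pool.Agent.LibTet88 Pool.Agent.LibTet23
open scoped Classical

theorem dt_s12 (x y z : Ed 3) : dt y x z = - dt x y z := by
  unfold dt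
  ring

theorem dt_s23 (x y z : Ed 3) : dt x z y = - dt x y z := by
  unfold dt
  ring

theorem dt_cyc (x y z : Ed 3) : dt y z x = dt x y z := by
  unfold dt
  ring

theorem dt_rel (s x y z : Ed 3) : dt x y z • s - dt s y z • x + dt s x z • y - dt s x y • z = 0 := by
  ext i
  fin_cases i <;> simp [dt] <;> ring

theorem b2_swap (σ : ℝ) (p s x y : Ed 3) : b2 σ p s y x = - b2 σ p s x y := by
  unfold b2 dt
  ring

theorem b2_self (σ : ℝ) (p s x : Ed 3) : b2 σ p s x x = 0 := by
  unfold b2 dt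
  ring

theorem b2_neg (σ : ℝ) (p s x y : Ed 3) : b2 (-σ) p s x y = b2 σ p s y x := by
  unfold b2 dt
  ring

theorem b3_neg (σ : ℝ) (p x y z : Ed 3) : b3 (-σ) p x y z = b3 σ p z y x := by
  unfold b3 dt
  ring

theorem b3_cyc (σ : ℝ) (p x y z : Ed 3) : b3 σ p y z x = b3 σ p x y z := by
  unfold b3 dt
  ring

/-- `s` in the last place -/
theorem b3_b2 (σ : ℝ) (p s x y : Ed 3) : b3 σ p x y s = b2 σ p s x y := by
  unfold b3 b2 dt
  ring

theorem er_neg {σ : ℝ} {p s x y z : Ed 3} : Er (-σ) p s x y z ↔ Er σ p s z y x := by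
  unfold Er
  rw [b2_neg, b3_neg]

theorem b_rel (σ : ℝ) (p s x y z : Ed 3) :
    b3 σ p x y z • (s - p) - b2 σ p s y z • (x - p) + b2 σ p s x z • (y - p) - b2 σ p s x y • (z - p) = 0 := by
  unfold b3 b2
  generalize s - p = a
  generalize x - p = b
  generalize y - p = c
  generalize z - p = d
  have h := congrArg (fun v => σ • v) (dt_rel a b c d)
  simp only [smul_zero, smul_add, smul_sub, smul_smul] at h
  exact h

theorem b2_addr (σ : ℝ) (p s x w z : Ed 3) (t : ℝ) :
    b2 σ p s x (w + t • (z - p)) = b2 σ p s x w + t * b2 σ p s x z := by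
  unfold b2 dt
  simp
  ring

theorem b2_addl (σ : ℝ) (p s y w z : Ed 3) (t : ℝ) :
    b2 σ p s (w + t • (z - p)) y = b2 σ p s w y + t * b2 σ p s z y := by
  unfold b2 dt
  simp
  ring

theorem b2_oppr (σ : ℝ) (p s x z : Ed 3) : b2 σ p s x (p - (z - p)) = - b2 σ p s x z := by
  unfold b2 dt
  simp
  ring

theorem b2_oppl (σ : ℝ) (p s y z : Ed 3) : b2 σ p s (p - (z - p)) y = - b2 σ p s z y := by
  unfold b2 dt
  simp
  ring

end Pool.Agent.LibSt23
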