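import Pool.Agent.LibSt23.E1

/-!
[ST23 E2] (SHORT/MEDIUM) Cyclic pairs of a list; rotation and reversal of a polygon. `prs_rotate`: `List.zip` and `List.rotate` commute for equal lengths (e.g. by `List.ext_getElem` with `List.getElem_rotate`, `List.getElem_zip`), `List.rotate_rotate`. `mem_prs_reverse`: by `List.ext_getElem` or: membership in `prs l` means `∃ i < l.length, q = (l[i], l[(i+1) % l.length])`. `pg_rot`: all fields are membership statements (`List.mem_rotate`, `mem_prs_rotate`). `pg_rev`: `mem_prs_reverse`, `b2_neg`, `b3_neg`; for `disj` use the hypothesis for the swapped pairs.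
-/

set_option autoImplicit false

namespace Pool.Agent.LibSt23

open Finset Pool.Agent.LibPol19 Pool.Agent.LibTet88 Pool.Agent.LibTet23
open scoped Classical

theorem prs_rotate {α : Type*} (l : List α) (n : ℕ) : prs (l.rotate n) = (prs l).rotate n := by
  unfold prs
  apply List.ext_getElem
  · simp
  · intro k h1 h2
    simp only [List.getElem_zip, List.getElem_rotate, List.length_zip, List.length_rotate, min_self]
    refine Prod.ext rfl ?_
    change l[((k + 1) % l.length + n) % l.length]'_ = l[((k + n) % l.length + 1) % l.length]'_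
    congr 1
    rw [Nat.mod_add_mod, Nat.mod_add_mod, Nat.add_right_comm]

theorem mem_prs_rotate {α : Type*} {l : List α} {n : ℕ} {q : α × α} : q ∈ prs (l.rotate n) ↔ q ∈ prs l := by
  rw [prs_rotate, List.mem_rotate]

private theorem E2_mem {α : Type*} {l : List α} {q : α × α} : q ∈ prs l ↔
    ∃ (i j : ℕ) (hi : i < l.length) (hj : j < l.length), j = (i + 1) % l.length ∧ q = (l[i], l[j]) := by
  unfold prs
  rw [List.mem_iff_getElem]
  constructor
  · rintro ⟨i, hi, h⟩
    have hi' : i < l.length := by simpa using hi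
    refine ⟨i, (i + 1) % l.length, hi', Nat.mod_lt _ (by omega), rfl, ?_⟩
    rw [← h, List.getElem_zip, List.getElem_rotate]
  · rintro ⟨i, j, hi, hj, hij, rfl⟩
    subst hij
    refine ⟨i, by simpa using hi, ?_⟩
    rw [List.getElem_zip, List.getElem_rotate]

private theorem E2_rev {α : Type*} {l : List α} {q : α × α} (h : q ∈ prs l.reverse) : (q.2, q.1) ∈ prs l := by
  rw [E2_mem] at h ⊢
  obtain ⟨i, j, hi, hj, hij, rfl⟩ := h
  rw [List.length_reverse] at hi hj hij
  refine ⟨l.length - 1 - j, l.length - 1 - i, by omega, by omega, ?_, ?_⟩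
  · subst hij
    rcases Nat.lt_or_ge (i + 1) l.length with h1 | h1
    · rw [Nat.mod_eq_of_lt h1, Nat.mod_eq_of_lt (by omega)]
      omega
    · have h2 : i + 1 = l.length := by omega
      rw [h2, Nat.mod_self]
      have h3 : l.length - 1 - 0 + 1 = l.length := by omega
      rw [h3, Nat.mod_self]
      omega
  · rw [List.getElem_reverse, List.getElem_reverse]

theorem mem_prs_reverse {α : Type*} {l : List α} {q : α × α} : q ∈ prs l.reverse ↔ (q.2, q.1) ∈ prs l := by
  constructor
  · exact E2_rev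
  · intro h
    have h1 : (q.2, q.1) ∈ prs l.reverse.reverse := by rwa [List.reverse_reverse]
    exact E2_rev h1

theorem prs_mem {α : Type*} {l : List α} {q : α × α} (h : q ∈ prs l) : q.1 ∈ l ∧ q.2 ∈ l := by
  rw [E2_mem] at h
  obtain ⟨i, j, hi, hj, -, rfl⟩ := h
  exact ⟨List.getElem_mem hi, List.getElem_mem hj⟩

theorem prs_cons3 {α : Type*} (x y z : α) (r : List α) :
    prs (x :: y :: z :: r) = (x, y) :: (y, z) :: ((z :: r).zip (r ++ [x])) := by
  unfold prs
  rw [List.rotate_cons_succ, List.rotate_zero]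
  rfl

theorem prs_cons2 {α : Type*} (x z : α) (r : List α) : prs (x :: z :: r) = (x, z) :: ((z :: r).zip (r ++ [x])) := by
  unfold prs
  rw [List.rotate_cons_succ, List.rotate_zero]
  rfl

theorem pg_rot {σ : ℝ} {p s : Ed 3} {l : List (Ed 3)} (h : Pg σ p s l) (n : ℕ) : Pg σ p s (l.rotate n) where
  nodup := List.nodup_rotate.2 h.nodup
  pos := fun q hq => h.pos q (mem_prs_rotate.1 hq)
  disj := fun q hq r hr => h.disj q (mem_prs_rotate.1 hq) r (mem_prs_rotate.1 hr)
  gp2 := fun x hx y hy => h.gp2 x (List.mem_rotate.1 hx) y (List.mem_rotate.1 hy)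
  gp3 := fun x hx y hy z hz => h.gp3 x (List.mem_rotate.1 hx) y (List.mem_rotate.1 hy) z (List.mem_rotate.1 hz)
  hp := by
    obtain ⟨f, h1, h2⟩ := h.hp
    exact ⟨f, h1, fun x hx => h2 x (List.mem_rotate.1 hx)⟩

theorem pg_rev {σ : ℝ} {p s : Ed 3} {l : List (Ed 3)} (h : Pg σ p s l) : Pg (-σ) p s l.reverse where
  nodup := List.nodup_reverse.2 h.nodup
  pos := fun q hq => by
    rw [b2_neg]
    exact h.pos (q.2, q.1) (mem_prs_reverse.1 hq)
  disj := fun q hq r hr hqr w h1 h2 h3 h4 => by
    rw [b2_neg] at h1 h2 h3 h4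
    refine h.disj (q.2, q.1) (mem_prs_reverse.1 hq) (r.2, r.1) (mem_prs_reverse.1 hr) ?_ w h2 h1 h4 h3
    intro h5
    rw [Prod.mk.injEq] at h5
    exact hqr (Prod.ext h5.2 h5.1)
  gp2 := fun x hx y hy hxy => by
    rw [b2_neg]
    exact h.gp2 y (List.mem_reverse.1 hy) x (List.mem_reverse.1 hx) hxy.symm
  gp3 := fun x hx y hy z hz hxy hyz hxz => by
    rw [b3_neg]
    exact h.gp3 z (List.mem_reverse.1 hz) y (List.mem_reverse.1 hy) x (List.mem_reverse.1 hx) hyz.symm hxy.symm hxz.symm
  hp := by
    obtain ⟨f, h1, h2⟩ := h.hp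
    exact ⟨f, h1, fun x hx => h2 x (List.mem_reverse.1 hx)⟩

end Pool.Agent.LibSt23
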