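import Pool.Agent.LibSt23.E2

/-!
[ST23 E3] (MEDIUM) A point can be left out of the polygon. `prs_cons3`, `prs_cons2`: only the pairs `(x, y), (y, z)` are replaced by `(x, z)`. `disj` for `(x, z)` and a rest pair `r`: suppose `w` is in both open cones (`b2 x w > 0`, `b2 w z > 0`, `b2 r.1 w > 0`, `b2 w r.2 > 0`). Replace `w` by `w' = w + t • (z - p)` with small `t > 0` such that still `b2 r.1 w' > 0`, `b2 w' r.2 > 0` (`b2_addr`, `b2_addl`), `b2 x w' > 0`, and `b2 w' z = b2 w z > 0` (`b2_self`), and with `b2 y w' ≠ 0` (if `b2 y w = 0` then `b2 y w' = t b2 y z > 0`; if `b2 y w ≠ 0` take `t = 0`, i.e. `w` itself). If `b2 y w' < 0`: `w'` is in the cones of `(x, y)` and `r`; if `> 0`: of `(y, z)` and `r`: contradiction to `h.disj`. A rest pair `r` is different from `(x, y)` and `(y, z)` (`h.nodup`: its first member is in `z :: r`). The symmetric case (`r`, `(x, z)`) in the same way.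
-/

set_option autoImplicit false

namespace Pool.Agent.LibSt23

open Finset Pool.Agent.LibPol19 Pool.Agent.LibTet88 Pool.Agent.LibTet23
open scoped Classical

private theorem E3_small {A : ℝ} (hA : 0 < A) (B : ℝ) : ∃ t₀ > 0, ∀ t, 0 < t → t ≤ t₀ → 0 < A + t * B := by
  refine ⟨A / (|B| + 1), by positivity, fun t h0 h1 => ?_⟩
  have hB : 0 < |B| + 1 := by positivity
  rw [le_div_iff₀ hB] at h1
  nlinarith [neg_abs_le B, mul_nonneg h0.le (sub_nonneg.2 (neg_abs_le B))]

private theorem E3_key {σ : ℝ} {p s x y z : Ed 3} {r : List (Ed 3)} (h : Pg σ p s (x :: y :: z :: r))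
    {q : Ed 3 × Ed 3} (hq : q ∈ (z :: r).zip (r ++ [x])) {w : Ed 3} (h1 : 0 < b2 σ p s x w)
    (h2 : 0 < b2 σ p s w z) (h3 : 0 < b2 σ p s q.1 w) (h4 : 0 < b2 σ p s w q.2) : False := by
  have hq1 : q.1 ∈ z :: r := (List.of_mem_zip (show (q.1, q.2) ∈ _ from hq)).1
  have hnd := h.nodup
  have hxn : x ∉ z :: r := fun hh => (List.nodup_cons.1 hnd).1 (List.mem_cons_of_mem _ hh)
  have hyn : y ∉ z :: r := (List.nodup_cons.1 (List.nodup_cons.1 hnd).2).1
  have hqm : q ∈ prs (x :: y :: z :: r) := by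
    rw [prs_cons3]
    exact List.mem_cons_of_mem _ (List.mem_cons_of_mem _ hq)
  have hxy : (x, y) ∈ prs (x :: y :: z :: r) := by
    rw [prs_cons3]
    exact List.mem_cons_self
  have hyz : (y, z) ∈ prs (x :: y :: z :: r) := by
    rw [prs_cons3]
    exact List.mem_cons_of_mem _ List.mem_cons_self
  have hne1 : (x, y) ≠ q := fun hh => hxn (by rw [← hh] at hq1; exact hq1)
  have hne2 : (y, z) ≠ q := fun hh => hyn (by rw [← hh] at hq1; exact hq1)
  rcases lt_trichotomy (b2 σ p s y w) 0 with h5 | h5 | h5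
  · have h6 : 0 < b2 σ p s w y := by
      rw [b2_swap]
      linarith
    exact h.disj _ hxy _ hqm hne1 w h1 h6 h3 h4
  · obtain ⟨t₁, ht₁, H₁⟩ := E3_small h3 (b2 σ p s q.1 z)
    obtain ⟨t₂, ht₂, H₂⟩ := E3_small h4 (b2 σ p s z q.2)
    have ht : 0 < min t₁ t₂ := lt_min ht₁ ht₂
    refine h.disj _ hyz _ hqm hne2 (w + (min t₁ t₂) • (z - p)) ?_ ?_ ?_ ?_
    · show 0 < b2 σ p s y _
      rw [b2_addr, h5, zero_add]
      exact mul_pos ht (h.pos _ hyz)
    · show 0 < b2 σ p s _ z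
      rw [b2_addl, b2_self, mul_zero, add_zero]
      exact h2
    · rw [b2_addr]
      exact H₁ _ ht (min_le_left _ _)
    · rw [b2_addl]
      exact H₂ _ ht (min_le_right _ _)
  · exact h.disj _ hyz _ hqm hne2 w h5 h2 h3 h4

theorem pg_rem {σ : ℝ} {p s x y z : Ed 3} {r : List (Ed 3)} (h : Pg σ p s (x :: y :: z :: r)) (hr : r ≠ [])
    (hx : 0 < b2 σ p s x z) : Pg σ p s (x :: z :: r) := by
  have hsub : ∀ u ∈ x :: z :: r, u ∈ x :: y :: z :: r := by
    intro u hu
    rcases List.mem_cons.1 hu with rfl | hu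
    · exact List.mem_cons_self
    · exact List.mem_cons_of_mem _ (List.mem_cons_of_mem _ hu)
  have hrest : ∀ q ∈ (z :: r).zip (r ++ [x]), q ∈ prs (x :: y :: z :: r) := by
    intro q hq
    rw [prs_cons3]
    exact List.mem_cons_of_mem _ (List.mem_cons_of_mem _ hq)
  refine ⟨?_, ?_, ?_, ?_, ?_, ?_⟩
  · have h1 := List.nodup_cons.1 h.nodup
    have h2 := List.nodup_cons.1 h1.2
    exact List.nodup_cons.2 ⟨fun hh => h1.1 (List.mem_cons_of_mem _ hh), h2.2⟩
  · intro q hq
    rw [prs_cons2] at hq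
    rcases List.mem_cons.1 hq with rfl | hq
    · exact hx
    · exact h.pos q (hrest q hq)
  · intro q hq r' hr' hne w h1 h2 h3 h4
    rw [prs_cons2] at hq hr'
    rcases List.mem_cons.1 hq with rfl | hq
    · rcases List.mem_cons.1 hr' with rfl | hr'
      · exact hne rfl
      · exact E3_key h hr' h1 h2 h3 h4
    · rcases List.mem_cons.1 hr' with rfl | hr'
      · exact E3_key h hq h3 h4 h1 h2
      · exact h.disj q (hrest q hq) r' (hrest r' hr') hne w h1 h2 h3 h4
  · exact fun u hu v hv hne => h.gp2 u (hsub u hu) v (hsub v hv) hne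
  · exact fun u hu v hv t ht h1 h2 h3 => h.gp3 u (hsub u hu) v (hsub v hv) t (hsub t ht) h1 h2 h3
  · obtain ⟨f, hf, hf'⟩ := h.hp
    exact ⟨f, hf, fun u hu => hf' u (hsub u hu)⟩

end Pool.Agent.LibSt23
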