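import Pool.Agent.LibSt23.E2

/-!
[ST23 E4] (SHORT/MEDIUM) Some angle over two steps is smaller than pi. Length 4, `l = [a, b, c, d]`: `b2 a c ≠ 0` (`gp2`); if positive `n = 0`, otherwise `b2 c a > 0` (`b2_swap`), `n = 2`. Length at least 5, `l = v0 :: v1 :: v2 :: v3 :: v4 :: r`: if `b2 v0 v2 > 0`: `n = 0`; if `b2 v2 v4 > 0`: `n = 2` (`rotate 2` gives `v2 :: v3 :: v4 :: (r ++ [v0, v1])`). Otherwise both are negative (`gp2`, nodup): the point `w = p - (v2 - p)` is in the open cones of the different pairs `(v0, v1)` and `(v3, v4)`: `b2 v0 w = - b2 v0 v2 > 0`, `b2 w v1 = - b2 v2 v1 = b2 v1 v2 > 0`, `b2 v3 w = b2 v2 v3 > 0`, `b2 w v4 = - b2 v2 v4 > 0` (`b2_oppr`, `b2_oppl`): contradiction to `disj`.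
-/

set_option autoImplicit false

namespace Pool.Agent.LibSt23

open Finset Pool.Agent.LibPol19 Pool.Agent.LibTet88 Pool.Agent.LibTet23
open scoped Classical

theorem pg_wide {σ : ℝ} {p s : Ed 3} {l : List (Ed 3)} (h : Pg σ p s l) (h4 : 4 ≤ l.length) :
    ∃ (n : ℕ) (x y z : Ed 3) (r : List (Ed 3)), l.rotate n = x :: y :: z :: r ∧ r ≠ [] ∧ 0 < b2 σ p s x z := by
  obtain ⟨v0, l1, rfl⟩ : ∃ a t, l = a :: t := by
    cases l with
    | nil => simp at h4
    | cons a t => exact ⟨a, t, rfl⟩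
  obtain ⟨v1, l2, rfl⟩ : ∃ a t, l1 = a :: t := by
    cases l1 with
    | nil => simp at h4
    | cons a t => exact ⟨a, t, rfl⟩
  obtain ⟨v2, l3, rfl⟩ : ∃ a t, l2 = a :: t := by
    cases l2 with
    | nil => simp at h4
    | cons a t => exact ⟨a, t, rfl⟩
  obtain ⟨v3, l4, rfl⟩ : ∃ a t, l3 = a :: t := by
    cases l3 with
    | nil => simp at h4
    | cons a t => exact ⟨a, t, rfl⟩
  have hnd := h.nodup
  have h02 : v0 ≠ v2 := by
    intro e
    subst e
    simp at hnd
  have g02 := h.gp2 v0 (by simp) v2 (by simp) h02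
  have erot : (v0 :: v1 :: v2 :: v3 :: l4).rotate 2 = v2 :: v3 :: (l4 ++ [v0, v1]) := by
    rw [List.rotate_cons_succ, List.cons_append, List.rotate_cons_succ, List.rotate_zero]
    simp
  by_cases c02 : 0 < b2 σ p s v0 v2
  · exact ⟨0, v0, v1, v2, v3 :: l4, List.rotate_zero _, by simp, c02⟩
  have n02 : b2 σ p s v0 v2 < 0 := lt_of_le_of_ne (not_lt.mp c02) g02
  rcases l4 with _ | ⟨v4, r⟩
  · refine ⟨2, v2, v3, v0, [v1], ?_, by simp, ?_⟩
    · rw [erot]
      simp
    · rw [b2_swap]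
      linarith
  · have h24 : v2 ≠ v4 := by
      intro e
      subst e
      simp at hnd
    have h03 : v0 ≠ v3 := by
      intro e
      subst e
      simp at hnd
    have g24 := h.gp2 v2 (by simp) v4 (by simp) h24
    by_cases c24 : 0 < b2 σ p s v2 v4
    · exact ⟨2, v2, v3, v4, r ++ [v0, v1], by rw [erot]; simp, by simp, c24⟩
    have n24 : b2 σ p s v2 v4 < 0 := lt_of_le_of_ne (not_lt.mp c24) g24
    exfalso
    have m01 : (v0, v1) ∈ prs (v0 :: v1 :: v2 :: v3 :: v4 :: r) := by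
      rw [prs_cons3]
      simp
    have m12 : (v1, v2) ∈ prs (v0 :: v1 :: v2 :: v3 :: v4 :: r) := by
      rw [prs_cons3]
      simp
    have m23 : (v2, v3) ∈ prs (v0 :: v1 :: v2 :: v3 :: v4 :: r) := by
      rw [prs_cons3]
      simp
    have m34 : (v3, v4) ∈ prs (v0 :: v1 :: v2 :: v3 :: v4 :: r) := by
      rw [prs_cons3]
      simp
    have p12 := h.pos _ m12
    have p23 := h.pos _ m23
    simp only at p12 p23
    refine h.disj _ m01 _ m34 (by intro e; exact h03 (Prod.ext_iff.mp e).1) (p - (v2 - p)) ?_ ?_ ?_ ?_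
    · show 0 < b2 σ p s v0 (p - (v2 - p))
      rw [b2_oppr]
      linarith
    · show 0 < b2 σ p s (p - (v2 - p)) v1
      rw [b2_oppl, b2_swap, neg_neg]
      exact p12
    · show 0 < b2 σ p s v3 (p - (v2 - p))
      rw [b2_oppr, b2_swap, neg_neg]
      exact p23
    · show 0 < b2 σ p s (p - (v2 - p)) v4
      rw [b2_oppl]
      linarith

end Pool.Agent.LibSt23
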