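import Pool.Agent.LibSt23.E1

/-!
[ST23 E5] (SHORT) An ear at a neighbour of a reflex point `w` (between `h` and `k`). By `b_rel` for `h, w, k`: `b2 h k • (w - p) = (- b3 h w k) • (s - p) + b2 w k • (h - p) + b2 h w • (k - p)`, all three coefficients positive. Apply the linear functions `b2 x ·`, `b3 x h ·` (resp. `b2 · x`, `b3 · k x`) of `w - p`; the term of `s - p` in `b2` vanishes, in `b3 x h ·` it is `b2 x h > 0` (`b3_b2`), in `b3 · k x` it is `b3 s k x = b2 k x > 0` (cyclic).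
-/

set_option autoImplicit false

namespace Pool.Agent.LibSt23

open Finset Pool.Agent.LibPol19 Pool.Agent.LibTet88 Pool.Agent.LibTet23
open scoped Classical

private theorem E5_k1 (S H K X W : Ed 3) :
    dt S H K * dt S X W = dt S W K * dt S X H + dt S H W * dt S X K := by
  unfold dt
  ring

private theorem E5_k2 (S H K X W : Ed 3) :
    dt S H K * dt X H W = (-dt H W K) * dt S X H + dt S H W * dt X H K := by
  unfold dt
  ring

private theorem E5_k3 (S H K X W : Ed 3) :
    dt S H K * dt S W X = dt S W K * dt S H X + dt S H W * dt S K X := by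
  unfold dt
  ring

private theorem E5_k4 (S H K X W : Ed 3) :
    dt S H K * dt W K X = (-dt H W K) * dt S K X + dt S W K * dt H K X := by
  unfold dt
  ring

theorem ear_left {σ : ℝ} {p s h w k x : Ed 3} (h1 : 0 < b2 σ p s h w) (h2 : 0 < b2 σ p s w k)
    (h3 : 0 < b2 σ p s h k) (h4 : b3 σ p h w k < 0) (h5 : 0 < b2 σ p s x h) (h6 : Er σ p s x h k) :
    Er σ p s x h w := by
  obtain ⟨h7, h8⟩ := h6
  have e1 : b2 σ p s h k * b2 σ p s x w = b2 σ p s w k * b2 σ p s x h + b2 σ p s h w * b2 σ p s x k := by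
    unfold b2
    linear_combination σ ^ 2 * E5_k1 (s - p) (h - p) (k - p) (x - p) (w - p)
  have e2 : b2 σ p s h k * b3 σ p x h w
      = (-b3 σ p h w k) * b2 σ p s x h + b2 σ p s h w * b3 σ p x h k := by
    unfold b2 b3
    linear_combination σ ^ 2 * E5_k2 (s - p) (h - p) (k - p) (x - p) (w - p)
  refine ⟨?_, ?_⟩
  · refine pos_of_mul_pos_right ?_ h3.le
    rw [e1]
    exact add_pos (mul_pos h2 h5) (mul_pos h1 h7)
  · refine pos_of_mul_pos_right ?_ h3.le
    rw [e2]
    exact add_pos (mul_pos (neg_pos.2 h4) h5) (mul_pos h1 h8)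

theorem ear_right {σ : ℝ} {p s h w k x : Ed 3} (h1 : 0 < b2 σ p s h w) (h2 : 0 < b2 σ p s w k)
    (h3 : 0 < b2 σ p s h k) (h4 : b3 σ p h w k < 0) (h5 : 0 < b2 σ p s k x) (h6 : Er σ p s h k x) :
    Er σ p s w k x := by
  obtain ⟨h7, h8⟩ := h6
  have e1 : b2 σ p s h k * b2 σ p s w x = b2 σ p s w k * b2 σ p s h x + b2 σ p s h w * b2 σ p s k x := by
    unfold b2
    linear_combination σ ^ 2 * E5_k3 (s - p) (h - p) (k - p) (x - p) (w - p)
  have e2 : b2 σ p s h k * b3 σ p w k x
      = (-b3 σ p h w k) * b2 σ p s k x + b2 σ p s w k * b3 σ p h k x := by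
    unfold b2 b3
    linear_combination σ ^ 2 * E5_k4 (s - p) (h - p) (k - p) (x - p) (w - p)
  refine ⟨?_, ?_⟩
  · refine pos_of_mul_pos_right ?_ h3.le
    rw [e1]
    exact add_pos (mul_pos h2 h7) (mul_pos h1 h5)
  · refine pos_of_mul_pos_right ?_ h3.le
    rw [e2]
    exact add_pos (mul_pos (neg_pos.2 h4) h5) (mul_pos h2 h8)

end Pool.Agent.LibSt23
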