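import Pool.Agent.LibSt23.E2

/-!
[ST23 E6] (SHORT/MEDIUM) A quadrilateral with a reflex point `w`. First `0 < b3 x h k`: `b_rel` for `x, h, k` gives `b3 x h k • (s - p) = b2 h k • (x - p) + b2 k x • (h - p) + b2 x h • (k - p)` (`b2_swap`); apply the functional of `Pg.hp` (positive on `s - p` and on the three points), the coefficients `b2 h k`, `b2 k x`, `b2 x h` are positive. Now `b2 x w ≠ 0` (`gp2`). If `0 < b2 x w`: `Er x h w`: as in E5 (`b2 h k • (w - p) = (- b3 h w k) • (s - p) + b2 w k • (h - p) + b2 h w • (k - p)`): `b2 h k * b3 x h w = (- b3 h w k) * b2 x h + b2 h w * b3 x h k > 0`. If `b2 x w < 0`: `0 < b2 w x`, `Er w k x` in the same way (`b3 h k x = b3 x h k`).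
-/

set_option autoImplicit false

namespace Pool.Agent.LibSt23

open Finset Pool.Agent.LibPol19 Pool.Agent.LibTet88 Pool.Agent.LibTet23
open scoped Classical

private theorem E6_rel1 (σ : ℝ) (p s h w k x : Ed 3) :
    b2 σ p s h k * b3 σ p x h w = (- b3 σ p h w k) * b2 σ p s x h + b2 σ p s h w * b3 σ p x h k := by
  unfold b2 b3 dt
  ring

private theorem E6_rel2 (σ : ℝ) (p s h w k x : Ed 3) :
    b2 σ p s h k * b3 σ p w k x = (- b3 σ p h w k) * b2 σ p s k x + b2 σ p s w k * b3 σ p x h k := by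
  unfold b2 b3 dt
  ring

private theorem E6_swap (σ : ℝ) (p s x y : Ed 3) : b2 σ p s y x = - b2 σ p s x y := by
  unfold b2 dt
  ring

theorem ear4 {σ : ℝ} {p s h w k x : Ed 3} (hg : Pg σ p s [h, w, k, x]) (h3 : 0 < b2 σ p s h k)
    (h4 : b3 σ p h w k < 0) : Er σ p s x h w ∨ Er σ p s w k x := by
  have hd := hg.nodup
  simp only [List.nodup_cons, List.mem_cons, not_or, List.not_mem_nil, not_false_eq_true,
    List.nodup_nil, and_true] at hd
  have p1 : 0 < b2 σ p s h w := hg.pos (h, w) (by simp [prs])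
  have p2 : 0 < b2 σ p s w k := hg.pos (w, k) (by simp [prs])
  have p3 : 0 < b2 σ p s k x := hg.pos (k, x) (by simp [prs])
  have p4 : 0 < b2 σ p s x h := hg.pos (x, h) (by simp [prs])
  obtain ⟨ℓ, hs, hl⟩ := hg.hp
  have lx : 0 < ℓ (x - p) := hl x (by simp)
  have lh : 0 < ℓ (h - p) := hl h (by simp)
  have lk : 0 < ℓ (k - p) := hl k (by simp)
  have key : 0 < b3 σ p x h k := by
    have h5 := congrArg ℓ (b_rel σ p s x h k)
    simp only [map_add, map_sub, map_smul, smul_eq_mul, map_zero] at h5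
    rw [E6_swap σ p s k x] at h5
    have q1 := mul_pos h3 lx
    have q2 := mul_pos p3 lh
    have q3 := mul_pos p4 lk
    by_contra hcon
    rw [not_lt] at hcon
    have q4 : b3 σ p x h k * ℓ (s - p) ≤ 0 := mul_nonpos_of_nonpos_of_nonneg hcon hs.le
    simp only [map_sub] at q1 q2 q3 q4
    linarith
  have hxw : x ≠ w := fun e => hd.2.1.2 e.symm
  have hne := hg.gp2 x (by simp) w (by simp) hxw
  rcases lt_or_gt_of_ne hne with hlt | hgt
  · right
    refine ⟨?_, ?_⟩
    · rw [E6_swap σ p s x w]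
      linarith
    · have h6 := E6_rel2 σ p s h w k x
      have q1 := mul_pos (neg_pos.2 h4) p3
      have q2 := mul_pos p2 key
      exact (mul_pos_iff_of_pos_left h3).1 (by rw [h6]; linarith)
  · left
    refine ⟨hgt, ?_⟩
    have h6 := E6_rel1 σ p s h w k x
    have q1 := mul_pos (neg_pos.2 h4) p4
    have q2 := mul_pos p1 key
    exact (mul_pos_iff_of_pos_left h3).1 (by rw [h6]; linarith)

end Pool.Agent.LibSt23
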