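import Pool.Agent.LibSt23.E3
import Pool.Agent.LibSt23.E4
import Pool.Agent.LibSt23.E5
import Pool.Agent.LibSt23.E6

/-!
[ST23 E7] (MEDIUM) THE EAR LEMMA. Induction on the length. `pg_wide`: after a rotation (`pg_rot`; compose rotations with `List.rotate_rotate`) `l = x :: y :: z :: r`, `r ≠ []`, `0 < b2 x z`. `b3 x y z ≠ 0` (`gp3`). If positive: this is the ear (`n = 0`). If negative (reflex): `l' = x :: z :: r` is a polygon (`pg_rem`). If `r` has one element, `l = [x, y, z, u]`: `ear4`: `Er u x y` (rotation by 3) or `Er y z u` (rotation by 1). Otherwise `4 ≤ l'.length` and the induction hypothesis gives a cyclically consecutive triple `(x', y', z')` of `l'` with `Er x' y' z'`. Write `l'.rotate n = x' :: y' :: z' :: r'`, `n < l'.length`: `n = 0`: `x' = x`, `y' = z`, `z' = r.head`: `ear_right` gives `Er y z z'` (`0 < b2 z z'` by `pos`). `n = last`: `(x', y', z') = (r.last, x, z)`: `ear_left` gives `Er x' x y`. Otherwise the triple does not use the side `(x, z)` and is a cyclically consecutive triple of `l` too. (A convenient form: triples are `(l[i],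 l[i+1], l[i+2])` with indices mod the length.)
-/

set_option autoImplicit false

namespace Pool.Agent.LibSt23

open Finset Pool.Agent.LibPol19 Pool.Agent.LibTet88 Pool.Agent.LibTet23
open scoped Classical

private theorem E7_main (σ : ℝ) (p s : Ed 3) : ∀ (k : ℕ) (l : List (Ed 3)), l.length = k → Pg σ p s l →
    4 ≤ l.length → ∃ (n : ℕ) (x y z : Ed 3) (r : List (Ed 3)), l.rotate n = x :: y :: z :: r ∧
      Er σ p s x y z := by
  intro k
  induction k using Nat.strong_induction_on with
  | _ k ih =>
  intro l hlen h h4
  obtain ⟨n, x, y, z, r, hrot, hr, hxz⟩ := pg_wide h h4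
  have hP : Pg σ p s (x :: y :: z :: r) := hrot ▸ pg_rot h n
  have hl : (x :: y :: z :: r).length = l.length := by rw [← hrot, List.length_rotate]
  suffices hs : ∃ (m : ℕ) (x' y' z' : Ed 3) (r' : List (Ed 3)),
      (x :: y :: z :: r).rotate m = x' :: y' :: z' :: r' ∧ Er σ p s x' y' z' by
    obtain ⟨m, x', y', z', r', h1, h2⟩ := hs
    refine ⟨n + m, x', y', z', r', ?_, h2⟩
    rw [← List.rotate_rotate, hrot, h1]
  have hnd := hP.nodup
  rw [List.nodup_cons, List.nodup_cons, List.nodup_cons] at hnd
  obtain ⟨hx1, hy1, hz1, _⟩ := hnd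
  have hxy : x ≠ y := fun e => hx1 (by rw [e]; exact List.mem_cons_self)
  have hxz' : x ≠ z := fun e => hx1 (by rw [e]; exact List.mem_cons_of_mem _ List.mem_cons_self)
  have hyz : y ≠ z := fun e => hy1 (by rw [e]; exact List.mem_cons_self)
  have mx : x ∈ x :: y :: z :: r := List.mem_cons_self
  have my : y ∈ x :: y :: z :: r := List.mem_cons_of_mem _ List.mem_cons_self
  have mz : z ∈ x :: y :: z :: r := List.mem_cons_of_mem _ (List.mem_cons_of_mem _ List.mem_cons_self)
  have hpxy : 0 < b2 σ p s x y := hP.pos (x, y) (by rw [prs_cons3]; exact List.mem_cons_self)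
  have hpyz : 0 < b2 σ p s y z := hP.pos (y, z)
    (by rw [prs_cons3]; exact List.mem_cons_of_mem _ List.mem_cons_self)
  rcases lt_or_gt_of_ne (hP.gp3 x mx y my z mz hxy hyz hxz') with hneg | hposi
  swap
  · exact ⟨0, x, y, z, r, by rw [List.rotate_zero], hxz, hposi⟩
  have hP' := pg_rem hP hr hxz
  rcases r with _ | ⟨u, r1⟩
  · exact absurd rfl hr
  rcases r1 with _ | ⟨v, r2⟩
  · rcases ear4 hP hxz hneg with h1 | h1
    · exact ⟨3, u, x, y, [z], rfl, h1⟩
    · exact ⟨1, y, z, u, [x], rfl, h1⟩
  have hlen' : (x :: z :: u :: v :: r2).length < k := by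
    rw [← hlen, ← hl]
    simp only [List.length_cons]
    omega
  obtain ⟨m, x', y', z', r', h1, h2⟩ := ih _ hlen' (x :: z :: u :: v :: r2) rfl hP'
    (by simp only [List.length_cons]; omega)
  have hm : (x :: z :: u :: v :: r2).rotate (m % (x :: z :: u :: v :: r2).length) =
      x' :: y' :: z' :: r' := by rw [List.rotate_mod, h1]
  have hm' : m % (x :: z :: u :: v :: r2).length < (x :: z :: u :: v :: r2).length :=
    Nat.mod_lt _ (by simp only [List.length_cons]; omega)
  generalize m % (x :: z :: u :: v :: r2).length = m' at hm hm'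
  rcases m' with _ | m1
  · rw [List.rotate_zero] at hm
    simp only [List.cons.injEq] at hm
    obtain ⟨e1, e2, e3, _⟩ := hm
    subst e1
    subst e2
    subst e3
    have hzu : 0 < b2 σ p s z u := by
      refine hP'.pos (z, u) ?_
      rw [prs_cons3]
      exact List.mem_cons_of_mem _ List.mem_cons_self
    refine ⟨1, y, z, u, (v :: r2) ++ [x], ?_, ear_right hpxy hpyz hxz hneg hzu h2⟩
    rw [List.rotate_cons_succ, List.rotate_zero]
    rfl
  · simp only [List.length_cons] at hm'
    have e1 : (x :: z :: u :: v :: r2).rotate (m1 + 1) =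
        (z :: u :: v :: r2).drop m1 ++ x :: (z :: u :: v :: r2).take m1 := by
      rw [List.rotate_eq_drop_append_take (by simp only [List.length_cons]; omega),
        List.drop_succ_cons, List.take_succ_cons]
    have e2 : (x :: y :: z :: u :: v :: r2).rotate (m1 + 2) =
        (z :: u :: v :: r2).drop m1 ++ x :: y :: (z :: u :: v :: r2).take m1 := by
      rw [List.rotate_eq_drop_append_take (by simp only [List.length_cons]; omega),
        List.drop_succ_cons, List.drop_succ_cons, List.take_succ_cons, List.take_succ_cons]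
    have hA := List.length_drop (l := z :: u :: v :: r2) (i := m1)
    simp only [List.length_cons] at hA
    rcases hd : (z :: u :: v :: r2).drop m1 with _ | ⟨a1, A1⟩
    · rw [hd, List.length_nil] at hA
      omega
    rcases A1 with _ | ⟨a2, A2⟩
    · rw [hd] at hA e1 e2
      simp only [List.length_cons, List.length_nil] at hA
      obtain ⟨j, hj⟩ : ∃ j, m1 = j + 1 := ⟨m1 - 1, by omega⟩
      subst hj
      rw [e1, List.take_succ_cons, List.singleton_append] at hm
      simp only [List.cons.injEq] at hm
      obtain ⟨f1, f2, f3, _⟩ := hm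
      subst f1
      subst f2
      subst f3
      have hax : 0 < b2 σ p s a1 x := by
        refine hP'.pos (a1, x) ?_
        rw [← mem_prs_rotate (n := j + 1 + 1), e1, List.take_succ_cons, List.singleton_append, prs_cons3]
        exact List.mem_cons_self
      refine ⟨j + 1 + 2, a1, x, y, (z :: u :: v :: r2).take (j + 1), ?_,
        ear_left hpxy hpyz hxz hneg hax h2⟩
      rw [e2, List.singleton_append]
    · rcases A2 with _ | ⟨a3, A3⟩
      · rw [hd] at e1 e2
        rw [e1, List.cons_append, List.cons_append, List.nil_append] at hm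
        simp only [List.cons.injEq] at hm
        obtain ⟨f1, f2, f3, _⟩ := hm
        subst f1
        subst f2
        subst f3
        exact ⟨m1 + 2, a1, a2, x, _, by rw [e2, List.cons_append, List.cons_append, List.nil_append], h2⟩
      · rw [hd] at e1 e2
        rw [e1, List.cons_append, List.cons_append, List.cons_append] at hm
        simp only [List.cons.injEq] at hm
        obtain ⟨f1, f2, f3, _⟩ := hm
        subst f1
        subst f2
        subst f3
        exact ⟨m1 + 2, a1, a2, a3, _, by rw [e2, List.cons_append, List.cons_append, List.cons_append], h2⟩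

theorem ear {σ : ℝ} {p s : Ed 3} {l : List (Ed 3)} (h : Pg σ p s l) (h4 : 4 ≤ l.length) :
    ∃ (n : ℕ) (x y z : Ed 3) (r : List (Ed 3)), l.rotate n = x :: y :: z :: r ∧ Er σ p s x y z := by
  exact E7_main σ p s l.length l rfl h h4

end Pool.Agent.LibSt23
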