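import Pool.Agent.LibSt23.E7

/-!
[ST23 F1] (MEDIUM) Where the ear is. `ear` for `l = α ++ β.reverse` (length at least 4): a cyclically consecutive triple `(x, y, z)` with `Er x y z`. Six cases: `y` is the first, the last or an inner point of `α`, or the first, the last or an inner point of `β`. The point before the first point of `α` is the first point of `β`, the point after the last point of `α` is the last point of `β`. In the inner cases the reduced polygon is again a polygon: rotate `y` into the second place, `pg_rem` (with `Er.1`), rotate back (`pg_rot`). Suggestion: `l.rotate n = x :: y :: z :: r`; split `l = u ++ y :: v` (position of `y`), then compare.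
-/

set_option autoImplicit false

namespace Pool.Agent.LibSt23

open Finset Pool.Agent.LibPol19 Pool.Agent.LibTet88 Pool.Agent.LibTet23
open scoped Classical

private theorem F1_tri {σ : ℝ} {p s x y z : Ed 3} {l1 m : List (Ed 3)} (h : Pg σ p s (l1 ++ x :: y :: z :: m))
    (hne : m ++ l1 ≠ []) (he : Er σ p s x y z) : Pg σ p s (l1 ++ x :: z :: m) := by
  have h1 : Pg σ p s (x :: y :: z :: (m ++ l1)) := by
    have h2 := pg_rot h l1.length
    rw [List.rotate_append_length_eq] at h2
    simpa using h2
  have h3 : Pg σ p s (x :: z :: (m ++ l1)) := pg_rem h1 hne he.1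
  have h4 := pg_rot h3 (x :: z :: m).length
  have h5 : x :: z :: (m ++ l1) = (x :: z :: m) ++ l1 := by simp
  rw [h5, List.rotate_append_length_eq] at h4
  exact h4

private theorem F1_rot {l : List (Ed 3)} {n : ℕ} (hl : l ≠ []) :
    ∃ l1 l2 : List (Ed 3), l = l1 ++ l2 ∧ l2 ≠ [] ∧ l.rotate n = l2 ++ l1 := by
  have hpos : 0 < l.length := List.length_pos_of_ne_nil hl
  have hlt : n % l.length < l.length := Nat.mod_lt _ hpos
  refine ⟨l.take (n % l.length), l.drop (n % l.length), (List.take_append_drop _ _).symm, ?_, ?_⟩
  · intro h0
    have := congrArg List.length h0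
    simp only [List.length_drop, List.length_nil] at this
    omega
  · rw [← List.rotate_mod, List.rotate_eq_drop_append_take hlt.le]

theorem red_step {σ : ℝ} {p s : Ed 3} {α β : List (Ed 3)} (h : Pg σ p s (α ++ β.reverse)) (ha : 2 ≤ α.length)
    (hb : 2 ≤ β.length) :
    (∃ x z v b β', α = x :: z :: v ∧ β = b :: β' ∧ Er σ p s b x z) ∨
    (∃ u x y β' b, α = u ++ [x, y] ∧ β = β' ++ [b] ∧ Er σ p s x y b) ∨
    (∃ u x y z v, α = u ++ x :: y :: z :: v ∧ Er σ p s x y z ∧ Pg σ p s ((u ++ x :: z :: v) ++ β.reverse)) ∨
    (∃ x z v a α', β = x :: z :: v ∧ α = a :: α' ∧ Er σ p s z x a) ∨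
    (∃ u x y α' a, β = u ++ [x, y] ∧ α = α' ++ [a] ∧ Er σ p s a y x) ∨
    (∃ u x y z v, β = u ++ x :: y :: z :: v ∧ Er σ p s z y x ∧ Pg σ p s (α ++ (u ++ x :: z :: v).reverse)) := by
  have hlen : 4 ≤ (α ++ β.reverse).length := by
    rw [List.length_append, List.length_reverse]; omega
  obtain ⟨n, x, y, z, r, hrot, he⟩ := ear h hlen
  have hl : α ++ β.reverse ≠ [] := by
    intro h0; rw [h0] at hlen; simp at hlen
  obtain ⟨l1, l2, hl12, hl2, hrot2⟩ := F1_rot (n := n) hl
  rw [hrot] at hrot2
  have hlen2 : (α ++ β.reverse).length = r.length + 3 := by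
    have := congrArg List.length hrot
    rw [List.length_rotate] at this
    simpa using this
  -- the four cases for `l2`
  match l2, hl2, hrot2, hl12 with
  | [], hl2, _, _ => exact absurd rfl hl2
  | [x'], _, hrot2, hl12 =>
    -- `y` is the first point of `α`
    simp only [List.cons_append, List.nil_append, List.cons.injEq] at hrot2
    obtain ⟨rfl, rfl⟩ := hrot2
    left
    match α, ha, hl12 with
    | [], ha, _ => simp at ha
    | [_], ha, _ => simp at ha
    | a0 :: a1 :: v, _, hl12 =>
      simp only [List.cons_append, List.cons.injEq] at hl12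
      obtain ⟨rfl, rfl, hl12⟩ := hl12
      match β, hb, hl12 with
      | [], hb, _ => simp at hb
      | b :: β', _, hl12 =>
        rw [List.reverse_cons, ← List.append_assoc] at hl12
        have h6 := List.append_inj' hl12 rfl
        simp only [List.cons.injEq, and_true] at h6
        obtain ⟨_, rfl⟩ := h6
        exact ⟨_, _, v, _, β', rfl, rfl, he⟩
  | [x', y'], _, hrot2, hl12 =>
    -- `y` is the first point of `β`
    simp only [List.cons_append, List.nil_append, List.cons.injEq] at hrot2
    obtain ⟨rfl, rfl, rfl⟩ := hrot2
    right; right; right; left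
    match β, hb, hl12 with
    | [], hb, _ => simp at hb
    | [_], hb, _ => simp at hb
    | b0 :: b1 :: v, _, hl12 =>
      have h7 : (α ++ (b0 :: b1 :: v).reverse) = (α ++ v.reverse) ++ [b1, b0] := by simp
      rw [h7] at hl12
      have h6 := List.append_inj' hl12 rfl
      simp only [List.cons.injEq, and_true] at h6
      obtain ⟨h8, rfl, rfl⟩ := h6
      match α, ha, h8 with
      | [], ha, _ => simp at ha
      | a :: α', _, h8 =>
        simp only [List.cons_append, List.cons.injEq] at h8
        obtain ⟨rfl, _⟩ := h8
        exact ⟨_, _, v, _, α', rfl, rfl, he⟩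
  | x' :: y' :: z' :: m, _, hrot2, hl12 =>
    simp only [List.cons_append, List.cons.injEq] at hrot2
    obtain ⟨rfl, rfl, rfl, hr⟩ := hrot2
    have hne : m ++ l1 ≠ [] := by
      rw [← hr]
      intro h0
      rw [h0] at hlen2
      simp only [List.length_nil] at hlen2
      omega
    have hP : Pg σ p s (l1 ++ x :: z :: m) := F1_tri (by rw [← hl12]; exact h) hne he
    rcases List.append_eq_append_iff.1 hl12 with ⟨a', h1, h2⟩ | ⟨c', h1, h2⟩
    · -- the triple lies in `β.reverse`
      right; right; right; right; right
      have h3 : β = m.reverse ++ z :: y :: x :: a'.reverse := by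
        have := congrArg List.reverse h2
        rw [List.reverse_reverse] at this
        rw [this]
        simp
      refine ⟨m.reverse, z, y, x, a'.reverse, h3, he, ?_⟩
      have h4 : α ++ (m.reverse ++ z :: x :: a'.reverse).reverse = l1 ++ x :: z :: m := by
        rw [h1]
        simp
      rw [h4]
      exact hP
    · match c', h1, h2 with
      | [], h1, h2 =>
        right; right; right; right; right
        have h2' : β.reverse = x :: y :: z :: m := by simpa using h2.symm
        have h3 : β = m.reverse ++ z :: y :: x :: [] := by
          have := congrArg List.reverse h2'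
          rw [List.reverse_reverse] at this
          rw [this]
          simp
        refine ⟨m.reverse, z, y, x, [], h3, he, ?_⟩
        have h4 : α ++ (m.reverse ++ z :: x :: []).reverse = l1 ++ x :: z :: m := by
          rw [h1]
          simp
        rw [h4]
        exact hP
      | [x'], h1, h2 =>
        simp only [List.cons_append, List.nil_append, List.cons.injEq] at h2
        obtain ⟨rfl, h2⟩ := h2
        right; right; right; right; left
        refine ⟨m.reverse, z, y, l1, x, ?_, h1, he⟩
        have := congrArg List.reverse h2
        rw [List.reverse_reverse] at this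
        rw [← this]
        simp
      | [x', y'], h1, h2 =>
        simp only [List.cons_append, List.nil_append, List.cons.injEq] at h2
        obtain ⟨rfl, rfl, h2⟩ := h2
        right; left
        refine ⟨l1, x, y, m.reverse, z, h1, ?_, he⟩
        have := congrArg List.reverse h2
        rw [List.reverse_reverse] at this
        rw [← this]
        simp
      | x' :: y' :: z' :: v, h1, h2 =>
        simp only [List.cons_append, List.cons.injEq] at h2
        obtain ⟨rfl, rfl, rfl, h2⟩ := h2
        right; right; left
        refine ⟨l1, x, y, z, v, h1, he, ?_⟩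
        have h4 : (l1 ++ x :: z :: v) ++ β.reverse = l1 ++ x :: z :: m := by
          rw [h2]
          simp
        rw [h4]
        exact hP

end Pool.Agent.LibSt23
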