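import Pool.Agent.LibSt23.Defs

/-!
[ST23 G1] (MEDIUM) The two sides of the flip cover the same set. A point of `hl {p, s, x, y, z}` is `α p + β s + ξ x + γ y + ζ z` with nonnegative coefficients of sum 1 (e.g. `Finset.mem_convexHull'`-type lemmas, `mem_hl` of LibTet88 / LibPol19, or convexity of the right side written as a set of such combinations; `Finset.centerMass`; look how LibTet23.C6 does `stk_three`). Relation: `a p + b s + c y = t x + (1 - t) z`. `flip_two`: with `τ = min (ξ / t) (ζ / (1 - t))` replace `τ (t x + (1 - t) z)` by `τ (a p + b s + c y)`: the coefficient of `x` or of `z` becomes 0. `flip_three`: with `τ = min (α / a) (min (β / b) (γ / c))` replace `τ (a p + b s + c y)` by `τ (t x + (1 - t) z)`: one of the coefficients of `p, s, y` becomes 0. (The five points need not be different.)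
-/

set_option autoImplicit false

namespace Pool.Agent.LibSt23

open Finset Pool.Agent.LibPol19 Pool.Agent.LibTet88 Pool.Agent.LibTet23
open scoped Classical

private theorem G1_mem4 {a b c d : Ed 3} {α β γ δ : ℝ} (h1 : 0 ≤ α) (h2 : 0 ≤ β) (h3 : 0 ≤ γ)
    (h4 : 0 ≤ δ) (h5 : α + β + γ + δ = 1) :
    α • a + β • b + γ • c + δ • d ∈ hl ({a, b, c, d} : Finset (Ed 3)) := by
  have hK : Convex ℝ (hl ({a, b, c, d} : Finset (Ed 3))) := convex_convexHull ℝ _
  have h := hK.sum_mem (t := (Finset.univ : Finset (Fin 4))) (w := ![α, β, γ, δ])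
    (z := ![a, b, c, d]) ?_ ?_ ?_
  · rw [Fin.sum_univ_four] at h
    exact h
  · intro i _
    fin_cases i
    · exact h1
    · exact h2
    · exact h3
    · exact h4
  · rw [Fin.sum_univ_four]
    exact h5
  · intro i _
    fin_cases i
    · exact mem_hl (by simp)
    · exact mem_hl (by simp)
    · exact mem_hl (by simp)
    · exact mem_hl (by simp)

private theorem G1_coef {p s x y z w : Ed 3} (hw : w ∈ hl ({p, s, x, y, z} : Finset (Ed 3))) :
    ∃ α β ξ γ ζ : ℝ, 0 ≤ α ∧ 0 ≤ β ∧ 0 ≤ ξ ∧ 0 ≤ γ ∧ 0 ≤ ζ ∧ α + β + ξ + γ + ζ = 1 ∧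
      w = α • p + β • s + ξ • x + γ • y + ζ • z := by
  have hsub : hl ({p, s, x, y, z} : Finset (Ed 3)) ⊆ {w | ∃ α β ξ γ ζ : ℝ, 0 ≤ α ∧ 0 ≤ β ∧ 0 ≤ ξ ∧
      0 ≤ γ ∧ 0 ≤ ζ ∧ α + β + ξ + γ + ζ = 1 ∧ w = α • p + β • s + ξ • x + γ • y + ζ • z} := by
    refine convexHull_min ?_ ?_
    · intro u hu
      have hu' : u ∈ ({p, s, x, y, z} : Finset (Ed 3)) := by exact_mod_cast hu
      simp only [Finset.mem_insert, Finset.mem_singleton] at hu'
      rcases hu' with hu | hu | hu | hu | hu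
      · refine ⟨1, 0, 0, 0, 0, by norm_num, by norm_num, by norm_num, by norm_num, by norm_num,
          by norm_num, ?_⟩
        rw [hu]
        module
      · refine ⟨0, 1, 0, 0, 0, by norm_num, by norm_num, by norm_num, by norm_num, by norm_num,
          by norm_num, ?_⟩
        rw [hu]
        module
      · refine ⟨0, 0, 1, 0, 0, by norm_num, by norm_num, by norm_num, by norm_num, by norm_num,
          by norm_num, ?_⟩
        rw [hu]
        module
      · refine ⟨0, 0, 0, 1, 0, by norm_num, by norm_num, by norm_num, by norm_num, by norm_num,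
          by norm_num, ?_⟩
        rw [hu]
        module
      · refine ⟨0, 0, 0, 0, 1, by norm_num, by norm_num, by norm_num, by norm_num, by norm_num,
          by norm_num, ?_⟩
        rw [hu]
        module
    · intro y1 hy1 y2 hy2 k t hk ht hkt
      obtain ⟨a1, b1, c1, d1, e1, A1, B1, C1, D1, E1, S1, h1⟩ := hy1
      obtain ⟨a2, b2, c2, d2, e2, A2, B2, C2, D2, E2, S2, h2⟩ := hy2
      refine ⟨k * a1 + t * a2, k * b1 + t * b2, k * c1 + t * c2, k * d1 + t * d2, k * e1 + t * e2,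
        by positivity, by positivity, by positivity, by positivity, by positivity, ?_, ?_⟩
      · have e : k * a1 + t * a2 + (k * b1 + t * b2) + (k * c1 + t * c2) + (k * d1 + t * d2) +
            (k * e1 + t * e2) = k * (a1 + b1 + c1 + d1 + e1) + t * (a2 + b2 + c2 + d2 + e2) := by
          ring
        rw [e, S1, S2, mul_one, mul_one, hkt]
      · rw [h1, h2]
        module
  exact hsub hw

/-- the relation times `τ` -/
private theorem G1_rel {p s x y z : Ed 3} {a b c t : ℝ}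
    (h : a • p + b • s + c • y = t • x + (1 - t) • z) (τ : ℝ) :
    (τ * a) • p + (τ * b) • s + (τ * c) • y = (τ * t) • x + (τ * (1 - t)) • z := by
  have h1 : τ • (a • p + b • s + c • y) = τ • (t • x + (1 - t) • z) := by rw [h]
  rw [smul_add, smul_add, smul_add, smul_smul, smul_smul, smul_smul, smul_smul, smul_smul] at h1
  exact h1

/-- moving `w` along the relation -/
private theorem G1_move {p s x y z w : Ed 3} {a b c t : ℝ}
    (h : a • p + b • s + c • y = t • x + (1 - t) • z) {α β ξ γ ζ : ℝ}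
    (hw : w = α • p + β • s + ξ • x + γ • y + ζ • z) (τ : ℝ) :
    w = (α + τ * a) • p + (β + τ * b) • s + (ξ - τ * t) • x + (γ + τ * c) • y +
      (ζ - τ * (1 - t)) • z := by
  have h1 := G1_rel h τ
  have h2 : (α + τ * a) • p + (β + τ * b) • s + (ξ - τ * t) • x + (γ + τ * c) • y +
      (ζ - τ * (1 - t)) • z = (α • p + β • s + ξ • x + γ • y + ζ • z) +
      (((τ * a) • p + (τ * b) • s + (τ * c) • y) - ((τ * t) • x + (τ * (1 - t)) • z)) := by
    module
  rw [h2, h1, sub_self, add_zero]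
  exact hw

theorem flip_two {p s x y z : Ed 3} (h : Rad p s x y z) :
    hl ({p, s, x, y, z} : Finset (Ed 3)) ⊆ hl ({p, s, x, y} : Finset (Ed 3)) ∪ hl ({p, s, y, z} : Finset (Ed 3)) := by
  intro w hw
  obtain ⟨a, b, c, t, ha, hb, hc, ht, ht1, hs, hr⟩ := h
  obtain ⟨α, β, ξ, γ, ζ, hα, hβ, hξ, hγ, hζ, hsum, e⟩ := G1_coef hw
  have ht' : 0 < 1 - t := by linarith
  rcases le_total (ξ / t) (ζ / (1 - t)) with hc1 | hc1
  · right
    have hτ : 0 ≤ ξ / t := div_nonneg hξ ht.le
    have e1 : ξ / t * t = ξ := div_mul_cancel₀ ξ ht.ne'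
    have e2 : 0 ≤ ζ - ξ / t * (1 - t) := by
      have := mul_le_mul_of_nonneg_right hc1 ht'.le
      rw [div_mul_cancel₀ ζ ht'.ne'] at this
      linarith
    have hw2 := G1_move hr e (ξ / t)
    have hw3 : w = (α + ξ / t * a) • p + (β + ξ / t * b) • s + (γ + ξ / t * c) • y +
        (ζ - ξ / t * (1 - t)) • z := by
      rw [hw2, e1, sub_self, zero_smul, add_zero]
    rw [hw3]
    refine G1_mem4 (by positivity) (by positivity) (by positivity) e2 ?_
    linear_combination hsum + ξ / t * hs + e1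
  · left
    have hτ : 0 ≤ ζ / (1 - t) := div_nonneg hζ ht'.le
    have e1 : ζ / (1 - t) * (1 - t) = ζ := div_mul_cancel₀ ζ ht'.ne'
    have e2 : 0 ≤ ξ - ζ / (1 - t) * t := by
      have := mul_le_mul_of_nonneg_right hc1 ht.le
      rw [div_mul_cancel₀ ξ ht.ne'] at this
      linarith
    have hw2 := G1_move hr e (ζ / (1 - t))
    have hw3 : w = (α + ζ / (1 - t) * a) • p + (β + ζ / (1 - t) * b) • s +
        (ξ - ζ / (1 - t) * t) • x + (γ + ζ / (1 - t) * c) • y := by
      rw [hw2, e1, sub_self, zero_smul, add_zero]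
    rw [hw3]
    refine G1_mem4 (by positivity) (by positivity) e2 (by positivity) ?_
    linear_combination hsum + ζ / (1 - t) * hs + e1

theorem flip_three {p s x y z : Ed 3} (h : Rad p s x y z) :
    hl ({p, s, x, y, z} : Finset (Ed 3)) ⊆
      hl ({p, s, x, z} : Finset (Ed 3)) ∪ hl ({p, x, y, z} : Finset (Ed 3)) ∪ hl ({s, x, y, z} : Finset (Ed 3)) := by
  intro w hw
  obtain ⟨a, b, c, t, ha, hb, hc, ht, ht1, hs, hr⟩ := h
  obtain ⟨α, β, ξ, γ, ζ, hα, hβ, hξ, hγ, hζ, hsum, e⟩ := G1_coef hw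
  have ht' : 0 < 1 - t := by linarith
  have key : ∀ τ : ℝ, 0 ≤ τ → τ ≤ α / a → τ ≤ β / b → τ ≤ γ / c →
      0 ≤ α - τ * a ∧ 0 ≤ β - τ * b ∧ 0 ≤ ξ + τ * t ∧ 0 ≤ γ - τ * c ∧ 0 ≤ ζ + τ * (1 - t) ∧
      (α - τ * a) + (β - τ * b) + (ξ + τ * t) + (γ - τ * c) + (ζ + τ * (1 - t)) = 1 ∧
      w = (α - τ * a) • p + (β - τ * b) • s + (ξ + τ * t) • x + (γ - τ * c) • y +
        (ζ + τ * (1 - t)) • z := by
    intro τ h0 h1 h2 h3
    refine ⟨?_, ?_, by positivity, ?_, ?_, ?_, ?_⟩
    · rw [le_div_iff₀ ha] at h1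
      linarith
    · rw [le_div_iff₀ hb] at h2
      linarith
    · rw [le_div_iff₀ hc] at h3
      linarith
    · have := mul_nonneg h0 ht'.le
      linarith
    · linear_combination hsum - τ * hs
    · have h5 := G1_move hr e (-τ)
      rw [h5]
      have q1 : α + -τ * a = α - τ * a := by ring
      have q2 : β + -τ * b = β - τ * b := by ring
      have q3 : ξ - -τ * t = ξ + τ * t := by ring
      have q4 : γ + -τ * c = γ - τ * c := by ring
      have q5 : ζ - -τ * (1 - t) = ζ + τ * (1 - t) := by ring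
      rw [q1, q2, q3, q4, q5]
  have hmin : (α / a ≤ β / b ∧ α / a ≤ γ / c) ∨ (β / b ≤ α / a ∧ β / b ≤ γ / c) ∨
      (γ / c ≤ α / a ∧ γ / c ≤ β / b) := by
    rcases le_total (α / a) (β / b) with h1 | h1
    · rcases le_total (α / a) (γ / c) with h2 | h2
      · exact Or.inl ⟨h1, h2⟩
      · exact Or.inr (Or.inr ⟨h2, h2.trans h1⟩)
    · rcases le_total (β / b) (γ / c) with h2 | h2
      · exact Or.inr (Or.inl ⟨h1, h2⟩)
      · exact Or.inr (Or.inr ⟨h2.trans h1, h2⟩)
  rcases hmin with ⟨h1, h2⟩ | ⟨h1, h2⟩ | ⟨h1, h2⟩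
  · right
    obtain ⟨k1, k2, k3, k4, k5, k6, k7⟩ := key (α / a) (div_nonneg hα ha.le) le_rfl h1 h2
    have e1 : α / a * a = α := div_mul_cancel₀ α ha.ne'
    rw [e1, sub_self] at k6 k7
    rw [zero_smul, zero_add] at k7
    rw [zero_add] at k6
    rw [k7]
    exact G1_mem4 k2 k3 k4 k5 k6
  · left
    right
    obtain ⟨k1, k2, k3, k4, k5, k6, k7⟩ := key (β / b) (div_nonneg hβ hb.le) h1 le_rfl h2
    have e1 : β / b * b = β := div_mul_cancel₀ β hb.ne'
    rw [e1, sub_self] at k6 k7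
    rw [zero_smul, add_zero] at k7
    rw [add_zero] at k6
    rw [k7]
    exact G1_mem4 k1 k3 k4 k5 k6
  · left
    left
    obtain ⟨k1, k2, k3, k4, k5, k6, k7⟩ := key (γ / c) (div_nonneg hγ hc.le) h1 h2 le_rfl
    have e1 : γ / c * c = γ := div_mul_cancel₀ γ hc.ne'
    rw [e1, sub_self] at k6 k7
    rw [zero_smul, add_zero] at k7
    rw [add_zero] at k6
    rw [k7]
    exact G1_mem4 k1 k2 k3 k5 k6

end Pool.Agent.LibSt23
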