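import Pool.Agent.LibSt23.Defs

/-!
[ST23 G2] (MEDIUM) The new tetrahedra are not flat. `z = (1 - t)⁻¹ • (a • p + b • s + c • y - t • x)` is an affine combination of the affinely independent points `p, s, x, y` with nonzero coefficients at `p`, `s`, `y`, `x`. A relation (sum of the coefficients 0) among `p, s, x, z` (resp. `p, x, y, z`; `s, x, y, z`) gives one among `p, s, x, y`; its coefficient at `y` (resp. `s`; `p`) is `c / (1 - t)` (resp. `b / (1 - t)`, `a / (1 - t)`) times the coefficient of `z`, so the coefficient of `z` is 0, then all are 0. Convenient: `affineIndependent_iff`, or determinants, or `indep4` of LibTet23.N1 (a functional vanishing on three of the points); choose your own way.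
-/

set_option autoImplicit false

namespace Pool.Agent.LibSt23

open Finset Pool.Agent.LibPol19 Pool.Agent.LibTet88 Pool.Agent.LibTet23
open scoped Classical

private theorem G2_ne {a b c d : Ed 3} (h : ({a, b, c, d} : Finset (Ed 3)).card = 4) :
    a ≠ b ∧ a ≠ c ∧ a ≠ d ∧ b ≠ c ∧ b ≠ d ∧ c ≠ d := by
  have key : ∀ x y z : Ed 3, ({a, b, c, d} : Finset (Ed 3)) = {x, y, z} → False := by
    intro x y z hxyz
    have h3 : ({x, y, z} : Finset (Ed 3)).card ≤ 3 := Finset.card_le_three
    rw [hxyz] at h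
    omega
  refine ⟨?_, ?_, ?_, ?_, ?_, ?_⟩
  · rintro rfl
    exact key a c d (by ext w; simp only [mem_insert, mem_singleton]; tauto)
  · rintro rfl
    exact key a b d (by ext w; simp only [mem_insert, mem_singleton]; tauto)
  · rintro rfl
    exact key a b c (by ext w; simp only [mem_insert, mem_singleton]; tauto)
  · rintro rfl
    exact key a b d (by ext w; simp only [mem_insert, mem_singleton]; tauto)
  · rintro rfl
    exact key a b c (by ext w; simp only [mem_insert, mem_singleton]; tauto)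
  · rintro rfl
    exact key a b c (by ext w; simp only [mem_insert, mem_singleton]; tauto)

private theorem G2_sum {M : Type*} [AddCommMonoid M] {a b c d : Ed 3} (hab : a ≠ b) (hac : a ≠ c)
    (had : a ≠ d) (hbc : b ≠ c) (hbd : b ≠ d) (hcd : c ≠ d) (f : Ed 3 → M) :
    ∑ e ∈ ({a, b, c, d} : Finset (Ed 3)), f e = f a + (f b + (f c + f d)) := by
  rw [Finset.sum_insert (by simp [hab, hac, had]), Finset.sum_insert (by simp [hbc, hbd]),
    Finset.sum_insert (by simp [hcd]), Finset.sum_singleton]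

private theorem G2_card {a b c d : Ed 3} (hab : a ≠ b) (hac : a ≠ c)
    (had : a ≠ d) (hbc : b ≠ c) (hbd : b ≠ d) (hcd : c ≠ d) :
    ({a, b, c, d} : Finset (Ed 3)).card = 4 := by
  rw [Finset.card_insert_of_notMem (by simp [hab, hac, had]),
    Finset.card_insert_of_notMem (by simp [hbc, hbd]),
    Finset.card_insert_of_notMem (by simp [hcd]), Finset.card_singleton]

/-- from independence to relations -/
private theorem G2_rel {a b c d : Ed 3} (h4 : ({a, b, c, d} : Finset (Ed 3)).card = 4)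
    (hi : AffineIndependent ℝ (fun w : ({a, b, c, d} : Finset (Ed 3)) => (w.1 : Ed 3)))
    {α β γ δ : ℝ} (h0 : α + β + γ + δ = 0) (h1 : α • a + β • b + γ • c + δ • d = 0) :
    α = 0 ∧ β = 0 ∧ γ = 0 ∧ δ = 0 := by
  obtain ⟨hab, hac, had, hbc, hbd, hcd⟩ := G2_ne h4
  set f : Ed 3 → ℝ := fun e => if e = a then α else if e = b then β else if e = c then γ else δ
    with hf
  have fa : f a = α := by simp [hf]
  have fb : f b = β := by simp [hf, hab.symm]
  have fc : f c = γ := by simp [hf, hac.symm, hbc.symm]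
  have fd : f d = δ := by simp [hf, had.symm, hbd.symm, hcd.symm]
  rw [affineIndependent_iff] at hi
  have hs : ∑ e : ({a, b, c, d} : Finset (Ed 3)), f e.1 = 0 := by
    rw [Finset.sum_coe_sort ({a, b, c, d} : Finset (Ed 3)) f, G2_sum hab hac had hbc hbd hcd,
      fa, fb, fc, fd]
    linarith
  have hv : ∑ e : ({a, b, c, d} : Finset (Ed 3)), f e.1 • (e.1 : Ed 3) = 0 := by
    rw [Finset.sum_coe_sort ({a, b, c, d} : Finset (Ed 3)) (fun e => f e • e),
      G2_sum hab hac had hbc hbd hcd, fa, fb, fc, fd, ← h1]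
    abel
  have h := hi Finset.univ (fun e => f e.1) hs hv
  have ha := h ⟨a, by simp⟩ (Finset.mem_univ _)
  have hb := h ⟨b, by simp⟩ (Finset.mem_univ _)
  have hc := h ⟨c, by simp⟩ (Finset.mem_univ _)
  have hd := h ⟨d, by simp⟩ (Finset.mem_univ _)
  simp only [fa] at ha
  simp only [fb] at hb
  simp only [fc] at hc
  simp only [fd] at hd
  exact ⟨ha, hb, hc, hd⟩

/-- from relations to independence -/
private theorem G2_ind {a b c d : Ed 3} (hab : a ≠ b) (hac : a ≠ c)
    (had : a ≠ d) (hbc : b ≠ c) (hbd : b ≠ d) (hcd : c ≠ d)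
    (h : ∀ α β γ δ : ℝ, α + β + γ + δ = 0 → α • a + β • b + γ • c + δ • d = 0 →
      α = 0 ∧ β = 0 ∧ γ = 0 ∧ δ = 0) :
    AffineIndependent ℝ (fun w : ({a, b, c, d} : Finset (Ed 3)) => (w.1 : Ed 3)) := by
  rw [affineIndependent_iff_of_fintype]
  intro w hw0 hw1
  rw [Finset.weightedVSub_eq_linear_combination _ hw0] at hw1
  set f : Ed 3 → ℝ := fun e => if he : e ∈ ({a, b, c, d} : Finset (Ed 3)) then w ⟨e, he⟩ else 0
    with hf
  have hfw : ∀ e : ({a, b, c, d} : Finset (Ed 3)), w e = f e.1 := by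
    intro e
    simp only [hf]
    rw [dif_pos e.2]
  have hs : f a + (f b + (f c + f d)) = 0 := by
    rw [← G2_sum hab hac had hbc hbd hcd f,
      ← Finset.sum_coe_sort ({a, b, c, d} : Finset (Ed 3)) f, ← hw0]
    exact Finset.sum_congr rfl fun e _ => (hfw e).symm
  have hv : f a • a + (f b • b + (f c • c + f d • d)) = 0 := by
    rw [← G2_sum hab hac had hbc hbd hcd (fun e => f e • e),
      ← Finset.sum_coe_sort ({a, b, c, d} : Finset (Ed 3)) (fun e => f e • e), ← hw1]
    refine Finset.sum_congr rfl fun e _ => ?_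
    rw [hfw e]
  obtain ⟨ha, hb, hc, hd⟩ := h (f a) (f b) (f c) (f d) (by linarith) (by rw [← hv]; abel)
  intro e
  rw [hfw e]
  have he := e.2
  simp only [mem_insert, mem_singleton] at he
  rcases he with he | he | he | he
  · rw [he, ha]
  · rw [he, hb]
  · rw [he, hc]
  · rw [he, hd]

theorem flip_ind {p s x y z : Ed 3} (h : Rad p s x y z) (h4 : ({p, s, x, y} : Finset (Ed 3)).card = 4)
    (hi : AffineIndependent ℝ (fun w : ({p, s, x, y} : Finset (Ed 3)) => (w.1 : Ed 3)))
    (hz : z ∉ ({p, s, x, y} : Finset (Ed 3))) {N : Finset (Ed 3)}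
    (hN : N = {p, s, x, z} ∨ N = {p, x, y, z} ∨ N = {s, x, y, z}) :
    N.card = 4 ∧ AffineIndependent ℝ (fun w : N => (w.1 : Ed 3)) := by
  obtain ⟨a, b, c, t, ha, hb, hc, ht, ht1, habc, hrad⟩ := h
  obtain ⟨hps, hpx, hpy, hsx, hsy, hxy⟩ := G2_ne h4
  simp only [mem_insert, mem_singleton, not_or] at hz
  obtain ⟨hzp, hzs, hzx, hzy⟩ := hz
  have ht2 : (1 - t) ≠ 0 := by
    intro h0
    linarith
  have hzz : (1 - t) • z = a • p + b • s + c • y - t • x := by
    rw [hrad]
    abel
  rcases hN with rfl | rfl | rfl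
  · refine ⟨G2_card hps hpx (Ne.symm hzp) hsx (Ne.symm hzs) (Ne.symm hzx),
      G2_ind hps hpx (Ne.symm hzp) hsx (Ne.symm hzs) (Ne.symm hzx) ?_⟩
    intro α β γ δ h0 h1
    have h2 : ((1 - t) * α + δ * a) • p + ((1 - t) * β + δ * b) • s +
        ((1 - t) * γ - δ * t) • x + (δ * c) • y = 0 := by
      have h3 : (1 - t) • (α • p + β • s + γ • x) + δ • ((1 - t) • z) = 0 := by
        rw [smul_comm δ (1 - t) z, ← smul_add, h1, smul_zero]
      rw [hzz] at h3
      rw [← h3]
      module
    obtain ⟨e1, e2, e3, e4⟩ := G2_rel h4 hi (by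
      have h5 : (1 - t) * (α + β + γ + δ) = 0 := by rw [h0, mul_zero]
      have h6 : δ * (a + b + c) = δ := by rw [habc, mul_one]
      linarith) h2
    have hδ : δ = 0 := by
      rcases mul_eq_zero.1 e4 with h5 | h5
      · exact h5
      · exact absurd h5 hc.ne'
    subst hδ
    simp only [zero_mul, add_zero, sub_zero, mul_eq_zero, ht2, false_or] at e1 e2 e3
    exact ⟨e1, e2, e3, rfl⟩
  · refine ⟨G2_card hpx hpy (Ne.symm hzp) hxy (Ne.symm hzx) (Ne.symm hzy),
      G2_ind hpx hpy (Ne.symm hzp) hxy (Ne.symm hzx) (Ne.symm hzy) ?_⟩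
    intro α γ ε δ h0 h1
    have h2 : ((1 - t) * α + δ * a) • p + (δ * b) • s +
        ((1 - t) * γ - δ * t) • x + ((1 - t) * ε + δ * c) • y = 0 := by
      have h3 : (1 - t) • (α • p + γ • x + ε • y) + δ • ((1 - t) • z) = 0 := by
        rw [smul_comm δ (1 - t) z, ← smul_add, h1, smul_zero]
      rw [hzz] at h3
      rw [← h3]
      module
    obtain ⟨e1, e2, e3, e4⟩ := G2_rel h4 hi (by
      have h5 : (1 - t) * (α + γ + ε + δ) = 0 := by rw [h0, mul_zero]
      have h6 : δ * (a + b + c) = δ := by rw [habc, mul_one]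
      linarith) h2
    have hδ : δ = 0 := by
      rcases mul_eq_zero.1 e2 with h5 | h5
      · exact h5
      · exact absurd h5 hb.ne'
    subst hδ
    simp only [zero_mul, add_zero, sub_zero, mul_eq_zero, ht2, false_or] at e1 e3 e4
    exact ⟨e1, e3, e4, rfl⟩
  · refine ⟨G2_card hsx hsy (Ne.symm hzs) hxy (Ne.symm hzx) (Ne.symm hzy),
      G2_ind hsx hsy (Ne.symm hzs) hxy (Ne.symm hzx) (Ne.symm hzy) ?_⟩
    intro β γ ε δ h0 h1
    have h2 : (δ * a) • p + ((1 - t) * β + δ * b) • s +
        ((1 - t) * γ - δ * t) • x + ((1 - t) * ε + δ * c) • y = 0 := by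
      have h3 : (1 - t) • (β • s + γ • x + ε • y) + δ • ((1 - t) • z) = 0 := by
        rw [smul_comm δ (1 - t) z, ← smul_add, h1, smul_zero]
      rw [hzz] at h3
      rw [← h3]
      module
    obtain ⟨e1, e2, e3, e4⟩ := G2_rel h4 hi (by
      have h5 : (1 - t) * (β + γ + ε + δ) = 0 := by rw [h0, mul_zero]
      have h6 : δ * (a + b + c) = δ := by rw [habc, mul_one]
      linarith) h2
    have hδ : δ = 0 := by
      rcases mul_eq_zero.1 e1 with h5 | h5
      · exact h5
      · exact absurd h5 ha.ne'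
    subst hδ
    simp only [zero_mul, add_zero, sub_zero, mul_eq_zero, ht2, false_or] at e2 e3 e4
    exact ⟨e2, e3, e4, rfl⟩

end Pool.Agent.LibSt23
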