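import Pool.Agent.LibSt23.G2

/-!
[ST23 G3] (MEDIUM) Two new tetrahedra meet in a common face. Represent a point of both hulls by coefficients on the five different points `p, s, x, y, z` (0 at the missing point). The difference of the two representations is an affine relation of the five points, hence a multiple `τ` of `(a, b, c, - t, - (1 - t))` at `(p, s, y, x, z)` (the points `p, s, x, y` are affinely independent, and the relation has a nonzero coefficient at `z`). `N` misses exactly one point `i` of `p, s, y` and `N'` exactly one point `j`; if `i ≠ j` the signs at `i` and `j` give `τ ≥ 0` and `τ ≤ 0`, so both representations agree and are supported on `N ∩ N'`. If `N = N'` trivial.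
-/

set_option autoImplicit false

namespace Pool.Agent.LibSt23

open Finset Pool.Agent.LibPol19 Pool.Agent.LibTet88 Pool.Agent.LibTet23
open scoped Classical

private lemma G3_ne4 {a b c d : Ed 3} (h : ({a, b, c, d} : Finset (Ed 3)).card = 4) :
    a ≠ b ∧ a ≠ c ∧ a ≠ d ∧ b ≠ c ∧ b ≠ d ∧ c ≠ d := by
  refine ⟨?_, ?_, ?_, ?_, ?_, ?_⟩
  · rintro rfl
    have h1 : ({a, a, c, d} : Finset (Ed 3)) = {a, c, d} := by simp
    rw [h1] at h
    have := Finset.card_le_three (a := a) (b := c) (c := d)
    omega
  · rintro rfl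
    have h1 : ({a, b, a, d} : Finset (Ed 3)) = {a, b, d} := by ext v; simp; tauto
    rw [h1] at h
    have := Finset.card_le_three (a := a) (b := b) (c := d)
    omega
  · rintro rfl
    have h1 : ({a, b, c, a} : Finset (Ed 3)) = {a, b, c} := by ext v; simp; tauto
    rw [h1] at h
    have := Finset.card_le_three (a := a) (b := b) (c := c)
    omega
  · rintro rfl
    have h1 : ({a, b, b, d} : Finset (Ed 3)) = {a, b, d} := by ext v; simp
    rw [h1] at h
    have := Finset.card_le_three (a := a) (b := b) (c := d)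
    omega
  · rintro rfl
    have h1 : ({a, b, c, b} : Finset (Ed 3)) = {a, b, c} := by ext v; simp; tauto
    rw [h1] at h
    have := Finset.card_le_three (a := a) (b := b) (c := c)
    omega
  · rintro rfl
    have h1 : ({a, b, c, c} : Finset (Ed 3)) = {a, b, c} := by ext v; simp
    rw [h1] at h
    have := Finset.card_le_three (a := a) (b := b) (c := c)
    omega

/-- coefficients on a larger set -/
private lemma G3_co {N S : Finset (Ed 3)} (hS : N ⊆ S) {q : Ed 3} (hq : q ∈ hl N) :
    ∃ u : Ed 3 → ℝ, (∀ v, 0 ≤ u v) ∧ (∀ v, v ∉ N → u v = 0) ∧ ∑ v ∈ S, u v = 1 ∧ ∑ v ∈ S, u v • v = q := by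
  unfold hl at hq
  rw [Finset.mem_convexHull'] at hq
  obtain ⟨w, hw0, hw1, hw2⟩ := hq
  refine ⟨fun v => if v ∈ N then w v else 0, ?_, ?_, ?_, ?_⟩
  · intro v
    dsimp only
    split_ifs with hv
    · exact hw0 v hv
    · exact le_rfl
  · intro v hv
    dsimp only
    rw [if_neg hv]
  · rw [← hw1, ← Finset.sum_subset hS]
    · refine Finset.sum_congr rfl fun v hv => ?_
      rw [if_pos hv]
    · intro v _ hv
      rw [if_neg hv]
  · rw [← hw2, ← Finset.sum_subset hS]
    · refine Finset.sum_congr rfl fun v hv => ?_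
      dsimp only
      rw [if_pos hv]
    · intro v _ hv
      dsimp only
      rw [if_neg hv, zero_smul]

/-- uniqueness for affinely independent points -/
private lemma G3_un {S : Finset (Ed 3)} (hi : AffineIndependent ℝ (fun w : S => (w.1 : Ed 3)))
    (f : Ed 3 → ℝ) (h0 : ∑ v ∈ S, f v = 0) (h1 : ∑ v ∈ S, f v • v = 0) : ∀ v ∈ S, f v = 0 := by
  rw [affineIndependent_iff] at hi
  have h2 := hi Finset.univ (fun w => f w.1) ?_ ?_
  · intro v hv
    exact h2 ⟨v, hv⟩ (Finset.mem_univ _)
  · rw [← h0]
    exact Finset.sum_coe_sort S f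
  · rw [← h1]
    exact Finset.sum_coe_sort S (fun v => f v • v)

theorem flip_inter {p s x y z : Ed 3} (h : Rad p s x y z) (h4 : ({p, s, x, y} : Finset (Ed 3)).card = 4)
    (hi : AffineIndependent ℝ (fun w : ({p, s, x, y} : Finset (Ed 3)) => (w.1 : Ed 3)))
    (hz : z ∉ ({p, s, x, y} : Finset (Ed 3))) {N N' : Finset (Ed 3)}
    (hN : N = {p, s, x, z} ∨ N = {p, x, y, z} ∨ N = {s, x, y, z})
    (hN' : N' = {p, s, x, z} ∨ N' = {p, x, y, z} ∨ N' = {s, x, y, z}) : hl N ∩ hl N' ⊆ hl (N ∩ N') := by
  rintro q ⟨hq, hq'⟩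
  obtain ⟨a, b, c, t, ha, hb, hc, ht, ht1, habc, hrel⟩ := h
  obtain ⟨hps, hpx, hpy, hsx, hsy, hxy⟩ := G3_ne4 h4
  have hz' : z ≠ p ∧ z ≠ s ∧ z ≠ x ∧ z ≠ y := by simpa using hz
  obtain ⟨hzp, hzs, hzx, hzy⟩ := hz'
  set S : Finset (Ed 3) := {z, p, s, x, y} with hS
  have hNS : N ⊆ S := by
    rcases hN with rfl | rfl | rfl <;> intro v hv <;> simp [hS] at hv ⊢ <;> tauto
  have hNS' : N' ⊆ S := by
    rcases hN' with rfl | rfl | rfl <;> intro v hv <;> simp [hS] at hv ⊢ <;> tauto
  obtain ⟨u, hu0, hu1, hu2, hu3⟩ := G3_co hNS hq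
  obtain ⟨u', hu0', hu1', hu2', hu3'⟩ := G3_co hNS' hq'
  -- the sums over the five points
  have hsum : ∀ f : Ed 3 → ℝ, ∑ v ∈ S, f v = f z + (f p + (f s + (f x + f y))) := by
    intro f
    rw [hS, Finset.sum_insert hz, Finset.sum_insert (by simp [hps, hpx, hpy]),
      Finset.sum_insert (by simp [hsx, hsy]), Finset.sum_insert (by simp [hxy]), Finset.sum_singleton]
  have hsum' : ∀ f : Ed 3 → Ed 3, ∑ v ∈ S, f v = f z + (f p + (f s + (f x + f y))) := by
    intro f
    rw [hS, Finset.sum_insert hz, Finset.sum_insert (by simp [hps, hpx, hpy]),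
      Finset.sum_insert (by simp [hsx, hsy]), Finset.sum_insert (by simp [hxy]), Finset.sum_singleton]
  have hsum4 : ∀ f : Ed 3 → ℝ, ∑ v ∈ ({p, s, x, y} : Finset (Ed 3)), f v = f p + (f s + (f x + f y)) := by
    intro f
    rw [Finset.sum_insert (by simp [hps, hpx, hpy]),
      Finset.sum_insert (by simp [hsx, hsy]), Finset.sum_insert (by simp [hxy]), Finset.sum_singleton]
  have hsum4' : ∀ f : Ed 3 → Ed 3, ∑ v ∈ ({p, s, x, y} : Finset (Ed 3)), f v = f p + (f s + (f x + f y)) := by
    intro f
    rw [Finset.sum_insert (by simp [hps, hpx, hpy]),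
      Finset.sum_insert (by simp [hsx, hsy]), Finset.sum_insert (by simp [hxy]), Finset.sum_singleton]
  rw [hsum] at hu2 hu2'
  rw [hsum'] at hu3 hu3'
  -- the relation
  have h1t : (1 - t) ≠ 0 := by linarith
  set τ : ℝ := - (u z - u' z) / (1 - t) with hτ
  have hτz : τ * (1 - t) = - (u z - u' z) := by
    rw [hτ]
    field_simp
  let r : Ed 3 → ℝ := fun v => if v = p then a else if v = s then b else if v = y then c else - t
  have rp : r p = a := by simp [r]
  have rs : r s = b := by simp [r, hps.symm]
  have ry : r y = c := by simp [r, hpy.symm, hsy.symm]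
  have rx : r x = - t := by simp [r, hpx.symm, hsx.symm, hxy]
  have key : ∀ v ∈ ({p, s, x, y} : Finset (Ed 3)), (u v - u' v) - τ * r v = 0 := by
    apply G3_un hi (fun v => (u v - u' v) - τ * r v)
    · rw [hsum4]
      rw [rp, rs, ry, rx]
      linear_combination hu2 - hu2' - τ * habc - hτz
    · rw [hsum4']
      rw [rp, rs, ry, rx]
      have e1 : (u z - u' z) • z + ((u p - u' p) • p + ((u s - u' s) • s + ((u x - u' x) • x + (u y - u' y) • y)))
          = (0 : Ed 3) := by
        have := congrArg₂ (fun A B : Ed 3 => A - B) hu3 hu3'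
        simp only [sub_self] at this
        rw [← this]
        module
      have e2 : (u z - u' z) = - (τ * (1 - t)) := by linarith
      rw [e2] at e1
      have e3 : a • p + b • s + c • y - t • x - (1 - t) • z = (0 : Ed 3) := by
        rw [hrel]
        module
      have e4 : (u p - u' p - τ * a) • p + ((u s - u' s - τ * b) • s + ((u x - u' x - τ * (-t)) • x +
          (u y - u' y - τ * c) • y)) =
          ((-(τ * (1 - t))) • z + ((u p - u' p) • p + ((u s - u' s) • s + ((u x - u' x) • x + (u y - u' y) • y))))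
          - τ • (a • p + b • s + c • y - t • x - (1 - t) • z) := by
        module
      rw [e4, e1, e3]
      simp
  have kp := key p (by simp)
  have ks := key s (by simp)
  have kx := key x (by simp)
  have ky := key y (by simp)
  rw [rp] at kp
  rw [rs] at ks
  rw [rx] at kx
  rw [ry] at ky
  have hτ0 : τ ≤ 0 := by
    rcases hN with rfl | rfl | rfl
    · have h1 : u y = 0 := hu1 y (by simp [hpy.symm, hsy.symm, hxy.symm, hzy.symm])
      have h2 := hu0' y
      by_contra hneg
      have : 0 < τ * c := mul_pos (not_le.mp hneg) hc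
      linarith
    · have h1 : u s = 0 := hu1 s (by simp [hps.symm, hsx, hsy, hzs.symm])
      have h2 := hu0' s
      by_contra hneg
      have : 0 < τ * b := mul_pos (not_le.mp hneg) hb
      linarith
    · have h1 : u p = 0 := hu1 p (by simp [hps, hpx, hpy, hzp.symm])
      have h2 := hu0' p
      by_contra hneg
      have : 0 < τ * a := mul_pos (not_le.mp hneg) ha
      linarith
  have hτ1 : 0 ≤ τ := by
    rcases hN' with rfl | rfl | rfl
    · have h1 : u' y = 0 := hu1' y (by simp [hpy.symm, hsy.symm, hxy.symm, hzy.symm])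
      have h2 := hu0 y
      by_contra hneg
      have : τ * c < 0 := mul_neg_of_neg_of_pos (not_le.mp hneg) hc
      linarith
    · have h1 : u' s = 0 := hu1' s (by simp [hps.symm, hsx, hsy, hzs.symm])
      have h2 := hu0 s
      by_contra hneg
      have : τ * b < 0 := mul_neg_of_neg_of_pos (not_le.mp hneg) hb
      linarith
    · have h1 : u' p = 0 := hu1' p (by simp [hps, hpx, hpy, hzp.symm])
      have h2 := hu0 p
      by_contra hneg
      have : τ * a < 0 := mul_neg_of_neg_of_pos (not_le.mp hneg) ha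
      linarith
  have hτe : τ = 0 := le_antisymm hτ0 hτ1
  rw [hτe] at kp ks kx ky hτz
  have hall : ∀ v ∈ S, u v = u' v := by
    intro v hv
    rw [hS] at hv
    simp only [Finset.mem_insert, Finset.mem_singleton] at hv
    rcases hv with rfl | rfl | rfl | rfl | rfl <;> linarith
  -- conclusion
  have hNN : ∀ v ∈ S, v ∉ N ∩ N' → u v = 0 := by
    intro v hv hv'
    rw [Finset.mem_inter, not_and_or] at hv'
    rcases hv' with hv' | hv'
    · exact hu1 v hv'
    · rw [hall v hv]
      exact hu1' v hv'
  have hsub : N ∩ N' ⊆ S := fun v hv => hNS (Finset.mem_inter.mp hv).1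
  unfold hl
  rw [Finset.mem_convexHull']
  refine ⟨u, fun v _ => hu0 v, ?_, ?_⟩
  · rw [Finset.sum_subset hsub fun v hv hv' => hNN v hv hv', hsum]
    exact hu2
  · rw [Finset.sum_subset hsub fun v hv hv' => by rw [hNN v hv hv', zero_smul], hsum']
    exact hu3

end Pool.Agent.LibSt23
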