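import Pool.Agent.LibSt23.G1
import Pool.Agent.LibSt23.G2

/-!
[ST23 G4] (MEDIUM) A new tetrahedron and an old one. `N ⊆ {p, s, x, y, z}`, `flip_two`: a point `q` of `hl N ∩ hl u` is in `hl {p, s, x, y}` or in `hl {p, s, y, z}`, say the first (the second is symmetric: `Rad` with `x, z` and `t, 1 - t` exchanged). `hT.inter`: `q ∈ hl f`, `f = {p, s, x, y} ∩ u`. `f` does not contain all of `p, s, y`: otherwise the three different tetrahedra `{p, s, x, y}`, `{p, s, y, z}`, `u` contain the triangle `{p, s, y}` (`tri_two` of LibTet23.C4). So `q` has a representation `ρ` on `p, s, x, y` supported on `u`, with a zero at some `i` of `p, s, y`, and a representation `ρ'` on `N` (missing some `j` of `p, s, y`). The difference `ρ - ρ'` is `τ • (a, b, c, - t, - (1 - t))` at `(p, s, y, x, z)`; at `z`: `- ρ' z = - τ (1 - t)`, so `τ ≥ 0`; at `i`: `- ρ' i = τ a_i`, so `τ ≤ 0`. Hence `ρ = ρ'`, supported on `N ∩ u`. (Compare LibTet23.C8.)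
-/

set_option autoImplicit false

namespace Pool.Agent.LibSt23

open Finset Pool.Agent.LibPol19 Pool.Agent.LibTet88 Pool.Agent.LibTet23
open scoped Classical

private theorem G4_s1 (p s y z : Ed 3) : ({p, s, y, z} : Finset (Ed 3)) = {p, s, z, y} := by
  ext w
  simp only [Finset.mem_insert, Finset.mem_singleton]
  constructor
  · rintro (h | h | h | h)
    · exact Or.inl h
    · exact Or.inr (Or.inl h)
    · exact Or.inr (Or.inr (Or.inr h))
    · exact Or.inr (Or.inr (Or.inl h))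
  · rintro (h | h | h | h)
    · exact Or.inl h
    · exact Or.inr (Or.inl h)
    · exact Or.inr (Or.inr (Or.inr h))
    · exact Or.inr (Or.inr (Or.inl h))

private theorem G4_s2 (p s x y z : Ed 3) : ({p, s, x, y, z} : Finset (Ed 3)) = {p, s, z, y, x} := by
  ext w
  simp only [Finset.mem_insert, Finset.mem_singleton]
  constructor
  · rintro (h | h | h | h | h)
    · exact Or.inl h
    · exact Or.inr (Or.inl h)
    · exact Or.inr (Or.inr (Or.inr (Or.inr h)))
    · exact Or.inr (Or.inr (Or.inr (Or.inl h)))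
    · exact Or.inr (Or.inr (Or.inl h))
  · rintro (h | h | h | h | h)
    · exact Or.inl h
    · exact Or.inr (Or.inl h)
    · exact Or.inr (Or.inr (Or.inr (Or.inr h)))
    · exact Or.inr (Or.inr (Or.inr (Or.inl h)))
    · exact Or.inr (Or.inr (Or.inl h))

private theorem G4_s3 (p s x y z : Ed 3) : ({p, s, x, y} : Finset (Ed 3)) ⊆ {p, s, x, y, z} := by
  intro w
  simp only [Finset.mem_insert, Finset.mem_singleton]
  rintro (h | h | h | h)
  · exact Or.inl h
  · exact Or.inr (Or.inl h)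
  · exact Or.inr (Or.inr (Or.inl h))
  · exact Or.inr (Or.inr (Or.inr (Or.inl h)))

private theorem G4_s4 (p s x y : Ed 3) : ({p, s, y} : Finset (Ed 3)) ⊆ {p, s, x, y} := by
  intro w
  simp only [Finset.mem_insert, Finset.mem_singleton]
  rintro (h | h | h)
  · exact Or.inl h
  · exact Or.inr (Or.inl h)
  · exact Or.inr (Or.inr (Or.inr h))

private theorem G4_s5 (p s y z : Ed 3) : ({p, s, y} : Finset (Ed 3)) ⊆ {p, s, y, z} := by
  intro w
  simp only [Finset.mem_insert, Finset.mem_singleton]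
  rintro (h | h | h)
  · exact Or.inl h
  · exact Or.inr (Or.inl h)
  · exact Or.inr (Or.inr (Or.inl h))

private theorem G4_dist {A : Finset (Ed 3)} {p s x y : Ed 3} (hA : A = {p, s, x, y}) (h : A.card = 4) :
    p ≠ s ∧ p ≠ x ∧ p ≠ y ∧ s ≠ x ∧ s ≠ y ∧ x ≠ y := by
  subst hA
  have key : ∀ B : Finset (Ed 3), ({p, s, x, y} : Finset (Ed 3)) ⊆ B → B.card ≤ 3 → False := by
    intro B hB hc
    have := Finset.card_le_card hB
    omega
  have c3 : ∀ a b c : Ed 3, ({a, b, c} : Finset (Ed 3)).card ≤ 3 := fun a b c => Finset.card_le_three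
  refine ⟨?_, ?_, ?_, ?_, ?_, ?_⟩
  · rintro rfl
    exact key {p, x, y} (by intro w; simp only [Finset.mem_insert, Finset.mem_singleton]; tauto) (c3 _ _ _)
  · rintro rfl
    exact key {p, s, y} (by intro w; simp only [Finset.mem_insert, Finset.mem_singleton]; tauto) (c3 _ _ _)
  · rintro rfl
    exact key {p, s, x} (by intro w; simp only [Finset.mem_insert, Finset.mem_singleton]; tauto) (c3 _ _ _)
  · rintro rfl
    exact key {p, s, y} (by intro w; simp only [Finset.mem_insert, Finset.mem_singleton]; tauto) (c3 _ _ _)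
  · rintro rfl
    exact key {p, s, x} (by intro w; simp only [Finset.mem_insert, Finset.mem_singleton]; tauto) (c3 _ _ _)
  · rintro rfl
    exact key {p, s, x} (by intro w; simp only [Finset.mem_insert, Finset.mem_singleton]; tauto) (c3 _ _ _)

private theorem G4_half {V : Finset (Ed 3)} {T : Finset (Finset (Ed 3))} (hT : TetD V T) {p s x y z : Ed 3}
    (h1 : ({p, s, x, y} : Finset (Ed 3)) ∈ T) (h2 : ({p, s, y, z} : Finset (Ed 3)) ∈ T) (h : Rad p s x y z)
    (xz : x ≠ z) {j : Ed 3} (hj : j = p ∨ j = s ∨ j = y)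
    {u : Finset (Ed 3)} (hu : u ∈ T) (u1 : u ≠ {p, s, x, y}) (u2 : u ≠ {p, s, y, z}) {q : Ed 3}
    (hq1 : q ∈ hl (({p, s, x, y, z} : Finset (Ed 3)).erase j)) (hq2 : q ∈ hl u)
    (hq3 : q ∈ hl ({p, s, x, y} : Finset (Ed 3))) :
    q ∈ hl (({p, s, x, y, z} : Finset (Ed 3)).erase j ∩ u) := by
  obtain ⟨-, c1, hind⟩ := hT.mem _ h1
  obtain ⟨-, c2, -⟩ := hT.mem _ h2
  obtain ⟨ps, px, py, sx, sy, xy⟩ := G4_dist rfl c1
  obtain ⟨-, -, pz, -, sz, yz⟩ := G4_dist rfl c2
  obtain ⟨a, b, c, t, ha, hb, hc, ht0, ht1, habc, hrel⟩ := h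
  obtain ⟨P, hP⟩ : ∃ P : Finset (Ed 3), P = {p, s, x, y, z} := ⟨_, rfl⟩
  obtain ⟨t1, ht1'⟩ : ∃ t1 : Finset (Ed 3), t1 = {p, s, x, y} := ⟨_, rfl⟩
  rw [← hP] at hq1 ⊢
  rw [← ht1'] at h1 u1 hq3 hind
  have zt1 : z ∉ t1 := by
    rw [ht1']
    simp only [Finset.mem_insert, Finset.mem_singleton, not_or]
    exact ⟨Ne.symm pz, Ne.symm sz, Ne.symm xz, Ne.symm yz⟩
  have t1P : t1 ⊆ P := by
    rw [ht1', hP]
    exact G4_s3 p s x y z
  have s5 : ∀ {M : Type} [AddCommMonoid M] (f : Ed 3 → M),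
      ∑ v ∈ P, f v = f p + (f s + (f x + (f y + f z))) := by
    intro M _ f
    rw [hP, Finset.sum_insert, Finset.sum_insert, Finset.sum_insert, Finset.sum_insert, Finset.sum_singleton]
    · simp [yz]
    · simp [xy, xz]
    · simp [sx, sy, sz]
    · simp [ps, px, py, pz]
  have s4 : ∀ {M : Type} [AddCommMonoid M] (f : Ed 3 → M),
      ∑ v ∈ t1, f v = f p + (f s + (f x + f y)) := by
    intro M _ f
    rw [ht1', Finset.sum_insert, Finset.sum_insert, Finset.sum_insert, Finset.sum_singleton]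
    · simp [xy]
    · simp [sx, sy]
    · simp [ps, px, py]
  -- the two representations
  have hq4 := hT.inter _ h1 u hu ⟨hq3, hq2⟩
  obtain ⟨w', hw0', hw1', hwy'⟩ := Finset.mem_convexHull'.1 hq4
  obtain ⟨w, hw0, hw1, hwy⟩ := Finset.mem_convexHull'.1 hq1
  obtain ⟨ρ, hρ⟩ : ∃ ρ : Ed 3 → ℝ, ∀ v, ρ v = if v ∈ t1 ∩ u then w' v else 0 := ⟨_, fun _ => rfl⟩
  obtain ⟨ν, hν⟩ : ∃ ν : Ed 3 → ℝ, ∀ v, ν v = if v ∈ P.erase j then w v else 0 := ⟨_, fun _ => rfl⟩
  have capP : P ∩ (t1 ∩ u) = t1 ∩ u :=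
    Finset.inter_eq_right.2 (Finset.inter_subset_left.trans t1P)
  have erP : P ∩ P.erase j = P.erase j := Finset.inter_eq_right.2 (Finset.erase_subset _ _)
  have ρ1 : ∑ v ∈ P, ρ v = 1 := by
    simp only [hρ]
    rw [Finset.sum_ite_mem, capP, hw1']
  have ρq : ∑ v ∈ P, ρ v • v = q := by
    simp only [hρ, ite_smul, zero_smul]
    rw [Finset.sum_ite_mem, capP, hwy']
  have ν1 : ∑ v ∈ P, ν v = 1 := by
    simp only [hν]
    rw [Finset.sum_ite_mem, erP, hw1]
  have νq : ∑ v ∈ P, ν v • v = q := by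
    simp only [hν, ite_smul, zero_smul]
    rw [Finset.sum_ite_mem, erP, hwy]
  have ρ0 : ∀ v, 0 ≤ ρ v := by
    intro v
    rw [hρ]
    split_ifs with h3
    · exact hw0' v h3
    · exact le_rfl
  have ν0 : ∀ v, 0 ≤ ν v := by
    intro v
    rw [hν]
    split_ifs with h3
    · exact hw0 v h3
    · exact le_rfl
  have ρz : ρ z = 0 := by
    rw [hρ, if_neg (fun h3 => zt1 (Finset.mem_inter.1 h3).1)]
  have νj : ν j = 0 := by
    rw [hν, if_neg (Finset.notMem_erase j P)]
  have ρu : ∀ v, v ∉ u → ρ v = 0 := by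
    intro v hv
    rw [hρ, if_neg (fun h3 => hv (Finset.mem_inter.1 h3).2)]
  rw [s5] at ρ1 ρq ν1 νq
  -- the difference
  obtain ⟨g, hg⟩ : ∃ g : Ed 3 → ℝ, g = fun v => if v = p then (1 - t) * (ρ p - ν p) - ν z * a else
      if v = s then (1 - t) * (ρ s - ν s) - ν z * b else
      if v = x then (1 - t) * (ρ x - ν x) + ν z * t else (1 - t) * (ρ y - ν y) - ν z * c := ⟨_, rfl⟩
  have gp : g p = (1 - t) * (ρ p - ν p) - ν z * a := by simp [hg]
  have gs : g s = (1 - t) * (ρ s - ν s) - ν z * b := by simp [hg, Ne.symm ps]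
  have gx : g x = (1 - t) * (ρ x - ν x) + ν z * t := by simp [hg, Ne.symm px, Ne.symm sx]
  have gy : g y = (1 - t) * (ρ y - ν y) - ν z * c := by simp [hg, Ne.symm py, Ne.symm sy, Ne.symm xy]
  have e1 : ∑ v ∈ t1, g v = 0 := by
    rw [s4, gp, gs, gx, gy]
    rw [ρz] at ρ1
    linear_combination (1 - t) * ρ1 - (1 - t) * ν1 - ν z * habc
  have e2 : ∑ v ∈ t1, g v • v = 0 := by
    rw [s4, gp, gs, gx, gy]
    have h3 : (1 - t) • (ρ p • p + (ρ s • s + (ρ x • x + (ρ y • y + ρ z • z)))) -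
        (1 - t) • (ν p • p + (ν s • s + (ν x • x + (ν y • y + ν z • z)))) -
        ν z • (a • p + b • s + c • y - (t • x + (1 - t) • z)) = 0 := by
      rw [ρq, νq, hrel, sub_self, sub_self, smul_zero, sub_zero]
    rw [ρz] at h3
    rw [← h3]
    module
  have e3 : ∀ v ∈ t1, g v = 0 := fun v hv => hind.eq_zero_of_sum_eq_zero_subtype e1 e2 v hv
  have mp : p ∈ t1 := by rw [ht1']; simp
  have ms : s ∈ t1 := by rw [ht1']; simp
  have mx : x ∈ t1 := by rw [ht1']; simp
  have my : y ∈ t1 := by rw [ht1']; simp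
  have gp0 := e3 p mp
  have gs0 := e3 s ms
  have gx0 := e3 x mx
  have gy0 := e3 y my
  rw [gp] at gp0
  rw [gs] at gs0
  rw [gx] at gx0
  rw [gy] at gy0
  have h1t : 0 < 1 - t := by linarith
  -- `u` does not contain the triangle
  have hne : ¬ (p ∈ u ∧ s ∈ u ∧ y ∈ u) := by
    rintro ⟨hp, hs, hy⟩
    have hc3 : ({p, s, y} : Finset (Ed 3)).card = 3 := by
      rw [Finset.card_eq_three]
      exact ⟨p, s, y, ps, py, sy, rfl⟩
    have h3 := tri_two hT hc3
    have h4 : ({u, {p, s, x, y}, {p, s, y, z}} : Finset (Finset (Ed 3))) ⊆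
        T.filter fun t => ({p, s, y} : Finset (Ed 3)) ⊆ t := by
      intro w hw
      simp only [Finset.mem_insert, Finset.mem_singleton] at hw
      rw [Finset.mem_filter]
      rcases hw with rfl | rfl | rfl
      · refine ⟨hu, ?_⟩
        intro v hv
        simp only [Finset.mem_insert, Finset.mem_singleton] at hv
        rcases hv with rfl | rfl | rfl
        · exact hp
        · exact hs
        · exact hy
      · exact ⟨ht1' ▸ h1, G4_s4 p s x y⟩
      · exact ⟨h2, G4_s5 p s y z⟩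
    have h5 : ({p, s, x, y} : Finset (Ed 3)) ≠ {p, s, y, z} := by
      intro h6
      have h7 : x ∈ ({p, s, y, z} : Finset (Ed 3)) := by rw [← h6]; simp
      simp only [Finset.mem_insert, Finset.mem_singleton] at h7
      rcases h7 with h7 | h7 | h7 | h7
      · exact px h7.symm
      · exact sx h7.symm
      · exact xy h7
      · exact xz h7
    have h6 : ({u, {p, s, x, y}, {p, s, y, z}} : Finset (Finset (Ed 3))).card = 3 := by
      rw [Finset.card_eq_three]
      exact ⟨u, {p, s, x, y}, {p, s, y, z}, ht1' ▸ u1, u2, h5, rfl⟩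
    have h7 := Finset.card_le_card h4
    omega
  have νz : ν z = 0 := by
    have hz0 := ν0 z
    by_contra hz1
    have hz2 : 0 < ν z := lt_of_le_of_ne hz0 (Ne.symm hz1)
    apply hne
    refine ⟨?_, ?_, ?_⟩
    · by_contra h3
      rw [ρu p h3] at gp0
      have h4 := mul_pos hz2 ha
      have h5 := mul_nonneg h1t.le (ν0 p)
      linarith
    · by_contra h3
      rw [ρu s h3] at gs0
      have h4 := mul_pos hz2 hb
      have h5 := mul_nonneg h1t.le (ν0 s)
      linarith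
    · by_contra h3
      rw [ρu y h3] at gy0
      have h4 := mul_pos hz2 hc
      have h5 := mul_nonneg h1t.le (ν0 y)
      linarith
  have hρj : ρ j = 0 := by
    have h3 : ∀ v, (1 - t) * (ρ v - ν v) = 0 → ρ v = ν v := by
      intro v hv
      rcases mul_eq_zero.1 hv with h4 | h4
      · exact absurd h4 h1t.ne'
      · exact sub_eq_zero.1 h4
    rw [← νj]
    rcases hj with rfl | rfl | rfl
    · exact h3 _ (by rw [νz] at gp0; linarith)
    · exact h3 _ (by rw [νz] at gs0; linarith)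
    · exact h3 _ (by rw [νz] at gy0; linarith)
  have hA : P.erase j ∩ u ⊆ P := Finset.inter_subset_left.trans (Finset.erase_subset _ _)
  have hW0 : ∀ v ∈ P, v ∉ P.erase j ∩ u → ρ v = 0 := by
    intro v hv hv2
    by_cases hvj : v = j
    · rw [hvj, hρj]
    · apply ρu
      intro hvu
      exact hv2 (Finset.mem_inter.2 ⟨Finset.mem_erase.2 ⟨hvj, hv⟩, hvu⟩)
  refine Finset.mem_convexHull'.2 ⟨ρ, fun v _ => ρ0 v, ?_, ?_⟩
  · rw [Finset.sum_subset hA hW0, s5, ρ1]
  · rw [Finset.sum_subset hA (fun v hv hvA => by rw [hW0 v hv hvA, zero_smul]), s5, ρq]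

theorem flip_old {V : Finset (Ed 3)} {T : Finset (Finset (Ed 3))} (hT : TetD V T) {p s x y z : Ed 3}
    (h1 : ({p, s, x, y} : Finset (Ed 3)) ∈ T) (h2 : ({p, s, y, z} : Finset (Ed 3)) ∈ T) (h : Rad p s x y z)
    (xz : x ≠ z) {N u : Finset (Ed 3)} (hN : N = {p, s, x, z} ∨ N = {p, x, y, z} ∨ N = {s, x, y, z})
    (hu : u ∈ T) (u1 : u ≠ {p, s, x, y}) (u2 : u ≠ {p, s, y, z}) : hl N ∩ hl u ⊆ hl (N ∩ u) := by
  rintro q ⟨hq1, hq2⟩
  obtain ⟨-, c1, -⟩ := hT.mem _ h1
  obtain ⟨-, c2, -⟩ := hT.mem _ h2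
  obtain ⟨ps, px, py, sx, sy, xy⟩ := G4_dist rfl c1
  obtain ⟨-, -, pz, -, sz, yz⟩ := G4_dist rfl c2
  obtain ⟨j, hj, hNj⟩ : ∃ j : Ed 3, (j = p ∨ j = s ∨ j = y) ∧
      N = ({p, s, x, y, z} : Finset (Ed 3)).erase j := by
    rcases hN with rfl | rfl | rfl
    · refine ⟨y, Or.inr (Or.inr rfl), ?_⟩
      ext w
      simp only [Finset.mem_erase, Finset.mem_insert, Finset.mem_singleton]
      constructor
      · rintro (rfl | rfl | rfl | rfl)
        · exact ⟨py, Or.inl rfl⟩
        · exact ⟨sy, Or.inr (Or.inl rfl)⟩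
        · exact ⟨xy, Or.inr (Or.inr (Or.inl rfl))⟩
        · exact ⟨Ne.symm yz, Or.inr (Or.inr (Or.inr (Or.inr rfl)))⟩
      · rintro ⟨hw, h3 | h3 | h3 | h3 | h3⟩
        · exact Or.inl h3
        · exact Or.inr (Or.inl h3)
        · exact Or.inr (Or.inr (Or.inl h3))
        · exact absurd h3 hw
        · exact Or.inr (Or.inr (Or.inr h3))
    · refine ⟨s, Or.inr (Or.inl rfl), ?_⟩
      ext w
      simp only [Finset.mem_erase, Finset.mem_insert, Finset.mem_singleton]
      constructor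
      · rintro (rfl | rfl | rfl | rfl)
        · exact ⟨ps, Or.inl rfl⟩
        · exact ⟨Ne.symm sx, Or.inr (Or.inr (Or.inl rfl))⟩
        · exact ⟨Ne.symm sy, Or.inr (Or.inr (Or.inr (Or.inl rfl)))⟩
        · exact ⟨Ne.symm sz, Or.inr (Or.inr (Or.inr (Or.inr rfl)))⟩
      · rintro ⟨hw, h3 | h3 | h3 | h3 | h3⟩
        · exact Or.inl h3
        · exact absurd h3 hw
        · exact Or.inr (Or.inl h3)
        · exact Or.inr (Or.inr (Or.inl h3))
        · exact Or.inr (Or.inr (Or.inr h3))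
    · refine ⟨p, Or.inl rfl, ?_⟩
      ext w
      simp only [Finset.mem_erase, Finset.mem_insert, Finset.mem_singleton]
      constructor
      · rintro (rfl | rfl | rfl | rfl)
        · exact ⟨Ne.symm ps, Or.inr (Or.inl rfl)⟩
        · exact ⟨Ne.symm px, Or.inr (Or.inr (Or.inl rfl))⟩
        · exact ⟨Ne.symm py, Or.inr (Or.inr (Or.inr (Or.inl rfl)))⟩
        · exact ⟨Ne.symm pz, Or.inr (Or.inr (Or.inr (Or.inr rfl)))⟩
      · rintro ⟨hw, h3 | h3 | h3 | h3 | h3⟩
        · exact absurd h3 hw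
        · exact Or.inl h3
        · exact Or.inr (Or.inl h3)
        · exact Or.inr (Or.inr (Or.inl h3))
        · exact Or.inr (Or.inr (Or.inr h3))
  subst hNj
  rcases flip_two h (hl_mono (Finset.erase_subset _ _) hq1) with h3 | h3
  · exact G4_half hT h1 h2 h xz hj hu u1 u2 hq1 hq2 h3
  · have e1 := G4_s1 p s y z
    have e2 := G4_s1 p s x y
    have e3 := G4_s2 p s x y z
    have h' : Rad p s z y x := by
      obtain ⟨a, b, c, t, ha, hb, hc, ht0, ht1, habc, hrel⟩ := h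
      refine ⟨a, b, c, 1 - t, ha, hb, hc, by linarith, by linarith, habc, ?_⟩
      have e4 : (1 : ℝ) - (1 - t) = t := by ring
      rw [e4, hrel]
      exact add_comm _ _
    rw [e3] at hq1 ⊢
    rw [e1] at h2 u2 h3
    rw [e2] at h1 u1
    exact G4_half hT h2 h1 h' (Ne.symm xz) hj hu u2 u1 hq1 hq2 h3

end Pool.Agent.LibSt23
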