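import Pool.Agent.LibSt23.G3
import Pool.Agent.LibSt23.G4

/-!
[ST23 G5] (MEDIUM) The flip. `TetD.mem`: `flip_ind` for the new ones (`⊆ V` from `h1`, `h2`); `z ∉ {p, s, x, y}` from the card of `{p, s, y, z}` and `x ≠ z`. `cover`: a point of `hl V` is in `hl t`, `t ∈ T`; if `t` is one of the two removed ones it is in `hl {p, s, x, y, z}` (`hl` monotone), `flip_three`. `inter`: old/old `hT.inter`, new/old `flip_old` (both orders), new/new `flip_inter`. `N ∉ T` for a new `N`: otherwise `hT.inter` for `N` and the two old ones: `hl N ⊆ hl {p, s, x, y} ∪ hl {p, s, y, z}` (`flip_two`), so the barycentre of `N` is in `hl (N ∩ {p, s, x, y})` or `hl (N ∩ {p, s, y, z})`, with an intersection of at most 3 of the 4 points of `N`: contradiction to affine independence (or: volume; or use `N ∩ c` is a proper face).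
-/

set_option autoImplicit false

namespace Pool.Agent.LibSt23

open Finset Pool.Agent.LibPol19 Pool.Agent.LibTet88 Pool.Agent.LibTet23
open scoped Classical

private theorem G5_mem {T : Finset (Finset (Ed 3))} {p s x y z : Ed 3} {t : Finset (Ed 3)} :
    t ∈ fl T p s x y z ↔ (t ≠ {p, s, y, z} ∧ t ≠ {p, s, x, y} ∧ t ∈ T) ∨
      (t = {p, s, x, z} ∨ t = {p, x, y, z} ∨ t = {s, x, y, z}) := by
  unfold fl
  simp only [Finset.mem_union, Finset.mem_erase, Finset.mem_insert, Finset.mem_singleton, ne_eq]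

private theorem G5_bary {N A : Finset (Ed 3)} (hi : AffineIndependent ℝ (fun w : N => (w.1 : Ed 3)))
    (hA : A ⊆ N) {u : Ed 3} (hu : u ∈ N) (huA : u ∉ A) :
    (∑ z ∈ N, (1 / (N.card : ℝ)) • z) ∉ hl A := by
  intro hm
  have hN : (N.card : ℝ) ≠ 0 := by
    have h1 : 0 < N.card := Finset.card_pos.2 ⟨u, hu⟩
    exact_mod_cast h1.ne'
  obtain ⟨w', -, hw1, hwy⟩ := Finset.mem_convexHull'.1 hm
  have e1 : ∑ z ∈ N, (1 / (N.card : ℝ) - if z ∈ A then w' z else 0) = 0 := by
    rw [Finset.sum_sub_distrib, Finset.sum_ite_mem, Finset.inter_eq_right.2 hA, hw1,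
      Finset.sum_const, nsmul_eq_mul, mul_one_div_cancel hN, sub_self]
  have e2 : ∑ z ∈ N, (1 / (N.card : ℝ) - if z ∈ A then w' z else 0) • z = 0 := by
    simp only [sub_smul, ite_smul, zero_smul]
    rw [Finset.sum_sub_distrib, Finset.sum_ite_mem, Finset.inter_eq_right.2 hA, hwy, sub_self]
  have e3 := hi.eq_zero_of_sum_eq_zero_subtype e1 e2 u hu
  rw [if_neg huA, sub_zero] at e3
  exact (one_div_ne_zero hN) e3

private theorem G5_three {a b c d : Ed 3} (h : ({a, b, c, d} : Finset (Ed 3)).card = 4) :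
    a ≠ b ∧ a ≠ c ∧ a ≠ d ∧ b ≠ c ∧ b ≠ d ∧ c ≠ d := by
  have h0 : ∀ u v w : Ed 3, ({a, b, c, d} : Finset (Ed 3)) ≠ {u, v, w} := by
    intro u v w h1
    rw [h1] at h
    have h2 := Finset.card_le_three (a := u) (b := v) (c := w)
    omega
  refine ⟨?_, ?_, ?_, ?_, ?_, ?_⟩
  · rintro rfl
    exact h0 a c d (by simp)
  · rintro rfl
    exact h0 b a d (by rw [Finset.insert_comm, Finset.insert_idem])
  · rintro rfl
    exact h0 b c a (by rw [Finset.insert_comm, Finset.insert_comm a c, Finset.pair_eq_singleton])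
  · rintro rfl
    exact h0 a b d (by rw [Finset.insert_idem])
  · rintro rfl
    exact h0 a c b (by rw [Finset.insert_comm b c, Finset.pair_eq_singleton])
  · rintro rfl
    exact h0 a b c (by rw [Finset.pair_eq_singleton])

private theorem G5_sub (p s x y z : Ed 3) {N : Finset (Ed 3)}
    (hN : N = {p, s, x, z} ∨ N = {p, x, y, z} ∨ N = {s, x, y, z}) :
    N ⊆ ({p, s, x, y, z} : Finset (Ed 3)) ∧ x ∈ N ∧ z ∈ N := by
  rcases hN with rfl | rfl | rfl
  · refine ⟨?_, by simp, by simp⟩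
    intro w hw
    simp only [Finset.mem_insert, Finset.mem_singleton] at hw
    rcases hw with rfl | rfl | rfl | rfl <;> simp
  · refine ⟨?_, by simp, by simp⟩
    intro w hw
    simp only [Finset.mem_insert, Finset.mem_singleton] at hw
    rcases hw with rfl | rfl | rfl | rfl <;> simp
  · refine ⟨?_, by simp, by simp⟩
    intro w hw
    simp only [Finset.mem_insert, Finset.mem_singleton] at hw
    rcases hw with rfl | rfl | rfl | rfl <;> simp

private theorem G5_sub1 (p s x y z : Ed 3) :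
    ({p, s, x, y} : Finset (Ed 3)) ⊆ ({p, s, x, y, z} : Finset (Ed 3)) := by
  intro w hw
  simp only [Finset.mem_insert, Finset.mem_singleton] at hw
  rcases hw with rfl | rfl | rfl | rfl <;> simp

private theorem G5_sub2 (p s x y z : Ed 3) :
    ({p, s, y, z} : Finset (Ed 3)) ⊆ ({p, s, x, y, z} : Finset (Ed 3)) := by
  intro w hw
  simp only [Finset.mem_insert, Finset.mem_singleton] at hw
  rcases hw with rfl | rfl | rfl | rfl <;> simp

private theorem G5_not {V : Finset (Ed 3)} {T : Finset (Finset (Ed 3))} (hT : TetD V T) {p s x y z : Ed 3}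
    (h1 : ({p, s, x, y} : Finset (Ed 3)) ∈ T) (h2 : ({p, s, y, z} : Finset (Ed 3)) ∈ T) (h : Rad p s x y z)
    (hz : z ∉ ({p, s, x, y} : Finset (Ed 3))) (hx : x ∉ ({p, s, y, z} : Finset (Ed 3)))
    {N : Finset (Ed 3)} (hN : N = {p, s, x, z} ∨ N = {p, x, y, z} ∨ N = {s, x, y, z}) (c4 : N.card = 4)
    (hiN : AffineIndependent ℝ (fun w : N => (w.1 : Ed 3))) : N ∉ T := by
  intro hNT
  obtain ⟨g, hg⟩ : ∃ g : Ed 3, g = ∑ w ∈ N, (1 / (N.card : ℝ)) • w := ⟨_, rfl⟩
  have hN0 : (N.card : ℝ) ≠ 0 := by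
    rw [c4]
    norm_num
  have hgN : g ∈ hl N := by
    refine Finset.mem_convexHull'.2 ⟨fun _ => 1 / (N.card : ℝ), fun w _ => by positivity, ?_, hg.symm⟩
    rw [Finset.sum_const, nsmul_eq_mul, mul_one_div_cancel hN0]
  obtain ⟨h5, h6, h7⟩ := G5_sub p s x y z hN
  rcases flip_two h (hl_mono h5 hgN) with h8 | h8
  · have h9 := hT.inter N hNT _ h1 ⟨hgN, h8⟩
    rw [hg] at h9
    exact G5_bary hiN Finset.inter_subset_left h7 (fun h10 => hz (Finset.mem_inter.1 h10).2) h9
  · have h9 := hT.inter N hNT _ h2 ⟨hgN, h8⟩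
    rw [hg] at h9
    exact G5_bary hiN Finset.inter_subset_left h6 (fun h10 => hx (Finset.mem_inter.1 h10).2) h9

theorem flip {V : Finset (Ed 3)} {T : Finset (Finset (Ed 3))} (hT : TetD V T) {p s x y z : Ed 3}
    (h1 : ({p, s, x, y} : Finset (Ed 3)) ∈ T) (h2 : ({p, s, y, z} : Finset (Ed 3)) ∈ T) (h : Rad p s x y z)
    (xz : x ≠ z) : TetD V (fl T p s x y z) ∧ ({p, s, x, z} : Finset (Ed 3)) ∉ T ∧
      ({p, x, y, z} : Finset (Ed 3)) ∉ T ∧ ({s, x, y, z} : Finset (Ed 3)) ∉ T := by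
  obtain ⟨s1, h4, hi⟩ := hT.mem _ h1
  obtain ⟨s2, h4', -⟩ := hT.mem _ h2
  obtain ⟨ps, px, py, sx, sy, xy⟩ := G5_three h4
  obtain ⟨-, -, pz, -, sz, yz⟩ := G5_three h4'
  have hz : z ∉ ({p, s, x, y} : Finset (Ed 3)) := by
    intro hz
    simp only [Finset.mem_insert, Finset.mem_singleton] at hz
    rcases hz with hz | hz | hz | hz
    · exact pz hz.symm
    · exact sz hz.symm
    · exact xz hz.symm
    · exact yz hz.symm
  have hx : x ∉ ({p, s, y, z} : Finset (Ed 3)) := by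
    intro hx
    simp only [Finset.mem_insert, Finset.mem_singleton] at hx
    rcases hx with hx | hx | hx | hx
    · exact px hx.symm
    · exact sx hx.symm
    · exact xy hx
    · exact xz hx
  have hind : ∀ N : Finset (Ed 3), (N = {p, s, x, z} ∨ N = {p, x, y, z} ∨ N = {s, x, y, z}) →
      N.card = 4 ∧ AffineIndependent ℝ (fun w : N => (w.1 : Ed 3)) := fun N hN =>
    flip_ind h h4 hi hz hN
  have hnot : ∀ N : Finset (Ed 3), (N = {p, s, x, z} ∨ N = {p, x, y, z} ∨ N = {s, x, y, z}) → N ∉ T :=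
    fun N hN => G5_not hT h1 h2 h hz hx hN (hind N hN).1 (hind N hN).2
  refine ⟨⟨?_, ?_, ?_⟩, hnot _ (Or.inl rfl), hnot _ (Or.inr (Or.inl rfl)), hnot _ (Or.inr (Or.inr rfl))⟩
  · intro t ht
    rcases G5_mem.1 ht with ⟨-, -, ht⟩ | ht
    · exact hT.mem t ht
    · refine ⟨?_, hind t ht⟩
      intro w hw
      have hw5 := (G5_sub p s x y z ht).1 hw
      simp only [Finset.mem_insert, Finset.mem_singleton] at hw5
      rcases hw5 with rfl | rfl | rfl | rfl | rfl
      · exact s1 (by simp)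
      · exact s1 (by simp)
      · exact s1 (by simp)
      · exact s1 (by simp)
      · exact s2 (by simp)
  · intro q hq
    obtain ⟨t, ht, hqt⟩ := Set.mem_iUnion₂.1 (hT.cover hq)
    have hnew : q ∈ hl ({p, s, x, y, z} : Finset (Ed 3)) →
        q ∈ ⋃ t ∈ fl T p s x y z, hl t := by
      intro h5
      rcases flip_three h h5 with (h6 | h6) | h6
      · exact Set.mem_iUnion₂.2 ⟨_, G5_mem.2 (Or.inr (Or.inl rfl)), h6⟩
      · exact Set.mem_iUnion₂.2 ⟨_, G5_mem.2 (Or.inr (Or.inr (Or.inl rfl))), h6⟩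
      · exact Set.mem_iUnion₂.2 ⟨_, G5_mem.2 (Or.inr (Or.inr (Or.inr rfl))), h6⟩
    by_cases t1 : t = {p, s, x, y}
    · rw [t1] at hqt
      exact hnew (hl_mono (G5_sub1 p s x y z) hqt)
    by_cases t2 : t = {p, s, y, z}
    · rw [t2] at hqt
      exact hnew (hl_mono (G5_sub2 p s x y z) hqt)
    exact Set.mem_iUnion₂.2 ⟨t, G5_mem.2 (Or.inl ⟨t2, t1, ht⟩), hqt⟩
  · intro t ht u hu
    rcases G5_mem.1 ht with ⟨t2, t1, ht⟩ | ht
    · rcases G5_mem.1 hu with ⟨u2, u1, hu⟩ | hu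
      · exact hT.inter t ht u hu
      · have h5 := flip_old hT h1 h2 h xz hu ht t1 t2
        rw [Set.inter_comm, Finset.inter_comm t u]
        exact h5
    · rcases G5_mem.1 hu with ⟨u2, u1, hu⟩ | hu
      · exact flip_old hT h1 h2 h xz ht hu u1 u2
      · exact flip_inter h h4 hi hz ht hu

end Pool.Agent.LibSt23
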