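import Pool.Agent.LibSt23.E2

/-!
[ST23 L1] The link of a vertex of a closed surface is a cycle.
-/

set_option autoImplicit false

namespace Pool.Agent.LibSt23

open Finset Pool.Agent.LibPol19 Pool.Agent.LibTet88 Pool.Agent.LibTet23
open scoped Classical

private theorem L1_ne {α : Type*} {V : Finset α} {Φ : Finset (Finset α)} (hS : Surf V Φ) {v x y : α}
    (h : ({v, x, y} : Finset α) ∈ Φ) : v ≠ x ∧ v ≠ y ∧ x ≠ y := by
  have hc := hS.card _ h
  refine ⟨?_, ?_, ?_⟩
  · rintro rfl
    have : ({v, v, y} : Finset α) = {v, y} := by simp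
    rw [this] at hc
    have := Finset.card_le_two (a := v) (b := y)
    omega
  · rintro rfl
    have : ({v, x, v} : Finset α) = {v, x} := by
      ext z; simp only [mem_insert, mem_singleton]; tauto
    rw [this] at hc
    have := Finset.card_le_two (a := v) (b := x)
    omega
  · rintro rfl
    have : ({v, x, x} : Finset α) = {v, x} := by simp
    rw [this] at hc
    have := Finset.card_le_two (a := v) (b := x)
    omega

private theorem L1_inj {α : Type*} {v a b b' : α} (h1 : v ≠ b) (h2 : a ≠ b)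
    (h : ({v, a, b} : Finset α) = {v, a, b'}) : b = b' := by
  have hb : b ∈ ({v, a, b'} : Finset α) := by
    rw [← h]; simp
  simp only [mem_insert, mem_singleton] at hb
  rcases hb with hb | hb | hb
  · exact absurd hb.symm h1
  · exact absurd hb.symm h2
  · exact hb

private theorem L1_comm {α : Type*} (v a b : α) : ({v, a, b} : Finset α) = {v, b, a} := by
  rw [Finset.pair_comm a b]

/-- two triangles at an edge are all triangles at this edge -/
private theorem L1_two {α : Type*} {V : Finset α} {Φ : Finset (Finset α)} (hS : Surf V Φ) {v x a b : α}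
    (ha : ({v, x, a} : Finset α) ∈ Φ) (hb : ({v, x, b} : Finset α) ∈ Φ) (hab : a ≠ b) {F : Finset α}
    (hF : F ∈ Φ) (hv : v ∈ F) (hx : x ∈ F) : F = {v, x, a} ∨ F = {v, x, b} := by
  obtain ⟨h1, h2, h3⟩ := L1_ne hS ha
  obtain ⟨G, hG, hGF, hvG, hxG, hall⟩ := other hS ha (x := v) (y := x) (by simp) (by simp) h1
  have hb' := hall _ hb (by simp) (by simp)
  have hne : ({v, x, b} : Finset α) ≠ {v, x, a} := by
    intro h
    exact hab (L1_inj (L1_ne hS hb).2.1 (L1_ne hS hb).2.2 h).symm
  rcases hb' with hb' | hb'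
  · exact absurd hb' hne
  · rcases hall F hF hv hx with h | h
    · exact Or.inl h
    · right
      rw [h, hb']

private theorem L1_path {α : Type*} {V : Finset α} {Φ : Finset (Finset α)} (hS : Surf V Φ) {v : α} (hv : v ∈ V) :
    ∃ (f : ℕ → α) (m : ℕ), 3 ≤ m ∧ (∀ i < m, ∀ j < m, f i = f j → i = j) ∧ (∀ u, Aj Φ v u ↔ ∃ i < m, f i = u) ∧
      (∀ i, i + 1 < m → ({v, f i, f (i + 1)} : Finset α) ∈ Φ) ∧ ({v, f (m - 1), f 0} : Finset α) ∈ Φ := by
  obtain ⟨F₀, hF₀, hvF₀⟩ := hS.ex v hv
  have hex : ∃ u ∈ F₀, u ≠ v := by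
    by_contra hcon
    push Not at hcon
    have h1 : F₀ ⊆ {v} := fun u hu => by
      rw [mem_singleton]; exact hcon u hu
    have h2 := Finset.card_le_card h1
    rw [hS.card F₀ hF₀, card_singleton] at h2
    omega
  obtain ⟨u, huF, huv⟩ := hex
  obtain ⟨w, hwv, hwu, hFe⟩ := tri_third hS hF₀ hvF₀ huF (Ne.symm huv)
  subst hFe
  set F₀ : Finset α := {v, u, w} with hF₀d
  obtain ⟨G₀, hG₀, hGF, hvG, huG, hGall⟩ := other hS hF₀ (x := v) (y := u) (by simp [hF₀d]) (by simp [hF₀d]) (Ne.symm huv)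
  obtain ⟨x₁, hx₁v, hx₁u, hGe⟩ := tri_third hS hG₀ hvG huG (Ne.symm huv)
  subst hGe
  have hx₁w : x₁ ≠ w := by
    rintro rfl
    exact hGF rfl
  -- the graph
  set s : Finset α := nbd V Φ v with hs
  let adj : α → α → Prop := fun x y => ({v, x, y} : Finset α) ∈ Φ ∧ ({v, x, y} : Finset α) ≠ F₀
  have hadj : ∀ x y, adj x y ↔ (({v, x, y} : Finset α) ∈ Φ ∧ ({v, x, y} : Finset α) ≠ F₀) := fun _ _ => Iff.rfl
  have hsymm : ∀ a b, adj a b → adj b a := by
    intro a b h
    rw [hadj] at h ⊢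
    rw [L1_comm v b a]
    exact h
  have hmem : ∀ {x y : α}, ({v, x, y} : Finset α) ∈ Φ → x ∈ s ∧ y ∈ s := by
    intro x y h
    obtain ⟨h1, h2, _⟩ := L1_ne hS h
    exact ⟨(mem_nbd hS).2 (aj_of h (by simp) (by simp) h1), (mem_nbd hS).2 (aj_of h (by simp) (by simp) h2)⟩
  have hus : u ∈ s := (hmem hF₀).1
  have hws : w ∈ s := (hmem hF₀).2
  have hxs : x₁ ∈ s := (hmem hG₀).2
  have hcard3 : 3 ≤ s.card := by
    have h1 : ({u, w, x₁} : Finset α) ⊆ s := by
      intro z hz
      simp only [mem_insert, mem_singleton] at hz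
      rcases hz with rfl | rfl | rfl
      · exact hus
      · exact hws
      · exact hxs
    have h2 := Finset.card_le_card h1
    rw [card_three (Ne.symm hwu) (Ne.symm hx₁u) (Ne.symm hx₁w)] at h2
    exact h2
  have hdeg0 : ∀ a, ∀ b ∈ s.filter (fun b => b ≠ a ∧ adj a b), ({v, a, b} : Finset α) ∈
      (Φ.filter fun G => v ∈ G ∧ a ∈ G).erase F₀ := by
    intro a b hb
    rw [mem_filter] at hb
    rw [mem_erase, mem_filter]
    exact ⟨hb.2.2.2, hb.2.2.1, by simp, by simp⟩
  have hinj : ∀ a, Set.InjOn (fun b => ({v, a, b} : Finset α)) (s.filter (fun b => b ≠ a ∧ adj a b) : Set α) := by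
    intro a b hb b' _ h
    rw [Finset.mem_coe, mem_filter] at hb
    have h3 := L1_ne hS hb.2.2.1
    exact L1_inj h3.2.1 h3.2.2 h
  have hdeg : ∀ a ∈ s, (s.filter fun b => b ≠ a ∧ adj a b).card ≤ 2 := by
    intro a ha
    have h1 : (s.filter fun b => b ≠ a ∧ adj a b).card ≤ ((Φ.filter fun G => v ∈ G ∧ a ∈ G).erase F₀).card :=
      Finset.card_le_card_of_injOn _ (hdeg0 a) (hinj a)
    have h2 : ((Φ.filter fun G => v ∈ G ∧ a ∈ G).erase F₀).card ≤ (Φ.filter fun G => v ∈ G ∧ a ∈ G).card :=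
      Finset.card_erase_le
    have h3 := hS.two v a ((mem_nbd hS).1 ha)
    omega
  have hdegu : (s.filter fun b => b ≠ u ∧ adj u b).card ≤ 1 := by
    have h1 : (s.filter fun b => b ≠ u ∧ adj u b).card ≤ ((Φ.filter fun G => v ∈ G ∧ u ∈ G).erase F₀).card :=
      Finset.card_le_card_of_injOn _ (hdeg0 u) (hinj u)
    have h2 : ((Φ.filter fun G => v ∈ G ∧ u ∈ G).erase F₀).card = (Φ.filter fun G => v ∈ G ∧ u ∈ G).card - 1 :=
      Finset.card_erase_of_mem (mem_filter.2 ⟨hF₀, by simp [hF₀d], by simp [hF₀d]⟩)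
    have h3 := hS.two v u ((mem_nbd hS).1 hus)
    omega
  -- reached
  let R : α → Prop := fun x => Relation.ReflTransGen (fun a b => adj a b ∧ b ∈ s) u x
  have hRu : R u := Relation.ReflTransGen.refl
  have hRs : ∀ {x y : α}, R x → adj x y → R y := by
    intro x y hx h
    exact Relation.ReflTransGen.tail hx ⟨h, (hmem ((hadj _ _).1 h).1).2⟩
  have hRx₁ : R x₁ := hRs hRu ((hadj _ _).2 ⟨hG₀, hGF⟩)
  have hRw : R w := by
    by_contra hw
    refine parity hS (v := v) (u₀ := u) (fun H => ∃ x ∈ H, x ≠ v ∧ x ≠ u ∧ R x) ?_ (F := {v, u, x₁}) (G := F₀)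
      hG₀ hF₀ (by simp) (by simp [hF₀d]) (by simp) (by simp [hF₀d]) huv ?_ ?_
    · rintro H hH H' hH' vH vH' ⟨u', hu'v, hu'u, hu'H, hu'H'⟩ ⟨b, hbH, hbv, hbu, hRb⟩
      refine ⟨u', hu'H', hu'v, hu'u, ?_⟩
      by_cases hbu' : b = u'
      · rw [← hbu']; exact hRb
      · have hHe : H = {v, b, u'} := tri_eq hS hH vH hbH hu'H (Ne.symm hbv) (Ne.symm hu'v) hbu'
        refine hRs hRb ((hadj _ _).2 ⟨hHe ▸ hH, ?_⟩)
        intro he
        have : u ∈ ({v, b, u'} : Finset α) := by
          rw [he]; simp [hF₀d]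
        simp only [mem_insert, mem_singleton] at this
        rcases this with h | h | h
        · exact huv h
        · exact hbu h.symm
        · exact hu'u h.symm
    · exact ⟨x₁, by simp, hx₁v, hx₁u, hRx₁⟩
    · rintro ⟨x, hx, hxv, hxu, hRx⟩
      simp only [hF₀d, mem_insert, mem_singleton] at hx
      rcases hx with h | h | h
      · exact hxv h
      · exact hxu h
      · exact hw (h ▸ hRx)
  have hconn : ∀ a ∈ s, Relation.ReflTransGen (fun a b => adj a b ∧ b ∈ s) u a := by
    intro a ha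
    obtain ⟨_, F, hF, hvF, haF⟩ := (mem_nbd hS).1 ha
    have hav : a ≠ v := Ne.symm (aj_ne ((mem_nbd hS).1 ha))
    have hP := hS.link v (fun H => ∀ x ∈ H, x ≠ v → R x) (by
      rintro H hH H' hH' vH vH' ⟨u', hu'v, hu'H, hu'H'⟩ hP y hy hyv
      have hRu' : R u' := hP u' hu'H hu'v
      by_cases hyu : y = u'
      · rw [hyu]; exact hRu'
      · have hHe : H' = {v, u', y} := tri_eq hS hH' vH' hu'H' hy (Ne.symm hu'v) (Ne.symm hyv) (Ne.symm hyu)
        by_cases hHF : H' = F₀
        · have hy' : y ∈ F₀ := hHF ▸ hy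
          simp only [hF₀d, mem_insert, mem_singleton] at hy'
          rcases hy' with h | h | h
          · exact absurd h hyv
          · rw [h]
          · rw [h]; exact hRw
        · exact hRs hRu' ((hadj _ _).2 ⟨hHe ▸ hH', fun h => hHF (hHe.trans h)⟩)) F₀ hF₀ F hF (by simp [hF₀d]) hvF (by
      intro x hx hxv
      simp only [hF₀d, mem_insert, mem_singleton] at hx
      rcases hx with h | h | h
      · exact absurd h hxv
      · rw [h]
      · rw [h]; exact hRw)
    exact hP a haF hav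
  obtain ⟨f, hfs, hfi, hfa⟩ := ham_path s adj hsymm
    (fun a ha => (le_of_eq (by congr)).trans (hdeg a ha)) hus ((le_of_eq (by congr)).trans hdegu) hconn
  -- surjectivity
  have himg : (Finset.range s.card).image f = s := by
    refine Finset.eq_of_subset_of_card_le ?_ ?_
    · intro x hx
      rw [mem_image] at hx
      obtain ⟨i, hi, rfl⟩ := hx
      exact hfs i (mem_range.1 hi)
    · rw [Finset.card_image_of_injOn, card_range]
      intro i hi j hj h
      exact hfi i (mem_range.1 (mem_coe.1 hi)) j (mem_range.1 (mem_coe.1 hj)) h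
  have hsurj : ∀ x ∈ s, ∃ i < s.card, f i = x := by
    intro x hx
    rw [← himg, mem_image] at hx
    obtain ⟨i, hi, h⟩ := hx
    exact ⟨i, mem_range.1 hi, h⟩
  have hmid : ∀ i, i + 1 < s.card → 0 < i → f i ∉ F₀ := by
    intro i hi h0 hmem0
    obtain ⟨k, rfl⟩ := Nat.exists_eq_succ_of_ne_zero h0.ne'
    have h1 := (hadj _ _).1 (hfa k (by omega))
    have h2 := (hadj _ _).1 (hfa (k + 1) (by omega))
    have h3 : ({v, f (k + 1), f k} : Finset α) ∈ Φ := by
      rw [L1_comm]; exact h1.1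
    have hne : f k ≠ f (k + 1 + 1) := by
      intro h
      have := hfi k (by omega) (k + 1 + 1) (by omega) h
      omega
    rcases L1_two hS h3 h2.1 hne hF₀ (by simp [hF₀d]) hmem0 with h | h
    · apply h1.2
      rw [L1_comm]
      exact h.symm
    · exact h2.2 h.symm
  obtain ⟨a, ha, hfa'⟩ := hsurj u hus
  obtain ⟨b, hb, hfb'⟩ := hsurj w hws
  have ha' : a = 0 ∨ a = s.card - 1 := by
    by_contra hcon
    push Not at hcon
    exact hmid a (by omega) (by omega) (by rw [hfa']; simp [hF₀d])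
  have hb' : b = 0 ∨ b = s.card - 1 := by
    by_contra hcon
    push Not at hcon
    exact hmid b (by omega) (by omega) (by rw [hfb']; simp [hF₀d])
  have hab : a ≠ b := by
    rintro rfl
    exact hwu (hfb'.symm.trans hfa')
  refine ⟨f, s.card, hcard3, hfi, ?_, fun i hi => ((hadj _ _).1 (hfa i hi)).1, ?_⟩
  · intro x
    rw [← mem_nbd hS]
    constructor
    · exact hsurj x
    · rintro ⟨i, hi, rfl⟩
      exact hfs i hi
  · rcases ha' with ha' | ha' <;> rcases hb' with hb' | hb'
    · exact absurd (ha'.trans hb'.symm) hab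
    · rw [← ha', ← hb', hfa', hfb', L1_comm]
      exact hF₀
    · rw [← ha', ← hb', hfa', hfb']
      exact hF₀
    · exact absurd (ha'.trans hb'.symm) hab

theorem link_cycle {α : Type*} {V : Finset α} {Φ : Finset (Finset α)} (hS : Surf V Φ) {v : α} (hv : v ∈ V) :
    ∃ l : List α, l.Nodup ∧ 3 ≤ l.length ∧ (∀ u, u ∈ l ↔ Aj Φ v u) ∧
      (∀ q ∈ prs l, ({v, q.1, q.2} : Finset α) ∈ Φ) ∧ ∀ F ∈ Φ, v ∈ F → ∃ q ∈ prs l, F = {v, q.1, q.2} := by
  obtain ⟨f, m, hm, hfi, hfm, hst, hcl⟩ := L1_path hS hv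
  let l : List α := (List.range m).map f
  have hlen : l.length = m := by simp [l]
  have hget : ∀ (i : ℕ) (hi : i < l.length), l[i] = f i := by
    intro i hi
    simp [l]
  have hprs : ∀ q, q ∈ prs l ↔ ∃ i < m, q = (f i, f ((i + 1) % m)) := by
    intro q
    unfold prs
    rw [List.mem_iff_getElem]
    constructor
    · rintro ⟨i, hi, hq⟩
      have hi' : i < l.length := by
        rw [List.length_zip, List.length_rotate, min_self] at hi
        exact hi
      refine ⟨i, hlen ▸ hi', ?_⟩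
      rw [← hq, List.getElem_zip, List.getElem_rotate, hget, hget, hlen]
    · rintro ⟨i, hi, rfl⟩
      have hi' : i < l.length := hlen.symm ▸ hi
      have hi2 : i < (l.zip (l.rotate 1)).length := by
        rw [List.length_zip, List.length_rotate, min_self]
        exact hi'
      refine ⟨i, hi2, ?_⟩
      rw [List.getElem_zip, List.getElem_rotate, hget, hget, hlen]
  have hcyc : ∀ i < m, ({v, f i, f ((i + 1) % m)} : Finset α) ∈ Φ := by
    intro i hi
    by_cases h : i + 1 < m
    · rw [Nat.mod_eq_of_lt h]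
      exact hst i h
    · have h2 : i = m - 1 := by omega
      have h3 : i + 1 = m := by omega
      rw [h3, Nat.mod_self, h2]
      exact hcl
  refine ⟨l, ?_, ?_, ?_, ?_, ?_⟩
  · refine List.Nodup.map_on ?_ List.nodup_range
    intro i hi j hj h
    exact hfi i (List.mem_range.1 hi) j (List.mem_range.1 hj) h
  · rw [hlen]; exact hm
  · intro u
    rw [hfm u]
    simp only [l, List.mem_map, List.mem_range]
  · intro q hq
    obtain ⟨i, hi, rfl⟩ := (hprs q).1 hq
    exact hcyc i hi
  · intro F hF hvF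
    -- a neighbour of `v` in `F`
    have hex : ∃ u ∈ F, u ≠ v := by
      by_contra hcon
      push Not at hcon
      have h1 : F ⊆ {v} := fun u hu => by
        rw [mem_singleton]; exact hcon u hu
      have h2 := Finset.card_le_card h1
      rw [hS.card F hF, card_singleton] at h2
      omega
    obtain ⟨x, hxF, hxv⟩ := hex
    obtain ⟨i, hi, rfl⟩ := (hfm x).1 (aj_of hF hvF hxF (Ne.symm hxv))
    -- the predecessor
    have hpred : ∃ j < m, (j + 1) % m = i ∧ j ≠ (i + 1) % m := by
      by_cases h0 : i = 0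
      · refine ⟨m - 1, by omega, ?_, ?_⟩
        · rw [h0, Nat.sub_add_cancel (by omega), Nat.mod_self]
        · rw [h0, Nat.mod_eq_of_lt (by omega)]
          omega
      · refine ⟨i - 1, by omega, ?_, ?_⟩
        · rw [Nat.sub_add_cancel (by omega), Nat.mod_eq_of_lt hi]
        · by_cases h1 : i + 1 < m
          · rw [Nat.mod_eq_of_lt h1]; omega
          · have h3 : i + 1 = m := by omega
            rw [h3, Nat.mod_self]; omega
    obtain ⟨j, hj, hji, hjne⟩ := hpred
    have h1 := hcyc i hi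
    have h2 := hcyc j hj
    rw [hji, L1_comm] at h2
    have hne : f ((i + 1) % m) ≠ f j := by
      intro h
      exact hjne (hfi _ (Nat.mod_lt _ (by omega)) _ hj h).symm
    rcases L1_two hS h1 h2 hne hF hvF hxF with h | h
    · exact ⟨(f i, f ((i + 1) % m)), (hprs _).2 ⟨i, hi, rfl⟩, h⟩
    · refine ⟨(f j, f ((j + 1) % m)), (hprs _).2 ⟨j, hj, rfl⟩, ?_⟩
      rw [hji, h, L1_comm]

end Pool.Agent.LibSt23
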