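import Pool.Agent.LibSt23.E2

/-!
[ST23 L2] (MEDIUM) A cyclic word in two colours with at most two changes consists of two runs. Rotate so that the first member is in `A` and the last one in `B` (there is a cyclic pair `(x, y)` with `x ∈ B`, `y ∈ A`: otherwise all members after an `A`.. / before; e.g. take the position of a member of `B` followed cyclically by a member of `A`). Then `l' = a ++ c` with `a` the maximal prefix in `A` (`List.takeWhile`), `c ≠ []` starts in `B`. The cyclic pair (last, first) is one change, the pair between `a` and `c` is another one; if `c` had a member of `A` there would be a third change inside `c` (from `B` to `A`; and `c` ends in `B`, a fourth): contradiction. `b := c.reverse`.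
-/

set_option autoImplicit false

namespace Pool.Agent.LibSt23

open Finset Pool.Agent.LibPol19 Pool.Agent.LibTet88 Pool.Agent.LibTet23
open scoped Classical

private def L2_ch {α : Type*} (D : α × α → Bool) : List α → ℕ
  | [] => 0
  | [_] => 0
  | x :: y :: l => (if D (x, y) then 1 else 0) + L2_ch D (y :: l)

private theorem L2_zip {α : Type*} (D : α × α → Bool) (t : List α) : ∀ (x z : α),
    (((x :: t).zip (t ++ [z])).filter D).length = L2_ch D (x :: (t ++ [z])) := by
  induction t with
  | nil =>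
    intro x z
    by_cases h : D (x, z) = true <;> simp [L2_ch, h]
  | cons y t ih =>
    intro x z
    have := ih y z
    by_cases h : D (x, y) = true
    · simp only [List.cons_append, List.zip_cons_cons, List.filter_cons_of_pos h, List.length_cons, L2_ch,
        if_pos h, this]
      omega
    · simp only [List.cons_append, List.zip_cons_cons, List.filter_cons_of_neg h, L2_ch,
        if_neg h, this]
      omega

private theorem L2_add {α : Type*} (D : α × α → Bool) (w : List α) (v : α) : ∀ u : List α,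
    L2_ch D (u ++ v :: w) = L2_ch D (u ++ [v]) + L2_ch D (v :: w)
  | [] => by simp [L2_ch]
  | [a] => by
    simp [L2_ch]
  | a :: b :: u => by
    have := L2_add D w v (b :: u)
    simp only [List.cons_append, L2_ch] at this ⊢
    omega

private theorem L2_pos {α : Type*} (A B : Finset α) (D : α × α → Bool)
    (hD : ∀ x y, (x ∈ A ∧ y ∈ B) ∨ (x ∈ B ∧ y ∈ A) → D (x, y) = true) : ∀ (t : List α) (x e : α),
    (∀ z ∈ t, z ∈ A ∨ z ∈ B) → (x ∈ A ∧ e ∈ B) ∨ (x ∈ B ∧ e ∈ A) → 1 ≤ L2_ch D (x :: (t ++ [e])) := by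
  intro t
  induction t with
  | nil =>
    intro x e _ h
    simp [L2_ch, hD x e h]
  | cons y t ih =>
    intro x e ht h
    have hy := ht y (by simp)
    have ht' : ∀ z ∈ t, z ∈ A ∨ z ∈ B := fun z hz => ht z (by simp [hz])
    simp only [List.cons_append, L2_ch]
    by_cases hxy : (x ∈ A ∧ y ∈ B) ∨ (x ∈ B ∧ y ∈ A)
    · rw [if_pos (hD x y hxy)]
      omega
    · have : 1 ≤ L2_ch D (y :: (t ++ [e])) := by
        apply ih y e ht'
        rcases h with ⟨h1, h2⟩ | ⟨h1, h2⟩ <;> rcases hy with h3 | h3 <;> tauto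
      omega

private theorem L2_runs {α : Type*} (A B : Finset α) (D : α × α → Bool)
    (hD : ∀ x y, (x ∈ A ∧ y ∈ B) ∨ (x ∈ B ∧ y ∈ A) → D (x, y) = true) : ∀ (t : List α) (x e : α),
    (∀ z ∈ t, z ∈ A ∨ z ∈ B) → x ∈ A → e ∈ B →
    (∃ a b : List α, x :: (t ++ [e]) = a ++ b ∧ a ≠ [] ∧ b ≠ [] ∧ (∀ z ∈ a, z ∈ A) ∧ ∀ z ∈ b, z ∈ B) ∨
      3 ≤ L2_ch D (x :: (t ++ [e])) := by
  intro t
  induction t with
  | nil =>
    intro x e _ hx he
    exact Or.inl ⟨[x], [e], rfl, by simp, by simp, by simpa using hx, by simpa using he⟩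
  | cons y t ih =>
    intro x e ht hx he
    have hy := ht y (by simp)
    have ht' : ∀ z ∈ t, z ∈ A ∨ z ∈ B := fun z hz => ht z (by simp [hz])
    rcases hy with hyA | hyB
    · rcases ih y e ht' hyA he with ⟨a, b, hab, ha, hb, hA, hB⟩ | h
      · left
        refine ⟨x :: a, b, ?_, by simp, hb, ?_, hB⟩
        · rw [List.cons_append, List.cons_append, hab]
        · intro z hz
          rcases List.mem_cons.1 hz with rfl | hz
          · exact hx
          · exact hA z hz
      · right
        simp only [List.cons_append, L2_ch]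
        omega
    · by_cases hall : ∀ z ∈ t, z ∈ B
      · left
        refine ⟨[x], y :: (t ++ [e]), rfl, by simp, by simp, by simpa using hx, ?_⟩
        intro z hz
        simp only [List.mem_cons, List.mem_append, List.not_mem_nil, or_false] at hz
        rcases hz with rfl | hz | rfl
        · exact hyB
        · exact hall z hz
        · exact he
      · right
        push Not at hall
        obtain ⟨w, hw, hwB⟩ := hall
        have hwA : w ∈ A := (ht' w hw).resolve_right hwB
        obtain ⟨u, v, rfl⟩ := List.append_of_mem hw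
        have h1 : 1 ≤ L2_ch D (y :: (u ++ [w])) :=
          L2_pos A B D hD u y w (fun z hz => ht' z (by simp [hz])) (Or.inr ⟨hyB, hwA⟩)
        have h2 : 1 ≤ L2_ch D (w :: (v ++ [e])) :=
          L2_pos A B D hD v w e (fun z hz => ht' z (by simp [hz])) (Or.inl ⟨hwA, he⟩)
        have h3 := L2_add D (v ++ [e]) w (y :: u)
        have h4 : L2_ch D (x :: (y :: (u ++ w :: v) ++ [e])) = 1 + L2_ch D (y :: u ++ w :: (v ++ [e])) := by
          have : x :: (y :: (u ++ w :: v) ++ [e]) = x :: y :: (u ++ w :: (v ++ [e])) := by simp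
          rw [this]
          simp only [List.cons_append, L2_ch, if_pos (hD x y (Or.inl ⟨hx, hyB⟩))]
        rw [h4, h3]
        simp only [List.cons_append]
        omega

private theorem L2_first {α : Type*} (A B : Finset α) : ∀ (m : List α) (y : α),
    (∀ z ∈ m, z ∈ A ∨ z ∈ B) → y ∈ B → (∃ x ∈ m, x ∈ A) →
    ∃ (p : List α) (e x : α) (q : List α), y :: m = p ++ e :: x :: q ∧ e ∈ B ∧ x ∈ A := by
  intro m
  induction m with
  | nil =>
    rintro y _ _ ⟨x, hx, _⟩
    simp at hx
  | cons z m ih =>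
    rintro y hm hy ⟨x, hx, hxA⟩
    by_cases hz : z ∈ A
    · exact ⟨[], y, z, m, rfl, hy, hz⟩
    · have hzB : z ∈ B := (hm z (by simp)).resolve_left hz
      have hxm : x ∈ m := by
        rcases List.mem_cons.1 hx with rfl | h
        · exact absurd hxA hz
        · exact h
      obtain ⟨p, e, x', q, h, he, hx'⟩ := ih z (fun w hw => hm w (by simp [hw])) hzB ⟨x, hxm, hxA⟩
      exact ⟨y :: p, e, x', q, by rw [h]; rfl, he, hx'⟩

theorem two_runs {α : Type*} {l : List α} {A B : Finset α} (hAB : ∀ x ∈ l, x ∈ A ∨ x ∈ B) (hd : Disjoint A B)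
    (ha : ∃ x ∈ l, x ∈ A) (hb : ∃ x ∈ l, x ∈ B)
    (hm : ((prs l).filter fun q => decide ((q.1 ∈ A ∧ q.2 ∈ B) ∨ (q.1 ∈ B ∧ q.2 ∈ A))).length ≤ 2) :
    ∃ (n : ℕ) (a b : List α), l.rotate n = a ++ b.reverse ∧ a ≠ [] ∧ b ≠ [] ∧ (∀ x ∈ a, x ∈ A) ∧ ∀ x ∈ b, x ∈ B := by
  set D : α × α → Bool := fun q => decide ((q.1 ∈ A ∧ q.2 ∈ B) ∨ (q.1 ∈ B ∧ q.2 ∈ A)) with hDdef
  have hD : ∀ x y, (x ∈ A ∧ y ∈ B) ∨ (x ∈ B ∧ y ∈ A) → D (x, y) = true := by
    intro x y h
    simp only [hDdef]
    exact decide_eq_true h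
  obtain ⟨y, hy, hyB⟩ := hb
  obtain ⟨x, hx, hxA⟩ := ha
  have hxy : x ≠ y := by
    rintro rfl
    exact Finset.disjoint_left.1 hd hxA hyB
  obtain ⟨l1, l2, rfl⟩ := List.append_of_mem hy
  have hr1 : (l1 ++ y :: l2).rotate l1.length = y :: (l2 ++ l1) := by
    rw [List.rotate_append_length_eq]
    rfl
  have hxm : x ∈ l2 ++ l1 := by
    simp only [List.mem_append, List.mem_cons] at hx ⊢
    tauto
  obtain ⟨p, e, x', q, hpq, he, hx'⟩ := L2_first A B (l2 ++ l1) y
    (fun z hz => hAB z (by simp only [List.mem_append, List.mem_cons] at hz ⊢; tauto)) hyB ⟨x, hxm, hxA⟩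
  have hr2 : (l1 ++ y :: l2).rotate (l1.length + (p ++ [e]).length) = x' :: ((q ++ p) ++ [e]) := by
    rw [← List.rotate_rotate, hr1, hpq]
    have : p ++ e :: x' :: q = (p ++ [e]) ++ (x' :: q) := by simp
    rw [this, List.rotate_append_length_eq]
    simp
  have hmem : ∀ z ∈ x' :: ((q ++ p) ++ [e]), z ∈ A ∨ z ∈ B := by
    intro z hz
    rw [← hr2, List.mem_rotate] at hz
    exact hAB z hz
  have hlen : L2_ch D (x' :: ((q ++ p) ++ [e])) + 1 ≤ 2 := by
    have h1 : ((prs (x' :: ((q ++ p) ++ [e]))).filter D).length ≤ 2 := by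
      rw [← hr2, prs_rotate]
      rw [((List.rotate_perm (prs (l1 ++ y :: l2)) _).filter D).length_eq]
      exact hm
    have h2 : prs (x' :: ((q ++ p) ++ [e])) = (x' :: ((q ++ p) ++ [e])).zip (((q ++ p) ++ [e]) ++ [x']) := by
      unfold prs
      rw [List.rotate_cons_succ, List.rotate_zero]
    rw [h2, L2_zip D ((q ++ p) ++ [e]) x' x'] at h1
    have h3 := L2_add D [x'] e (x' :: (q ++ p))
    have h4 : x' :: ((q ++ p) ++ [e] ++ [x']) = (x' :: (q ++ p)) ++ e :: [x'] := by simp
    have h5 : L2_ch D (e :: [x']) = 1 := by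
      simp only [L2_ch, if_pos (hD e x' (Or.inr ⟨he, hx'⟩))]
    rw [h4, h3, h5] at h1
    exact h1
  rcases L2_runs A B D hD (q ++ p) x' e (fun z hz => hmem z (by
      simp only [List.mem_append, List.mem_cons] at hz ⊢; tauto)) hx' he with
    ⟨a, b, hab, ha, hb, hA, hB⟩ | h
  · refine ⟨l1.length + (p ++ [e]).length, a, b.reverse, ?_, ha, ?_, hA, ?_⟩
    · rw [hr2, hab, List.reverse_reverse]
    · simpa using hb
    · intro z hz
      exact hB z (List.mem_reverse.1 hz)
  · omega

end Pool.Agent.LibSt23
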