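import Pool.Agent.LibSt23.L1
import Pool.Agent.LibSt23.L2

/-!
[ST23 L3] (MEDIUM) The two runs of the link. `link_cycle` gives `l`. The mixed pairs of `prs l` correspond injectively to the members of `mxf Φ A B s` (`q ↦ {s, q.1, q.2}`; injective on `prs l` because `l` is nodup with at least 3 members: an unordered pair occurs only once), so their number is at most 2 (`s ∉ A`, `s ∉ B` is not needed for this direction). `two_runs`, and rotate (`mem_prs_rotate`, `List.mem_rotate`, `List.nodup_rotate`).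
-/

set_option autoImplicit false

namespace Pool.Agent.LibSt23

open Finset Pool.Agent.LibPol19 Pool.Agent.LibTet88 Pool.Agent.LibTet23
open scoped Classical

private theorem L3_index {α : Type*} {l : List α} {q : α × α} (h : q ∈ prs l) :
    ∃ (i : ℕ) (hi : i < l.length) (hi' : (i + 1) % l.length < l.length), l[i] = q.1 ∧ l[(i + 1) % l.length] = q.2 := by
  obtain ⟨i, hi, hq⟩ := List.mem_iff_getElem.1 h
  have hi1 : i < l.length := by
    have h1 := hi
    unfold prs at h1
    rw [List.length_zip, List.length_rotate, min_self] at h1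
    exact h1
  have hi2 : (i + 1) % l.length < l.length := Nat.mod_lt _ (by omega)
  refine ⟨i, hi1, hi2, ?_⟩
  unfold prs at hq
  rw [List.getElem_zip, List.getElem_rotate] at hq
  rw [← hq]
  exact ⟨rfl, rfl⟩

private theorem L3_nodup {α : Type*} {l : List α} (h : l.Nodup) : (prs l).Nodup := by
  have h1 : (prs l).map Prod.fst = l := by
    unfold prs
    apply List.map_fst_zip
    rw [List.length_rotate]
  exact List.Nodup.of_map Prod.fst (by rw [h1]; exact h)

private theorem L3_swap {α : Type*} {l : List α} (h : l.Nodup) (h3 : 3 ≤ l.length) {x y : α} (hq : (x, y) ∈ prs l) :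
    (y, x) ∉ prs l := by
  intro hr
  obtain ⟨i, hi, hi', h1, h2⟩ := L3_index hq
  obtain ⟨k, hk, hk', h4, h5⟩ := L3_index hr
  simp only at h1 h2 h4 h5
  have e1 : (i + 1) % l.length = k := (List.Nodup.getElem_inj_iff h).1 (h2.trans h4.symm)
  have e2 : (k + 1) % l.length = i := (List.Nodup.getElem_inj_iff h).1 (h5.trans h1.symm)
  rcases Nat.lt_or_ge (i + 1) l.length with h6 | h6
  · rw [Nat.mod_eq_of_lt h6] at e1
    subst e1
    rcases Nat.lt_or_ge (i + 1 + 1) l.length with h7 | h7
    · rw [Nat.mod_eq_of_lt h7] at e2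
      omega
    · have h8 : i + 1 + 1 = l.length := by omega
      rw [h8, Nat.mod_self] at e2
      omega
  · have h8 : i + 1 = l.length := by omega
    rw [h8, Nat.mod_self] at e1
    subst e1
    rw [Nat.mod_eq_of_lt (by omega)] at e2
    omega

theorem link_runs {α : Type*} {V : Finset α} {Φ : Finset (Finset α)} (hS : Surf V Φ) {s : α} (hs : s ∈ V)
    {A B : Finset α} (hAB : ∀ u, Aj Φ s u → u ∈ A ∨ u ∈ B) (hd : Disjoint A B) (ha : ∃ x ∈ A, Aj Φ s x)
    (hb : ∃ x ∈ B, Aj Φ s x) (hm : (mxf Φ A B s).card ≤ 2) : ∃ a b, Lk Φ s A B a b := by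
  obtain ⟨l, hnd, h3, hmem, hfac, hall⟩ := link_cycle hS hs
  have hsl : ∀ x ∈ l, x ≠ s := fun x hx => ((hmem x).1 hx).1.symm
  have hm' : ((prs l).filter fun q => decide ((q.1 ∈ A ∧ q.2 ∈ B) ∨ (q.1 ∈ B ∧ q.2 ∈ A))).length ≤ 2 := by
    set L := (prs l).filter fun q => decide ((q.1 ∈ A ∧ q.2 ∈ B) ∨ (q.1 ∈ B ∧ q.2 ∈ A)) with hL
    have hLm : ∀ q ∈ L, q ∈ prs l ∧ ((q.1 ∈ A ∧ q.2 ∈ B) ∨ (q.1 ∈ B ∧ q.2 ∈ A)) := by
      intro q hq
      rw [hL, List.mem_filter] at hq
      exact ⟨hq.1, of_decide_eq_true hq.2⟩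
    have hLn : L.Nodup := (L3_nodup hnd).filter _
    rw [← List.toFinset_card_of_nodup hLn]
    refine le_trans (Finset.card_le_card_of_injOn (fun q : α × α => ({s, q.1, q.2} : Finset α)) ?_ ?_) hm
    · intro q hq
      have hq' := hLm q (List.mem_toFinset.1 hq)
      refine Finset.mem_coe.2 (Finset.mem_filter.2 ⟨hfac q hq'.1, by simp, ?_⟩)
      rcases hq'.2 with h1 | h1
      · exact ⟨⟨q.1, by simp, h1.1⟩, q.2, by simp, h1.2⟩
      · exact ⟨⟨q.2, by simp, h1.2⟩, q.1, by simp, h1.1⟩
    · intro q hq r hr hqr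
      have hq' := hLm q (List.mem_toFinset.1 hq)
      have hr' := hLm r (List.mem_toFinset.1 hr)
      have hqm := prs_mem hq'.1
      have hrm := prs_mem hr'.1
      have hqn : q.1 ≠ q.2 := by
        intro h0
        rcases hq'.2 with h1 | h1
        · exact Finset.disjoint_left.1 hd h1.1 (h0 ▸ h1.2)
        · exact Finset.disjoint_left.1 hd h1.2 (h0 ▸ h1.1)
      have hqr' : ({s, q.1, q.2} : Finset α) = {s, r.1, r.2} := hqr
      have m1 : q.1 = r.1 ∨ q.1 = r.2 := by
        have h1 : q.1 ∈ ({s, r.1, r.2} : Finset α) := by rw [← hqr']; simp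
        simp only [Finset.mem_insert, Finset.mem_singleton] at h1
        exact h1.resolve_left (hsl _ hqm.1)
      have m2 : q.2 = r.1 ∨ q.2 = r.2 := by
        have h1 : q.2 ∈ ({s, r.1, r.2} : Finset α) := by rw [← hqr']; simp
        simp only [Finset.mem_insert, Finset.mem_singleton] at h1
        exact h1.resolve_left (hsl _ hqm.2)
      rcases m1 with h1 | h1
      · rcases m2 with h2 | h2
        · exact absurd (h1.trans h2.symm) hqn
        · exact Prod.ext h1 h2
      · rcases m2 with h2 | h2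
        · exfalso
          refine L3_swap hnd h3 (x := r.1) (y := r.2) hr'.1 ?_
          rw [← h1, ← h2]
          exact hq'.1
        · exact absurd (h1.trans h2.symm) hqn
  obtain ⟨x, hxA, hx⟩ := ha
  obtain ⟨y, hyB, hy⟩ := hb
  obtain ⟨n, a, b, hrot, hane, hbne, haA, hbB⟩ := two_runs (l := l) (A := A) (B := B)
    (fun x hx => hAB x ((hmem x).1 hx)) hd ⟨x, (hmem x).2 hx, hxA⟩ ⟨y, (hmem y).2 hy, hyB⟩ hm'
  refine ⟨a, b, ?_⟩
  refine
    { nodup := ?_
      three := ?_
      ane := hane
      bne := hbne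
      aA := haA
      bB := hbB
      mem := ?_
      fac := ?_
      all := ?_ }
  · rw [← hrot, List.nodup_rotate]; exact hnd
  · rw [← hrot, List.length_rotate]; exact h3
  · intro u
    rw [← hrot, List.mem_rotate]
    exact hmem u
  · intro q hq
    rw [← hrot, mem_prs_rotate] at hq
    exact hfac q hq
  · intro F hF hsF
    obtain ⟨q, hq, hFq⟩ := hall F hF hsF
    refine ⟨q, ?_, hFq⟩
    rw [← hrot, mem_prs_rotate]
    exact hq

end Pool.Agent.LibSt23
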