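import Pool.Agent.LibSt23.Defs

/-!
[ST23 M1] (MEDIUM) Every node has exactly two mixed edges. `n = F ∈ Fp Φ p S`: `n ⊆ F'`, both with 3 elements: `F' = F`. `F = {x, y, z}` has members in `A` and in `B` (`bi`) and all its members are in `A` or `B` (`cov`, `Surf.sub`): one colour twice, the other once: exactly 2 pairs. `n = {s}`: `F ∋ s` and `x ∈ A`, `y ∈ B` in `F`: `F = {s, x, y}` (`s ∉ A, B`, card 3), so `{x, y} ↦ F = {s, x, y}` is a bijection from `Me` onto `mxf Φ A B s` (card 2).
-/

set_option autoImplicit false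

namespace Pool.Agent.LibSt23

open Finset Pool.Agent.LibPol19 Pool.Agent.LibTet88 Pool.Agent.LibTet23
open scoped Classical

private theorem M1_mem {α : Type*} {Φ : Finset (Finset α)} {A B e n : Finset α} :
    e ∈ Me Φ A B n ↔ ∃ u ∈ A, ∃ v ∈ B, (∃ F ∈ Φ, n ⊆ F ∧ u ∈ F ∧ v ∈ F) ∧ e = {u, v} := by
  unfold Me
  simp only [Finset.mem_image, Finset.mem_filter, Finset.mem_product]
  constructor
  · rintro ⟨q, ⟨⟨hA, hB⟩, hF⟩, rfl⟩
    exact ⟨q.1, hA, q.2, hB, hF, rfl⟩
  · rintro ⟨u, hu, v, hv, hF, rfl⟩
    exact ⟨(u, v), ⟨⟨hu, hv⟩, hF⟩, rfl⟩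

private theorem M1_pair {α : Type*} {x y z : α} (hxz : x ≠ z) (hxy : x ≠ y) :
    ({x, y} : Finset α) ≠ {z, y} := by
  intro h
  have h1 : x ∈ ({z, y} : Finset α) := by
    rw [← h]
    exact Finset.mem_insert_self _ _
  rw [Finset.mem_insert, Finset.mem_singleton] at h1
  rcases h1 with h1 | h1
  · exact hxz h1
  · exact hxy h1

theorem me_two {α : Type*} {V : Finset α} {Φ : Finset (Finset α)} (hS : Surf V Φ) {p : α} {S A B e₁ e₂ : Finset α}
    (h : StrS V Φ p S A B e₁ e₂) {n : Finset α} (hn : n ∈ Nds Φ p S) : (Me Φ A B n).card = 2 := by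
  have hAB : ∀ z, z ∈ A → z ∈ B → False := fun z h1 h2 => Finset.disjoint_left.1 h.AB h1 h2
  have hSA : ∀ z, z ∈ S → z ∈ A → False := fun z h1 h2 => Finset.disjoint_left.1 h.SA h1 h2
  have hSB : ∀ z, z ∈ S → z ∈ B → False := fun z h1 h2 => Finset.disjoint_left.1 h.SB h1 h2
  unfold Nds at hn
  rw [Finset.mem_union, Finset.mem_image] at hn
  rcases hn with hn | ⟨s, hs, rfl⟩
  · unfold Fp at hn
    rw [Finset.mem_filter] at hn
    obtain ⟨hF, pF, hFS⟩ := hn
    obtain ⟨⟨x, xF, xA⟩, y, yF, yB⟩ := h.bi n hF pF hFS
    have hxy : x ≠ y := by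
      rintro rfl
      exact hAB x xA yB
    obtain ⟨z, zx, zy, hz⟩ := tri_third hS hF xF yF hxy
    have zF : z ∈ n := by
      rw [hz]
      simp
    have hsub : ∀ F ∈ Φ, n ⊆ F → F = n := by
      intro F hF' hnF
      exact (Finset.eq_of_subset_of_card_le hnF (by rw [hS.card F hF', hS.card n hF])).symm
    have hmem : ∀ u v, u ∈ A → v ∈ B → u ∈ n → v ∈ n → ({u, v} : Finset α) ∈ Me Φ A B n :=
      fun u v hu hv hun hvn => M1_mem.2 ⟨u, hu, v, hv, ⟨n, hF, Finset.Subset.refl n, hun, hvn⟩, rfl⟩
    rcases (h.cov z).1 (hS.sub n hF zF) with e | e | e | e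
    · exact absurd (e ▸ zF) pF
    · exact absurd zF (hFS z e)
    · have hMe : Me Φ A B n = {{x, y}, {z, y}} := by
        apply Finset.Subset.antisymm
        · intro w hw
          obtain ⟨u, hu, v, hv, ⟨F, hF', hnF, huF, hvF⟩, rfl⟩ := M1_mem.1 hw
          rw [hsub F hF' hnF, hz] at huF hvF
          simp only [Finset.mem_insert, Finset.mem_singleton] at huF hvF
          have h1 : v = y := by
            rcases hvF with h1 | h1 | h1
            · exact (hAB x xA (h1 ▸ hv)).elim
            · exact h1
            · exact (hAB z e (h1 ▸ hv)).elim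
          subst h1
          rcases huF with h2 | h2 | h2
          · subst h2
            simp
          · exact (hAB u hu (h2 ▸ hv)).elim
          · subst h2
            simp
        · intro w hw
          rw [Finset.mem_insert, Finset.mem_singleton] at hw
          rcases hw with rfl | rfl
          · exact hmem x y xA yB xF yF
          · exact hmem z y e yB zF yF
      rw [hMe, Finset.card_pair (M1_pair zx.symm hxy)]
    · have hMe : Me Φ A B n = {{x, y}, {x, z}} := by
        apply Finset.Subset.antisymm
        · intro w hw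
          obtain ⟨u, hu, v, hv, ⟨F, hF', hnF, huF, hvF⟩, rfl⟩ := M1_mem.1 hw
          rw [hsub F hF' hnF, hz] at huF hvF
          simp only [Finset.mem_insert, Finset.mem_singleton] at huF hvF
          have h1 : u = x := by
            rcases huF with h1 | h1 | h1
            · exact h1
            · exact (hAB u hu (h1 ▸ yB)).elim
            · exact (hAB u hu (h1 ▸ e)).elim
          subst h1
          rcases hvF with h2 | h2 | h2
          · exact (hAB u hu (h2 ▸ hv)).elim
          · subst h2
            simp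
          · subst h2
            simp
        · intro w hw
          rw [Finset.mem_insert, Finset.mem_singleton] at hw
          rcases hw with rfl | rfl
          · exact hmem x y xA yB xF yF
          · exact hmem x z xA e xF zF
      have h3 : ({x, y} : Finset α) ≠ {x, z} := by
        rw [Finset.pair_comm x y, Finset.pair_comm x z]
        exact M1_pair zy.symm hxy.symm
      rw [hMe, Finset.card_pair h3]
  · rw [← h.two s hs]
    refine Finset.card_bij (fun e _ => insert s e) ?_ ?_ ?_
    · intro e he
      obtain ⟨u, hu, v, hv, ⟨F, hF, hsF, huF, hvF⟩, rfl⟩ := M1_mem.1 he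
      have sF : s ∈ F := hsF (Finset.mem_singleton_self s)
      have e1 : s ≠ u := by
        rintro rfl
        exact hSA s hs hu
      have e2 : s ≠ v := by
        rintro rfl
        exact hSB s hs hv
      have e3 : u ≠ v := by
        rintro rfl
        exact hAB u hu hv
      have e4 : F = {s, u, v} := tri_eq hS hF sF huF hvF e1 e2 e3
      rw [← e4]
      unfold mxf
      rw [Finset.mem_filter]
      exact ⟨hF, sF, ⟨u, huF, hu⟩, v, hvF, hv⟩
    · intro e he e' he' hee
      have h1 : ∀ w, w ∈ Me Φ A B {s} → s ∉ w := by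
        intro w hw hsw
        obtain ⟨u, hu, v, hv, _, rfl⟩ := M1_mem.1 hw
        rw [Finset.mem_insert, Finset.mem_singleton] at hsw
        rcases hsw with hsw | hsw
        · exact hSA s hs (hsw ▸ hu)
        · exact hSB s hs (hsw ▸ hv)
      have h2 : (insert s e).erase s = (insert s e').erase s := by
        have h3 : insert s e = insert s e' := hee
        rw [h3]
      rw [Finset.erase_insert (h1 e he), Finset.erase_insert (h1 e' he')] at h2
      exact h2
    · intro F hF
      unfold mxf at hF
      rw [Finset.mem_filter] at hF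
      obtain ⟨hF, sF, ⟨x, xF, xA⟩, y, yF, yB⟩ := hF
      have e1 : s ≠ x := by
        rintro rfl
        exact hSA s hs xA
      have e2 : s ≠ y := by
        rintro rfl
        exact hSB s hs yB
      have e3 : x ≠ y := by
        rintro rfl
        exact hAB x xA yB
      have e4 : F = {s, x, y} := tri_eq hS hF sF xF yF e1 e2 e3
      refine ⟨{x, y}, M1_mem.2 ⟨x, xA, y, yB, ⟨F, hF, ?_, xF, yF⟩, rfl⟩, e4.symm⟩
      intro w hw
      rw [Finset.mem_singleton] at hw
      rw [hw]
      exact sF

end Pool.Agent.LibSt23
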