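import Pool.Agent.LibSt23.E1

/-!
[ST23 N1] (SHORT/MEDIUM) General position. Suppose `dt (b - a) (c - a) (d - a) = 0`. Find `ℓ ≠ 0` vanishing on `b - a, c - a, d - a`: then `a, b, c, d` are four different members of `V.filter fun v => ℓ v = ℓ a`: contradiction. Either: `span ℝ {b - a, c - a, d - a} ≠ ⊤` (otherwise the three vectors are linearly independent (`finrank` 3), so the determinant is not 0) and `Submodule.exists_le_ker_of_lt_top`. Or by hand: the functional `ℓ w = dt (b - a) (c - a) w` (a linear combination of the coordinate functionals), if it is not 0; if it is 0 then `c - a` is a multiple of `b - a` (`b ≠ a`) and `ℓ w = dt (b - a) (d - a) w` does it, if it is not 0; if it is 0 too all are multiples of `b - a` and any `ℓ ≠ 0` with `ℓ (b - a) = 0` does it.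
-/

set_option autoImplicit false

namespace Pool.Agent.LibSt23

open Finset Pool.Agent.LibPol19 Pool.Agent.LibTet88 Pool.Agent.LibTet23
open scoped Classical

private theorem N1_fun {u v w : Ed 3} (h : dt u v w = 0) :
    ∃ ℓ : Ed 3 →ₗ[ℝ] ℝ, ℓ ≠ 0 ∧ ℓ u = 0 ∧ ℓ v = 0 ∧ ℓ w = 0 := by
  have hdet : (Matrix.of ![![u 0, u 1, u 2], ![v 0, v 1, v 2], ![w 0, w 1, w 2]] :
      Matrix (Fin 3) (Fin 3) ℝ).det = 0 := by
    rw [Matrix.det_fin_three]
    simp only [Matrix.of_apply, Matrix.cons_val', Matrix.cons_val_zero, Matrix.cons_val_one,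
      Matrix.cons_val, Matrix.cons_val_fin_one]
    unfold dt at h
    linarith
  obtain ⟨c, hc0, hc⟩ := Matrix.exists_mulVec_eq_zero_iff.2 hdet
  let ℓ : Ed 3 →ₗ[ℝ] ℝ :=
    { toFun := fun x => c 0 * x 0 + c 1 * x 1 + c 2 * x 2
      map_add' := fun x y => by
        simp only [PiLp.add_apply]
        ring
      map_smul' := fun t x => by
        simp only [PiLp.smul_apply, smul_eq_mul, RingHom.id_apply]
        ring }
  have hℓ : ∀ x, ℓ x = c 0 * x 0 + c 1 * x 1 + c 2 * x 2 := fun x => rfl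
  have e0 := congrFun hc 0
  have e1 := congrFun hc 1
  have e2 := congrFun hc 2
  simp only [Matrix.mulVec, dotProduct, Fin.sum_univ_three, Matrix.of_apply, Matrix.cons_val',
    Matrix.cons_val_zero, Matrix.cons_val_one, Matrix.cons_val, Matrix.cons_val_fin_one,
    Pi.zero_apply] at e0 e1 e2
  refine ⟨ℓ, ?_, ?_, ?_, ?_⟩
  · intro h0
    apply hc0
    have g : ∀ i, c i = 0 := by
      intro i
      have g1 : ℓ (EuclideanSpace.single i (1 : ℝ)) = 0 := by rw [h0]; rfl
      rw [hℓ] at g1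
      fin_cases i <;> simpa using g1
    exact funext g
  · rw [hℓ]; linarith
  · rw [hℓ]; linarith
  · rw [hℓ]; linarith

theorem gp_nat {V : Finset (Ed 3)}
    (h : ∀ (ℓ : Ed 3 →ₗ[ℝ] ℝ) (c : ℝ), ℓ ≠ 0 → (V.filter fun v => ℓ v = c).card ≤ 3) : Gp V := by
  intro a ha b hb c hc d hd hab hac had hbc hbd hcd h0
  obtain ⟨ℓ, hℓ, h1, h2, h3⟩ := N1_fun h0
  rw [map_sub, sub_eq_zero] at h1 h2 h3
  have h4 := h ℓ (ℓ a) hℓ
  have h5 : ({a, b, c, d} : Finset (Ed 3)) ⊆ V.filter fun v => ℓ v = ℓ a := by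
    intro x hx
    simp only [Finset.mem_insert, Finset.mem_singleton] at hx
    rw [Finset.mem_filter]
    rcases hx with rfl | rfl | rfl | rfl
    · exact ⟨ha, rfl⟩
    · exact ⟨hb, h1⟩
    · exact ⟨hc, h2⟩
    · exact ⟨hd, h3⟩
  have h6 : ({a, b, c, d} : Finset (Ed 3)).card = 4 := by
    rw [Finset.card_insert_of_notMem, Finset.card_insert_of_notMem, Finset.card_insert_of_notMem,
      Finset.card_singleton]
    · simpa using hcd
    · simp only [Finset.mem_insert, Finset.mem_singleton, not_or]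
      exact ⟨hbc, hbd⟩
    · simp only [Finset.mem_insert, Finset.mem_singleton, not_or]
      exact ⟨hab, hac, had⟩
  have h7 := Finset.card_le_card h5
  omega

end Pool.Agent.LibSt23
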