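import Pool.Agent.LibSt23.N1
import Pool.Agent.LibTet23.F2

/-!
[ST23 N2] (MEDIUM) Translation of the partition (compare `part_nat`, `F2_key`, `F2_fo` in LibTet23.F2). Take `S' = I \ (A ∪ B)`, `A' = A`, `B' = B \ A`. `ind`, `fA`, `fB` as there. For `s ∈ S'`: `nbd V (fc V) s = V.filter (E s ·)`; `(nbd V (fc V) s).filter (· ∈ A) ⊆ A.filter (E s ·)`, and `.filter (· ∈ B \ A) ⊆ B.filter (E s ·)` (`Finset.card_le_card`). `mxf (fc V) A (B \ A) s ⊆ ((A ×ˢ B).filter ..).image (fun q => {s, q.1, q.2})`: `F ∋ s`, `x ∈ A`, `y ∈ B \ A` in `F`, three different members (`s ∉ A ∪ B`), `F.card = 3` (`hS.three`): `F = {s, x, y}`; `Fc F` by `hF` and `card3_of` (LibTet23.F1; `mem_fc`). `Finset.card_image_le`. `Gp V` by `gp_nat`.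
-/

set_option autoImplicit false

namespace Pool.Agent.LibSt23

open Finset Pool.Agent.LibPol19 Pool.Agent.LibTet88 Pool.Agent.LibTet23
open scoped Classical

private theorem N2_mf {β : Type*} (p : β → Prop) (hd : DecidablePred p) (t : Finset β) (x : β) :
    x ∈ @Finset.filter β p hd t ↔ x ∈ t ∧ p x := Finset.mem_filter

private theorem N2_key {V : Finset (Ed 3)} (hS : SV V) {E : Ed 3 → Ed 3 → Prop}
    (hE : ∀ v u, E v u ↔ u ≠ v ∧ IsExposed ℝ (convexHull ℝ (V : Set (Ed 3))) (segment ℝ v u))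
    {w u : Ed 3} (hw : w ∈ V) (hu : u ∈ V) : Aj (fc V) w u ↔ E w u := by
  rw [aj_iff hS, adj_edge hS.vert hw hu, hE]

private theorem N2_fo {V : Finset (Ed 3)} (hS : SV V) {E : Ed 3 → Ed 3 → Prop}
    (hE : ∀ v u, E v u ↔ u ≠ v ∧ IsExposed ℝ (convexHull ℝ (V : Set (Ed 3))) (segment ℝ v u))
    {A A' : Finset (Ed 3)} (hA : A ⊆ V) (hA' : A' ⊆ A)
    (h3 : ∀ W ⊆ A, W.Nonempty → ∃ w ∈ W, (W.filter fun u => E w u).card ≤ 1) : Fo (fc V) A' := by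
  intro W hW hne
  obtain ⟨w, hw, hc⟩ := h3 W (hW.trans hA') hne
  refine ⟨w, hw, ?_⟩
  have h : (W.filter fun u => Aj (fc V) w u) = W.filter fun u => E w u :=
    filter_congr fun u hu => N2_key hS hE (hA (hA' (hW hw))) (hA (hA' (hW hu)))
  rw [h]
  exact hc

private theorem N2_mxf {V : Finset (Ed 3)} (hS : SV V)
    (Fc : Finset (Ed 3) → Prop) (hF : ∀ F, Fc F ↔ F.card = 3 ∧ ∃ (ℓ : Ed 3 →ₗ[ℝ] ℝ) (c : ℝ), ℓ ≠ 0 ∧
      (∀ v ∈ V, ℓ v ≤ c) ∧ F = V.filter fun v => ℓ v = c)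
    {A B : Finset (Ed 3)} {s : Ed 3} (hsA : s ∉ A) (hsB : s ∉ B) :
    (mxf (fc V) A (B \ A) s).card ≤ ((A ×ˢ B).filter fun q => Fc {s, q.1, q.2}).card := by
  have h : mxf (fc V) A (B \ A) s ⊆
      ((A ×ˢ B).filter fun q => Fc {s, q.1, q.2}).image fun q => ({s, q.1, q.2} : Finset (Ed 3)) := by
    intro F hFm
    unfold mxf at hFm
    obtain ⟨hFc, hsF, ⟨x, hxF, hxA⟩, y, hyF, hyB⟩ := (N2_mf _ _ _ _).1 hFm
    rw [mem_sdiff] at hyB
    have hFct := mem_fc.1 hFc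
    have h3 := hS.three F hFct
    have hsx : s ≠ x := fun h => hsA (h ▸ hxA)
    have hsy : s ≠ y := fun h => hsB (h ▸ hyB.1)
    have hxy : x ≠ y := fun h => hyB.2 (h ▸ hxA)
    have h4 : ({s, x, y} : Finset (Ed 3)).card = 3 := by
      rw [card_eq_three]
      exact ⟨s, x, y, hsx, hsy, hxy, rfl⟩
    have h5 : ({s, x, y} : Finset (Ed 3)) = F := by
      apply eq_of_subset_of_card_le
      · intro z hz
        simp only [mem_insert, mem_singleton] at hz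
        rcases hz with rfl | rfl | rfl
        · exact hsF
        · exact hxF
        · exact hyF
      · rw [h3, h4]
    rw [mem_image]
    refine ⟨(x, y), ?_, h5⟩
    rw [mem_filter, mem_product]
    refine ⟨⟨hxA, hyB.1⟩, ?_⟩
    show Fc {s, x, y}
    rw [h5, hF]
    obtain ⟨ℓ, c, h6, h7, h8, -⟩ := card3_of hS.full hFct
    exact ⟨h3, ℓ, c, h6, h7, h8⟩
  exact (card_le_card h).trans card_image_le

theorem partS_nat {V : Finset (Ed 3)} (hS : SV V) (E : Ed 3 → Ed 3 → Prop)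
    (hE : ∀ v u, E v u ↔ u ≠ v ∧ IsExposed ℝ (convexHull ℝ (V : Set (Ed 3))) (segment ℝ v u))
    (Fc : Finset (Ed 3) → Prop) (hF : ∀ F, Fc F ↔ F.card = 3 ∧ ∃ (ℓ : Ed 3 →ₗ[ℝ] ℝ) (c : ℝ), ℓ ≠ 0 ∧
      (∀ v ∈ V, ℓ v ≤ c) ∧ F = V.filter fun v => ℓ v = c)
    {I A B : Finset (Ed 3)} (hc : V = I ∪ A ∪ B) (h1 : ∀ s ∈ I, ∀ t ∈ I, ¬ E s t) (s₀ : Ed 3)
    (h2 : ∀ s ∈ I, (V.filter fun u => E s u).card ≤ 4 ∨
      (((A ×ˢ B).filter fun q => Fc {s, q.1, q.2}).card ≤ 2 ∧ (s = s₀ ∨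
        ((∀ (ℓ : Ed 3 →ₗ[ℝ] ℝ) (c : ℝ), ℓ ≠ 0 → (V.filter fun v => ℓ v = c).card ≤ 3) ∧
          ((V.filter fun u => E s u).card ≤ 6 ∨
            ((A.filter fun u => E s u).card ≤ 4 ∧ (B.filter fun u => E s u).card ≤ 4))))))
    (h3 : ∀ W ⊆ A, W.Nonempty → ∃ w ∈ W, (W.filter fun u => E w u).card ≤ 1)
    (h4 : ∀ W ⊆ B, W.Nonempty → ∃ w ∈ W, (W.filter fun u => E w u).card ≤ 1) :
    ∃ S' A' B', PartS V (fc V) S' A' B' s₀ (Gp V) := by
  have hI : I ⊆ V := fun x hx => by rw [hc]; exact mem_union_left _ (mem_union_left _ hx)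
  have hA : A ⊆ V := fun x hx => by rw [hc]; exact mem_union_left _ (mem_union_right _ hx)
  have hB : B ⊆ V := fun x hx => by rw [hc]; exact mem_union_right _ hx
  have hS1 : ∀ s ∈ I \ (A ∪ B), s ∈ I ∧ s ∉ A ∧ s ∉ B := by
    intro s hs
    rw [mem_sdiff, mem_union, not_or] at hs
    exact hs
  have hnb : ∀ s ∈ I \ (A ∪ B), nbd V (fc V) s = V.filter fun u => E s u := fun s hs =>
    filter_congr fun u hu => N2_key hS hE (hI (hS1 s hs).1) hu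
  have hmx : ∀ s ∈ I \ (A ∪ B), (mxf (fc V) A (B \ A) s).card ≤
      ((A ×ˢ B).filter fun q => Fc {s, q.1, q.2}).card := fun s hs =>
    N2_mxf hS Fc hF (hS1 s hs).2.1 (hS1 s hs).2.2
  refine ⟨I \ (A ∪ B), A, B \ A, ?_, ?_, ?_, ?_, ?_, ?_, ?_, ?_, ?_⟩
  · intro v
    have h5 : v ∈ V ↔ (v ∈ I ∨ v ∈ A) ∨ v ∈ B := by
      conv_lhs => rw [hc]
      rw [mem_union, mem_union]
    rw [h5, mem_sdiff, mem_sdiff, mem_union]
    tauto
  · exact disjoint_left.2 fun x hx hx' => (hS1 x hx).2.1 hx'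
  · exact disjoint_left.2 fun x hx hx' => (hS1 x hx).2.2 (mem_sdiff.1 hx').1
  · exact disjoint_sdiff
  · intro s hs t ht h
    exact h1 s (hS1 s hs).1 t (hS1 t ht).1
      ((N2_key hS hE (hI (hS1 s hs).1) (hI (hS1 t ht).1)).1 h)
  · exact N2_fo hS hE hA subset_rfl h3
  · exact N2_fo hS hE hB sdiff_subset h4
  · intro s hs hs0
    rw [hnb s hs]
    rcases h2 s (hS1 s hs).1 with h5 | ⟨h5, h6 | ⟨h6, h7⟩⟩
    · exact Or.inl h5
    · exact absurd h6 hs0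
    · refine Or.inr ⟨gp_nat h6, (hmx s hs).trans h5, ?_⟩
      rcases h7 with h7 | ⟨h7, h8⟩
      · exact Or.inl h7
      · refine Or.inr ⟨le_trans (card_le_card ?_) h7, le_trans (card_le_card ?_) h8⟩
        · intro u hu
          obtain ⟨h9, h10⟩ := (N2_mf _ _ _ _).1 hu
          exact mem_filter.2 ⟨h10, (mem_filter.1 h9).2⟩
        · intro u hu
          obtain ⟨h9, h10⟩ := (N2_mf _ _ _ _).1 hu
          exact mem_filter.2 ⟨(mem_sdiff.1 h10).1, (mem_filter.1 h9).2⟩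
  · intro hs
    rw [hnb s₀ hs]
    rcases h2 s₀ (hS1 s₀ hs).1 with h5 | ⟨h5, -⟩
    · exact Or.inl h5
    · exact Or.inr ((hmx s₀ hs).trans h5)

end Pool.Agent.LibSt23
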