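import Pool.Agent.LibSt23.E2

/-!
[ST23 Q1] (SHORT) Rotation and reversal of rings. `mem_rg`: `List.mem_toFinset`, `List.mem_map`. `rg_rot`, `rg_rev`: `Finset.ext`, `mem_rg`, `mem_prs_rotate`, `mem_prs_reverse` (`{p, s, y, x} = {p, s, x, y}`: `Finset.pair_comm`). `qg_rot`, `qg_rev`: field by field (`pg_rot`, `pg_rev`).
-/

set_option autoImplicit false

namespace Pool.Agent.LibSt23

open Finset Pool.Agent.LibPol19 Pool.Agent.LibTet88 Pool.Agent.LibTet23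
open scoped Classical

theorem mem_rg {p s : Ed 3} {l : List (Ed 3)} {t : Finset (Ed 3)} :
    t ∈ rg p s l ↔ ∃ q ∈ prs l, t = {p, s, q.1, q.2} := by
  unfold rg
  rw [List.mem_toFinset, List.mem_map]
  exact ⟨fun ⟨q, h1, h2⟩ => ⟨q, h1, h2.symm⟩, fun ⟨q, h1, h2⟩ => ⟨q, h1, h2.symm⟩⟩

theorem rg_rot (p s : Ed 3) (l : List (Ed 3)) (n : ℕ) : rg p s (l.rotate n) = rg p s l := by
  ext1 t
  rw [mem_rg, mem_rg]
  exact ⟨fun ⟨q, h1, h2⟩ => ⟨q, mem_prs_rotate.1 h1, h2⟩, fun ⟨q, h1, h2⟩ => ⟨q, mem_prs_rotate.2 h1, h2⟩⟩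

theorem rg_rev (p s : Ed 3) (l : List (Ed 3)) : rg p s l.reverse = rg p s l := by
  ext1 t
  rw [mem_rg, mem_rg]
  constructor
  · rintro ⟨q, h1, h2⟩
    exact ⟨(q.2, q.1), mem_prs_reverse.1 h1, h2.trans (by rw [Finset.pair_comm q.1 q.2])⟩
  · rintro ⟨q, h1, h2⟩
    exact ⟨(q.2, q.1), mem_prs_reverse.2 h1, h2.trans (by rw [Finset.pair_comm q.1 q.2])⟩

theorem qg_rot {V : Finset (Ed 3)} {T : Finset (Finset (Ed 3))} {σ : ℝ} {p s : Ed 3} {l : List (Ed 3)}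
    (h : Qg V T σ p s l) (n : ℕ) : Qg V T σ p s (l.rotate n) where
  sg := h.sg
  tet := h.tet
  pg := pg_rot h.pg n
  three := by
    rw [List.length_rotate]
    exact h.three
  ring := fun q hq => h.ring q (mem_prs_rotate.1 hq)
  ed := fun y hy => by
    obtain ⟨ℓ, e1, e2, e3⟩ := h.ed y (List.mem_rotate.1 hy)
    exact ⟨ℓ, e1, e2, fun x hx => e3 x (List.mem_rotate.1 hx)⟩
  ps := h.ps
  pn := fun h1 => h.pn (List.mem_rotate.1 h1)
  sn := fun h1 => h.sn (List.mem_rotate.1 h1)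

theorem qg_rev {V : Finset (Ed 3)} {T : Finset (Finset (Ed 3))} {σ : ℝ} {p s : Ed 3} {l : List (Ed 3)}
    (h : Qg V T σ p s l) : Qg V T (-σ) p s l.reverse where
  sg := by
    rcases h.sg with h1 | h1
    · right; rw [h1]
    · left; rw [h1, neg_neg]
  tet := h.tet
  pg := pg_rev h.pg
  three := by
    rw [List.length_reverse]
    exact h.three
  ring := fun q hq => by
    have h1 := h.ring _ (mem_prs_reverse.1 hq)
    rw [Finset.pair_comm q.1 q.2]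
    exact h1
  ed := fun y hy => by
    obtain ⟨ℓ, e1, e2, e3⟩ := h.ed y (List.mem_reverse.1 hy)
    exact ⟨ℓ, e1, e2, fun x hx => e3 x (List.mem_reverse.1 hx)⟩
  ps := h.ps
  pn := fun h1 => h.pn (List.mem_reverse.1 h1)
  sn := fun h1 => h.sn (List.mem_reverse.1 h1)

end Pool.Agent.LibSt23
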