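import Pool.Agent.LibSt23.E1

/-!
[ST23 R1] (SHORT/MEDIUM) Radon coefficients. `b_rel` for `x, y, z`: `cs • (s - p) + cy • (y - p) = cx • (x - p) + cz • (z - p)` with `cs = b3 x y z > 0`, `cy = b2 x z > 0`, `cx = b2 y z > 0`, `cz = b2 x y > 0`. Apply `ℓ`, with `L u := ℓ s - ℓ u`: `L s = L y = 0`, `L p, L x, L z > 0`: `- (cs + cy) L p = cx (L x - L p) + cz (L z - L p)` (because `ℓ (u - p) = L p - L u`), so `(cx + cz - cs - cy) L p = cx L x + cz L z > 0`: `cp := cx + cz - cs - cy > 0`. Then `cp • p + cs • s + cy • y = cx • x + cz • z`; divide by `cx + cz`: `a = cp / (cx + cz)` etc., `t = cx / (cx + cz)`.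
-/

set_option autoImplicit false

namespace Pool.Agent.LibSt23

open Finset Pool.Agent.LibPol19 Pool.Agent.LibTet88 Pool.Agent.LibTet23
open scoped Classical

theorem rad_of {σ : ℝ} {p s x y z : Ed 3} (h1 : 0 < b2 σ p s x y) (h2 : 0 < b2 σ p s y z) (h : Er σ p s x y z)
    {ℓ : Ed 3 →ₗ[ℝ] ℝ} (e1 : ℓ y = ℓ s) (e2 : ℓ p < ℓ s) (e3 : ℓ x < ℓ s) (e4 : ℓ z < ℓ s) : Rad p s x y z := by
  have r := b_rel σ p s x y z
  obtain ⟨h3, h4⟩ := h
  generalize b3 σ p x y z = cs at r h4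
  generalize b2 σ p s y z = cx at r h2
  generalize b2 σ p s x z = cy at r h3
  generalize b2 σ p s x y = cz at r h1
  have r1 := congrArg ℓ r
  simp only [map_add, map_sub, map_smul, smul_eq_mul, map_zero] at r1
  rw [e1] at r1
  have hp : 0 < ℓ s - ℓ p := by linarith
  have hcp : 0 < cx + cz - cs - cy := by
    have h5 : (cx + cz - cs - cy) * (ℓ s - ℓ p) = cx * (ℓ s - ℓ x) + cz * (ℓ s - ℓ z) := by
      linear_combination -r1
    have h6 : 0 < cx * (ℓ s - ℓ x) := mul_pos h2 (by linarith)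
    have h7 : 0 < cz * (ℓ s - ℓ z) := mul_pos h1 (by linarith)
    by_contra hn
    have := mul_nonpos_of_nonpos_of_nonneg (not_lt.1 hn) hp.le
    linarith
  have hD : 0 < cx + cz := by linarith
  have hD' : cx + cz ≠ 0 := hD.ne'
  have r2 : (cx + cz - cs - cy) • p + cs • s + cy • y = cx • x + cz • z := by
    have h8 : ((cx + cz - cs - cy) • p + cs • s + cy • y) - (cx • x + cz • z) =
        cs • (s - p) - cx • (x - p) + cy • (y - p) - cz • (z - p) := by module
    rw [r] at h8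
    exact sub_eq_zero.1 h8
  refine ⟨(cx + cz)⁻¹ * (cx + cz - cs - cy), (cx + cz)⁻¹ * cs, (cx + cz)⁻¹ * cy, (cx + cz)⁻¹ * cx,
    by positivity, by positivity, by positivity, by positivity, ?_, ?_, ?_⟩
  · rw [inv_mul_lt_iff₀ hD]
    linarith
  · field_simp
    ring
  · have h9 : 1 - (cx + cz)⁻¹ * cx = (cx + cz)⁻¹ * cz := by
      field_simp
      ring
    rw [h9, mul_smul, mul_smul, mul_smul, mul_smul, mul_smul, ← smul_add, ← smul_add, ← smul_add, r2]

end Pool.Agent.LibSt23
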