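import Pool.Agent.LibSt23.Q1
import Pool.Agent.LibSt23.E3
import Pool.Agent.LibSt23.R1
import Pool.Agent.LibSt23.G5

/-!
[ST23 Q2] One flip in the ring.
-/

set_option autoImplicit false

namespace Pool.Agent.LibSt23

open Finset Pool.Agent.LibPol19 Pool.Agent.LibTet88 Pool.Agent.LibTet23
open scoped Classical

theorem qg_flip {V : Finset (Ed 3)} {T : Finset (Finset (Ed 3))} {σ : ℝ} {p s x y z : Ed 3} {r : List (Ed 3)}
    (h : Qg V T σ p s (x :: y :: z :: r)) (hr : r ≠ []) (he : Er σ p s x y z) :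
    Qg V (fl T p s x y z) σ p s (x :: z :: r) ∧
      fl T p s x y z = (T \ rg p s (x :: y :: z :: r)) ∪ rg p s (x :: z :: r) ∪ {{p, x, y, z}, {s, x, y, z}} ∧
      ({p, x, y, z} : Finset (Ed 3)) ∉ T ∧ ({s, x, y, z} : Finset (Ed 3)) ∉ T ∧
      ∀ t ∈ rg p s (x :: z :: r), t ∈ T → t ∈ rg p s (x :: y :: z :: r) := by
  have pxy : (x, y) ∈ prs (x :: y :: z :: r) := by
    rw [prs_cons3]
    exact List.mem_cons_self
  have pyz : (y, z) ∈ prs (x :: y :: z :: r) := by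
    rw [prs_cons3]
    exact List.mem_cons_of_mem _ List.mem_cons_self
  have hnd := h.pg.nodup
  simp only [List.nodup_cons, List.mem_cons, not_or] at hnd
  obtain ⟨⟨hxy, hxz, hxr⟩, ⟨hyz, hyr⟩, hzr, hrn⟩ := hnd
  have hpn := h.pn
  have hsn := h.sn
  simp only [List.mem_cons, not_or] at hpn hsn
  obtain ⟨hpx, hpy, hpz, hpr⟩ := hpn
  obtain ⟨hsx, hsy, hsz, hsr⟩ := hsn
  obtain ⟨ℓ, e1, e2, e3⟩ := h.ed y (by simp)
  have b1 := h.pg.pos (x, y) pxy
  have b2' := h.pg.pos (y, z) pyz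
  dsimp only at b1 b2'
  have hrad : Rad p s x y z := rad_of b1 b2' he e1 e2 (e3 x (by simp) hxy) (e3 z (by simp) (Ne.symm hyz))
  have t1 := h.ring (x, y) pxy
  have t2 := h.ring (y, z) pyz
  dsimp only at t1 t2
  obtain ⟨f1, f2, f3, f4⟩ := flip h.tet t1 t2 hrad hxz
  obtain ⟨R, hR⟩ : ∃ R : List (Ed 3 × Ed 3), R = (z :: r).zip (r ++ [x]) := ⟨_, rfl⟩
  have hRy : ∀ q ∈ R, q.1 ≠ y ∧ q.2 ≠ y := by
    intro q hq
    rw [hR] at hq
    have h1 := List.of_mem_zip (a := q.1) (b := q.2) hq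
    refine ⟨?_, ?_⟩
    · intro h2
      rw [h2, List.mem_cons] at h1
      rcases h1.1 with h3 | h3
      · exact hyz h3
      · exact hyr h3
    · intro h2
      rw [h2, List.mem_append, List.mem_singleton] at h1
      rcases h1.2 with h3 | h3
      · exact hyr h3
      · exact hxy h3.symm
  have hRT : ∀ q ∈ R, ({p, s, q.1, q.2} : Finset (Ed 3)) ∈ T := by
    intro q hq
    have h1 : q ∈ prs (x :: y :: z :: r) := by
      rw [prs_cons3, ← hR]
      exact List.mem_cons_of_mem _ (List.mem_cons_of_mem _ hq)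
    exact h.ring q h1
  have hyN : ∀ q ∈ R, y ∉ ({p, s, q.1, q.2} : Finset (Ed 3)) := by
    intro q hq h1
    simp only [Finset.mem_insert, Finset.mem_singleton] at h1
    obtain ⟨h2, h3⟩ := hRy q hq
    rcases h1 with h1 | h1 | h1 | h1
    · exact hpy h1.symm
    · exact hsy h1.symm
    · exact h2 h1.symm
    · exact h3 h1.symm
  have hold : ∀ t, t ∈ rg p s (x :: y :: z :: r) ↔ (t = {p, s, x, y} ∨ t = {p, s, y, z} ∨
      ∃ q ∈ R, t = {p, s, q.1, q.2}) := by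
    intro t
    rw [mem_rg, prs_cons3, ← hR]
    constructor
    · rintro ⟨q, hq, ht⟩
      rcases List.mem_cons.1 hq with rfl | hq
      · exact Or.inl ht
      · rcases List.mem_cons.1 hq with rfl | hq
        · exact Or.inr (Or.inl ht)
        · exact Or.inr (Or.inr ⟨q, hq, ht⟩)
    · rintro (ht | ht | ⟨q, hq, ht⟩)
      · exact ⟨(x, y), List.mem_cons_self, ht⟩
      · exact ⟨(y, z), List.mem_cons_of_mem _ List.mem_cons_self, ht⟩
      · exact ⟨q, List.mem_cons_of_mem _ (List.mem_cons_of_mem _ hq), ht⟩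
  have hnew : ∀ t, t ∈ rg p s (x :: z :: r) ↔ (t = {p, s, x, z} ∨ ∃ q ∈ R, t = {p, s, q.1, q.2}) := by
    intro t
    rw [mem_rg, prs_cons2, ← hR]
    constructor
    · rintro ⟨q, hq, ht⟩
      rcases List.mem_cons.1 hq with rfl | hq
      · exact Or.inl ht
      · exact Or.inr ⟨q, hq, ht⟩
    · rintro (ht | ⟨q, hq, ht⟩)
      · exact ⟨(x, z), List.mem_cons_self, ht⟩
      · exact ⟨q, List.mem_cons_of_mem _ hq, ht⟩
  have y1 : y ∈ ({p, s, x, y} : Finset (Ed 3)) := by simp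
  have y2 : y ∈ ({p, s, y, z} : Finset (Ed 3)) := by simp
  have hfl : ∀ t, t ∈ fl T p s x y z ↔ (t ≠ {p, s, y, z} ∧ t ≠ {p, s, x, y} ∧ t ∈ T) ∨
      (t = {p, s, x, z} ∨ t = {p, x, y, z} ∨ t = {s, x, y, z}) := by
    intro t
    unfold fl
    rw [mem_union, mem_erase, mem_erase, mem_insert, mem_insert, mem_singleton]
  have hRfl : ∀ q ∈ R, ({p, s, q.1, q.2} : Finset (Ed 3)) ∈ fl T p s x y z := by
    intro q hq
    rw [hfl]
    have k1 : ({p, s, q.1, q.2} : Finset (Ed 3)) ≠ {p, s, y, z} := by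
      intro h1
      exact hyN q hq (by rw [h1]; exact y2)
    have k2 : ({p, s, q.1, q.2} : Finset (Ed 3)) ≠ {p, s, x, y} := by
      intro h1
      exact hyN q hq (by rw [h1]; exact y1)
    exact Or.inl ⟨k1, k2, hRT q hq⟩
  have g0 : Pg σ p s (x :: z :: r) := pg_rem h.pg hr he.1
  have g1 : 3 ≤ (x :: z :: r).length := by
    obtain ⟨w, r', rfl⟩ := List.exists_cons_of_ne_nil hr
    simp
  have g2 : ∀ q ∈ prs (x :: z :: r), ({p, s, q.1, q.2} : Finset (Ed 3)) ∈ fl T p s x y z := by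
    intro q hq
    rw [prs_cons2, ← hR] at hq
    rcases List.mem_cons.1 hq with rfl | hq
    · rw [hfl]
      exact Or.inr (Or.inl rfl)
    · exact hRfl q hq
  have g3 : ∀ y' ∈ x :: z :: r, ∃ ℓ : Ed 3 →ₗ[ℝ] ℝ, ℓ y' = ℓ s ∧ ℓ p < ℓ s ∧
      ∀ x' ∈ x :: z :: r, x' ≠ y' → ℓ x' < ℓ s := by
    intro y' hy'
    have hy2 : y' ∈ x :: y :: z :: r := by
      rcases List.mem_cons.1 hy' with h1 | h1
      · exact List.mem_cons.2 (Or.inl h1)
      · exact List.mem_cons.2 (Or.inr (List.mem_cons_of_mem _ h1))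
    obtain ⟨m, m1, m2, m3⟩ := h.ed y' hy2
    refine ⟨m, m1, m2, fun w hw hwy => m3 w ?_ hwy⟩
    rcases List.mem_cons.1 hw with h1 | h1
    · exact List.mem_cons.2 (Or.inl h1)
    · exact List.mem_cons.2 (Or.inr (List.mem_cons_of_mem _ h1))
  have g4 : p ∉ x :: z :: r := by
    simp only [List.mem_cons, not_or]
    exact ⟨hpx, hpz, hpr⟩
  have g5 : s ∉ x :: z :: r := by
    simp only [List.mem_cons, not_or]
    exact ⟨hsx, hsz, hsr⟩
  have g6 : fl T p s x y z =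
      (T \ rg p s (x :: y :: z :: r)) ∪ rg p s (x :: z :: r) ∪ {{p, x, y, z}, {s, x, y, z}} := by
    ext t
    rw [hfl, mem_union, mem_union, mem_sdiff, hold, hnew, mem_insert, mem_singleton]
    constructor
    · rintro (⟨h1, h2, h3⟩ | h1 | h1 | h1)
      · by_cases h4 : ∃ q ∈ R, t = {p, s, q.1, q.2}
        · exact Or.inl (Or.inr (Or.inr h4))
        · have h6 : ¬ (t = {p, s, x, y} ∨ t = {p, s, y, z} ∨ ∃ q ∈ R, t = {p, s, q.1, q.2}) := by
            rintro (h5 | h5 | h5)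
            · exact h2 h5
            · exact h1 h5
            · exact h4 h5
          exact Or.inl (Or.inl ⟨h3, h6⟩)
      · exact Or.inl (Or.inr (Or.inl h1))
      · exact Or.inr (Or.inl h1)
      · exact Or.inr (Or.inr h1)
    · rintro ((⟨h1, h2⟩ | h1 | ⟨q, hq, h1⟩) | h1 | h1)
      · exact Or.inl ⟨fun h3 => h2 (Or.inr (Or.inl h3)), fun h3 => h2 (Or.inl h3), h1⟩
      · exact Or.inr (Or.inl h1)
      · rw [h1]
        exact (hfl _).1 (hRfl q hq)
      · exact Or.inr (Or.inr (Or.inl h1))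
      · exact Or.inr (Or.inr (Or.inr h1))
  have g7 : ∀ t ∈ rg p s (x :: z :: r), t ∈ T → t ∈ rg p s (x :: y :: z :: r) := by
    intro t ht htT
    rcases (hnew t).1 ht with h1 | h1
    · exact absurd (h1 ▸ htT) f2
    · exact (hold t).2 (Or.inr (Or.inr h1))
  exact ⟨⟨h.sg, f1, g0, g1, g2, g3, h.ps, g4, g5⟩, g6, f3, f4, g7⟩

end Pool.Agent.LibSt23
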