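import Pool.Agent.LibSt23.Q1

/-!
[ST23 S0] (SHORT/MEDIUM) Symmetries. `α ++ β.reverse` reversed is `β ++ α.reverse`; `α.reverse ++ β.reverse.reverse = α.reverse ++ β` is a rotation of `β ++ α.reverse` (`List.rotate_append_length_eq`). `sh_swap`: `qg_rev`; `sh_rev`: `qg_rev`, `qg_rot`. `sg_swap`: the same `Z` (`rg_rev`; `{ε, b, a} = {ε, a, b}`). `sg_rev`: `Z.reverse` (`List.nodup_reverse`, `List.isChain_reverse` with `Finset.inter_comm`, `List.head?_reverse`, `List.getLast?_reverse`; the ring: `rg_rev`, `rg_rot`).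
-/

set_option autoImplicit false

namespace Pool.Agent.LibSt23

open Finset Pool.Agent.LibPol19 Pool.Agent.LibTet88 Pool.Agent.LibTet23
open scoped Classical

theorem sh_swap {V : Finset (Ed 3)} {T : Finset (Finset (Ed 3))} {σ : ℝ} {p s : Ed 3} {α β : List (Ed 3)}
    (h : SH V T σ p s α β) : SH V T (-σ) p s β α := by
  refine ⟨?_, h.b1, h.a1, h.b4, h.a4⟩
  have h1 := qg_rev h.qg
  rw [List.reverse_append, List.reverse_reverse] at h1
  exact h1

theorem sh_rev {V : Finset (Ed 3)} {T : Finset (Finset (Ed 3))} {σ : ℝ} {p s : Ed 3} {α β : List (Ed 3)}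
    (h : SH V T σ p s α β) : SH V T (-σ) p s α.reverse β.reverse := by
  refine ⟨?_, ?_, ?_, ?_, ?_⟩
  · have h1 := qg_rot (qg_rev h.qg) β.length
    rw [List.reverse_append, List.reverse_reverse, List.rotate_append_length_eq] at h1
    rw [List.reverse_reverse]
    exact h1
  · intro h0
    exact h.a1 (List.reverse_eq_nil_iff.mp h0)
  · intro h0
    exact h.b1 (List.reverse_eq_nil_iff.mp h0)
  · rw [List.length_reverse]
    exact h.a4
  · rw [List.length_reverse]
    exact h.b4

theorem sg_swap {V : Finset (Ed 3)} {T : Finset (Finset (Ed 3))} {p s ε δ : Ed 3} {α β : List (Ed 3)}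
    (h : SG V T p s ε δ β α) : SG V T p s ε δ α β := by
  obtain ⟨Z, hZ, hT, hn⟩ := h
  have hr : rg p s (α ++ β.reverse) = rg p s (β ++ α.reverse) := by
    rw [← rg_rev p s (β ++ α.reverse), List.reverse_append, List.reverse_reverse]
  refine ⟨Z, ⟨hZ.nd, hZ.ne, hZ.ch, ?_, ?_, ?_⟩, ?_, ?_⟩
  · intro t ht a ha b hb
    have h1 := hZ.hd t ht b hb a ha
    rw [Finset.pair_comm a b]
    exact h1
  · intro t ht a ha b hb
    have h1 := hZ.lt t ht b hb a ha
    rw [Finset.pair_comm a b]
    exact h1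
  · intro t ht x hx
    rcases hZ.sub t ht x hx with h1 | h1 | h1 | h1
    · exact Or.inl h1
    · exact Or.inr (Or.inl h1)
    · exact Or.inr (Or.inr (Or.inr h1))
    · exact Or.inr (Or.inr (Or.inl h1))
  · rw [hr]
    exact hT
  · rw [hr]
    exact hn

theorem sg_rev {V : Finset (Ed 3)} {T : Finset (Finset (Ed 3))} {p s ε δ : Ed 3} {α β : List (Ed 3)}
    (h : SG V T p s δ ε α.reverse β.reverse) : SG V T p s ε δ α β := by
  obtain ⟨Z, hZ, hT, hn⟩ := h
  have hr : rg p s (α.reverse ++ β.reverse.reverse) = rg p s (α ++ β.reverse) := by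
    rw [← rg_rev p s (α ++ β.reverse), List.reverse_append, List.reverse_reverse,
      ← rg_rot p s (β ++ α.reverse) β.length, List.rotate_append_length_eq]
  rw [hr] at hT hn
  refine ⟨Z.reverse, ⟨List.nodup_reverse.mpr hZ.nd, ?_, ?_, ?_, ?_, ?_⟩, ?_, ?_⟩
  · intro h0
    exact hZ.ne (List.reverse_eq_nil_iff.mp h0)
  · rw [List.isChain_reverse]
    refine hZ.ch.imp ?_
    intro t u htu
    change (u ∩ t).card = 3
    rw [Finset.inter_comm]
    exact htu
  · intro t ht a ha b hb
    rw [List.head?_reverse] at ht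
    refine hZ.lt t ht a ?_ b ?_
    · rw [List.getLast?_reverse]
      exact ha
    · rw [List.getLast?_reverse]
      exact hb
  · intro t ht a ha b hb
    rw [List.getLast?_reverse] at ht
    refine hZ.hd t ht a ?_ b ?_
    · rw [List.head?_reverse]
      exact ha
    · rw [List.head?_reverse]
      exact hb
  · intro t ht x hx
    rcases hZ.sub t (List.mem_reverse.mp ht) x hx with h1 | h1 | h1 | h1
    · exact Or.inl h1
    · exact Or.inr (Or.inl h1)
    · exact Or.inr (Or.inr (Or.inl (List.mem_reverse.mp h1)))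
    · exact Or.inr (Or.inr (Or.inr (List.mem_reverse.mp h1)))
  · rw [List.toFinset_reverse]
    exact hT
  · intro t ht
    exact hn t (List.mem_reverse.mp ht)

end Pool.Agent.LibSt23
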