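import Pool.Agent.LibSt23.S0

/-!
[ST23 S1] (MEDIUM) One of the runs is a single point: the ring itself is the strand. By `sh_swap`, `sg_swap` let `β = [b]`. `Z := (prs (b :: α)).map (fun q => {p, s, q.1, q.2})`: with `α = a₁, .., a_k` (`k ≥ 2`, `three`) these are `{p, s, b, a₁}, {p, s, a₁, a₂}, .., {p, s, a_k, b}`. `Z.toFinset = rg p s (α ++ [b])` (`α ++ [b]` is a rotation of `b :: α`), so `(T \ rg) ∪ Z.toFinset = T`. Nodup: different pairs of a cyclic nodup list of length at least 3 give different sets (`p, s` not in the list). Chain: consecutive ones share `p, s` and one point, and are different sets with 4 elements. Every member contains `p` and `s`, so `ε`, `δ`.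
-/

set_option autoImplicit false

namespace Pool.Agent.LibSt23

open Finset Pool.Agent.LibPol19 Pool.Agent.LibTet88 Pool.Agent.LibTet23
open scoped Classical

private theorem S1_card {p s x y z : Ed 3} (ps : p ≠ s) (_px : p ≠ x) (py : p ≠ y) (_pz : p ≠ z) (_sx : s ≠ x)
    (sy : s ≠ y) (_sz : s ≠ z) (_xy : x ≠ y) (xz : x ≠ z) (_yz : y ≠ z) :
    (({p, s, x, y} : Finset (Ed 3)) ∩ {p, s, y, z}).card = 3 := by
  have h : ({p, s, x, y} : Finset (Ed 3)) ∩ {p, s, y, z} = {p, s, y} := by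
    ext w
    simp only [Finset.mem_inter, Finset.mem_insert, Finset.mem_singleton]
    constructor
    · rintro ⟨h1, h2⟩
      rcases h1 with h1 | h1 | h1 | h1
      · exact Or.inl h1
      · exact Or.inr (Or.inl h1)
      · rcases h2 with h2 | h2 | h2 | h2
        · exact Or.inl h2
        · exact Or.inr (Or.inl h2)
        · exact Or.inr (Or.inr h2)
        · exact absurd (h1.symm.trans h2) xz
      · exact Or.inr (Or.inr h1)
    · rintro (h1 | h1 | h1)
      · exact ⟨Or.inl h1, Or.inl h1⟩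
      · exact ⟨Or.inr (Or.inl h1), Or.inr (Or.inl h1)⟩
      · exact ⟨Or.inr (Or.inr (Or.inr h1)), Or.inr (Or.inr (Or.inl h1))⟩
  rw [h]
  exact Finset.card_eq_three.2 ⟨p, s, y, ps, py, sy, rfl⟩

private theorem S1_ne1 {p s x y z w : Ed 3} (h1 : p ≠ x) (h2 : s ≠ x) (h3 : x ≠ z) (h4 : x ≠ w) :
    ({p, s, x, y} : Finset (Ed 3)) ≠ {p, s, z, w} := by
  intro h
  have hx : x ∈ ({p, s, z, w} : Finset (Ed 3)) := by
    rw [← h]
    simp
  simp only [Finset.mem_insert, Finset.mem_singleton] at hx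
  rcases hx with hx | hx | hx | hx
  · exact h1 hx.symm
  · exact h2 hx.symm
  · exact h3 hx
  · exact h4 hx

private theorem S1_ne2 {p s x y z w : Ed 3} (h1 : p ≠ y) (h2 : s ≠ y) (h3 : y ≠ z) (h4 : y ≠ w) :
    ({p, s, x, y} : Finset (Ed 3)) ≠ {p, s, z, w} := by
  intro h
  have hx : y ∈ ({p, s, z, w} : Finset (Ed 3)) := by
    rw [← h]
    simp
  simp only [Finset.mem_insert, Finset.mem_singleton] at hx
  rcases hx with hx | hx | hx | hx
  · exact h1 hx.symm
  · exact h2 hx.symm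
  · exact h3 hx
  · exact h4 hx

private theorem S1_sub {p s ε a b : Ed 3} {t : Finset (Ed 3)} (hε : ε = p ∨ ε = s) (hp : p ∈ t) (hs : s ∈ t)
    (ha : a ∈ t) (hb : b ∈ t) : ({ε, a, b} : Finset (Ed 3)) ⊆ t := by
  intro w hw
  simp only [Finset.mem_insert, Finset.mem_singleton] at hw
  rcases hw with hw | hw | hw
  · rcases hε with hε | hε
    · rw [hw, hε]; exact hp
    · rw [hw, hε]; exact hs
  · rw [hw]; exact ha
  · rw [hw]; exact hb

private theorem S1_two {p s ε δ b a₁ a₂ : Ed 3} (hn : ([p, s, b, a₁, a₂] : List (Ed 3)).Nodup)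
    (hε : ε = p ∨ ε = s) (hδ : δ = p ∨ δ = s) :
    Strd p s ε δ [a₁, a₂] [b] [{p, s, b, a₁}, {p, s, a₁, a₂}, {p, s, a₂, b}] := by
  simp only [List.nodup_cons, List.mem_cons, List.not_mem_nil, or_false, not_or, List.nodup_nil, and_true,
    not_false_eq_true] at hn
  obtain ⟨⟨ps, pb, p1, p2⟩, ⟨sb, s1, s2⟩, ⟨b1, b2⟩, n12⟩ := hn
  refine ⟨?_, by simp, ?_, ?_, ?_, ?_⟩
  · simp only [List.nodup_cons, List.mem_cons, List.not_mem_nil, or_false, not_or, List.nodup_nil, and_true,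
      not_false_eq_true]
    exact ⟨⟨S1_ne1 pb sb b1 b2, S1_ne2 p1 s1 n12 (Ne.symm b1)⟩, S1_ne1 p1 s1 n12 (Ne.symm b1)⟩
  · simp only [List.isChain_cons_cons, List.isChain_singleton, and_true]
    exact ⟨S1_card ps pb p1 p2 sb s1 s2 b1 b2 n12,
      S1_card ps p1 p2 pb s1 s2 sb n12 (Ne.symm b1) (Ne.symm b2)⟩
  · intro t ht a ha b' hb'
    simp only [List.head?_cons, Option.mem_def, Option.some.injEq] at ht ha hb'
    subst ht ha hb'
    exact S1_sub hε (by simp) (by simp) (by simp) (by simp)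
  · intro t ht a ha b' hb'
    simp only [List.getLast?_cons_cons, List.getLast?_singleton, Option.mem_def, Option.some.injEq] at ht ha hb'
    subst ht ha hb'
    exact S1_sub hδ (by simp) (by simp) (by simp) (by simp)
  · intro t ht x hx
    simp only [List.mem_cons, List.not_mem_nil, or_false] at ht ⊢
    rcases ht with rfl | rfl | rfl <;> simp only [Finset.mem_insert, Finset.mem_singleton] at hx <;> tauto

private theorem S1_thr {p s ε δ b a₁ a₂ a₃ : Ed 3} (hn : ([p, s, b, a₁, a₂, a₃] : List (Ed 3)).Nodup)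
    (hε : ε = p ∨ ε = s) (hδ : δ = p ∨ δ = s) :
    Strd p s ε δ [a₁, a₂, a₃] [b] [{p, s, b, a₁}, {p, s, a₁, a₂}, {p, s, a₂, a₃}, {p, s, a₃, b}] := by
  simp only [List.nodup_cons, List.mem_cons, List.not_mem_nil, or_false, not_or, List.nodup_nil, and_true,
    not_false_eq_true] at hn
  obtain ⟨⟨ps, pb, p1, p2, p3⟩, ⟨sb, s1, s2, s3⟩, ⟨b1, b2, b3⟩, ⟨n12, n13⟩, n23⟩ := hn
  refine ⟨?_, by simp, ?_, ?_, ?_, ?_⟩
  · simp only [List.nodup_cons, List.mem_cons, List.not_mem_nil, or_false, not_or, List.nodup_nil, and_true,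
      not_false_eq_true]
    exact ⟨⟨S1_ne1 pb sb b1 b2, S1_ne1 pb sb b2 b3, S1_ne2 p1 s1 n13 (Ne.symm b1)⟩,
      ⟨S1_ne1 p1 s1 n12 n13, S1_ne1 p1 s1 n13 (Ne.symm b1)⟩, S1_ne1 p2 s2 n23 (Ne.symm b2)⟩
  · simp only [List.isChain_cons_cons, List.isChain_singleton, and_true]
    exact ⟨S1_card ps pb p1 p2 sb s1 s2 b1 b2 n12, S1_card ps p1 p2 p3 s1 s2 s3 n12 n13 n23,
      S1_card ps p2 p3 pb s2 s3 sb n23 (Ne.symm b2) (Ne.symm b3)⟩
  · intro t ht a ha b' hb'
    simp only [List.head?_cons, Option.mem_def, Option.some.injEq] at ht ha hb'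
    subst ht ha hb'
    exact S1_sub hε (by simp) (by simp) (by simp) (by simp)
  · intro t ht a ha b' hb'
    simp only [List.getLast?_cons_cons, List.getLast?_singleton, Option.mem_def, Option.some.injEq] at ht ha hb'
    subst ht ha hb'
    exact S1_sub hδ (by simp) (by simp) (by simp) (by simp)
  · intro t ht x hx
    simp only [List.mem_cons, List.not_mem_nil, or_false] at ht ⊢
    rcases ht with rfl | rfl | rfl | rfl <;> simp only [Finset.mem_insert, Finset.mem_singleton] at hx <;> tauto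

private theorem S1_fou {p s ε δ b a₁ a₂ a₃ a₄ : Ed 3} (hn : ([p, s, b, a₁, a₂, a₃, a₄] : List (Ed 3)).Nodup)
    (hε : ε = p ∨ ε = s) (hδ : δ = p ∨ δ = s) :
    Strd p s ε δ [a₁, a₂, a₃, a₄] [b]
      [{p, s, b, a₁}, {p, s, a₁, a₂}, {p, s, a₂, a₃}, {p, s, a₃, a₄}, {p, s, a₄, b}] := by
  simp only [List.nodup_cons, List.mem_cons, List.not_mem_nil, or_false, not_or, List.nodup_nil, and_true,
    not_false_eq_true] at hn
  obtain ⟨⟨ps, pb, p1, p2, p3, p4⟩, ⟨sb, s1, s2, s3, s4⟩, ⟨b1, b2, b3, b4⟩, ⟨n12, n13, n14⟩, ⟨n23, n24⟩, n34⟩ := hn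
  refine ⟨?_, by simp, ?_, ?_, ?_, ?_⟩
  · simp only [List.nodup_cons, List.mem_cons, List.not_mem_nil, or_false, not_or, List.nodup_nil, and_true,
      not_false_eq_true]
    exact ⟨⟨S1_ne1 pb sb b1 b2, S1_ne1 pb sb b2 b3, S1_ne1 pb sb b3 b4, S1_ne2 p1 s1 n14 (Ne.symm b1)⟩,
      ⟨S1_ne1 p1 s1 n12 n13, S1_ne1 p1 s1 n13 n14, S1_ne1 p1 s1 n14 (Ne.symm b1)⟩,
      ⟨S1_ne1 p2 s2 n23 n24, S1_ne1 p2 s2 n24 (Ne.symm b2)⟩, S1_ne1 p3 s3 n34 (Ne.symm b3)⟩
  · simp only [List.isChain_cons_cons, List.isChain_singleton, and_true]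
    exact ⟨S1_card ps pb p1 p2 sb s1 s2 b1 b2 n12, S1_card ps p1 p2 p3 s1 s2 s3 n12 n13 n23,
      S1_card ps p2 p3 p4 s2 s3 s4 n23 n24 n34, S1_card ps p3 p4 pb s3 s4 sb n34 (Ne.symm b3) (Ne.symm b4)⟩
  · intro t ht a ha b' hb'
    simp only [List.head?_cons, Option.mem_def, Option.some.injEq] at ht ha hb'
    subst ht ha hb'
    exact S1_sub hε (by simp) (by simp) (by simp) (by simp)
  · intro t ht a ha b' hb'
    simp only [List.getLast?_cons_cons, List.getLast?_singleton, Option.mem_def, Option.some.injEq] at ht ha hb'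
    subst ht ha hb'
    exact S1_sub hδ (by simp) (by simp) (by simp) (by simp)
  · intro t ht x hx
    simp only [List.mem_cons, List.not_mem_nil, or_false] at ht ⊢
    rcases ht with rfl | rfl | rfl | rfl | rfl <;> simp only [Finset.mem_insert, Finset.mem_singleton] at hx <;>
      tauto

private theorem S1_strd {V : Finset (Ed 3)} {T : Finset (Finset (Ed 3))} {σ : ℝ} {p s ε δ b : Ed 3}
    {α : List (Ed 3)} (h : SH V T σ p s α [b]) (hε : ε = p ∨ ε = s) (hδ : δ = p ∨ δ = s) :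
    Strd p s ε δ α [b] ((prs (b :: α)).map fun q => ({p, s, q.1, q.2} : Finset (Ed 3))) := by
  have h3 := h.qg.three
  have h4 := h.a4
  have hn := h.qg.pg.nodup
  have hp := h.qg.pn
  have hs := h.qg.sn
  have ps := h.qg.ps
  rw [List.reverse_singleton] at h3 hn hp hs
  have hn' : (b :: α).Nodup := by
    have := hn
    rw [List.nodup_append_comm] at this
    exact this
  have hp' : p ∉ b :: α := fun hh => hp (by
    rw [List.mem_append, List.mem_singleton]
    rw [List.mem_cons] at hh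
    exact hh.symm)
  have hs' : s ∉ b :: α := fun hh => hs (by
    rw [List.mem_append, List.mem_singleton]
    rw [List.mem_cons] at hh
    exact hh.symm)
  have hall : (p :: s :: b :: α).Nodup := by
    rw [List.nodup_cons, List.nodup_cons]
    refine ⟨fun hh => ?_, hs', hn'⟩
    rw [List.mem_cons] at hh
    exact hh.elim ps hp'
  clear hn hp hs hn' hp' hs' h
  rcases α with _ | ⟨a₁, α⟩
  · simp at h3
  rcases α with _ | ⟨a₂, α⟩
  · simp at h3
  rcases α with _ | ⟨a₃, α⟩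
  · exact S1_two hall hε hδ
  rcases α with _ | ⟨a₄, α⟩
  · exact S1_thr hall hε hδ
  rcases α with _ | ⟨a₅, α⟩
  · exact S1_fou hall hε hδ
  · simp only [List.length_cons] at h4
    omega

private theorem S1_fin {V : Finset (Ed 3)} {T : Finset (Finset (Ed 3))} {p s ε δ : Ed 3}
    {α β : List (Ed 3)} {Z : List (Finset (Ed 3))} (hstr : Strd p s ε δ α β Z)
    (hmem : ∀ t : Finset (Ed 3), t ∈ Z ↔ t ∈ rg p s (α ++ β.reverse)) (hsub : rg p s (α ++ β.reverse) ⊆ T)
    (htet : TetD V T) : SG V T p s ε δ α β := by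
  have hZ : Z.toFinset = rg p s (α ++ β.reverse) := by
    ext t
    rw [List.mem_toFinset]
    exact hmem t
  refine ⟨Z, hstr, ?_, ?_⟩
  · rw [hZ, Finset.sdiff_union_of_subset hsub]
    exact htet
  · intro t ht hT
    exact (Finset.mem_sdiff.1 hT).2 ((hmem t).1 ht)

private theorem S1_main {V : Finset (Ed 3)} {T : Finset (Finset (Ed 3))} {σ : ℝ} {p s ε δ b : Ed 3}
    {α : List (Ed 3)} (h : SH V T σ p s α [b]) (hε : ε = p ∨ ε = s) (hδ : δ = p ∨ δ = s) :
    SG V T p s ε δ α [b] := by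
  have hrot : (b :: α).rotate 1 = α ++ [b].reverse := by
    rw [List.rotate_cons_succ, List.rotate_zero, List.reverse_singleton]
  have hrg : rg p s (α ++ [b].reverse) = rg p s (b :: α) := by
    rw [← hrot]
    exact rg_rot p s (b :: α) 1
  have hmem : ∀ t : Finset (Ed 3), t ∈ ((prs (b :: α)).map fun q => ({p, s, q.1, q.2} : Finset (Ed 3))) ↔
      t ∈ rg p s (α ++ [b].reverse) := by
    intro t
    rw [hrg, mem_rg, List.mem_map]
    constructor
    · rintro ⟨q, hq, hh⟩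
      exact ⟨q, hq, hh.symm⟩
    · rintro ⟨q, hq, hh⟩
      exact ⟨q, hq, hh.symm⟩
  have hsub : rg p s (α ++ [b].reverse) ⊆ T := by
    intro t ht
    obtain ⟨q, hq, rfl⟩ := mem_rg.1 ht
    exact h.qg.ring q hq
  exact S1_fin (S1_strd h hε hδ) hmem hsub h.qg.tet

theorem sg_base {V : Finset (Ed 3)} {T : Finset (Finset (Ed 3))} {σ : ℝ} {p s ε δ : Ed 3} {α β : List (Ed 3)}
    (h : SH V T σ p s α β) (h1 : α.length = 1 ∨ β.length = 1) (hε : ε = p ∨ ε = s) (hδ : δ = p ∨ δ = s) :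
    SG V T p s ε δ α β := by
  rcases h1 with h1 | h1
  · obtain ⟨a, rfl⟩ := List.length_eq_one_iff.1 h1
    exact sg_swap (S1_main (sh_swap h) hε hδ)
  · obtain ⟨b, rfl⟩ := List.length_eq_one_iff.1 h1
    exact S1_main h hε hδ

end Pool.Agent.LibSt23
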