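import Pool.Agent.LibSt23.Q2
import Pool.Agent.LibSt23.S0

/-!
[ST23 S2] (MEDIUM) Peeling one column. The polygon `(a :: a' :: r) ++ (b :: β').reverse` ends with `b`: rotated it is `b :: a :: a' :: (r ++ β'.reverse)` (`qg_rot`), and `r ++ β'.reverse ≠ []`. `qg_flip` with `x = b, y = a, z = a'`: `T₁ := fl T p s b a a'`, the new polygon `b :: a' :: (r ++ β'.reverse)` is a rotation of `(a' :: r) ++ (b :: β').reverse`. `Z := [{ε, b, a, a'}, {ε', b, a, a'}]` (the two new tetrahedra without `p s`, in this order): they share `{b, a, a'}`. `out`: `qg_flip`, and they do not contain both `p` and `s`, so they are not in `rg`.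
-/

set_option autoImplicit false

namespace Pool.Agent.LibSt23

open Finset Pool.Agent.LibPol19 Pool.Agent.LibTet88 Pool.Agent.LibTet23
open scoped Classical

private theorem S2_rot1 (a a' b : Ed 3) (r β' : List (Ed 3)) :
    ((a :: a' :: r) ++ (b :: β').reverse).rotate (a :: a' :: (r ++ β'.reverse)).length =
      b :: a :: a' :: (r ++ β'.reverse) := by
  have e : (a :: a' :: r) ++ (b :: β').reverse = (a :: a' :: (r ++ β'.reverse)) ++ [b] := by
    simp
  rw [e, List.rotate_append_length_eq]
  simp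

private theorem S2_rot2 (a' b : Ed 3) (r β' : List (Ed 3)) :
    ((a' :: r) ++ (b :: β').reverse).rotate (a' :: (r ++ β'.reverse)).length =
      b :: a' :: (r ++ β'.reverse) := by
  have e : (a' :: r) ++ (b :: β').reverse = (a' :: (r ++ β'.reverse)) ++ [b] := by
    simp
  rw [e, List.rotate_append_length_eq]
  simp

private theorem S2_rot3 (a' b : Ed 3) (r β' : List (Ed 3)) :
    (b :: a' :: (r ++ β'.reverse)).rotate 1 = (a' :: r) ++ (b :: β').reverse := by
  simp

private theorem S2_mem {p s : Ed 3} {l : List (Ed 3)} {t : Finset (Ed 3)} (h : t ∈ rg p s l) :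
    p ∈ t ∧ s ∈ t := by
  obtain ⟨q, -, rfl⟩ := mem_rg.1 h
  simp

theorem peel0 {V : Finset (Ed 3)} {T : Finset (Finset (Ed 3))} {σ : ℝ} {p s ε ε' a a' b : Ed 3}
    {r β' : List (Ed 3)} (h : SH V T σ p s (a :: a' :: r) (b :: β')) (hb : β' ≠ []) (he : Er σ p s b a a')
    (hε : (ε = p ∧ ε' = s) ∨ (ε = s ∧ ε' = p)) :
    ∃ T₁ Z, PL V T σ p s ε ε' (a :: a' :: r) (b :: β') (a' :: r) T₁ Z := by
  have hq : Qg V T σ p s (b :: a :: a' :: (r ++ β'.reverse)) := by
    have := qg_rot h.qg (a :: a' :: (r ++ β'.reverse)).length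
    rwa [S2_rot1] at this
  have hr : r ++ β'.reverse ≠ [] := by
    intro e
    exact hb (by simpa using (List.append_eq_nil_iff.1 e).2)
  obtain ⟨q1, q2, q3, q4, q5⟩ := qg_flip hq hr he
  have e1 : rg p s (b :: a :: a' :: (r ++ β'.reverse)) = rg p s ((a :: a' :: r) ++ (b :: β').reverse) := by
    rw [← S2_rot1, rg_rot]
  have e2 : rg p s (b :: a' :: (r ++ β'.reverse)) = rg p s ((a' :: r) ++ (b :: β').reverse) := by
    rw [← S2_rot2, rg_rot]
  have hn := hq.pg.nodup
  have hps := hq.ps
  have hpn := hq.pn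
  have hsn := hq.sn
  simp only [List.mem_cons, not_or] at hpn hsn
  obtain ⟨pb, pa, pa', -⟩ := hpn
  obtain ⟨sb, sa, sa', -⟩ := hsn
  simp only [List.nodup_cons, List.mem_cons, not_or] at hn
  obtain ⟨⟨ba, ba', -⟩, ⟨aa', -⟩, -⟩ := hn
  have eb : ε ≠ b ∧ ε ≠ a ∧ ε ≠ a' := by
    rcases hε with ⟨rfl, -⟩ | ⟨rfl, -⟩
    · exact ⟨pb, pa, pa'⟩
    · exact ⟨sb, sa, sa'⟩
  have eb' : ε' ≠ b ∧ ε' ≠ a ∧ ε' ≠ a' := by
    rcases hε with ⟨-, rfl⟩ | ⟨-, rfl⟩
    · exact ⟨sb, sa, sa'⟩
    · exact ⟨pb, pa, pa'⟩
  have ee : ε ≠ ε' := by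
    rcases hε with ⟨rfl, rfl⟩ | ⟨rfl, rfl⟩
    · exact hps
    · exact hps.symm
  have hin : ({ε, b, a, a'} : Finset (Ed 3)) ∩ {ε', b, a, a'} = {b, a, a'} := by
    ext x
    simp only [Finset.mem_inter, Finset.mem_insert, Finset.mem_singleton]
    constructor
    · rintro ⟨h1, h2⟩
      rcases h1 with rfl | h1
      · rcases h2 with h2 | h2
        · exact absurd h2 ee
        · exact h2
      · exact h1
    · intro h1
      exact ⟨Or.inr h1, Or.inr h1⟩
  have hc : ({b, a, a'} : Finset (Ed 3)).card = 3 := by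
    rw [Finset.card_insert_of_notMem (by simp [ba, ba']),
      Finset.card_insert_of_notMem (by simp [aa']), Finset.card_singleton]
  have hout : ∀ e : Ed 3, e = p ∨ e = s → ({e, b, a, a'} : Finset (Ed 3)) ∉ T ∧
      ({e, b, a, a'} : Finset (Ed 3)) ∉ rg p s ((a' :: r) ++ (b :: β').reverse) := by
    rintro e (rfl | rfl)
    · refine ⟨q3, fun hh => ?_⟩
      have := (S2_mem hh).2
      simp only [Finset.mem_insert, Finset.mem_singleton] at this
      rcases this with h1 | h1 | h1 | h1
      · exact hps h1.symm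
      · exact sb h1
      · exact sa h1
      · exact sa' h1
    · refine ⟨q4, fun hh => ?_⟩
      have := (S2_mem hh).1
      simp only [Finset.mem_insert, Finset.mem_singleton] at this
      rcases this with h1 | h1 | h1 | h1
      · exact hps h1
      · exact pb h1
      · exact pa h1
      · exact pa' h1
  have hεp : ε = p ∨ ε = s := by
    rcases hε with ⟨h1, -⟩ | ⟨h1, -⟩
    · exact Or.inl h1
    · exact Or.inr h1
  have hεp' : ε' = p ∨ ε' = s := by
    rcases hε with ⟨-, h1⟩ | ⟨-, h1⟩
    · exact Or.inr h1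
    · exact Or.inl h1
  refine ⟨fl T p s b a a', [{ε, b, a, a'}, {ε', b, a, a'}], ?_⟩
  refine
    { sh := ⟨?_, by simp, by simp, ?_, h.b4⟩
      nd := ?_
      ne := by simp
      ch := ?_
      hd := ?_
      lt := ?_
      sub := ?_
      out := ?_
      old := ?_
      eq := ?_
      last := by simp
      mem := ?_ }
  · have := qg_rot q1 1
    rwa [S2_rot3] at this
  · have := h.a4
    simp only [List.length_cons] at this ⊢
    omega
  · simp only [List.nodup_cons, List.mem_singleton, List.not_mem_nil, not_false_eq_true,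
      List.nodup_nil, and_true]
    intro e
    have : ε ∈ ({ε', b, a, a'} : Finset (Ed 3)) := e ▸ (by simp)
    simp only [Finset.mem_insert, Finset.mem_singleton] at this
    rcases this with h1 | h1 | h1 | h1
    · exact ee h1
    · exact eb.1 h1
    · exact eb.2.1 h1
    · exact eb.2.2 h1
  · simp only [List.isChain_cons_cons, List.isChain_singleton, and_true]
    rw [hin, hc]
  · intro t ht x hx y hy
    simp only [List.head?_cons, Option.mem_def, Option.some.injEq] at ht hx hy
    subst ht hx hy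
    intro z hz
    simp only [Finset.mem_insert, Finset.mem_singleton] at hz ⊢
    tauto
  · intro t ht x hx y hy
    simp only [List.getLast?_cons_cons, List.getLast?_singleton, List.head?_cons, Option.mem_def,
      Option.some.injEq] at ht hx hy
    subst ht hx hy
    intro z hz
    simp only [Finset.mem_insert, Finset.mem_singleton] at hz ⊢
    tauto
  · intro t ht x hx
    simp only [List.mem_cons, List.not_mem_nil, or_false] at ht
    have key : ∀ e : Ed 3, e = p ∨ e = s → x ∈ ({e, b, a, a'} : Finset (Ed 3)) →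
        x = p ∨ x = s ∨ x ∈ a :: a' :: r ∨ x ∈ b :: β' := by
      intro e he' hx'
      simp only [Finset.mem_insert, Finset.mem_singleton, List.mem_cons] at hx' ⊢
      rcases hx' with rfl | h1 | h1 | h1
      · rcases he' with h1 | h1
        · exact Or.inl h1
        · exact Or.inr (Or.inl h1)
      · exact Or.inr (Or.inr (Or.inr (Or.inl h1)))
      · exact Or.inr (Or.inr (Or.inl (Or.inl h1)))
      · exact Or.inr (Or.inr (Or.inl (Or.inr (Or.inl h1))))
    rcases ht with rfl | rfl
    · exact key ε hεp hx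
    · exact key ε' hεp' hx
  · intro t ht
    simp only [List.mem_cons, List.not_mem_nil, or_false] at ht
    rcases ht with rfl | rfl
    · exact hout ε hεp
    · exact hout ε' hεp'
  · intro t ht hT
    rw [← e1]
    rw [← e2] at ht
    exact q5 t ht hT
  · rw [q2, e1, e2]
    congr 1
    have h2 : ([{ε, b, a, a'}, {ε', b, a, a'}] : List (Finset (Ed 3))).toFinset =
        {{ε, b, a, a'}, {ε', b, a, a'}} := by
      simp
    rw [h2]
    rcases hε with ⟨rfl, rfl⟩ | ⟨rfl, rfl⟩
    · rfl
    · exact Finset.pair_comm _ _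
  · intro x hx
    exact List.mem_cons_of_mem _ hx

end Pool.Agent.LibSt23
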